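import Pool.Agent.H66.OD.Defs

/-! Oda in dimension three, part G1: this file joins the modules ACL ELT PGM PAR2 T2N T2C T2 to save build time. -/

section S_ACL

/-!
# Row ACL (about 80 lines, pure combinatorics)

Abstract certificate lemma. `S` finite, `N φ p` integers, every point `p` has some `φ ∈ S` with
`T0 φ ≤ N φ p`. Then there are a subfamily `I`, raised thresholds `T` and touching points `w φ`.

PROOF. Call `(I,T)` covering if every `p` has `φ ∈ I` with `T φ ≤ N φ p`. Choose `I ⊆ S` of minimal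
cardinality such that `(I,T0)` is covering (`S` is one). `I` is nonempty since `X` is nonempty.
For `φ ∈ I` the family `I \ {φ}` is not covering for `T0` (minimality), and hence not covering for
any `T ≥ T0`.
Now process the elements of `I` one after the other (induction over a list / a finset `J ⊆ I` of
processed elements, or: induction on `J` with the invariant below).
Invariant for the processed set `J ⊆ I`: there is `T ≥ T0`, `(I,T)` covering, and for each `φ ∈ J`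
a point `w φ` with `N φ (w φ) = T φ` and `N ψ (w φ) < T ψ` for all `ψ ∈ I`, `ψ ≠ φ`.
Step: `φ ∈ I \ J`. Let `U` be the set of points `p` with `N ψ p < T ψ` for all `ψ ∈ I`, `ψ ≠ φ`.
`U` is nonempty (`I \ {φ}` is not covering for `T`). By covering, `T φ ≤ N φ p` for `p ∈ U`, so the
integers `N φ p`, `p ∈ U`, are bounded below and attain their minimum at some `p₀ ∈ U`
(`Int.exists_least_of_bdd` or well-foundedness of ℕ via `toNat`). Put `T' φ = N φ p₀ ≥ T φ`,
`T' = T` elsewhere (`Function.update`), `w φ = p₀`. `(I,T')` is covering: a point in `U` satisfies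
`T' φ ≤ N φ p`, a point not in `U` is covered by some `ψ ≠ φ`. For the old `ψ ∈ J`: `N ψ (w ψ) = T ψ
= T' ψ`, and `N χ (w ψ) < T χ ≤ T' χ` for `χ ≠ ψ`. New one: `N φ p₀ = T' φ` and `N ψ p₀ < T ψ = T' ψ`
for `ψ ≠ φ` as `p₀ ∈ U`. Taking `J = I` gives the statement.
-/

namespace H66OD

theorem acl {Φ X : Type} [DecidableEq Φ] [Nonempty X] (S : Finset Φ) (N : Φ → X → ℤ) (T0 : Φ → ℤ)
    (hcov : ∀ p, ∃ φ ∈ S, T0 φ ≤ N φ p) :
    ∃ (I : Finset Φ) (T : Φ → ℤ) (w : Φ → X), I ⊆ S ∧ I.Nonempty ∧ (∀ φ ∈ I, T0 φ ≤ T φ) ∧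
      (∀ φ ∈ I, N φ (w φ) = T φ) ∧ (∀ φ ∈ I, ∀ ψ ∈ I, ψ ≠ φ → N ψ (w φ) < T ψ) ∧
      (∀ p, ∃ φ ∈ I, T φ ≤ N φ p) := by
  classical
  obtain ⟨I, hI, hmin⟩ := (S.powerset.filter (fun I => ∀ p, ∃ φ ∈ I, T0 φ ≤ N φ p)).exists_min_image
    Finset.card ⟨S, Finset.mem_filter.2 ⟨Finset.mem_powerset_self S, hcov⟩⟩
  rw [Finset.mem_filter, Finset.mem_powerset] at hI
  obtain ⟨hIS, hIcov⟩ := hI
  have hne : I.Nonempty := by
    obtain ⟨φ, hφ, -⟩ := hIcov (Classical.arbitrary X)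
    exact ⟨φ, hφ⟩
  have hcrit : ∀ φ ∈ I, ∃ p, ∀ ψ ∈ I, ψ ≠ φ → N ψ p < T0 ψ := by
    intro φ hφ
    by_contra hcon
    push Not at hcon
    have h1 : I.erase φ ∈ S.powerset.filter (fun I => ∀ p, ∃ φ ∈ I, T0 φ ≤ N φ p) := by
      rw [Finset.mem_filter, Finset.mem_powerset]
      refine ⟨(Finset.erase_subset _ _).trans hIS, fun p => ?_⟩
      obtain ⟨ψ, hψ, hne, hle⟩ := hcon p
      exact ⟨ψ, Finset.mem_erase.2 ⟨hne, hψ⟩, hle⟩
    have h2 := hmin _ h1
    have h3 := Finset.card_erase_lt_of_mem hφ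
    omega
  have key : ∀ J : Finset Φ, J ⊆ I → ∃ (T : Φ → ℤ) (w : Φ → X), (∀ φ, T0 φ ≤ T φ) ∧
      (∀ p, ∃ φ ∈ I, T φ ≤ N φ p) ∧
      ∀ φ ∈ J, N φ (w φ) = T φ ∧ ∀ ψ ∈ I, ψ ≠ φ → N ψ (w φ) < T ψ := by
    intro J
    induction J using Finset.induction_on with
    | empty =>
      intro _
      exact ⟨T0, fun _ => Classical.arbitrary X, fun _ => le_rfl, hIcov, by simp⟩
    | insert φ J hφJ ih =>
      intro hJ
      obtain ⟨T, w, hT, hc, hw⟩ := ih (fun ψ hψ => hJ (Finset.mem_insert_of_mem hψ))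
      have hφI : φ ∈ I := hJ (Finset.mem_insert_self φ J)
      obtain ⟨p1, hp1⟩ := hcrit φ hφI
      have hU : ∀ p, (∀ ψ ∈ I, ψ ≠ φ → N ψ p < T ψ) → T φ ≤ N φ p := by
        intro p hp
        obtain ⟨ψ, hψ, hle⟩ := hc p
        by_cases h : ψ = φ
        · rw [h] at hle
          exact hle
        · exact absurd hle (not_le.2 (hp ψ hψ h))
      obtain ⟨t, ⟨p0, hp0, hp0t⟩, hlb⟩ := Int.exists_least_of_bdd
        (P := fun t => ∃ p, (∀ ψ ∈ I, ψ ≠ φ → N ψ p < T ψ) ∧ N φ p = t)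
        ⟨T φ, fun z ⟨p, hp, hpz⟩ => by rw [← hpz]; exact hU p hp⟩
        ⟨N φ p1, p1, fun ψ hψ hne => lt_of_lt_of_le (hp1 ψ hψ hne) (hT ψ), rfl⟩
      have hTt : T φ ≤ t := by
        rw [← hp0t]
        exact hU p0 hp0
      have hT' : ∀ ψ, T ψ ≤ Function.update T φ t ψ := by
        intro ψ
        by_cases h : ψ = φ
        · subst h
          rw [Function.update_self]
          exact hTt
        · rw [Function.update_of_ne h]
      refine ⟨Function.update T φ t, Function.update w φ p0, fun ψ => (hT ψ).trans (hT' ψ), ?_, ?_⟩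
      · intro p
        by_cases hp : ∀ ψ ∈ I, ψ ≠ φ → N ψ p < T ψ
        · refine ⟨φ, hφI, ?_⟩
          rw [Function.update_self]
          exact hlb _ ⟨p, hp, rfl⟩
        · push Not at hp
          obtain ⟨ψ, hψ, hne, hle⟩ := hp
          refine ⟨ψ, hψ, ?_⟩
          rw [Function.update_of_ne hne]
          exact hle
      · intro ψ hψ
        rcases Finset.mem_insert.1 hψ with rfl | hψJ
        · rw [Function.update_self, Function.update_self]
          refine ⟨hp0t, fun χ hχ hne => ?_⟩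
          rw [Function.update_of_ne hne]
          exact hp0 χ hχ hne
        · have hne : ψ ≠ φ := fun h => hφJ (h ▸ hψJ)
          rw [Function.update_of_ne hne, Function.update_of_ne hne]
          refine ⟨(hw ψ hψJ).1, fun χ hχ hne' => lt_of_lt_of_le ((hw ψ hψJ).2 χ hχ hne') (hT' χ)⟩
  obtain ⟨T, w, hT, hc, hw⟩ := key I subset_rfl
  exact ⟨I, T, w, hIS, hne, fun φ _ => hT φ, fun φ hφ => (hw φ hφ).1,
    fun φ hφ ψ hψ hne => (hw φ hφ).2 ψ hψ hne, hc⟩

end H66OD

end S_ACL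

section S_ELT

/-!
# Row ELT (about 60 lines)

A lattice triangle with vertices `0, (a,b), (c,d)` and determinant `D = a d - b c ≥ 2` contains a
further lattice point `(X,Y) = (S/D)(a,b) + (T/D)(c,d)`, `S,T ≥ 0`, `S + T ≤ D`, `(S,T) ≠ (0,0)`,
`S < D`, `T < D`.

PROOF. Consider the lattice vectors `(1,0) = (d/D)(a,b) + (-b/D)(c,d)` and
`(0,1) = (-c/D)(a,b) + (a/D)(c,d)`: indeed `d a - b c = D`, `d b - b d = 0`, `-c a + a c = 0`,
`-c b + a d = D`. One of the pairs `(d,-b)`, `(-c,a)` is not `≡ (0,0)` mod `D`: otherwise `D` divides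
`a,b,c,d`, so `D²` divides `a d - b c = D`, impossible for `D ≥ 2`. Let `(S0,T0)` be such a pair,
with lattice vector `(X0,Y0)`, `D X0 = S0 a + T0 c`, `D Y0 = S0 b + T0 d`.
Put `S1 = S0 % D`, `T1 = T0 % D` (in `[0,D)`, not both `0`), `X1 = X0 - (S0/D) a - (T0/D) c`, same
for `Y1`; then `D X1 = S1 a + T1 c` etc. If `S1 + T1 ≤ D` take `(S1,T1,X1,Y1)`. Otherwise
`S1,T1 > 0` (each is `< D`), take `S = D - S1`, `T = D - T1`, both in `(0,D)`, `S + T < D`,
`X = a + c - X1`, `Y = b + d - Y1`.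
-/

namespace H66OD

theorem ELT_red {a b c d D S0 T0 X0 Y0 : ℤ} (hD : 2 ≤ D) (hne : ¬ (D ∣ S0 ∧ D ∣ T0))
    (hX : D * X0 = S0 * a + T0 * c) (hY : D * Y0 = S0 * b + T0 * d) :
    ∃ S T X Y : ℤ, 0 ≤ S ∧ 0 ≤ T ∧ S + T ≤ D ∧ ¬ (S = 0 ∧ T = 0) ∧
      S < D ∧ T < D ∧ D * X = S * a + T * c ∧ D * Y = S * b + T * d := by
  have hD0 : 0 < D := by omega
  have hS := Int.emod_add_mul_ediv S0 D
  have hT := Int.emod_add_mul_ediv T0 D
  have hS1 := Int.emod_nonneg S0 hD0.ne'
  have hT1 := Int.emod_nonneg T0 hD0.ne'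
  have hS2 := Int.emod_lt_of_pos S0 hD0
  have hT2 := Int.emod_lt_of_pos T0 hD0
  have hn : ¬ (S0 % D = 0 ∧ T0 % D = 0) := fun h =>
    hne ⟨Int.dvd_of_emod_eq_zero h.1, Int.dvd_of_emod_eq_zero h.2⟩
  have hX1 : D * (X0 - (S0 / D) * a - (T0 / D) * c) = (S0 % D) * a + (T0 % D) * c := by
    linear_combination hX - a * hS - c * hT
  have hY1 : D * (Y0 - (S0 / D) * b - (T0 / D) * d) = (S0 % D) * b + (T0 % D) * d := by
    linear_combination hY - b * hS - d * hT
  by_cases hle : S0 % D + T0 % D ≤ D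
  · exact ⟨S0 % D, T0 % D, _, _, hS1, hT1, hle, hn, hS2, hT2, hX1, hY1⟩
  · refine ⟨D - S0 % D, D - T0 % D, a + c - (X0 - (S0 / D) * a - (T0 / D) * c),
      b + d - (Y0 - (S0 / D) * b - (T0 / D) * d), by omega, by omega, by omega, by omega,
      by omega, by omega, ?_, ?_⟩
    · linear_combination -hX1
    · linear_combination -hY1

theorem elt (a b c d : ℤ) (h : 2 ≤ a * d - b * c) :
    ∃ S T X Y : ℤ, 0 ≤ S ∧ 0 ≤ T ∧ S + T ≤ a * d - b * c ∧ ¬ (S = 0 ∧ T = 0) ∧
      S < a * d - b * c ∧ T < a * d - b * c ∧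
      (a * d - b * c) * X = S * a + T * c ∧ (a * d - b * c) * Y = S * b + T * d := by
  by_cases h1 : (a * d - b * c) ∣ d ∧ (a * d - b * c) ∣ -b
  · by_cases h2 : (a * d - b * c) ∣ -c ∧ (a * d - b * c) ∣ a
    · exfalso
      obtain ⟨⟨p, hp⟩, ⟨q, hq⟩⟩ := h1
      obtain ⟨⟨r, hr⟩, ⟨s, hs⟩⟩ := h2
      set D := a * d - b * c with hD
      have h3 : D = D * D * (s * p - q * r) := by
        have e1 : a * d - b * c = D * D * (s * p - q * r) := by
          rw [hs] 
          have e2 : b = -(D * q) := by linarith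
          have e3 : c = -(D * r) := by linarith
          rw [hp, e2, e3]
          ring
        exact hD.trans e1
      have hD0 : D ≠ 0 := by omega
      have h4 : 1 = D * (s * p - q * r) := by
        have : D * 1 = D * (D * (s * p - q * r)) := by linarith
        exact mul_left_cancel₀ hD0 this
      have h5 : D ∣ 1 := ⟨_, h4⟩
      have h6 := Int.le_of_dvd one_pos h5
      omega
    · exact ELT_red (S0 := -c) (T0 := a) (X0 := 0) (Y0 := 1) h h2 (by ring) (by ring)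
  · exact ELT_red (S0 := d) (T0 := -b) (X0 := 1) (Y0 := 0) h h1 (by ring) (by ring)

end H66OD

end S_ELT

section S_PGM

/-!
# Row PGM (about 150 lines)

Four integer affine functionals `ψ i (X,Y) = α i X + β i Y + γ i` on `ℤ²` and four integer points
`(x i, y i)` with `ψ i` zero at the point `i` and `≤ -1` at the other three; every integer point has
some `ψ i ≥ 0`. Then every triangle formed by three of the points is unimodular and the four points
form a (unit) parallelogram.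

PROOF.
(1) For distinct `i,j,k` the determinant `D = det(P j - P i, P k - P i)` is `±1`.
 Note `P i ≠ P j` for `i ≠ j` since `ψ i (P i) = 0`, `ψ i (P j) ≤ -1`.
 (a) `D ≠ 0`: if `D = 0` the three distinct points are collinear, so one of them, say `P i`, lies in
 the open segment of the two others: there are integers `m,n ≥ 1` with `(m+n) P i = m P j + n P k`
 (collinear distinct points: if `D = 0`, some integer relation `r (P j - P i) = s (P k - P i)` with
 `r,s` both nonzero; e.g. if `x j ≠ x i` take `r = x k - x i`, `s = x j - x i`, and if `x j = x i`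
 use the `y` coordinates; the signs of `r,s` decide which point is in the middle). Then
 `(m+n) ψ i(P i) = m ψ i(P j) + n ψ i (P k) ≤ -(m+n) < 0`, contradiction with `ψ i (P i) = 0`.
 (Alternative without finding the middle point: work with the reals/rationals, or argue with the
 three functionals.)
 (b) if `|D| ≥ 2`: exchanging `j,k` we may assume `D ≥ 2`; `elt` applied to
 `(a,b) = P j - P i`, `(c,d) = P k - P i` gives `S,T,X,Y`. The integer point `Q = P i + (X,Y)` has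
 `D Q = (D-S-T) P i + S P j + T P k`. So `D ψ l(Q) = (D-S-T) ψ l(P i) + S ψ l(P j) + T ψ l(P k)`
 for every `l`. For `l = i`: `= S ψ i(P j) + T ψ i (P k) ≤ -(S+T) < 0`. For `l = j`:
 `≤ -(D-S-T) - T = -(D - S) < 0` as `S < D`. For `l = k` the same with `T < D`. For the fourth
 index: `≤ -D < 0`. So no `ψ l (Q) ≥ 0`: contradiction.
(2) Let `d = P 1 - P 0`, `d' = P 2 - P 0`, `det(d,d') = ε = ±1`. Then `P 3 = P 0 + m d + n d'` with
 integers `m = ε det(P 3 - P 0, d')`, `n = ε det(d, P 3 - P 0)`; (Cramer). The triangles `(0,1,3)`,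
 `(0,2,3)` give `n = ±1`, `m = ±1`, and the triangle `(1,2,3)`:
 `det(P 2 - P 1, P 3 - P 1) = det(d' - d, (m-1) d + n d') = ε (1 - m - n)`, so `1 - m - n = ±1`,
 excluding `(m,n) = (-1,-1)`.
 `(1,1)`: `P 0 + P 3 = P 1 + P 2`. `(1,-1)`: `P 3 + P 2 = P 0 + P 1`.
 `(-1,1)`: `P 3 + P 1 = P 0 + P 2`.
-/

namespace H66OD

private theorem pgm_lt (p q u v : ℤ) (hp : 1 ≤ p) (hq : q < p) (hu : u ≤ -1) (h : u * q = v * p) :
    u < v := by
  by_contra hle
  push Not at hle
  have h1 : v * p ≤ u * p := mul_le_mul_of_nonneg_right hle (by omega)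
  have h2 : u * p < u * q := mul_lt_mul_of_neg_left hq (by omega)
  omega

private theorem pgm_zero (α β γ x y : Fin 4 → ℤ) (h0 : ∀ i, α i * x i + β i * y i + γ i = 0)
    (h1 : ∀ i j, j ≠ i → α j * x i + β j * y i + γ j ≤ -1)
    (i j k : Fin 4) (hij : i ≠ j) (hik : i ≠ k) (hjk : j ≠ k) :
    (x j - x i) * (y k - y i) - (y j - y i) * (x k - x i) ≠ 0 := by
  intro hD
  obtain ⟨a, ha⟩ : ∃ a, a = x j - x i := ⟨_, rfl⟩
  obtain ⟨b, hb⟩ : ∃ b, b = y j - y i := ⟨_, rfl⟩
  obtain ⟨c, hc⟩ : ∃ c, c = x k - x i := ⟨_, rfl⟩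
  obtain ⟨d, hd⟩ : ∃ d, d = y k - y i := ⟨_, rfl⟩
  rw [← ha, ← hb, ← hc, ← hd] at hD
  have e1 : x j = x i + a := by rw [ha]; ring
  have e2 : y j = y i + b := by rw [hb]; ring
  have e3 : x k = x i + c := by rw [hc]; ring
  have e4 : y k = y i + d := by rw [hd]; ring
  have hi := h0 i
  have hj := h0 j
  have hk := h0 k
  have f1 := h1 j i hij
  have f2 := h1 k i hik
  have f3 := h1 i j hij.symm
  have f4 := h1 k j hjk
  have f5 := h1 i k hik.symm
  have f6 := h1 j k hjk.symm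
  rw [e1, e2] at hj f1 f6
  rw [e3, e4] at hk f2 f4
  have hu : α i * a + β i * b ≤ -1 := by linarith
  have hv : α i * c + β i * d ≤ -1 := by linarith
  have hp : 1 ≤ α j * a + β j * b := by linarith
  have hq : α j * c + β j * d < α j * a + β j * b := by linarith
  have hp' : 1 ≤ α k * c + β k * d := by linarith
  have hq' : α k * a + β k * b < α k * c + β k * d := by linarith
  have g : a * d = b * c := by linarith
  have k1 : (α i * a + β i * b) * (α j * c + β j * d) =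
      (α i * c + β i * d) * (α j * a + β j * b) := by
    linear_combination (α i * β j - β i * α j) * g
  have k2 : (α i * c + β i * d) * (α k * a + β k * b) =
      (α i * a + β i * b) * (α k * c + β k * d) := by
    linear_combination (-α i * β k + β i * α k) * g
  have h5 := pgm_lt _ _ _ _ hp hq hu k1
  have h6 := pgm_lt _ _ _ _ hp' hq' hv k2
  omega

private theorem pgm_two (α β γ x y : Fin 4 → ℤ) (h0 : ∀ i, α i * x i + β i * y i + γ i = 0)
    (h1 : ∀ i j, j ≠ i → α j * x i + β j * y i + γ j ≤ -1)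
    (hcov : ∀ X Y : ℤ, ∃ i, 0 ≤ α i * X + β i * Y + γ i)
    (i j k : Fin 4) (hij : i ≠ j) (hik : i ≠ k) (hjk : j ≠ k) :
    ¬ 2 ≤ (x j - x i) * (y k - y i) - (y j - y i) * (x k - x i) := by
  intro hD
  obtain ⟨S, T, X, Y, hS, hT, hST, hne, hSD, hTD, hX, hY⟩ := elt _ _ _ _ hD
  obtain ⟨D, hDd⟩ : ∃ D, D = (x j - x i) * (y k - y i) - (y j - y i) * (x k - x i) := ⟨_, rfl⟩
  rw [← hDd] at hD hST hSD hTD hX hY
  obtain ⟨l, hl⟩ := hcov (x i + X) (y i + Y)
  have key : D * (α l * (x i + X) + β l * (y i + Y) + γ l) =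
      (D - S - T) * (α l * x i + β l * y i + γ l) + S * (α l * x j + β l * y j + γ l) +
        T * (α l * x k + β l * y k + γ l) := by
    linear_combination α l * hX + β l * hY
  have hpos : 0 ≤ D * (α l * (x i + X) + β l * (y i + Y) + γ l) := mul_nonneg (by omega) hl
  rw [key] at hpos
  have hi : α l * x i + β l * y i + γ l ≤ 0 := by
    by_cases h : l = i
    · rw [h, h0 i]
    · have := h1 i l h; omega
  have hj : α l * x j + β l * y j + γ l ≤ 0 := by
    by_cases h : l = j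
    · rw [h, h0 j]
    · have := h1 j l h; omega
  have hk : α l * x k + β l * y k + γ l ≤ 0 := by
    by_cases h : l = k
    · rw [h, h0 k]
    · have := h1 k l h; omega
  by_cases hli : l = i
  · have hj' := h1 j l (by rw [hli]; exact hij)
    have hk' := h1 k l (by rw [hli]; exact hik)
    have e1 : S * (α l * x j + β l * y j + γ l) ≤ S * (-1) := mul_le_mul_of_nonneg_left hj' hS
    have e2 : T * (α l * x k + β l * y k + γ l) ≤ T * (-1) := mul_le_mul_of_nonneg_left hk' hT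
    have e3 : (D - S - T) * (α l * x i + β l * y i + γ l) ≤ 0 :=
      mul_nonpos_of_nonneg_of_nonpos (by omega) hi
    omega
  · have hi' := h1 i l hli
    have e3 : (D - S - T) * (α l * x i + β l * y i + γ l) ≤ (D - S - T) * (-1) :=
      mul_le_mul_of_nonneg_left hi' (by omega)
    by_cases hlj : l = j
    · have hk' := h1 k l (by rw [hlj]; exact hjk)
      have e2 : T * (α l * x k + β l * y k + γ l) ≤ T * (-1) := mul_le_mul_of_nonneg_left hk' hT
      have e1 : S * (α l * x j + β l * y j + γ l) ≤ 0 := mul_nonpos_of_nonneg_of_nonpos hS hj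
      omega
    · have hj' := h1 j l hlj
      have e1 : S * (α l * x j + β l * y j + γ l) ≤ S * (-1) := mul_le_mul_of_nonneg_left hj' hS
      have e2 : T * (α l * x k + β l * y k + γ l) ≤ 0 := mul_nonpos_of_nonneg_of_nonpos hT hk
      omega

theorem pgm (α β γ x y : Fin 4 → ℤ) (h0 : ∀ i, α i * x i + β i * y i + γ i = 0)
    (h1 : ∀ i j, j ≠ i → α j * x i + β j * y i + γ j ≤ -1)
    (hcov : ∀ X Y : ℤ, ∃ i, 0 ≤ α i * X + β i * Y + γ i) :
    (∀ i j k : Fin 4, i ≠ j → i ≠ k → j ≠ k →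
      (x j - x i) * (y k - y i) - (y j - y i) * (x k - x i) = 1 ∨
      (x j - x i) * (y k - y i) - (y j - y i) * (x k - x i) = -1) ∧
    ((x 0 + x 1 = x 2 + x 3 ∧ y 0 + y 1 = y 2 + y 3) ∨
     (x 0 + x 2 = x 1 + x 3 ∧ y 0 + y 2 = y 1 + y 3) ∨
     (x 0 + x 3 = x 1 + x 2 ∧ y 0 + y 3 = y 1 + y 2)) := by
  have part1 : ∀ i j k : Fin 4, i ≠ j → i ≠ k → j ≠ k →
      (x j - x i) * (y k - y i) - (y j - y i) * (x k - x i) = 1 ∨
      (x j - x i) * (y k - y i) - (y j - y i) * (x k - x i) = -1 := by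
    intro i j k hij hik hjk
    have e1 := pgm_zero α β γ x y h0 h1 i j k hij hik hjk
    have e2 := pgm_two α β γ x y h0 h1 hcov i j k hij hik hjk
    have e3 := pgm_two α β γ x y h0 h1 hcov i k j hik hij hjk.symm
    have e4 : (x k - x i) * (y j - y i) - (y k - y i) * (x j - x i) =
      -((x j - x i) * (y k - y i) - (y j - y i) * (x k - x i)) := by ring
    rw [e4] at e3
    omega
  refine ⟨part1, ?_⟩
  have a1 := part1 0 1 2 (by decide) (by decide) (by decide)
  have a2 := part1 0 1 3 (by decide) (by decide) (by decide)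
  have a3 := part1 0 2 3 (by decide) (by decide) (by decide)
  have a4 := part1 1 2 3 (by decide) (by decide) (by decide)
  have i1 : (x 2 - x 1) * (y 3 - y 1) - (y 2 - y 1) * (x 3 - x 1) =
      ((x 2 - x 0) * (y 3 - y 0) - (y 2 - y 0) * (x 3 - x 0)) -
      ((x 1 - x 0) * (y 3 - y 0) - (y 1 - y 0) * (x 3 - x 0)) +
      ((x 1 - x 0) * (y 2 - y 0) - (y 1 - y 0) * (x 2 - x 0)) := by ring
  have i2 : ((x 1 - x 0) * (y 3 - y 0) - (y 1 - y 0) * (x 3 - x 0)) * (x 2 - x 0) -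
      ((x 2 - x 0) * (y 3 - y 0) - (y 2 - y 0) * (x 3 - x 0)) * (x 1 - x 0) =
      ((x 1 - x 0) * (y 2 - y 0) - (y 1 - y 0) * (x 2 - x 0)) * (x 3 - x 0) := by ring
  have i3 : ((x 1 - x 0) * (y 3 - y 0) - (y 1 - y 0) * (x 3 - x 0)) * (y 2 - y 0) -
      ((x 2 - x 0) * (y 3 - y 0) - (y 2 - y 0) * (x 3 - x 0)) * (y 1 - y 0) =
      ((x 1 - x 0) * (y 2 - y 0) - (y 1 - y 0) * (x 2 - x 0)) * (y 3 - y 0) := by ring
  rw [i1] at a4
  rcases a1 with a1 | a1 <;> rcases a2 with a2 | a2 <;> rcases a3 with a3 | a3 <;>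
    rw [a1, a2, a3] at a4 i2 i3 <;> omega

end H66OD

end S_PGM

section S_PAR2

/-!
# Row PAR2 (about 50 lines)

A family of integer affine functionals on `ℤ²` with touching points has at most four members.

PROOF. The map `I → (ZMod 2)²`, `i ↦ (x i, y i) mod 2` is injective on `I`: if `i ≠ j` have the same
class then `X = (x i + x j)/2`, `Y = (y i + y j)/2` are integers and for every `l ∈ I`:
`2 ψ l (X,Y) = ψ l (P i) + ψ l (P j)` where both summands are `≤ 0` and at least one is `≤ -1`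
(as `l ≠ i` or `l ≠ j`), so `ψ l (X,Y) < 0`, contradicting `hcov`. `(ZMod 2)²` has four elements
(`Finset.card_le_card_of_injOn` into `Finset.univ : Finset (ZMod 2 × ZMod 2)`).
-/

namespace H66OD

theorem PAR2_mod (u v : ℤ) (h : (u : ZMod 2) = (v : ZMod 2)) : ∃ y : ℤ, u + v = 2 * y := by
  have h2 := (ZMod.intCast_eq_intCast_iff_dvd_sub u v 2).mp h
  obtain ⟨y, hy⟩ := h2
  refine ⟨y + u, ?_⟩
  push_cast at hy
  linarith

theorem par2 {Φ : Type} [DecidableEq Φ] (I : Finset Φ) (α β γ x y : Φ → ℤ)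
    (h0 : ∀ i ∈ I, α i * x i + β i * y i + γ i = 0)
    (h1 : ∀ i ∈ I, ∀ j ∈ I, j ≠ i → α j * x i + β j * y i + γ j ≤ -1)
    (hcov : ∀ X Y : ℤ, ∃ i ∈ I, 0 ≤ α i * X + β i * Y + γ i) : I.card ≤ 4 := by
  have hinj : Set.InjOn (fun i => ((x i : ZMod 2), (y i : ZMod 2))) (I : Set Φ) := by
    intro i hi j hj hij
    by_contra hne
    simp only [Prod.mk.injEq] at hij
    obtain ⟨X, hX⟩ := PAR2_mod _ _ hij.1
    obtain ⟨Y, hY⟩ := PAR2_mod _ _ hij.2
    obtain ⟨l, hl, hl0⟩ := hcov X Y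
    have hi' : i ∈ I := hi
    have hj' : j ∈ I := hj
    have hsum : 2 * (α l * X + β l * Y + γ l)
        = (α l * x i + β l * y i + γ l) + (α l * x j + β l * y j + γ l) := by
      linear_combination (-α l) * hX + (-β l) * hY
    rcases eq_or_ne l i with hli | hli
    · have a1 := h0 i hi'
      have a2 := h1 j hj' l hl (by rw [hli]; exact hne)
      rw [hli] at a2 hsum hl0
      omega
    · have a1 := h1 i hi' l hl hli
      rcases eq_or_ne l j with hlj | hlj
      · have a2 := h0 j hj'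
        rw [hlj] at a1 hsum hl0
        omega
      · have a2 := h1 j hj' l hl hlj
        omega
  have hcard := Finset.card_le_card_of_injOn (s := I)
    (t := (Finset.univ : Finset (ZMod 2 × ZMod 2)))
    (fun i => ((x i : ZMod 2), (y i : ZMod 2))) (fun _ _ => Finset.mem_coe.mpr (Finset.mem_univ _)) hinj
  simpa [ZMod.card] using hcard

end H66OD

end S_PAR2

section S_T2N

/-!
# Row T2N (about 80 lines, integer inequalities)

Normalised inequalities on the unit square `(0,0),(1,0),(1,1),(0,1)`: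
`ψ0 = -p X - q Y`, `ψ1 = r (X-1) - s Y`, `ψ2 = p' (X-1) + q' (Y-1)`, `ψ3 = -r' X + s' (Y-1)`, all
coefficients `≥ 1`.

`adj`: `ψ0 < 0` and `ψ1 < 0` imply `Y ≥ 1`; `ψ2 < 0` and `ψ3 < 0` imply `Y ≤ 0`.
PROOF: if `Y ≤ 0` then `p X > -q Y ≥ 0` so `X ≥ 1`, and `r (X-1) < s Y ≤ 0` so `X < 1`, contradiction.
If `Y ≥ 1` then `p'(X-1) < -q'(Y-1) ≤ 0` so `X ≤ 0`, and `r' X > s'(Y-1) ≥ 0` so `X ≥ 1`,
contradiction.

`half`: if `(X,Y)`, `(X',Y')` are distinct integer points with `r (X'-X) = s (Y'-Y)` and at both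
points `ψ0 < 0`, `ψ2 < 0`, `ψ3 ≥ 0`, then `p q' < p' q`.
PROOF: exchanging the points we may assume `X' > X` (if `X' = X` then `Y' = Y`), then `Y' > Y`.
Each of the two points has first coordinate `≤ 0` and second `≥ 1`: if `X ≥ 1` then `ψ3 ≥ 0` gives
`s'(Y-1) ≥ r' X > 0`, `Y ≥ 2`, so `ψ2 ≥ q' > 0`, contradiction; so `X ≤ 0`; `ψ0 < 0` gives
`q Y > -p X ≥ 0` so `Y ≥ 1`. As `X' ≤ 0`, `X ≤ -1`. `ψ0(X,Y) < 0`: `q Y > p (-X)`.
`ψ2(X',Y') < 0`: `q'(Y'-1) < p'(1-X')`, with `Y'-1 ≥ Y`, `1-X' ≤ -X`: `q' Y < p' (-X)`.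
Multiply: `p q' (-X) < q q' Y < ...`: `p q'(-X) < q' q Y` and `q q' Y < q p' (-X)`, so
`p q' (-X) < p' q (-X)`, and `-X ≥ 1` gives `p q' < p' q`.

`alt`: both edges give a contradiction: the second half is the first one with the two coordinates
exchanged: apply `half` with `(X,Y,X',Y') := (V,U,V',U')`, `(p,q,p',q') := (q,p,q',p')`,
`(r,s) := (s',r')`, `(r',s') := (s, r)`: the condition `r'(U'-U) = s'(V'-V)` reads
`s' (V'-V) = r' (U'-U)`, `ψ1(U,V) = r(U-1) - sV ≥ 0` is the new `ψ3`. It gives `q p' < q' p`.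
-/

namespace H66OD

theorem t2n_adj1 (p q r s X Y : ℤ) (hp : 1 ≤ p) (hq : 1 ≤ q) (hr : 1 ≤ r) (hs : 1 ≤ s)
    (h0 : -p * X - q * Y < 0) (h1 : r * (X - 1) - s * Y < 0) : 1 ≤ Y := by
  by_contra hY
  have hY' : Y ≤ 0 := by omega
  have h2 : 0 ≤ -(q * Y) := by nlinarith
  have h3 : 1 ≤ X := by
    by_contra hX
    have hX' : X ≤ 0 := by omega
    have h4 : 0 ≤ -(p * X) := by nlinarith
    linarith
  have h5 : 0 ≤ r * (X - 1) := mul_nonneg (by linarith) (by linarith)
  have h6 : 0 ≤ -(s * Y) := by nlinarith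
  linarith

theorem t2n_adj2 (p q r s X Y : ℤ) (hp : 1 ≤ p) (hq : 1 ≤ q) (hr : 1 ≤ r) (hs : 1 ≤ s)
    (h2 : p * (X - 1) + q * (Y - 1) < 0) (h3 : -r * X + s * (Y - 1) < 0) : Y ≤ 0 := by
  by_contra hY
  have hY' : 1 ≤ Y := by omega
  have h4 : 0 ≤ q * (Y - 1) := mul_nonneg (by linarith) (by linarith)
  have h5 : 0 ≤ s * (Y - 1) := mul_nonneg (by linarith) (by linarith)
  have h6 : X ≤ 0 := by
    by_contra hX
    have hX' : 1 ≤ X := by omega
    have h7 : 0 ≤ p * (X - 1) := mul_nonneg (by linarith) (by linarith)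
    linarith
  have h8 : 0 ≤ -(r * X) := by nlinarith
  linarith

private theorem T2N_pt (p q p' q' r' s' X Y : ℤ) (hp : 1 ≤ p) (hq : 1 ≤ q) (hp' : 1 ≤ p')
    (hq' : 1 ≤ q') (hr' : 1 ≤ r') (hs' : 1 ≤ s')
    (h0 : -p * X - q * Y < 0) (h2 : p' * (X - 1) + q' * (Y - 1) < 0)
    (h3 : 0 ≤ -r' * X + s' * (Y - 1)) : X ≤ 0 ∧ 1 ≤ Y := by
  have hX : X ≤ 0 := by
    by_contra hX
    have hX' : 1 ≤ X := by omega
    have h4 : 1 ≤ r' * X := by nlinarith
    have h5 : 1 ≤ s' * (Y - 1) := by linarith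
    have h6 : 1 ≤ Y - 1 := by
      by_contra h7
      have h8 : Y - 1 ≤ 0 := by omega
      have h9 : s' * (Y - 1) ≤ 0 := mul_nonpos_of_nonneg_of_nonpos (by linarith) h8
      linarith
    have h10 : 0 ≤ p' * (X - 1) := mul_nonneg (by linarith) (by linarith)
    have h11 : 0 ≤ q' * (Y - 1) := mul_nonneg (by linarith) (by linarith)
    linarith
  refine ⟨hX, ?_⟩
  by_contra hY
  have hY' : Y ≤ 0 := by omega
  have h4 : 0 ≤ -(p * X) := by nlinarith
  have h5 : 0 ≤ -(q * Y) := by nlinarith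
  linarith

private theorem T2N_core (p q p' q' r s r' s' X Y X' Y' : ℤ) (hp : 1 ≤ p) (hq : 1 ≤ q)
    (hp' : 1 ≤ p') (hq' : 1 ≤ q') (hr : 1 ≤ r) (hs : 1 ≤ s) (hr' : 1 ≤ r') (hs' : 1 ≤ s')
    (hlt : X < X') (hl : r * (X' - X) = s * (Y' - Y))
    (h0 : -p * X - q * Y < 0) (h2 : p' * (X - 1) + q' * (Y - 1) < 0)
    (h3 : 0 ≤ -r' * X + s' * (Y - 1))
    (k0 : -p * X' - q * Y' < 0) (k2 : p' * (X' - 1) + q' * (Y' - 1) < 0)
    (k3 : 0 ≤ -r' * X' + s' * (Y' - 1)) : p * q' < p' * q := by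
  obtain ⟨hX, hY⟩ := T2N_pt p q p' q' r' s' X Y hp hq hp' hq' hr' hs' h0 h2 h3
  obtain ⟨hX', hY'⟩ := T2N_pt p q p' q' r' s' X' Y' hp hq hp' hq' hr' hs' k0 k2 k3
  have hYY : Y < Y' := by
    by_contra hcon
    have h4 : Y' - Y ≤ 0 := by omega
    have h5 : s * (Y' - Y) ≤ 0 := mul_nonpos_of_nonneg_of_nonpos (by linarith) h4
    have h6 : 0 < r * (X' - X) := mul_pos (by linarith) (by linarith)
    linarith
  have a1 : p * (-X) < q * Y := by linarith
  have a2 : q' * Y < p' * (-X) := by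
    have b1 : q' * Y ≤ q' * (Y' - 1) := mul_le_mul_of_nonneg_left (by linarith) (by linarith)
    have b2 : p' * (1 - X') ≤ p' * (-X) := mul_le_mul_of_nonneg_left (by linarith) (by linarith)
    linarith
  have a3 : q' * (p * (-X)) < q' * (q * Y) := mul_lt_mul_of_pos_left a1 (by linarith)
  have a4 : q * (q' * Y) < q * (p' * (-X)) := mul_lt_mul_of_pos_left a2 (by linarith)
  have a5 : (p * q') * (-X) < (p' * q) * (-X) := by nlinarith
  exact lt_of_mul_lt_mul_right a5 (by linarith)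

theorem t2n_half (p q p' q' r s r' s' X Y X' Y' : ℤ) (hp : 1 ≤ p) (hq : 1 ≤ q) (hp' : 1 ≤ p')
    (hq' : 1 ≤ q') (hr : 1 ≤ r) (hs : 1 ≤ s) (hr' : 1 ≤ r') (hs' : 1 ≤ s')
    (hne : ¬ (X = X' ∧ Y = Y')) (hl : r * (X' - X) = s * (Y' - Y))
    (h0 : -p * X - q * Y < 0) (h2 : p' * (X - 1) + q' * (Y - 1) < 0)
    (h3 : 0 ≤ -r' * X + s' * (Y - 1))
    (k0 : -p * X' - q * Y' < 0) (k2 : p' * (X' - 1) + q' * (Y' - 1) < 0)
    (k3 : 0 ≤ -r' * X' + s' * (Y' - 1)) : p * q' < p' * q := by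
  rcases lt_trichotomy X X' with h | h | h
  · exact T2N_core p q p' q' r s r' s' X Y X' Y' hp hq hp' hq' hr hs hr' hs' h hl h0 h2 h3 k0 k2 k3
  · exfalso
    apply hne
    refine ⟨h, ?_⟩
    rw [h, sub_self, mul_zero] at hl
    have h4 := mul_eq_zero.1 hl.symm
    rcases h4 with h4 | h4
    · omega
    · omega
  · exact T2N_core p q p' q' r s r' s' X' Y' X Y hp hq hp' hq' hr hs hr' hs' h (by linarith)
      k0 k2 k3 h0 h2 h3

theorem t2n_alt (p q p' q' r s r' s' X Y X' Y' U V U' V' : ℤ) (hp : 1 ≤ p) (hq : 1 ≤ q)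
    (hp' : 1 ≤ p') (hq' : 1 ≤ q') (hr : 1 ≤ r) (hs : 1 ≤ s) (hr' : 1 ≤ r') (hs' : 1 ≤ s')
    (hne : ¬ (X = X' ∧ Y = Y')) (hl : r * (X' - X) = s * (Y' - Y))
    (h0 : -p * X - q * Y < 0) (h2 : p' * (X - 1) + q' * (Y - 1) < 0)
    (h3 : 0 ≤ -r' * X + s' * (Y - 1))
    (k0 : -p * X' - q * Y' < 0) (k2 : p' * (X' - 1) + q' * (Y' - 1) < 0)
    (k3 : 0 ≤ -r' * X' + s' * (Y' - 1))
    (hne' : ¬ (U = U' ∧ V = V')) (hl' : r' * (U' - U) = s' * (V' - V))
    (m0 : -p * U - q * V < 0) (m2 : p' * (U - 1) + q' * (V - 1) < 0)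
    (m1 : 0 ≤ r * (U - 1) - s * V)
    (n0 : -p * U' - q * V' < 0) (n2 : p' * (U' - 1) + q' * (V' - 1) < 0)
    (n1 : 0 ≤ r * (U' - 1) - s * V') : False := by
  have A := t2n_half p q p' q' r s r' s' X Y X' Y' hp hq hp' hq' hr hs hr' hs' hne hl h0 h2 h3
    k0 k2 k3
  have B := t2n_half q p q' p' s' r' s r V U V' U' hq hp hq' hp' hs' hr' hs hr
    (fun h => hne' ⟨h.2, h.1⟩) (by linarith) (by linarith) (by linarith) (by linarith)
    (by linarith) (by linarith) (by linarith)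
  linarith [mul_comm q p', mul_comm q' p]

end H66OD

end S_T2N

section S_T2C

/-!
# Row T2C (about 180 lines)

Core of the planar theorem: functionals `ψ 0, ψ 1` are of F-type, `ψ 2, ψ 3` of S-type. `PF X Y`
((X,Y) is an integer point of F) forces `ψ 0, ψ 1 ≤ -1`, `PT X Y` forces `ψ 2, ψ 3 ≤ -1`. `hsep`:
no integer affine functional separates. `hE`: for `i = 2,3` two distinct `PF`-points on a line
parallel to the zero line of `ψ i`, with `ψ i ≤ -1` at both.

PROOF. `pgm` gives that all triangles are unimodular and one of three parallelogram relations.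
Write `P i = (x i, y i)`. For a choice `(A,B,C,D)` of the indices with `P A + P C = P B + P D` use the
coordinates `X' , Y'` with `P = P A + X' (P B - P A) + Y' (P D - P A)`: with
`ε = det(P B - P A, P D - P A) = ±1`, `X' = ε det(P - P A, P D - P A)`,
`Y' = ε det(P B - P A, P - P A)`, integers, integer affine functions of `P`. In these coordinates
`P A = (0,0)`, `P B = (1,0)`, `P C = (1,1)`, `P D = (0,1)` and
`ψ l (P) = ψ l(P A) + X' (ψ l(P B) - ψ l(P A)) + Y' (ψ l(P D) - ψ l(P A))`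
(a polynomial identity using `ε² = 1`), so with `h0`, `h1`:
`ψ A = -p X' - q Y'`, `p = -ψ A(P B) ≥ 1`, `q = -ψ A(P D) ≥ 1`;
`ψ B = r (X'-1) - s Y'`, `r = -ψ B(P A) ≥ 1`, `s = -ψ B (P C) ≥ 1` (for the coefficient of `Y'`:
 `ψ B(P D) - ψ B(P A) = ψ B (P C) - ψ B (P B) = ψ B (P C)`);
`ψ C = p'(X'-1) + q'(Y'-1)`, `p' = -ψ C(P D) ≥ 1`, `q' = -ψ C(P B) ≥ 1`;
`ψ D = -r' X' + s'(Y'-1)`, `r' = -ψ D(P C) ≥ 1`, `s' = -ψ D(P A) ≥ 1`.
(It is convenient to prove this change of coordinates once as an auxiliary lemma for a general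
quadruple of points and functionals.)

Case `P 0 + P 2 = P 1 + P 3`: `(A,B,C,D) = (0,1,2,3)`. `t2n_adj1` : `PF` points have `Y' ≥ 1`,
 `t2n_adj2`: `PT` points have `Y' ≤ 0`. `Y'` is an integer affine functional of `(X,Y)`: `hsep`.
Case `P 0 + P 3 = P 1 + P 2`: `(A,B,C,D) = (0,1,3,2)`: the same.
Case `P 0 + P 1 = P 2 + P 3`: `(A,B,C,D) = (0,2,1,3)`: alternating. `hE 2` gives two distinct `PF`
 points with `ψ 2 ≤ -1` at both (and `ψ 0, ψ 1 ≤ -1`), so by `hcov` `ψ 3 ≥ 0` at both; the linear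
 part of `ψ 2 = ψ B` vanishes on their difference: in the coordinates, `r (X''-X') = s (Y''-Y')`.
 `hE 3` gives two distinct `PF` points with `ψ 3 ≤ -1`, so `ψ 2 = ψ B ≥ 0`, and
 `r'(U''-U') = s' (V''-V')`. `t2n_alt` gives `False`.
-/

namespace H66OD

theorem T2C_coord (a b c x0 y0 x1 y1 x3 y3 D X Y : ℤ)
    (hD : D = (x1 - x0) * (y3 - y0) - (y1 - y0) * (x3 - x0)) (hD2 : D * D = 1) :
    a * X + b * Y + c = (a * x0 + b * y0 + c) +
      D * ((X - x0) * (y3 - y0) - (Y - y0) * (x3 - x0)) *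
        ((a * x1 + b * y1 + c) - (a * x0 + b * y0 + c)) +
      D * ((x1 - x0) * (Y - y0) - (y1 - y0) * (X - x0)) *
        ((a * x3 + b * y3 + c) - (a * x0 + b * y0 + c)) := by
  have h1 : X - x0 = D * ((X - x0) * (y3 - y0) - (Y - y0) * (x3 - x0)) * (x1 - x0) +
      D * ((x1 - x0) * (Y - y0) - (y1 - y0) * (X - x0)) * (x3 - x0) := by
    linear_combination (-(X - x0)) * hD2 + (X - x0) * D * hD
  have h2 : Y - y0 = D * ((X - x0) * (y3 - y0) - (Y - y0) * (x3 - x0)) * (y1 - y0) +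
      D * ((x1 - x0) * (Y - y0) - (y1 - y0) * (X - x0)) * (y3 - y0) := by
    linear_combination (-(Y - y0)) * hD2 + (Y - y0) * D * hD
  linear_combination a * h1 + b * h2

/-- coordinates of a parallelogram -/
theorem T2C_frame (α β γ x y : Fin 4 → ℤ) (h0 : ∀ i, α i * x i + β i * y i + γ i = 0)
    (h1 : ∀ i j, j ≠ i → α j * x i + β j * y i + γ j ≤ -1) (A B C D : Fin 4)
    (hAB : A ≠ B) (hAD : A ≠ D) (hBC : B ≠ C) (hCD : C ≠ D)
    (hdet : (x B - x A) * (y D - y A) - (y B - y A) * (x D - x A) = 1 ∨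
      (x B - x A) * (y D - y A) - (y B - y A) * (x D - x A) = -1)
    (hx : x A + x C = x B + x D) (hy : y A + y C = y B + y D) :
    ∃ a b c a' b' c' p q r s p' q' r' s' : ℤ, 1 ≤ p ∧ 1 ≤ q ∧ 1 ≤ r ∧ 1 ≤ s ∧ 1 ≤ p' ∧ 1 ≤ q' ∧
      1 ≤ r' ∧ 1 ≤ s' ∧
      (∀ X Y X2 Y2 : ℤ, a * X + b * Y + c = a * X2 + b * Y2 + c →
        a' * X + b' * Y + c' = a' * X2 + b' * Y2 + c' → X = X2 ∧ Y = Y2) ∧
      (∀ X Y : ℤ, α A * X + β A * Y + γ A =
        -p * (a * X + b * Y + c) - q * (a' * X + b' * Y + c')) ∧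
      (∀ X Y : ℤ, α B * X + β B * Y + γ B =
        r * ((a * X + b * Y + c) - 1) - s * (a' * X + b' * Y + c')) ∧
      (∀ X Y : ℤ, α C * X + β C * Y + γ C =
        p' * ((a * X + b * Y + c) - 1) + q' * ((a' * X + b' * Y + c') - 1)) ∧
      (∀ X Y : ℤ, α D * X + β D * Y + γ D =
        -r' * (a * X + b * Y + c) + s' * ((a' * X + b' * Y + c') - 1)) := by
  obtain ⟨d, hd⟩ : ∃ d, d = (x B - x A) * (y D - y A) - (y B - y A) * (x D - x A) := ⟨_, rfl⟩
  have hd2 : d * d = 1 := by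
    rw [← hd] at hdet
    rcases hdet with h | h <;> rw [h] <;> norm_num
  have e1 : ∀ X Y : ℤ, d * ((X - x A) * (y D - y A) - (Y - y A) * (x D - x A)) =
      d * (y D - y A) * X + -(d * (x D - x A)) * Y +
        d * (-(x A) * (y D - y A) + y A * (x D - x A)) := fun X Y => by ring
  have e2 : ∀ X Y : ℤ, d * ((x B - x A) * (Y - y A) - (y B - y A) * (X - x A)) =
      -(d * (y B - y A)) * X + d * (x B - x A) * Y +
        d * (-(x B - x A) * y A + (y B - y A) * x A) := fun X Y => by ring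
  have hco := fun (i : Fin 4) (X Y : ℤ) =>
    T2C_coord (α i) (β i) (γ i) (x A) (y A) (x B) (y B) (x D) (y D) d X Y hd hd2
  refine ⟨d * (y D - y A), -(d * (x D - x A)), d * (-(x A) * (y D - y A) + y A * (x D - x A)),
    -(d * (y B - y A)), d * (x B - x A), d * (-(x B - x A) * y A + (y B - y A) * x A),
    -(α A * x B + β A * y B + γ A), -(α A * x D + β A * y D + γ A),
    -(α B * x A + β B * y A + γ B), -(α B * x C + β B * y C + γ B),
    -(α C * x D + β C * y D + γ C), -(α C * x B + β C * y B + γ C),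
    -(α D * x C + β D * y C + γ D), -(α D * x A + β D * y A + γ D), ?_, ?_, ?_, ?_, ?_, ?_, ?_, ?_,
    ?_, ?_, ?_, ?_, ?_⟩
  · have := h1 B A hAB
    linarith
  · have := h1 D A hAD
    linarith
  · have := h1 A B hAB.symm
    linarith
  · have := h1 C B hBC
    linarith
  · have := h1 D C hCD
    linarith
  · have := h1 B C hBC.symm
    linarith
  · have := h1 C D hCD.symm
    linarith
  · have := h1 A D hAD.symm
    linarith
  · intro X Y X2 Y2 k1 k2
    have k3 := T2C_coord 1 0 0 (x A) (y A) (x B) (y B) (x D) (y D) d X Y hd hd2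
    have k4 := T2C_coord 1 0 0 (x A) (y A) (x B) (y B) (x D) (y D) d X2 Y2 hd hd2
    have k5 := T2C_coord 0 1 0 (x A) (y A) (x B) (y B) (x D) (y D) d X Y hd hd2
    have k6 := T2C_coord 0 1 0 (x A) (y A) (x B) (y B) (x D) (y D) d X2 Y2 hd hd2
    rw [e1, e2, k1, k2, ← e1, ← e2] at k3 k5
    constructor
    · linear_combination k3 - k4
    · linear_combination k5 - k6
  · intro X Y
    rw [← e1, ← e2]
    linear_combination hco A X Y + (1 - d * ((X - x A) * (y D - y A) - (Y - y A) * (x D - x A)) -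
      d * ((x B - x A) * (Y - y A) - (y B - y A) * (X - x A))) * h0 A
  · intro X Y
    rw [← e1, ← e2]
    generalize hU : d * ((X - x A) * (y D - y A) - (Y - y A) * (x D - x A)) = U
    generalize hV : d * ((x B - x A) * (Y - y A) - (y B - y A) * (X - x A)) = W
    have hc := hco B X Y
    rw [hU, hV] at hc
    linear_combination hc + (U - W) * h0 B - W * α B * hx - W * β B * hy
  · intro X Y
    rw [← e1, ← e2]
    generalize hU : d * ((X - x A) * (y D - y A) - (Y - y A) * (x D - x A)) = U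
    generalize hV : d * ((x B - x A) * (Y - y A) - (y B - y A) * (X - x A)) = W
    have hc := hco C X Y
    rw [hU, hV] at hc
    linear_combination hc + (U + W - 1) * h0 C + (1 - U - W) * α C * hx + (1 - U - W) * β C * hy
  · intro X Y
    rw [← e1, ← e2]
    generalize hU : d * ((X - x A) * (y D - y A) - (Y - y A) * (x D - x A)) = U
    generalize hV : d * ((x B - x A) * (Y - y A) - (y B - y A) * (X - x A)) = W
    have hc := hco D X Y
    rw [hU, hV] at hc
    linear_combination hc + (W - U) * h0 D - U * α D * hx - U * β D * hy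

theorem t2c (α β γ x y : Fin 4 → ℤ) (PF PT : ℤ → ℤ → Prop)
    (h0 : ∀ i, α i * x i + β i * y i + γ i = 0)
    (h1 : ∀ i j, j ≠ i → α j * x i + β j * y i + γ j ≤ -1)
    (hcov : ∀ X Y : ℤ, ∃ i, 0 ≤ α i * X + β i * Y + γ i)
    (hPF0 : ∀ X Y, PF X Y → α 0 * X + β 0 * Y + γ 0 ≤ -1)
    (hPF1 : ∀ X Y, PF X Y → α 1 * X + β 1 * Y + γ 1 ≤ -1)
    (hPT2 : ∀ X Y, PT X Y → α 2 * X + β 2 * Y + γ 2 ≤ -1)
    (hPT3 : ∀ X Y, PT X Y → α 3 * X + β 3 * Y + γ 3 ≤ -1)
    (hsep : ∀ a b c : ℤ, (∀ X Y, PF X Y → 1 ≤ a * X + b * Y + c) →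
      (∀ X Y, PT X Y → a * X + b * Y + c ≤ 0) → False)
    (hE : ∀ i : Fin 4, i = 2 ∨ i = 3 → ∃ X Y X' Y' : ℤ, ¬ (X = X' ∧ Y = Y') ∧ PF X Y ∧ PF X' Y' ∧
      α i * X + β i * Y + γ i ≤ -1 ∧ α i * X' + β i * Y' + γ i ≤ -1 ∧
      α i * (X' - X) + β i * (Y' - Y) = 0) : False := by
  obtain ⟨hdet, hpar⟩ := pgm α β γ x y h0 h1 hcov
  -- adjacent cases
  have adj : ∀ C D : Fin 4, ((C = 2 ∧ D = 3) ∨ (C = 3 ∧ D = 2)) → x 0 + x C = x 1 + x D →
      y 0 + y C = y 1 + y D → False := by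
    intro C D hCD hx hy
    have hne : (1 : Fin 4) ≠ C ∧ (0 : Fin 4) ≠ D ∧ C ≠ D ∧ (1 : Fin 4) ≠ D := by
      rcases hCD with ⟨rfl, rfl⟩ | ⟨rfl, rfl⟩ <;> decide
    obtain ⟨a, b, c, a', b', c', p, q, r, s, p', q', r', s', hp, hq, hr, hs, hp', hq', hr', hs', -,
      f0, f1, f2, f3⟩ := T2C_frame α β γ x y h0 h1 0 1 C D (by decide) hne.2.1 hne.1 hne.2.2.1
        (hdet 0 1 D (by decide) hne.2.1 hne.2.2.2) hx hy
    refine hsep a' b' c' ?_ ?_
    · intro X Y hXY
      have g0 := hPF0 X Y hXY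
      have g1 := hPF1 X Y hXY
      rw [f0] at g0
      rw [f1] at g1
      exact t2n_adj1 p q r s (a * X + b * Y + c) _ hp hq hr hs (by linarith) (by linarith)
    · intro X Y hXY
      have g2 : α C * X + β C * Y + γ C ≤ -1 := by
        rcases hCD with ⟨rfl, rfl⟩ | ⟨rfl, rfl⟩
        · exact hPT2 X Y hXY
        · exact hPT3 X Y hXY
      have g3 : α D * X + β D * Y + γ D ≤ -1 := by
        rcases hCD with ⟨rfl, rfl⟩ | ⟨rfl, rfl⟩
        · exact hPT3 X Y hXY
        · exact hPT2 X Y hXY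
      rw [f2] at g2
      rw [f3] at g3
      exact t2n_adj2 p' q' r' s' (a * X + b * Y + c) _ hp' hq' hr' hs' (by linarith) (by linarith)
  rcases hpar with ⟨hx, hy⟩ | ⟨hx, hy⟩ | ⟨hx, hy⟩
  · obtain ⟨a, b, c, a', b', c', p, q, r, s, p', q', r', s', hp, hq, hr, hs, hp', hq', hr', hs', inj,
      f0, f2, f1, f3⟩ := T2C_frame α β γ x y h0 h1 0 2 1 3 (by decide) (by decide) (by decide)
        (by decide) (hdet 0 2 3 (by decide) (by decide) (by decide)) hx hy
    obtain ⟨X, Y, X', Y', hne, hF, hF', g2, g2', hlin⟩ := hE 2 (Or.inl rfl)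
    obtain ⟨U, V, U', V', hne', hG, hG', g3, g3', hlin'⟩ := hE 3 (Or.inr rfl)
    have cov : ∀ X Y : ℤ, PF X Y → α 2 * X + β 2 * Y + γ 2 ≤ -1 →
        0 ≤ α 3 * X + β 3 * Y + γ 3 := by
      intro X Y h2 h3
      obtain ⟨i, hi⟩ := hcov X Y
      have k0 := hPF0 X Y h2
      have k1 := hPF1 X Y h2
      fin_cases i
      · simp only [Fin.zero_eta] at hi
        omega
      · simp only [Fin.mk_one] at hi
        omega
      · simp only [Fin.reduceFinMk] at hi
        omega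
      · simpa only [Fin.reduceFinMk] using hi
    have cov' : ∀ X Y : ℤ, PF X Y → α 3 * X + β 3 * Y + γ 3 ≤ -1 →
        0 ≤ α 2 * X + β 2 * Y + γ 2 := by
      intro X Y h2 h3
      by_contra hcon
      have := cov X Y h2 (by omega)
      omega
    have k1 := hPF0 X Y hF
    have k2 := hPF1 X Y hF
    have k3 := cov X Y hF g2
    have k1' := hPF0 X' Y' hF'
    have k2' := hPF1 X' Y' hF'
    have k3' := cov X' Y' hF' g2'
    have m1 := hPF0 U V hG
    have m2 := hPF1 U V hG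
    have m3 := cov' U V hG g3
    have m1' := hPF0 U' V' hG'
    have m2' := hPF1 U' V' hG'
    have m3' := cov' U' V' hG' g3'
    rw [f0] at k1 k1' m1 m1'
    rw [f1] at k2 k2' m2 m2'
    rw [f3] at k3 k3'
    rw [f2] at m3 m3'
    have l1 : r * ((a * X' + b * Y' + c) - (a * X + b * Y + c)) =
        s * ((a' * X' + b' * Y' + c') - (a' * X + b' * Y + c')) := by
      linear_combination f2 X Y - f2 X' Y' + hlin
    have l2 : r' * ((a * U' + b * V' + c) - (a * U + b * V + c)) =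
        s' * ((a' * U' + b' * V' + c') - (a' * U + b' * V + c')) := by
      linear_combination f3 U' V' - f3 U V - hlin'
    exact t2n_alt p q p' q' r s r' s' (a * X + b * Y + c) (a' * X + b' * Y + c')
      (a * X' + b * Y' + c) (a' * X' + b' * Y' + c') (a * U + b * V + c) (a' * U + b' * V + c')
      (a * U' + b * V' + c) (a' * U' + b' * V' + c') hp hq hp' hq' hr hs hr' hs'
      (fun h => hne (inj X Y X' Y' h.1 h.2)) l1 (by linarith) (by linarith) (by linarith)
      (by linarith) (by linarith) (by linarith) (fun h => hne' (inj U V U' V' h.1 h.2)) l2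
      (by linarith) (by linarith) (by linarith) (by linarith) (by linarith) (by linarith)
  · exact adj 2 3 (Or.inl ⟨rfl, rfl⟩) hx hy
  · exact adj 3 2 (Or.inr ⟨rfl, rfl⟩) hx hy

end H66OD

end S_T2C

section S_T2

/-!
# Row T2 (about 200 lines): the planar theorem

`g l (X,Y) = p l X + q l Y + b l` and `s l (X,Y) = p l X + q l Y + b' l` (same linear parts).
`F = {g l ≥ 0 ∀ l}`, `S = {s l ≥ 0 ∀ l}`; every `g l` vanishes at two distinct integer points of `F`,
every `s l` vanishes at an integer point of `S`; `x = (x1,x2)` is an integer point with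
`g l + s l ≥ 0` at `x` in the sense `hc`; `hsep`: the integer points of `F` and of `x - S` are not
separated by an integer affine functional. Then `x` is the sum of an integer point of `F` and an
integer point of `S`.

PROOF. Suppose not. Let `Φ = ι × Bool`, `N (l,true) (X,Y) = -(g l (X,Y))` (F-type) and
`N (l,false) (X,Y) = -(s l (x1-X, x2-Y))` (S-type), thresholds `T0 = 1`. By assumption every integer
point `(X,Y)` has some functional `≥ 1`. Apply `acl` (with `X := ℤ × ℤ`, `S := Finset.univ`, classical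
`DecidableEq`): get `I`, `T ≥ 1`, touching points `w`. Put `ψ φ = N φ - T φ`: these are integer affine:
for `(l,true)`: `α = -p l, β = -q l, γ = -b l - T`; for `(l,false)`:
`α = p l, β = q l, γ = -(p l x1 + q l x2 + b' l) - T`. `par2` gives `I.card ≤ 4`.
Claims:
(0) `I` contains an S-type element: otherwise take an integer point `(X,Y)` of `F` (`hne`): all F-type
 functionals are `≤ 0 < T` there, contradicting the covering.
(0') `I` contains an F-type element: otherwise take `(x1 - X, x2 - Y)` with `(X,Y) ∈ S` (`hne'`).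
(1) `I` does not contain exactly one S-type element `(m,false)`: take `(X,Y) ∈ F` with
 `g m (X,Y) = 0` (`hF m`): F-types are `≤ 0`, and `N (m,false)(X,Y) = -s m (x - (X,Y)) =
 -(p m x1 + q m x2 + b m + b' m) + g m (X,Y) ≤ 0` by `hc`. Uncovered.
(1') `I` does not contain exactly one F-type element `(l,true)`: take `(X,Y) ∈ S` with
 `s l (X,Y) = 0` (`hS l`) and the point `(x1 - X, x2 - Y)`: S-types are `-s m(X,Y) ≤ 0`, and
 `-g l (x1-X,x2-Y) = -(p l x1 + q l x2 + b l + b' l) + s l (X,Y) ≤ 0`. Uncovered.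
So `I` has at least two F-type and two S-type elements, hence (card ≤ 4) exactly two and two:
`I = {f1,f2,s1,s2}`. Apply `t2c` with the four functionals `ψ`, the points `w`,
`PF X Y := ∀ m, 0 ≤ g m (X,Y)`, `PT X Y := ∀ m, 0 ≤ s m (x1 - X, x2 - Y)`
(`hPF`: `-g - T ≤ -1`; `hPT`: the same; `hsep`: use the hypothesis `hsep` with the substitution
`(X,Y) → (x1-X,x2-Y)`; `hE`: for `s1 = (m,false)` the two points of `hF m`:
`ψ = -s m (x - (X,Y)) - T ≤ -T ≤ -1` as in (1), and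
`p m (X'-X) + q m (Y'-Y) = g m (X',Y') - g m (X,Y) = 0`).
-/

namespace H66OD

/-- first coefficient -/
def T2_A {ι : Type} (p : ι → ℤ) (φ : ι × Bool) : ℤ := if φ.2 then -p φ.1 else p φ.1

/-- constant coefficient -/
def T2_G {ι : Type} (p q b b' : ι → ℤ) (x1 x2 : ℤ) (φ : ι × Bool) : ℤ :=
  if φ.2 then -b φ.1 else -(p φ.1 * x1 + q φ.1 * x2 + b' φ.1)

/-- the functional -/
def T2_N {ι : Type} (p q b b' : ι → ℤ) (x1 x2 : ℤ) (φ : ι × Bool) (P : ℤ × ℤ) : ℤ :=
  T2_A p φ * P.1 + T2_A q φ * P.2 + T2_G p q b b' x1 x2 φ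

theorem T2_N_true {ι : Type} (p q b b' : ι → ℤ) (x1 x2 : ℤ) (l : ι) (X Y : ℤ) :
    T2_N p q b b' x1 x2 (l, true) (X, Y) = -(p l * X + q l * Y + b l) := by
  unfold T2_N T2_A T2_G
  simp only [if_true]
  ring

theorem T2_N_false {ι : Type} (p q b b' : ι → ℤ) (x1 x2 : ℤ) (l : ι) (X Y : ℤ) :
    T2_N p q b b' x1 x2 (l, false) (X, Y) = -(p l * (x1 - X) + q l * (x2 - Y) + b' l) := by
  unfold T2_N T2_A T2_G
  simp only [Bool.false_eq_true, if_false]
  ring

theorem t2 {ι : Type} [Fintype ι] (p q b b' : ι → ℤ) (x1 x2 : ℤ)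
    (hF : ∀ l, ∃ X Y X' Y' : ℤ, ¬ (X = X' ∧ Y = Y') ∧ p l * X + q l * Y + b l = 0 ∧
      p l * X' + q l * Y' + b l = 0 ∧ (∀ m, 0 ≤ p m * X + q m * Y + b m) ∧
      (∀ m, 0 ≤ p m * X' + q m * Y' + b m))
    (hS : ∀ l, ∃ X Y : ℤ, p l * X + q l * Y + b' l = 0 ∧ ∀ m, 0 ≤ p m * X + q m * Y + b' m)
    (hne : ∃ X Y : ℤ, ∀ m, 0 ≤ p m * X + q m * Y + b m)
    (hne' : ∃ X Y : ℤ, ∀ m, 0 ≤ p m * X + q m * Y + b' m)
    (hc : ∀ l, 0 ≤ p l * x1 + q l * x2 + b l + b' l)
    (hsep : ∀ α β γ : ℤ,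
      (∀ X Y : ℤ, (∀ m, 0 ≤ p m * X + q m * Y + b m) → 1 ≤ α * X + β * Y + γ) →
      (∀ X Y : ℤ, (∀ m, 0 ≤ p m * X + q m * Y + b' m) → α * (x1 - X) + β * (x2 - Y) + γ ≤ 0) →
      False) :
    ∃ X Y : ℤ, (∀ m, 0 ≤ p m * X + q m * Y + b m) ∧
      (∀ m, 0 ≤ p m * (x1 - X) + q m * (x2 - Y) + b' m) := by
  classical
  by_contra hno
  push Not at hno
  obtain ⟨N, hN⟩ : ∃ N : ι × Bool → ℤ × ℤ → ℤ, N = T2_N p q b b' x1 x2 := ⟨_, rfl⟩
  have hNt : ∀ l X Y, N (l, true) (X, Y) = -(p l * X + q l * Y + b l) := fun l X Y => by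
    rw [hN]; exact T2_N_true p q b b' x1 x2 l X Y
  have hNf : ∀ l X Y, N (l, false) (X, Y) = -(p l * (x1 - X) + q l * (x2 - Y) + b' l) :=
    fun l X Y => by rw [hN]; exact T2_N_false p q b b' x1 x2 l X Y
  have hlin : ∀ φ P, N φ P = T2_A p φ * P.1 + T2_A q φ * P.2 + T2_G p q b b' x1 x2 φ := fun φ P => by
    rw [hN]; rfl
  have hcov0 : ∀ P : ℤ × ℤ, ∃ φ ∈ (Finset.univ : Finset (ι × Bool)), (1 : ℤ) ≤ N φ P := by
    rintro ⟨X, Y⟩
    by_cases h : ∀ m, 0 ≤ p m * X + q m * Y + b m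
    · obtain ⟨m, hm⟩ := hno X Y h
      refine ⟨(m, false), Finset.mem_univ _, ?_⟩
      rw [hNf]
      omega
    · push Not at h
      obtain ⟨m, hm⟩ := h
      refine ⟨(m, true), Finset.mem_univ _, ?_⟩
      rw [hNt]
      omega
  obtain ⟨I, T, w, _, hIne, hT, hw, hww, hcov⟩ := acl Finset.univ N (fun _ => 1) hcov0
  -- at most four
  have hcard : I.card ≤ 4 := by
    refine par2 I (T2_A p) (T2_A q) (fun φ => T2_G p q b b' x1 x2 φ - T φ) (fun φ => (w φ).1)
      (fun φ => (w φ).2) ?_ ?_ ?_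
    · intro φ hφ
      have := hw φ hφ
      rw [hlin] at this
      linarith
    · intro φ hφ ψ hψ hne2
      have := hww φ hφ ψ hψ hne2
      rw [hlin] at this
      have h2 : T2_A p ψ * (w φ).1 + T2_A q ψ * (w φ).2 + T2_G p q b b' x1 x2 ψ + 1 ≤ T ψ := this
      show T2_A p ψ * (w φ).1 + T2_A q ψ * (w φ).2 + (T2_G p q b b' x1 x2 ψ - T ψ) ≤ -1
      linarith
    · intro X Y
      obtain ⟨φ, hφ, h⟩ := hcov (X, Y)
      refine ⟨φ, hφ, ?_⟩
      rw [hlin] at h
      show 0 ≤ T2_A p φ * X + T2_A q φ * Y + (T2_G p q b b' x1 x2 φ - T φ)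
      have h2 : T φ ≤ T2_A p φ * X + T2_A q φ * Y + T2_G p q b b' x1 x2 φ := h
      linarith
  have hkill : ∀ P : ℤ × ℤ, (∀ φ ∈ I, N φ P ≤ 0) → False := by
    intro P h
    obtain ⟨φ, hφ, h2⟩ := hcov P
    have h3 := h φ hφ
    have h4 : (1 : ℤ) ≤ T φ := hT φ hφ
    omega
  -- values at good points
  have hFv : ∀ m X Y, (∀ m, 0 ≤ p m * X + q m * Y + b m) → N (m, true) (X, Y) ≤ 0 := by
    intro m X Y h
    rw [hNt]
    have := h m
    omega
  have hSv : ∀ m X Y, (∀ m, 0 ≤ p m * X + q m * Y + b' m) → N (m, false) (x1 - X, x2 - Y) ≤ 0 := by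
    intro m X Y h
    rw [hNf, sub_sub_cancel, sub_sub_cancel]
    have := h m
    omega
  have hFz : ∀ m X Y, p m * X + q m * Y + b m = 0 → N (m, false) (X, Y) ≤ 0 := by
    intro m X Y h
    rw [hNf]
    have h2 := hc m
    have e : -(p m * (x1 - X) + q m * (x2 - Y) + b' m)
        = (p m * X + q m * Y + b m) - (p m * x1 + q m * x2 + b m + b' m) := by ring
    rw [e, h]
    omega
  have hSz : ∀ m X Y, p m * X + q m * Y + b' m = 0 → N (m, true) (x1 - X, x2 - Y) ≤ 0 := by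
    intro m X Y h
    rw [hNt]
    have h2 := hc m
    have e : -(p m * (x1 - X) + q m * (x2 - Y) + b m)
        = (p m * X + q m * Y + b' m) - (p m * x1 + q m * x2 + b m + b' m) := by ring
    rw [e, h]
    omega
  obtain ⟨IF, hIF⟩ : ∃ IF, IF = I.filter (fun φ => φ.2 = true) := ⟨_, rfl⟩
  obtain ⟨IS, hIS⟩ : ∃ IS, IS = I.filter (fun φ => φ.2 = false) := ⟨_, rfl⟩
  have hsum : IF.card + IS.card = I.card := by
    have h := Finset.card_filter_add_card_filter_not (s := I) (fun φ : ι × Bool => φ.2 = true)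
    have h2 : I.filter (fun φ : ι × Bool => ¬ φ.2 = true) = I.filter (fun φ => φ.2 = false) := by
      refine Finset.filter_congr fun φ _ => ?_
      simp
    rw [h2] at h
    rw [hIF, hIS]
    exact h
  have hSge : 2 ≤ IS.card := by
    by_contra hlt
    have hle : IS.card ≤ 1 := by omega
    rw [Finset.card_le_one] at hle
    rcases IS.eq_empty_or_nonempty with h | ⟨⟨m, v⟩, hm⟩
    · obtain ⟨X, Y, hXY⟩ := hne
      refine hkill (X, Y) ?_
      rintro ⟨l, v⟩ hl
      cases v with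
      | true => exact hFv l X Y hXY
      | false =>
        have : (l, false) ∈ IS := by rw [hIS]; exact Finset.mem_filter.2 ⟨hl, rfl⟩
        rw [h] at this
        exact absurd this (Finset.notMem_empty _)
    · have hv : v = false := by
        rw [hIS] at hm
        exact (Finset.mem_filter.1 hm).2
      subst hv
      obtain ⟨X, Y, X', Y', _, h1, _, h3, _⟩ := hF m
      refine hkill (X, Y) ?_
      rintro ⟨l, v⟩ hl
      cases v with
      | true => exact hFv l X Y h3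
      | false =>
        have h4 : (l, false) ∈ IS := by rw [hIS]; exact Finset.mem_filter.2 ⟨hl, rfl⟩
        have h5 := hle _ h4 _ hm
        rw [h5]
        exact hFz m X Y h1
  have hFge : 2 ≤ IF.card := by
    by_contra hlt
    have hle : IF.card ≤ 1 := by omega
    rw [Finset.card_le_one] at hle
    rcases IF.eq_empty_or_nonempty with h | ⟨⟨m, v⟩, hm⟩
    · obtain ⟨X, Y, hXY⟩ := hne'
      refine hkill (x1 - X, x2 - Y) ?_
      rintro ⟨l, v⟩ hl
      cases v with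
      | false => exact hSv l X Y hXY
      | true =>
        have : (l, true) ∈ IF := by rw [hIF]; exact Finset.mem_filter.2 ⟨hl, rfl⟩
        rw [h] at this
        exact absurd this (Finset.notMem_empty _)
    · have hv : v = true := by
        rw [hIF] at hm
        exact (Finset.mem_filter.1 hm).2
      subst hv
      obtain ⟨X, Y, h1, h3⟩ := hS m
      refine hkill (x1 - X, x2 - Y) ?_
      rintro ⟨l, v⟩ hl
      cases v with
      | false => exact hSv l X Y h3
      | true =>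
        have h4 : (l, true) ∈ IF := by rw [hIF]; exact Finset.mem_filter.2 ⟨hl, rfl⟩
        have h5 := hle _ h4 _ hm
        rw [h5]
        exact hSz m X Y h1
  have hF2 : IF.card = 2 := by omega
  have hS2 : IS.card = 2 := by omega
  obtain ⟨f1, f2, hf12, hIF2⟩ := Finset.card_eq_two.1 hF2
  obtain ⟨s1, s2, hs12, hIS2⟩ := Finset.card_eq_two.1 hS2
  have hf1 : f1 ∈ I ∧ f1.2 = true := by
    have : f1 ∈ IF := by rw [hIF2]; simp
    rw [hIF] at this; exact Finset.mem_filter.1 this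
  have hf2 : f2 ∈ I ∧ f2.2 = true := by
    have : f2 ∈ IF := by rw [hIF2]; simp
    rw [hIF] at this; exact Finset.mem_filter.1 this
  have hs1 : s1 ∈ I ∧ s1.2 = false := by
    have : s1 ∈ IS := by rw [hIS2]; simp
    rw [hIS] at this; exact Finset.mem_filter.1 this
  have hs2 : s2 ∈ I ∧ s2.2 = false := by
    have : s2 ∈ IS := by rw [hIS2]; simp
    rw [hIS] at this; exact Finset.mem_filter.1 this
  have hfs : ∀ f g : ι × Bool, f.2 = true → g.2 = false → f ≠ g := by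
    rintro f g h1 h2 rfl
    rw [h1] at h2
    exact absurd h2 (by decide)
  obtain ⟨e, he⟩ : ∃ e : Fin 4 → ι × Bool, e = ![f1, f2, s1, s2] := ⟨_, rfl⟩
  have e0 : e 0 = f1 := by rw [he]; rfl
  have e1 : e 1 = f2 := by rw [he]; rfl
  have e2 : e 2 = s1 := by rw [he]; rfl
  have e3 : e 3 = s2 := by rw [he]; rfl
  have heI : ∀ i, e i ∈ I := by
    intro i
    fin_cases i
    · show e 0 ∈ I
      rw [e0]; exact hf1.1
    · show e 1 ∈ I
      rw [e1]; exact hf2.1
    · show e 2 ∈ I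
      rw [e2]; exact hs1.1
    · show e 3 ∈ I
      rw [e3]; exact hs2.1
  have heinj : ∀ i j : Fin 4, j ≠ i → e j ≠ e i := by
    have h01 := hf12
    have h23 := hs12
    have h02 := hfs f1 s1 hf1.2 hs1.2
    have h03 := hfs f1 s2 hf1.2 hs2.2
    have h12 := hfs f2 s1 hf2.2 hs1.2
    have h13 := hfs f2 s2 hf2.2 hs2.2
    rw [← e0, ← e1] at h01
    rw [← e2, ← e3] at h23
    rw [← e0, ← e2] at h02
    rw [← e0, ← e3] at h03
    rw [← e1, ← e2] at h12
    rw [← e1, ← e3] at h13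
    intro i j hij
    fin_cases i <;> fin_cases j <;>
      first
        | exact absurd rfl hij
        | exact h01
        | exact h01.symm
        | exact h02
        | exact h02.symm
        | exact h03
        | exact h03.symm
        | exact h12
        | exact h12.symm
        | exact h13
        | exact h13.symm
        | exact h23
        | exact h23.symm
  have hmem : ∀ φ ∈ I, ∃ i, e i = φ := by
    rintro ⟨l, v⟩ hl
    cases v with
    | true =>
      have h4 : (l, true) ∈ IF := by rw [hIF]; exact Finset.mem_filter.2 ⟨hl, rfl⟩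
      rw [hIF2, Finset.mem_insert, Finset.mem_singleton] at h4
      rcases h4 with h | h
      · exact ⟨0, by rw [e0, h]⟩
      · exact ⟨1, by rw [e1, h]⟩
    | false =>
      have h4 : (l, false) ∈ IS := by rw [hIS]; exact Finset.mem_filter.2 ⟨hl, rfl⟩
      rw [hIS2, Finset.mem_insert, Finset.mem_singleton] at h4
      rcases h4 with h | h
      · exact ⟨2, by rw [e2, h]⟩
      · exact ⟨3, by rw [e3, h]⟩
  have hval : ∀ i X Y, T2_A p (e i) * X + T2_A q (e i) * Y + (T2_G p q b b' x1 x2 (e i) - T (e i))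
      = N (e i) (X, Y) - T (e i) := by
    intro i X Y
    rw [hlin]
    ring
  have hFneg : ∀ f ∈ I, f.2 = true → ∀ X Y : ℤ, (∀ m, 0 ≤ p m * X + q m * Y + b m) →
      N f (X, Y) - T f ≤ -1 := by
    rintro ⟨l, v⟩ hl hv X Y h
    have hv' : v = true := hv
    subst hv'
    have h1 := hFv l X Y h
    have h2 : (1 : ℤ) ≤ T (l, true) := hT _ hl
    omega
  have hSneg : ∀ f ∈ I, f.2 = false → ∀ X Y : ℤ,
      (∀ m, 0 ≤ p m * (x1 - X) + q m * (x2 - Y) + b' m) → N f (X, Y) - T f ≤ -1 := by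
    rintro ⟨l, v⟩ hl hv X Y h
    have hv' : v = false := hv
    subst hv'
    have h1 := hSv l (x1 - X) (x2 - Y) h
    rw [sub_sub_cancel, sub_sub_cancel] at h1
    have h2 : (1 : ℤ) ≤ T (l, false) := hT _ hl
    omega
  have hEgen : ∀ f ∈ I, f.2 = false → ∃ X Y X' Y' : ℤ, ¬ (X = X' ∧ Y = Y') ∧
      (∀ m, 0 ≤ p m * X + q m * Y + b m) ∧ (∀ m, 0 ≤ p m * X' + q m * Y' + b m) ∧
      N f (X, Y) - T f ≤ -1 ∧ N f (X', Y') - T f ≤ -1 ∧
      T2_A p f * (X' - X) + T2_A q f * (Y' - Y) = 0 := by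
    rintro ⟨l, v⟩ hl hv
    have hv' : v = false := hv
    subst hv'
    obtain ⟨X, Y, X', Y', h0, h1, h2, h3, h4⟩ := hF l
    have h5 : (1 : ℤ) ≤ T (l, false) := hT _ hl
    have h6 := hFz l X Y h1
    have h7 := hFz l X' Y' h2
    refine ⟨X, Y, X', Y', h0, h3, h4, by omega, by omega, ?_⟩
    show (if (false : Bool) = true then -p l else p l) * (X' - X) +
      (if (false : Bool) = true then -q l else q l) * (Y' - Y) = 0
    rw [if_neg (by decide), if_neg (by decide)]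
    linarith
  refine t2c (fun i => T2_A p (e i)) (fun i => T2_A q (e i))
    (fun i => T2_G p q b b' x1 x2 (e i) - T (e i)) (fun i => (w (e i)).1) (fun i => (w (e i)).2)
    (fun X Y => ∀ m, 0 ≤ p m * X + q m * Y + b m)
    (fun X Y => ∀ m, 0 ≤ p m * (x1 - X) + q m * (x2 - Y) + b' m) ?_ ?_ ?_ ?_ ?_ ?_ ?_ ?_ ?_
  · intro i
    show T2_A p (e i) * (w (e i)).1 + T2_A q (e i) * (w (e i)).2 +
      (T2_G p q b b' x1 x2 (e i) - T (e i)) = 0
    rw [hval]
    have := hw _ (heI i)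
    have h2 : N (e i) ((w (e i)).1, (w (e i)).2) = T (e i) := this
    omega
  · intro i j hij
    show T2_A p (e j) * (w (e i)).1 + T2_A q (e j) * (w (e i)).2 +
      (T2_G p q b b' x1 x2 (e j) - T (e j)) ≤ -1
    rw [hval]
    have := hww _ (heI i) _ (heI j) (heinj i j hij)
    have h2 : N (e j) ((w (e i)).1, (w (e i)).2) < T (e j) := this
    omega
  · intro X Y
    obtain ⟨φ, hφ, h⟩ := hcov (X, Y)
    obtain ⟨i, rfl⟩ := hmem φ hφ
    refine ⟨i, ?_⟩
    show 0 ≤ T2_A p (e i) * X + T2_A q (e i) * Y + (T2_G p q b b' x1 x2 (e i) - T (e i))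
    rw [hval]
    omega
  · intro X Y h
    show T2_A p (e 0) * X + T2_A q (e 0) * Y + (T2_G p q b b' x1 x2 (e 0) - T (e 0)) ≤ -1
    rw [hval, e0]
    exact hFneg f1 hf1.1 hf1.2 X Y h
  · intro X Y h
    show T2_A p (e 1) * X + T2_A q (e 1) * Y + (T2_G p q b b' x1 x2 (e 1) - T (e 1)) ≤ -1
    rw [hval, e1]
    exact hFneg f2 hf2.1 hf2.2 X Y h
  · intro X Y h
    show T2_A p (e 2) * X + T2_A q (e 2) * Y + (T2_G p q b b' x1 x2 (e 2) - T (e 2)) ≤ -1
    rw [hval, e2]
    exact hSneg s1 hs1.1 hs1.2 X Y h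
  · intro X Y h
    show T2_A p (e 3) * X + T2_A q (e 3) * Y + (T2_G p q b b' x1 x2 (e 3) - T (e 3)) ≤ -1
    rw [hval, e3]
    exact hSneg s2 hs2.1 hs2.2 X Y h
  · intro a' b'' c h1 h2
    refine hsep a' b'' c h1 fun X Y h => ?_
    exact h2 (x1 - X) (x2 - Y) fun m => by
      rw [sub_sub_cancel, sub_sub_cancel]; exact h m
  · intro i hi
    have key : e i ∈ I ∧ (e i).2 = false := by
      rcases hi with rfl | rfl
      · rw [e2]; exact hs1
      · rw [e3]; exact hs2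
    obtain ⟨X, Y, X', Y', h0, h1, h2, h3, h4, h5⟩ := hEgen (e i) key.1 key.2
    refine ⟨X, Y, X', Y', h0, h1, h2, ?_, ?_, h5⟩
    · show T2_A p (e i) * X + T2_A q (e i) * Y + (T2_G p q b b' x1 x2 (e i) - T (e i)) ≤ -1
      rw [hval]; exact h3
    · show T2_A p (e i) * X' + T2_A q (e i) * Y' + (T2_G p q b b' x1 x2 (e i) - T (e i)) ≤ -1
      rw [hval]; exact h4

end H66OD

end S_T2
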