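import Pool.Agent.H66.OD.Defs

/-! Oda in dimension three, part G2: this file joins the modules FRC PAR3 IND OCT GEN N12 HB to save build time. -/

section S_FRC

/-!
# Row FRC (about 100 lines): fractional parts

`z 0, ..., z 3` additive functions `G → ℝ` with sum zero, all values torsion mod `ℤ`; the sum
`S q = Σ Int.fract (z i q)` is never `2`, and if it is `1` then no `z i q` is an integer. Then all
`z i q` are integers.

PROOF. For `q : G`, `S q` is an integer since `Σ z i q = 0` (`S q = -Σ ⌊z i q⌋`), `0 ≤ S q < 4`, so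
`S q ∈ {0,1,3}`; `S q = 0` iff all `fract (z i q) = 0`; if `S q = 3` then all `fract (z i q) > 0` (three
numbers `< 1` have sum `< 3`). So: either all `z i q` are integers, or all are non-integers and
`S q ∈ {1,3}`. In the second case `fract (-z) = 1 - fract z` gives `S (-q) = 4 - S q`.
Suppose some `z i y` is not an integer. Replacing `y` by `-y` assume `S y = 1`. Let `K ≥ 1` be minimal
with all `z i (K • y)` integers (`Nat.find`, exists by `htor`); `K ≥ 2`. For `1 ≤ k ≤ K-1` `S (k • y) ∈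
{1,3}`. `(K-1) • y = K • y - y`, so `fract (z i ((K-1) • y)) = fract (-z i y)` and
`S ((K-1) • y) = 3`. But `S ((k+1) • y) ≤ S (k • y) + S y = S (k • y) + 1` (`Int.fract_add_le`), so by
induction on `k` from `S (1 • y) = 1`: `S (k • y) = 1` for all `1 ≤ k ≤ K-1` (value `≤ 2` and in
`{1,3}`). Contradiction at `k = K-1`.
-/

namespace H66OD

theorem FRC_int {x : ℝ} (h : Int.fract x = 0) : ∃ m : ℤ, x = m :=
  ⟨⌊x⌋, by
    have h1 := Int.floor_add_fract x
    rw [h, add_zero] at h1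
    exact h1.symm⟩

theorem FRC_cases {G : Type} [AddCommGroup G] (z : Fin 4 → G →+ ℝ) (hsum : ∀ q, ∑ i, z i q = 0)
    (H2 : ∀ q, ∑ i, Int.fract (z i q) ≠ 2)
    (H1 : ∀ q, ∑ i, Int.fract (z i q) = 1 → ∀ i, Int.fract (z i q) ≠ 0) (q : G) :
    (∀ i, Int.fract (z i q) = 0) ∨ ((∀ i, Int.fract (z i q) ≠ 0) ∧
      (∑ i, Int.fract (z i q) = 1 ∨ ∑ i, Int.fract (z i q) = 3)) := by
  have h0 : ∀ i, 0 ≤ Int.fract (z i q) := fun i => Int.fract_nonneg _
  have h1 : ∀ i, Int.fract (z i q) < 1 := fun i => Int.fract_lt_one _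
  obtain ⟨m, hm⟩ : ∃ m : ℤ, ∑ i, Int.fract (z i q) = m := by
    refine ⟨-∑ i, ⌊z i q⌋, ?_⟩
    have h2 : ∑ i, Int.fract (z i q) = ∑ i, z i q - ∑ i, (⌊z i q⌋ : ℝ) := by
      rw [← Finset.sum_sub_distrib]
      exact Finset.sum_congr rfl fun i _ => rfl
    rw [h2, hsum]
    push_cast
    ring
  have h4 := H2 q
  have h5 := H1 q
  rw [Fin.sum_univ_four] at hm h4 h5 ⊢
  have a0 := h0 0
  have a1 := h0 1
  have a2 := h0 2
  have a3 := h0 3
  have b0 := h1 0
  have b1 := h1 1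
  have b2 := h1 2
  have b3 := h1 3
  have hm0 : (0 : ℝ) ≤ m := by linarith
  have hm4 : (m : ℝ) < 4 := by linarith
  have hm0' : 0 ≤ m := by exact_mod_cast hm0
  have hm4' : m < 4 := by exact_mod_cast hm4
  have hcase : m = 0 ∨ m = 1 ∨ m = 2 ∨ m = 3 := by omega
  rcases hcase with rfl | rfl | rfl | rfl
  · left
    push_cast at hm
    intro i
    fin_cases i
    · show Int.fract (z 0 q) = 0
      linarith
    · show Int.fract (z 1 q) = 0
      linarith
    · show Int.fract (z 2 q) = 0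
      linarith
    · show Int.fract (z 3 q) = 0
      linarith
  · right
    push_cast at hm
    exact ⟨h5 hm, Or.inl hm⟩
  · exfalso
    push_cast at hm
    exact h4 hm
  · right
    push_cast at hm
    refine ⟨fun i hi => ?_, Or.inr hm⟩
    fin_cases i
    · have : Int.fract (z 0 q) = 0 := hi
      linarith
    · have : Int.fract (z 1 q) = 0 := hi
      linarith
    · have : Int.fract (z 2 q) = 0 := hi
      linarith
    · have : Int.fract (z 3 q) = 0 := hi
      linarith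

theorem FRC_core {G : Type} [AddCommGroup G] (z : Fin 4 → G →+ ℝ) (hsum : ∀ q, ∑ i, z i q = 0)
    (htor : ∀ q, ∃ K : ℕ, 1 ≤ K ∧ ∀ i, ∃ m : ℤ, z i (K • q) = m)
    (H2 : ∀ q, ∑ i, Int.fract (z i q) ≠ 2)
    (H1 : ∀ q, ∑ i, Int.fract (z i q) = 1 → ∀ i, Int.fract (z i q) ≠ 0) (y : G)
    (hy : ∑ i, Int.fract (z i y) = 1) : False := by
  classical
  have hex : ∃ K : ℕ, 1 ≤ K ∧ ∀ i, Int.fract (z i (K • y)) = 0 := by
    obtain ⟨K, hK, h⟩ := htor y
    refine ⟨K, hK, fun i => ?_⟩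
    obtain ⟨m, hm⟩ := h i
    rw [hm, Int.fract_intCast]
  obtain ⟨K, hKd⟩ : ∃ K, K = Nat.find hex := ⟨_, rfl⟩
  obtain ⟨hK1, hK0⟩ : 1 ≤ K ∧ ∀ i, Int.fract (z i (K • y)) = 0 := by
    rw [hKd]
    exact Nat.find_spec hex
  have hmin : ∀ k, 1 ≤ k → k < K → ¬ ∀ i, Int.fract (z i (k • y)) = 0 := by
    intro k hk hkK h
    rw [hKd] at hkK
    exact Nat.find_min hex hkK ⟨hk, h⟩
  have hK2 : 2 ≤ K := by
    by_contra hcon
    have : K = 1 := by omega
    rw [this] at hK0
    have h1 : ∑ i, Int.fract (z i y) = 0 := by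
      refine Finset.sum_eq_zero fun i _ => ?_
      have := hK0 i
      rwa [one_smul] at this
    linarith
  have hind : ∀ k, 1 ≤ k → k < K → ∑ i, Int.fract (z i (k • y)) = 1 := by
    intro k hk
    induction k, hk using Nat.le_induction with
    | base =>
      intro _
      rw [one_smul]
      exact hy
    | succ k hk ih =>
      intro hkK
      have h1 := ih (by omega)
      have h2 : ∑ i, Int.fract (z i ((k + 1) • y)) ≤
          ∑ i, Int.fract (z i (k • y)) + ∑ i, Int.fract (z i y) := by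
        rw [← Finset.sum_add_distrib]
        refine Finset.sum_le_sum fun i _ => ?_
        rw [add_smul, one_smul, map_add]
        exact Int.fract_add_le _ _
      rcases FRC_cases z hsum H2 H1 ((k + 1) • y) with h3 | ⟨_, h3 | h3⟩
      · exact absurd h3 (hmin (k + 1) (by omega) hkK)
      · exact h3
      · rw [h1, hy, h3] at h2
        norm_num at h2
  have h1 := hind (K - 1) (by omega) (by omega)
  have h2 : ∀ i, Int.fract (z i ((K - 1) • y)) = 1 - Int.fract (z i y) := by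
    intro i
    have h3 : (K - 1) • y = K • y - y := by
      rw [eq_sub_iff_add_eq]
      conv_lhs => rw [← one_smul ℕ y, smul_smul, mul_one, ← add_smul]
      congr 1
      omega
    obtain ⟨m, hm⟩ := FRC_int (hK0 i)
    rw [h3, map_sub, hm]
    have h4 : (m : ℝ) - z i y = m + -(z i y) := by ring
    rw [h4, Int.fract_intCast_add, Int.fract_neg (H1 y hy i)]
  have h3 : ∑ i, Int.fract (z i ((K - 1) • y)) = 4 - ∑ i, Int.fract (z i y) := by
    rw [Finset.sum_congr rfl fun i _ => h2 i, Finset.sum_sub_distrib]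
    simp
  rw [h1, hy] at h3
  norm_num at h3

theorem frc {G : Type} [AddCommGroup G] (z : Fin 4 → G →+ ℝ) (hsum : ∀ q, ∑ i, z i q = 0)
    (htor : ∀ q, ∃ K : ℕ, 1 ≤ K ∧ ∀ i, ∃ m : ℤ, z i (K • q) = m)
    (H2 : ∀ q, ∑ i, Int.fract (z i q) ≠ 2)
    (H1 : ∀ q, ∑ i, Int.fract (z i q) = 1 → ∀ i, Int.fract (z i q) ≠ 0) :
    ∀ q i, ∃ m : ℤ, z i q = m := by
  intro q i
  have h : ∀ i, Int.fract (z i q) = 0 := by
    rcases FRC_cases z hsum H2 H1 q with h | ⟨h, h1 | h1⟩
    · exact h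
    · exact (FRC_core z hsum htor H2 H1 q h1).elim
    · exfalso
      refine FRC_core z hsum htor H2 H1 (-q) ?_
      have h3 : ∑ i, Int.fract (z i (-q)) = 4 - ∑ i, Int.fract (z i q) := by
        rw [Finset.sum_congr rfl fun i _ => by rw [map_neg, Int.fract_neg (h i)],
          Finset.sum_sub_distrib]
        simp
      rw [h3, h1]
      norm_num
  exact FRC_int (h i)

end H66OD

end S_FRC

section S_PAR3

/-!
# Row PAR3 (about 120 lines): parity in the configuration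

`neq`: for `i ≠ j` neither `w i - w j` nor `w i + w j` is twice an integer vector.
PROOF: if `w i - w j = 2 y` then `p = (w i + w j)/2 = w j + y` is a point `c + integer`; by `hcov` some
`k` has `|a k ⬝ p| ≥ 1`, but `|a k ⬝ p| ≤ (|a k ⬝ w i| + |a k ⬝ w j|)/2` where both are `≤ 1` (`h1`, `h2`)
and at least one is `< 1` (as `k ≠ i` or `k ≠ j`). If `w i + w j = 2 y`: `p = (w i - w j)/2 = w i - y`,
the same.
`card`: `n ≤ 4`. PROOF: write `w i = c + toR (z i)`, `2 c = toR g`. Map `Fin n × Bool → (Fin 3 → ZMod 2)`,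
`(i,true) ↦ z i mod 2`, `(i,false) ↦ (z i + g) mod 2`. It is injective: `z i ≡ z j` gives
`w i - w j = toR (z i - z j)` twice an integer vector, so `i = j`; `z i + g ≡ z j + g` the same;
`z i ≡ z j + g`: then `z i + z j + g ≡ 0` (mod 2: `z i - z j - g ≡ 0` and `2 z j + 2 g ≡ 0`), and
`w i + w j = 2 c + toR(z i + z j) = toR (g + z i + z j)` is twice an integer vector: so `i = j`, and then
`g ≡ 0 mod 2`, `g = 2 h`, `c = toR h`, contradicting `hc`. So `2 n ≤ 8`.
-/

open Matrix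

namespace H66OD

theorem PAR3_aux {n : ℕ} (C : Cfg n) (i j : Fin n) (hij : i ≠ j) (s : ℝ) (hs : |s| = 1)
    (z : Fin 3 → ℤ) (h : C.c + toR z = (1 / 2 : ℝ) • (C.w i + s • C.w j)) : False := by
  obtain ⟨k, hk⟩ := C.hcov z
  rw [h, dotProduct_smul, dotProduct_add, dotProduct_smul, smul_eq_mul, smul_eq_mul] at hk
  have h1 : |1 / 2 * (C.a k ⬝ᵥ C.w i + s * C.a k ⬝ᵥ C.w j)|
      ≤ 1 / 2 * (|C.a k ⬝ᵥ C.w i| + |C.a k ⬝ᵥ C.w j|) := by
    rw [abs_mul, abs_of_pos (by norm_num : (0 : ℝ) < 1 / 2)]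
    apply mul_le_mul_of_nonneg_left _ (by norm_num)
    calc |C.a k ⬝ᵥ C.w i + s * C.a k ⬝ᵥ C.w j| ≤ |C.a k ⬝ᵥ C.w i| + |s * C.a k ⬝ᵥ C.w j| :=
          abs_add_le _ _
      _ = _ := by rw [abs_mul, hs, one_mul]
  rcases eq_or_ne k i with hki | hki
  · subst hki
    have h3 : |C.a k ⬝ᵥ C.w k| = 1 := by rw [C.h1 k, abs_one]
    have h4 := C.h2 j k (Ne.symm hij)
    linarith
  · have h3 := C.h2 i k (Ne.symm hki)
    have h4 : |C.a k ⬝ᵥ C.w j| ≤ 1 := by
      rcases eq_or_ne k j with hkj | hkj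
      · subst hkj
        rw [C.h1 k, abs_one]
      · exact (C.h2 j k (Ne.symm hkj)).le
    linarith

theorem par3_neq {n : ℕ} (C : Cfg n) (i j : Fin n) (hij : i ≠ j) :
    (¬ ∃ y : Fin 3 → ℤ, C.w i - C.w j = (2 : ℝ) • toR y) ∧
    (¬ ∃ y : Fin 3 → ℤ, C.w i + C.w j = (2 : ℝ) • toR y) := by
  obtain ⟨zj, hzj⟩ := C.hw j
  constructor
  · rintro ⟨y, hy⟩
    apply PAR3_aux C i j hij 1 abs_one (zj + y)
    ext k
    have h1 := congrFun hy k
    have h2 := congrFun hzj k
    simp only [Pi.sub_apply, Pi.add_apply, Pi.smul_apply, smul_eq_mul, toR_apply] at h1 h2 ⊢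
    push_cast
    linarith
  · rintro ⟨y, hy⟩
    obtain ⟨zi, hzi⟩ := C.hw i
    apply PAR3_aux C i j hij (-1) (by norm_num) (zi - y)
    ext k
    have h1 := congrFun hy k
    have h2 := congrFun hzi k
    simp only [Pi.sub_apply, Pi.add_apply, Pi.smul_apply, smul_eq_mul, toR_apply] at h1 h2 ⊢
    push_cast
    linarith

theorem PAR3_mod (u v : Fin 3 → ℤ) (h : ∀ k, ((u k : ℤ) : ZMod 2) = ((v k : ℤ) : ZMod 2)) :
    ∃ y : Fin 3 → ℤ, ∀ k, v k - u k = 2 * y k := by
  have h1 : ∀ k, ∃ y : ℤ, v k - u k = 2 * y := by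
    intro k
    have h2 := (ZMod.intCast_eq_intCast_iff_dvd_sub (u k) (v k) 2).mp (h k)
    obtain ⟨y, hy⟩ := h2
    exact ⟨y, by simpa using hy⟩
  choose y hy using h1
  exact ⟨y, hy⟩

theorem PAR3_cross {n : ℕ} (C : Cfg n) (z : Fin n → (Fin 3 → ℤ))
    (hz : ∀ i, C.w i = C.c + toR (z i)) (i j : Fin n)
    (h : ∀ k, ((z i k : ℤ) : ZMod 2) = ((z j k + C.g k : ℤ) : ZMod 2)) : False := by
  obtain ⟨y, hy⟩ := PAR3_mod (z i) (fun k => z j k + C.g k) h
  have hg := C.hg
  rcases eq_or_ne i j with hij | hij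
  · subst hij
    apply C.hc y
    ext k
    have h1 := hy k
    have h2 := congrFun hg k
    simp only [Pi.smul_apply, smul_eq_mul, toR_apply] at h1 h2 ⊢
    have h3 : C.g k = 2 * y k := by linarith
    rw [h3] at h2
    push_cast at h2
    linarith
  · apply (par3_neq C i j hij).2
    refine ⟨y + z i, ?_⟩
    ext k
    have h1 := hy k
    have h2 := congrFun hg k
    have h3 := congrFun (hz i) k
    have h4 := congrFun (hz j) k
    simp only [Pi.smul_apply, smul_eq_mul, toR_apply, Pi.add_apply] at h1 h2 h3 h4 ⊢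
    have h5 : (C.g k : ℝ) = 2 * y k + z i k - z j k := by
      have : C.g k = 2 * y k + z i k - z j k := by linarith
      rw [this]
      push_cast
      ring
    push_cast
    linarith

theorem PAR3_same {n : ℕ} (C : Cfg n) (z : Fin n → (Fin 3 → ℤ))
    (hz : ∀ i, C.w i = C.c + toR (z i)) (i j : Fin n)
    (h : ∀ k, ((z i k : ℤ) : ZMod 2) = ((z j k : ℤ) : ZMod 2)) : i = j := by
  by_contra hij
  obtain ⟨y, hy⟩ := PAR3_mod (z j) (z i) (fun k => (h k).symm)
  apply (par3_neq C i j hij).1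
  refine ⟨y, ?_⟩
  ext k
  have h1 := hy k
  have h3 := congrFun (hz i) k
  have h4 := congrFun (hz j) k
  simp only [Pi.smul_apply, smul_eq_mul, toR_apply, Pi.add_apply, Pi.sub_apply] at h1 h3 h4 ⊢
  have h5 : (z i k : ℝ) - z j k = 2 * y k := by exact_mod_cast h1
  linarith

theorem par3_card {n : ℕ} (C : Cfg n) : n ≤ 4 := by
  choose z hz using C.hw
  have hinj : Function.Injective (fun (p : Fin n × Bool) (k : Fin 3) =>
      (if p.2 then ((z p.1 k : ℤ) : ZMod 2) else ((z p.1 k + C.g k : ℤ) : ZMod 2))) := by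
    rintro ⟨i, b⟩ ⟨j, b'⟩ h
    have h' : ∀ k, (if b then ((z i k : ℤ) : ZMod 2) else ((z i k + C.g k : ℤ) : ZMod 2))
        = (if b' then ((z j k : ℤ) : ZMod 2) else ((z j k + C.g k : ℤ) : ZMod 2)) :=
      fun k => congrFun h k
    cases b <;> cases b'
    · have h2 := PAR3_same C z hz i j (by
        intro k
        have := h' k
        simpa using this)
      rw [h2]
    · exfalso
      exact PAR3_cross C z hz j i (by
        intro k
        have := (h' k).symm
        simpa using this)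
    · exfalso
      exact PAR3_cross C z hz i j (by
        intro k
        have := h' k
        simpa using this)
    · have h2 := PAR3_same C z hz i j (by
        intro k
        have := h' k
        simpa using this)
      rw [h2]
  have hcard := Fintype.card_le_of_injective _ hinj
  simp [Fintype.card_prod, ZMod.card] at hcard
  omega

end H66OD

end S_PAR3

section S_IND

/-!
# Row IND (about 120 lines): any three touching points are linearly independent

PROOF. Let `g1,g2,g3 : Fin 3 → ℤ` be the integer vectors with `toR (g l) = 2 • w _` (`w = c + toR z`,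
so `g l = g + 2 z`). All are `≡ g` mod 2, and `g` is not `≡ 0` mod 2 (else `c` would be an integer
vector, `C.hc`). Suppose the three `w`'s are linearly dependent over `ℝ`; then the integer matrix with
rows `g l` has determinant zero, and there is an integer relation `x1 g1 + x2 g2 + x3 g3 = 0`,
`(x1,x2,x3) ≠ 0` (`Matrix.exists_vecMul_eq_zero_iff` over ℤ). Dividing by 2 as long as all `x` are even
(infinite descent, or choose the relation with minimal `Σ |x|`, or divide by the gcd) we may assume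
that not all `x` are even. Modulo 2: `(x1+x2+x3) g ≡ 0`, so `x1+x2+x3` is even (some coordinate of `g` is
odd). Hence exactly two of the `x` are odd, say `x1, x2` odd and `x3` even (three symmetric cases).
Modulo 4: `x3 g3 ≡ 0` or `≡ 2 g3 ≡ 2 g2` (as `g3 ≡ g2` mod 2) mod 4. `x1, x2 ≡ ±1` mod 4. So
`g1 ≡ ± g2` or `g1 ≡ ± g2 + 2 g2 ≡ ∓ g2` mod 4. So in all cases `g1 ≡ g2` or `g1 ≡ -g2` mod 4, i.e.
`2 (w1 - w2)` or `2 (w1 + w2)` is 4 times an integer vector, contradicting `par3_neq`.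
-/

open Matrix

namespace H66OD

theorem IND_key {n : ℕ} (C : Cfg n) (i j : Fin n) (hij : i ≠ j) (zi zj zk : Fin 3 → ℤ)
    (hwi : C.w i = C.c + toR zi) (hwj : C.w j = C.c + toR zj)
    (y0 y1 y2 : ℤ) (h0 : Odd y0) (h1 : Odd y1) (h2 : Even y2)
    (hrel : ∀ s, y0 * (C.g s + 2 * zi s) + y1 * (C.g s + 2 * zj s) + y2 * (C.g s + 2 * zk s) = 0) :
    False := by
  obtain ⟨a, rfl⟩ := h0
  obtain ⟨b, rfl⟩ := h1
  obtain ⟨m, rfl⟩ := h2
  rcases Int.even_or_odd (a + b + m) with ⟨q, hq⟩ | ⟨q, hq⟩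
  · -- the sum
    refine (par3_neq C i j hij).2 ⟨fun s => -((q + q - a - q) * (C.g s + 2 * zj s) +
      m * (zk s - zj s)) * (2 * a + 1) -
      (a ^ 2 + a) * ((C.g s + 2 * zi s) + (C.g s + 2 * zj s)), ?_⟩
    have hc : (2 : ℝ) • C.c = toR C.g := C.hg.symm
    have key : ∀ s, C.g s + zi s + zj s = 2 * (-((q + q - a - q) * (C.g s + 2 * zj s) +
      m * (zk s - zj s)) * (2 * a + 1) -
      (a ^ 2 + a) * ((C.g s + 2 * zi s) + (C.g s + 2 * zj s))) := by
      intro s
      have hs := hrel s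
      have hb : b = q + q - a - m := by linarith
      subst hb
      refine mul_left_cancel₀ (two_ne_zero (α := ℤ)) ?_
      linear_combination (2 * a + 1) * hs
    rw [hwi, hwj]
    ext s
    have hcs := congrFun hc s
    simp only [Pi.smul_apply, smul_eq_mul, toR_apply] at hcs
    have ks := congrArg (fun t : ℤ => (t : ℝ)) (key s)
    simp only [Pi.add_apply, toR_apply, Pi.smul_apply, smul_eq_mul]
    push_cast at ks ⊢
    linarith
  · refine (par3_neq C i j hij).1 ⟨fun s => -((q + 1) * (C.g s + 2 * zj s) +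
      m * (zk s - zj s)) * (2 * a + 1) -
      (a ^ 2 + a) * ((C.g s + 2 * zi s) - (C.g s + 2 * zj s)), ?_⟩
    have key : ∀ s, zi s - zj s = 2 * (-((q + 1) * (C.g s + 2 * zj s) +
      m * (zk s - zj s)) * (2 * a + 1) -
      (a ^ 2 + a) * ((C.g s + 2 * zi s) - (C.g s + 2 * zj s))) := by
      intro s
      have hs := hrel s
      have hb : b = 2 * q + 1 - a - m := by linarith
      subst hb
      refine mul_left_cancel₀ (two_ne_zero (α := ℤ)) ?_
      linear_combination (2 * a + 1) * hs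
    rw [hwi, hwj]
    ext s
    have ks := congrArg (fun t : ℤ => (t : ℝ)) (key s)
    simp only [Pi.sub_apply, Pi.add_apply, toR_apply, Pi.smul_apply, smul_eq_mul]
    push_cast at ks ⊢
    linarith

theorem IND_desc (M : Matrix (Fin 3) (Fin 3) ℤ) : ∀ (N : ℕ) (x : Fin 3 → ℤ),
    (x 0).natAbs + (x 1).natAbs + (x 2).natAbs ≤ N → x ≠ 0 → x ᵥ* M = 0 →
    ∃ y : Fin 3 → ℤ, y ᵥ* M = 0 ∧ ∃ l, Odd (y l) := by
  intro N
  induction N with
  | zero =>
    intro x hx hne _
    exfalso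
    apply hne
    funext l
    fin_cases l
    · show x 0 = 0
      omega
    · show x 1 = 0
      omega
    · show x 2 = 0
      omega
  | succ N ih =>
    intro x hx hne hrel
    by_cases h : ∃ l, Odd (x l)
    · exact ⟨x, hrel, h⟩
    · push Not at h
      have h' : ∀ l, ∃ m, x l = m + m := fun l => Int.not_odd_iff_even.1 (h l)
      choose y hy using h'
      have hxy : x = (2 : ℤ) • y := by
        funext l
        rw [hy l]
        simp [two_mul]
      have hyne : y ≠ 0 := by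
        rintro rfl
        apply hne
        rw [hxy, smul_zero]
      refine ih y ?_ hyne ?_
      · have h0 := hy 0
        have h1 := hy 1
        have h2 := hy 2
        have hpos : y 0 ≠ 0 ∨ y 1 ≠ 0 ∨ y 2 ≠ 0 := by
          by_contra hcon
          push Not at hcon
          apply hyne
          funext l
          fin_cases l
          · exact hcon.1
          · exact hcon.2.1
          · exact hcon.2.2
        omega
      · rw [hxy, Matrix.smul_vecMul] at hrel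
        funext s
        have := congrFun hrel s
        simp only [Pi.smul_apply, smul_eq_mul, Pi.zero_apply] at this ⊢
        omega

theorem ind {n : ℕ} (C : Cfg n) (i j k : Fin n) (hij : i ≠ j) (hik : i ≠ k) (hjk : j ≠ k) :
    LinearIndependent ℝ ![C.w i, C.w j, C.w k] := by
  obtain ⟨zi, hzi⟩ := C.hw i
  obtain ⟨zj, hzj⟩ := C.hw j
  obtain ⟨zk, hzk⟩ := C.hw k
  obtain ⟨M, hM⟩ : ∃ M : Matrix (Fin 3) (Fin 3) ℤ, M = Matrix.of ![fun s => C.g s + 2 * zi s,
    fun s => C.g s + 2 * zj s, fun s => C.g s + 2 * zk s] := ⟨_, rfl⟩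
  have hc : ∀ s, (C.g s : ℝ) = 2 * C.c s := by
    intro s
    have := congrFun C.hg s
    simpa using this
  have hMW : M.map (fun t : ℤ => (t : ℝ)) = (2 : ℝ) • Matrix.of ![C.w i, C.w j, C.w k] := by
    ext l s
    rw [hM, hzi, hzj, hzk]
    fin_cases l <;>
    · simp only [Matrix.map_apply, Matrix.of_apply, Matrix.smul_apply, smul_eq_mul, Fin.zero_eta,
        Fin.mk_one, Fin.reduceFinMk, Matrix.cons_val_zero, Matrix.cons_val_one, Matrix.cons_val,
        Pi.add_apply, toR_apply]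
      push_cast
      rw [hc]
      ring
  by_cases hdet : M.det = 0
  · exfalso
    obtain ⟨x, hx, hxM⟩ := Matrix.exists_vecMul_eq_zero_iff.2 hdet
    obtain ⟨y, hyM, l, hl⟩ := IND_desc M _ x le_rfl hx hxM
    have hrel : ∀ s, y 0 * (C.g s + 2 * zi s) + y 1 * (C.g s + 2 * zj s) +
        y 2 * (C.g s + 2 * zk s) = 0 := by
      intro s
      have := congrFun hyM s
      rw [hM] at this
      simpa [Matrix.vecMul, dotProduct, Fin.sum_univ_three] using this
    -- an odd coordinate of g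
    obtain ⟨r, hr⟩ : ∃ r, Odd (C.g r) := by
      by_contra hcon
      push Not at hcon
      have h' : ∀ r, ∃ m, C.g r = m + m := fun r => Int.not_odd_iff_even.1 (hcon r)
      choose z hz using h'
      refine C.hc z ?_
      funext s
      have h1 := hc s
      rw [hz s] at h1
      push_cast at h1
      show (z s : ℝ) = C.c s
      linarith
    have hpar : Even (y 0 + y 1 + y 2) := by
      have h1 := hrel r
      have h2 : (y 0 + y 1 + y 2) * C.g r = -(2 * (y 0 * zi r + y 1 * zj r + y 2 * zk r)) := by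
        linarith
      have h3 : Even ((y 0 + y 1 + y 2) * C.g r) := by
        rw [h2]
        exact (even_two_mul _).neg
      rcases Int.even_mul.1 h3 with h4 | h4
      · exact h4
      · exact absurd h4 (Int.not_even_iff_odd.2 hr)
    have hl' : Odd (y 0) ∨ Odd (y 1) ∨ Odd (y 2) := by
      fin_cases l
      · exact Or.inl hl
      · exact Or.inr (Or.inl hl)
      · exact Or.inr (Or.inr hl)
    rcases Int.even_or_odd (y 0) with e0 | o0
    · rcases Int.even_or_odd (y 1) with e1 | o1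
      · have o2 : Odd (y 2) := by
          rcases hl' with h | h | h
          · exact absurd e0 (Int.not_even_iff_odd.2 h)
          · exact absurd e1 (Int.not_even_iff_odd.2 h)
          · exact h
        have : Odd (y 0 + y 1 + y 2) := (e0.add e1).add_odd o2
        exact (Int.not_even_iff_odd.2 this) hpar
      · have o2 : Odd (y 2) := by
          rcases Int.even_or_odd (y 2) with e2 | o2
          · have : Odd (y 0 + y 1 + y 2) := (e0.add_odd o1).add_even e2
            exact absurd hpar (Int.not_even_iff_odd.2 this)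
          · exact o2
        exact IND_key C j k hjk zj zk zi hzj hzk (y 1) (y 2) (y 0) o1 o2 e0
          (fun s => by have := hrel s; linarith)
    · rcases Int.even_or_odd (y 1) with e1 | o1
      · have o2 : Odd (y 2) := by
          rcases Int.even_or_odd (y 2) with e2 | o2
          · have : Odd (y 0 + y 1 + y 2) := (o0.add_even e1).add_even e2
            exact absurd hpar (Int.not_even_iff_odd.2 this)
          · exact o2
        exact IND_key C i k hik zi zk zj hzi hzk (y 0) (y 2) (y 1) o0 o2 e1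
          (fun s => by have := hrel s; linarith)
      · have e2 : Even (y 2) := by
          rcases Int.even_or_odd (y 2) with e2 | o2
          · exact e2
          · have : Odd (y 0 + y 1 + y 2) := (o0.add_odd o1).add_odd o2
            exact absurd hpar (Int.not_even_iff_odd.2 this)
        exact IND_key C i j hij zi zj zk hzi hzj (y 0) (y 1) (y 2) o0 o1 e2 hrel
  · have h1 : (Matrix.of ![C.w i, C.w j, C.w k]).det ≠ 0 := by
      intro h0
      apply hdet
      have h2 : (M.map (fun t : ℤ => (t : ℝ))).det = 0 := by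
        rw [hMW, Matrix.det_smul, h0, mul_zero]
      have h3 : (M.map (fun t : ℤ => (t : ℝ))).det = ((M.det : ℤ) : ℝ) :=
        ((Int.castRingHom ℝ).map_det M).symm
      rw [h3] at h2
      exact_mod_cast h2
    have h2 := Matrix.linearIndependent_rows_of_det_ne_zero h1
    exact h2

end H66OD

end S_IND

section S_OCT

/-!
# Row OCT (about 60 lines)

A point `p = c + toR z` of the coset with `p = s 0 • w i + s 1 • w j + s 2 • w k`,
`|s 0| + |s 1| + |s 2| ≤ 1`, has some `|s l| = 1`.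
PROOF. Suppose not, so `|s l| < 1` for all `l`. `hcov`: some `m` with `|a m ⬝ p| ≥ 1`.
`|a m ⬝ p| ≤ |s 0| |a m ⬝ w i| + |s 1| |a m ⬝ w j| + |s 2| |a m ⬝ w k|`.
If `m` is none of `i,j,k`: all three `|a m ⬝ w _| < 1`, so the sum is `< |s0|+|s1|+|s2| ≤ 1` if some
`s l ≠ 0`, and is `0 < 1` if all `s l = 0`. If `m = i` (others symmetric): `a i ⬝ w i = 1`, so the bound is
`|s 0| + |s 1| x + |s 2| y` with `x, y < 1`: if `s 1 = s 2 = 0` it is `|s 0| < 1`, else it is
`< |s0|+|s1|+|s2| ≤ 1`. Contradiction.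
-/

open Matrix

namespace H66OD

theorem OCT_real (S0 S1 S2 x0 x1 x2 : ℝ) (h0 : 0 ≤ S0) (h1 : 0 ≤ S1) (h2 : 0 ≤ S2)
    (hS : S0 + S1 + S2 ≤ 1) (hS0 : S0 < 1) (hx0 : x0 ≤ 1) (hx1 : x1 < 1) (hx2 : x2 < 1) :
    S0 * x0 + S1 * x1 + S2 * x2 < 1 := by
  have a0 : S0 * x0 ≤ S0 := by nlinarith
  have a1 : S1 * x1 ≤ S1 := by nlinarith
  have a2 : S2 * x2 ≤ S2 := by nlinarith
  rcases h1.eq_or_lt with h1' | h1'
  · rcases h2.eq_or_lt with h2' | h2'
    · rw [← h1', ← h2']
      linarith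
    · have : S2 * x2 < S2 := by nlinarith
      linarith
  · have : S1 * x1 < S1 := by nlinarith
    linarith

theorem oct {n : ℕ} (C : Cfg n) (i j k : Fin n) (hij : i ≠ j) (hik : i ≠ k) (hjk : j ≠ k)
    (z : Fin 3 → ℤ) (s : Fin 3 → ℝ)
    (hz : C.c + toR z = s 0 • C.w i + s 1 • C.w j + s 2 • C.w k)
    (hs : |s 0| + |s 1| + |s 2| ≤ 1) : ∃ l, |s l| = 1 := by
  by_contra hcon
  push Not at hcon
  have p0 := abs_nonneg (s 0)
  have p1 := abs_nonneg (s 1)
  have p2 := abs_nonneg (s 2)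
  have q0 : |s 0| < 1 := lt_of_le_of_ne (by linarith) (hcon 0)
  have q1 : |s 1| < 1 := lt_of_le_of_ne (by linarith) (hcon 1)
  have q2 : |s 2| < 1 := lt_of_le_of_ne (by linarith) (hcon 2)
  obtain ⟨m, hm⟩ := C.hcov z
  rw [hz, dotProduct_add, dotProduct_add, dotProduct_smul, dotProduct_smul, dotProduct_smul,
    smul_eq_mul, smul_eq_mul, smul_eq_mul] at hm
  have hb : |s 0 * (C.a m ⬝ᵥ C.w i) + s 1 * (C.a m ⬝ᵥ C.w j) + s 2 * (C.a m ⬝ᵥ C.w k)|
      ≤ |s 0| * |C.a m ⬝ᵥ C.w i| + |s 1| * |C.a m ⬝ᵥ C.w j| + |s 2| * |C.a m ⬝ᵥ C.w k| := by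
    rw [← abs_mul, ← abs_mul, ← abs_mul]
    exact abs_add_three _ _ _
  have hdi : m ≠ i → |C.a m ⬝ᵥ C.w i| < 1 := fun h => C.h2 i m (Ne.symm h)
  have hdj : m ≠ j → |C.a m ⬝ᵥ C.w j| < 1 := fun h => C.h2 j m (Ne.symm h)
  have hdk : m ≠ k → |C.a m ⬝ᵥ C.w k| < 1 := fun h => C.h2 k m (Ne.symm h)
  rcases eq_or_ne m i with hmi | hmi
  · have e : |C.a m ⬝ᵥ C.w i| = 1 := by rw [hmi, C.h1 i, abs_one]
    have := OCT_real (|s 0|) (|s 1|) (|s 2|) _ _ _ p0 p1 p2 hs q0 e.le
      (hdj (by rw [hmi]; exact hij)) (hdk (by rw [hmi]; exact hik))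
    linarith
  · rcases eq_or_ne m j with hmj | hmj
    · have e : |C.a m ⬝ᵥ C.w j| = 1 := by rw [hmj, C.h1 j, abs_one]
      have := OCT_real (|s 1|) (|s 0|) (|s 2|) _ _ _ p1 p0 p2 (by linarith) q1 e.le
        (hdi hmi) (hdk (by rw [hmj]; exact hjk))
      linarith
    · rcases eq_or_ne m k with hmk | hmk
      · have e : |C.a m ⬝ᵥ C.w k| = 1 := by rw [hmk, C.h1 k, abs_one]
        have := OCT_real (|s 2|) (|s 0|) (|s 1|) _ _ _ p2 p0 p1 (by linarith) q2 e.le
          (hdi hmi) (hdj hmj)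
        linarith
      · have := OCT_real (|s 0|) (|s 1|) (|s 2|) _ _ _ p0 p1 p2 hs q0 (hdi hmi).le
          (hdj hmj) (hdk hmk)
        linarith

end H66OD

end S_OCT

section S_GEN

/-!
# Row GEN (about 200 lines): any three touching points generate

Every integer vector is `m0 w_i + m1 w_j + m2 w_k` with integers `m`, `m0+m1+m2` even.

PROOF. Write `w0,w1,w2` for the three points, `w l = c + toR (ζ l)`. They are a basis of `ℝ³` (`ind`);
let `t l : (Fin 3 → ℝ) → ℝ` be the (linear) coordinates. Put `z 0 = (t0+t1+t2)/2`, `z 1 = (t0-t1-t2)/2`,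
`z 2 = (-t0+t1-t2)/2`, `z 3 = (-t0-t1+t2)/2` as additive maps on `G = (Fin 3 → ℤ)` (composed with `toR`).
Sum zero. Apply `frc`; its conclusion gives for `y` integers `z i y`, and
`t0 = z 0 + z 1`, `t1 = z 0 + z 2`, `t2 = z 0 + z 3`, `t0+t1+t2 = 2 z 0`: the claim.
htor: the integer vectors `g l` with `toR (g l) = 2 • w l` are linearly independent; with
`D = det ≠ 0` of the integer matrix (rows `g l`), `D • q` is an integer combination of the `g l`
(adjugate matrix), so `t l (D q)` is an even integer, `z i (D q)` is an integer; take `K = |D|`.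
H1, H2: let `q` be an integer vector, `f i = fract (z i q)`, `Σ f i = S`, where `S = 2` and `δ = 0`, or
`S = 1`, `f i0 = 0` and `δ i0 = 1`, `δ i = 0` otherwise. So `Σ δ i = 2 - S`.
Let `k i = ⌊z i q⌋`, `Σ k i = -S`, and `n i = k i + 1 - δ i` for `i = 0,1`, `n i = k i - δ i` for
`i = 2,3`. `Σ n i = -S + 2 - Σ δ = 0`. Let `m0 = n 0 + n 1`, `m1 = n 0 + n 2`, `m2 = n 0 + n 3`,
`m0+m1+m2 = 2 n 0`. The vector `N = m0 w0 + m1 w1 + m2 w2` is an integer vector:
`N = (m0+m1+m2) c + Σ m l toR (ζ l) = toR (n 0 • g + Σ m l • ζ l)`; its `z`-values are `n i`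
(using `Σ n i = 0`: e.g. `z 1 (N) = (m0-m1-m2)/2 = (n 1 - n 0 - n 2 - n 3)/2 = n 1`).
`p = w0 + toR q - N` is a point `c + integer`, with `z i p = z i (w0) + z i q - n i` where
`z (w0) = (1/2,1/2,-1/2,-1/2)`, so `z i p = f i - 1/2 + δ i`, of absolute value `≤ 1/2` (for `δ i = 1`
we have `f i = 0`). The coordinates `s l = t l (p)` satisfy `|s0|+|s1|+|s2| ≤ 1` since
`s0+s1+s2 = 2 z0`, `s0-s1-s2 = 2 z1`, `-s0+s1-s2 = 2 z2`, `-s0-s1+s2 = 2 z3` have absolute value `≤ 1`
(all eight sign patterns up to sign). By `oct` some `|s l| = 1`, so the other two coordinates vanish and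
all `z i p = ±1/2`; so `f i - 1/2 + δ i = ± 1/2`: `f i ∈ {0,1}` or (`δ i = 1`) `f i = 0`; as `f i < 1`
all `f i = 0`, so `S = 0`: contradiction. (For H1: `S = 1` and some `f i0 = 0`.)
-/

open Matrix

namespace H66OD

theorem GEN_coord {w : Fin 3 → (Fin 3 → ℝ)} (h : LinearIndependent ℝ w) :
    ∃ t : Fin 3 → ((Fin 3 → ℝ) →ₗ[ℝ] ℝ), (∀ x, x = t 0 x • w 0 + t 1 x • w 1 + t 2 x • w 2) ∧
      ∀ l m, t l (w m) = if l = m then 1 else 0 := by
  have hcard : Fintype.card (Fin 3) = Module.finrank ℝ (Fin 3 → ℝ) := by simp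
  let b := basisOfLinearIndependentOfCardEqFinrank h hcard
  have hb : ∀ l, b l = w l := fun l => by
    simp [b]
  refine ⟨fun l => b.coord l, ?_, ?_⟩
  · intro x
    have h1 := b.sum_repr x
    rw [Fin.sum_univ_three, hb, hb, hb] at h1
    exact h1.symm
  · intro l m
    rw [← hb m, Module.Basis.coord_apply, Module.Basis.repr_self, Finsupp.single_apply]
    simp only [eq_comm]

/-- `toR` as an additive map -/
def GEN_T : (Fin 3 → ℤ) →+ (Fin 3 → ℝ) where
  toFun := toR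
  map_zero' := toR_zero
  map_add' := toR_add

theorem GEN_abs {P0 P1 P2 P3 s0 s1 s2 : ℝ} (h0 : |P0| ≤ 1 / 2) (h1 : |P1| ≤ 1 / 2) (h2 : |P2| ≤ 1 / 2)
    (h3 : |P3| ≤ 1 / 2) (e0 : s0 + s1 + s2 = 2 * P0) (e1 : s0 - s1 - s2 = 2 * P1)
    (e2 : -s0 + s1 - s2 = 2 * P2) (e3 : -s0 - s1 + s2 = 2 * P3) : |s0| + |s1| + |s2| ≤ 1 := by
  rw [abs_le] at h0 h1 h2 h3
  obtain ⟨a0, b0⟩ := h0
  obtain ⟨a1, b1⟩ := h1
  obtain ⟨a2, b2⟩ := h2
  obtain ⟨a3, b3⟩ := h3
  rcases abs_cases s0 with ⟨c0, _⟩ | ⟨c0, _⟩ <;> rcases abs_cases s1 with ⟨c1, _⟩ | ⟨c1, _⟩ <;>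
    rcases abs_cases s2 with ⟨c2, _⟩ | ⟨c2, _⟩ <;> rw [c0, c1, c2] <;> linarith

theorem GEN_one {P s0 s1 s2 : ℝ} {l : Fin 3} (hs : |s0| + |s1| + |s2| ≤ 1) (hl : |(![s0, s1, s2] : Fin 3 → ℝ) l| = 1)
    (e : s0 + s1 + s2 = 2 * P ∨ s0 - s1 - s2 = 2 * P ∨ -s0 + s1 - s2 = 2 * P ∨ -s0 - s1 + s2 = 2 * P) :
    |P| = 1 / 2 := by
  have n0 := abs_nonneg s0
  have n1 := abs_nonneg s1
  have n2 := abs_nonneg s2
  have key : ∀ x y z : ℝ, |x| = 1 → |x| + |y| + |z| ≤ 1 → y = 0 ∧ z = 0 := by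
    intro x y z hx hxyz
    have ny := abs_nonneg y
    have nz := abs_nonneg z
    constructor
    · exact abs_eq_zero.1 (by linarith)
    · exact abs_eq_zero.1 (by linarith)
  have fin : ∀ x : ℝ, |x| = 1 → (x = 2 * P ∨ -x = 2 * P) → |P| = 1 / 2 := by
    intro x hx h
    have h2 : |2 * P| = 1 := by
      rcases h with h | h
      · rw [← h]; exact hx
      · rw [← h, abs_neg]; exact hx
    rw [abs_mul, abs_two] at h2
    linarith
  fin_cases l
  · have hl' : |s0| = 1 := hl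
    obtain ⟨z1, z2⟩ := key s0 s1 s2 hl' hs
    subst z1
    subst z2
    apply fin s0 hl'
    rcases e with e | e | e | e
    · left; linarith
    · left; linarith
    · right; linarith
    · right; linarith
  · have hl' : |s1| = 1 := hl
    obtain ⟨z1, z2⟩ := key s1 s0 s2 hl' (by linarith)
    subst z1
    subst z2
    apply fin s1 hl'
    rcases e with e | e | e | e
    · left; linarith
    · right; linarith
    · left; linarith
    · right; linarith
  · have hl' : |s2| = 1 := hl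
    obtain ⟨z1, z2⟩ := key s2 s0 s1 hl' (by linarith)
    subst z1
    subst z2
    apply fin s2 hl'
    rcases e with e | e | e | e
    · left; linarith
    · right; linarith
    · right; linarith
    · left; linarith

theorem gen {n : ℕ} (C : Cfg n) (i j k : Fin n) (hij : i ≠ j) (hik : i ≠ k) (hjk : j ≠ k)
    (y : Fin 3 → ℤ) : ∃ m0 m1 m2 : ℤ,
      toR y = (m0 : ℝ) • C.w i + (m1 : ℝ) • C.w j + (m2 : ℝ) • C.w k ∧ Even (m0 + m1 + m2) := by
  obtain ⟨t, hx, htw⟩ := GEN_coord (ind C i j k hij hik hjk)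
  have hx' : ∀ x, x = t 0 x • C.w i + t 1 x • C.w j + t 2 x • C.w k := hx
  have t00 : t 0 (C.w i) = 1 := by simpa using htw 0 0
  have t01 : t 0 (C.w j) = 0 := by simpa using htw 0 1
  have t02 : t 0 (C.w k) = 0 := by simpa using htw 0 2
  have t10 : t 1 (C.w i) = 0 := by simpa using htw 1 0
  have t11 : t 1 (C.w j) = 1 := by simpa using htw 1 1
  have t12 : t 1 (C.w k) = 0 := by simpa using htw 1 2
  have t20 : t 2 (C.w i) = 0 := by simpa using htw 2 0
  have t21 : t 2 (C.w j) = 0 := by simpa using htw 2 1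
  have t22 : t 2 (C.w k) = 1 := by simpa using htw 2 2
  obtain ⟨ζ0, hζ0⟩ := C.hw i
  obtain ⟨ζ1, hζ1⟩ := C.hw j
  obtain ⟨ζ2, hζ2⟩ := C.hw k
  obtain ⟨zl, hzl⟩ : ∃ zl : Fin 4 → ((Fin 3 → ℝ) →ₗ[ℝ] ℝ), zl =
      ![(1 / 2 : ℝ) • (t 0 + t 1 + t 2), (1 / 2 : ℝ) • (t 0 - t 1 - t 2), (1 / 2 : ℝ) • (-t 0 + t 1 - t 2),
        (1 / 2 : ℝ) • (-t 0 - t 1 + t 2)] := ⟨_, rfl⟩
  have z0 : ∀ x, zl 0 x = (t 0 x + t 1 x + t 2 x) / 2 := fun x => by rw [hzl]; simp; ring
  have z1 : ∀ x, zl 1 x = (t 0 x - t 1 x - t 2 x) / 2 := fun x => by rw [hzl]; simp; ring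
  have z2 : ∀ x, zl 2 x = (-t 0 x + t 1 x - t 2 x) / 2 := fun x => by rw [hzl]; simp; ring
  have z3 : ∀ x, zl 3 x = (-t 0 x - t 1 x + t 2 x) / 2 := fun x => by rw [hzl]; simp; ring
  obtain ⟨z, hz⟩ : ∃ z : Fin 4 → (Fin 3 → ℤ) →+ ℝ, ∀ l q, z l q = zl l (toR q) :=
    ⟨fun l => (zl l).toAddMonoidHom.comp GEN_T, fun l q => rfl⟩
  have hsum : ∀ q, ∑ l, z l q = 0 := by
    intro q
    rw [Fin.sum_univ_four, hz, hz, hz, hz, z0, z1, z2, z3]
    ring
  -- torsion
  have htor : ∀ q, ∃ K : ℕ, 1 ≤ K ∧ ∀ l, ∃ m : ℤ, z l (K • q) = m := by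
    intro q
    obtain ⟨M, hM⟩ : ∃ M : Matrix (Fin 3) (Fin 3) ℤ, M =
      Matrix.of ![C.g + (2 : ℤ) • ζ0, C.g + (2 : ℤ) • ζ1, C.g + (2 : ℤ) • ζ2] := ⟨_, rfl⟩
    have hrow : ∀ r : Fin 3 → ℤ, toR (r ᵥ* M) =
        (2 * (r 0 : ℝ)) • C.w i + (2 * (r 1 : ℝ)) • C.w j + (2 * (r 2 : ℝ)) • C.w k := by
      intro r
      have e1 : r ᵥ* M = r 0 • (C.g + (2 : ℤ) • ζ0) + r 1 • (C.g + (2 : ℤ) • ζ1) + r 2 • (C.g + (2 : ℤ) • ζ2) := by
        rw [hM]
        ext a
        simp [Matrix.vecMul, dotProduct, Fin.sum_univ_three]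
        ring
      rw [e1, toR_add, toR_add, toR_zsmul, toR_zsmul, toR_zsmul, toR_add, toR_add, toR_add, toR_zsmul, toR_zsmul,
        toR_zsmul, C.hg, hζ0, hζ1, hζ2]
      ext a
      simp only [Pi.add_apply, Pi.smul_apply, smul_eq_mul]
      push_cast
      ring
    have htr : ∀ r : Fin 3 → ℤ, t 0 (toR (r ᵥ* M)) = 2 * r 0 ∧ t 1 (toR (r ᵥ* M)) = 2 * r 1 ∧
        t 2 (toR (r ᵥ* M)) = 2 * r 2 := by
      intro r
      rw [hrow]
      simp only [map_add, map_smul, smul_eq_mul, t00, t01, t02, t10, t11, t12, t20, t21, t22]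
      refine ⟨by ring, by ring, by ring⟩
    have hdet : M.det ≠ 0 := by
      intro h0
      obtain ⟨v, hv, hv0⟩ := Matrix.exists_vecMul_eq_zero_iff.2 h0
      apply hv
      obtain ⟨a0, a1, a2⟩ := htr v
      rw [hv0, toR_zero, map_zero] at a0 a1 a2
      funext a
      fin_cases a
      · have : (v 0 : ℝ) = 0 := by linarith
        exact_mod_cast this
      · have : (v 1 : ℝ) = 0 := by linarith
        exact_mod_cast this
      · have : (v 2 : ℝ) = 0 := by linarith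
        exact_mod_cast this
    have hDq : M.det • q = (q ᵥ* M.adjugate) ᵥ* M := by
      rw [Matrix.vecMul_vecMul, Matrix.adjugate_mul, Matrix.vecMul_smul, Matrix.vecMul_one]
    have hint : ∀ l, ∃ m : ℤ, z l (M.det • q) = m := by
      intro l
      obtain ⟨a0, a1, a2⟩ := htr (q ᵥ* M.adjugate)
      rw [hDq]
      obtain ⟨r, hr⟩ : ∃ r : Fin 3 → ℤ, r = q ᵥ* M.adjugate := ⟨_, rfl⟩
      rw [← hr] at a0 a1 a2 ⊢
      fin_cases l
      · refine ⟨r 0 + r 1 + r 2, ?_⟩
        show z 0 (r ᵥ* M) = _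
        rw [hz, z0, a0, a1, a2]
        push_cast
        ring
      · refine ⟨r 0 - r 1 - r 2, ?_⟩
        show z 1 (r ᵥ* M) = _
        rw [hz, z1, a0, a1, a2]
        push_cast
        ring
      · refine ⟨-r 0 + r 1 - r 2, ?_⟩
        show z 2 (r ᵥ* M) = _
        rw [hz, z2, a0, a1, a2]
        push_cast
        ring
      · refine ⟨-r 0 - r 1 + r 2, ?_⟩
        show z 3 (r ᵥ* M) = _
        rw [hz, z3, a0, a1, a2]
        push_cast
        ring
    refine ⟨M.det.natAbs, Int.natAbs_pos.2 hdet, ?_⟩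
    intro l
    obtain ⟨m, hm⟩ := hint l
    rcases Int.natAbs_eq M.det with h | h
    · refine ⟨m, ?_⟩
      rw [← hm]
      congr 1
      conv_rhs => rw [h]
      rw [natCast_zsmul]
    · refine ⟨-m, ?_⟩
      push_cast
      rw [← hm, ← map_neg]
      congr 1
      conv_rhs => rw [h]
      rw [neg_smul, neg_neg, natCast_zsmul]
  -- the main claim
  have claim : ∀ (q : Fin 3 → ℤ) (δ : Fin 4 → ℤ), (∀ l, δ l = 0 ∨ (δ l = 1 ∧ Int.fract (z l q) = 0)) →
      (((∑ l, δ l : ℤ) : ℝ) = 2 - ∑ l, Int.fract (z l q)) → ∀ l, Int.fract (z l q) = 0 := by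
    intro q δ hδ hS
    have hk : ∀ l, z l q = (⌊z l q⌋ : ℝ) + Int.fract (z l q) := fun l => (Int.floor_add_fract _).symm
    have hsq := hsum q
    rw [Fin.sum_univ_four] at hsq
    rw [Fin.sum_univ_four, Fin.sum_univ_four] at hS
    push_cast at hS
    have k0 := hk 0
    have k1 := hk 1
    have k2 := hk 2
    have k3 := hk 3
    obtain ⟨f, hf⟩ : ∃ f : Fin 4 → ℝ, ∀ l, f l = Int.fract (z l q) := ⟨fun l => Int.fract (z l q), fun l => rfl⟩
    obtain ⟨κ, hκ⟩ : ∃ κ : Fin 4 → ℤ, ∀ l, κ l = ⌊z l q⌋ := ⟨fun l => ⌊z l q⌋, fun l => rfl⟩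
    rw [← hf, ← hκ] at k0 k1 k2 k3
    rw [← hf, ← hf, ← hf, ← hf] at hS
    obtain ⟨P, hP⟩ : ∃ P : Fin 4 → ℝ, ∀ l, P l = f l - 1 / 2 + δ l := ⟨fun l => f l - 1 / 2 + δ l, fun l => rfl⟩
    have hPle : ∀ l, |P l| ≤ 1 / 2 := by
      intro l
      have h1 : 0 ≤ f l := by rw [hf]; exact Int.fract_nonneg _
      have h2 : f l < 1 := by rw [hf]; exact Int.fract_lt_one _
      rw [hP, abs_le]
      rcases hδ l with h | ⟨h, h'⟩
      · rw [h]
        push_cast
        constructor <;> linarith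
      · rw [← hf] at h'
        rw [h, h']
        push_cast
        constructor <;> linarith
    -- the integers
    obtain ⟨n0, hn0⟩ : ∃ n0 : ℤ, n0 = κ 0 + 1 - δ 0 := ⟨_, rfl⟩
    obtain ⟨n1, hn1⟩ : ∃ n1 : ℤ, n1 = κ 1 + 1 - δ 1 := ⟨_, rfl⟩
    obtain ⟨n2, hn2⟩ : ∃ n2 : ℤ, n2 = κ 2 - δ 2 := ⟨_, rfl⟩
    obtain ⟨n3, hn3⟩ : ∃ n3 : ℤ, n3 = κ 3 - δ 3 := ⟨_, rfl⟩
    have hnR : (n0 : ℝ) + n1 + n2 + n3 = 0 := by
      rw [hn0, hn1, hn2, hn3]
      push_cast
      linarith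
    have ht0 : t 0 (toR q) = z 0 q + z 1 q := by rw [hz, hz, z0, z1]; ring
    have ht1 : t 1 (toR q) = z 0 q + z 2 q := by rw [hz, hz, z0, z2]; ring
    have ht2 : t 2 (toR q) = z 0 q + z 3 q := by rw [hz, hz, z0, z3]; ring
    obtain ⟨N, hN⟩ : ∃ N : Fin 3 → ℝ, N = ((n0 + n1 : ℤ) : ℝ) • C.w i + ((n0 + n2 : ℤ) : ℝ) • C.w j +
      ((n0 + n3 : ℤ) : ℝ) • C.w k := ⟨_, rfl⟩
    have hNint : N = toR (n0 • C.g + (n0 + n1) • ζ0 + (n0 + n2) • ζ1 + (n0 + n3) • ζ2) := by
      rw [hN, toR_add, toR_add, toR_add, toR_zsmul, toR_zsmul, toR_zsmul, toR_zsmul, C.hg, hζ0, hζ1, hζ2]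
      ext a
      simp only [Pi.add_apply, Pi.smul_apply, smul_eq_mul]
      push_cast
      linear_combination (C.c a) * hnR
    have hp : C.c + toR (ζ0 + q - (n0 • C.g + (n0 + n1) • ζ0 + (n0 + n2) • ζ1 + (n0 + n3) • ζ2)) =
        C.w i + toR q - N := by
      rw [toR_sub, toR_add, ← hNint, hζ0]
      abel
    obtain ⟨s, hs⟩ : ∃ s : Fin 3 → ℝ, s = ![P 0 + P 1, P 0 + P 2, P 0 + P 3] := ⟨_, rfl⟩
    have s0 : t 0 (C.w i + toR q - N) = P 0 + P 1 := by
      rw [hN]
      simp only [map_add, map_sub, map_smul, smul_eq_mul, t00, t01, t02]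
      rw [ht0, k0, k1, hP, hP, hn0, hn1]
      push_cast
      ring
    have s1 : t 1 (C.w i + toR q - N) = P 0 + P 2 := by
      rw [hN]
      simp only [map_add, map_sub, map_smul, smul_eq_mul, t10, t11, t12]
      rw [ht1, k0, k2, hP, hP, hn0, hn2]
      push_cast
      ring
    have s2 : t 2 (C.w i + toR q - N) = P 0 + P 3 := by
      rw [hN]
      simp only [map_add, map_sub, map_smul, smul_eq_mul, t20, t21, t22]
      rw [ht2, k0, k3, hP, hP, hn0, hn3]
      push_cast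
      ring
    have hPs : P 0 + P 1 + P 2 + P 3 = 0 := by
      rw [hP, hP, hP, hP]
      linarith
    have e0 : (P 0 + P 1) + (P 0 + P 2) + (P 0 + P 3) = 2 * P 0 := by linarith
    have e1 : (P 0 + P 1) - (P 0 + P 2) - (P 0 + P 3) = 2 * P 1 := by linarith
    have e2 : -(P 0 + P 1) + (P 0 + P 2) - (P 0 + P 3) = 2 * P 2 := by linarith
    have e3 : -(P 0 + P 1) - (P 0 + P 2) + (P 0 + P 3) = 2 * P 3 := by linarith
    have habs := GEN_abs (hPle 0) (hPle 1) (hPle 2) (hPle 3) e0 e1 e2 e3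
    obtain ⟨l, hl⟩ := oct C i j k hij hik hjk _ ![P 0 + P 1, P 0 + P 2, P 0 + P 3] (by
        rw [hp]
        have h5 := hx' (C.w i + toR q - N)
        rw [s0, s1, s2] at h5
        exact h5) habs
    have hall : ∀ m, |P m| = 1 / 2 := by
      intro m
      fin_cases m
      · exact GEN_one habs hl (Or.inl e0)
      · exact GEN_one habs hl (Or.inr (Or.inl e1))
      · exact GEN_one habs hl (Or.inr (Or.inr (Or.inl e2)))
      · exact GEN_one habs hl (Or.inr (Or.inr (Or.inr e3)))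
    intro m
    rcases hδ m with h | ⟨_, h'⟩
    · have h6 := hall m
      rw [hP, h] at h6
      have h1 : 0 ≤ f m := by rw [hf]; exact Int.fract_nonneg _
      have h2 : f m < 1 := by rw [hf]; exact Int.fract_lt_one _
      rw [← hf]
      push_cast at h6
      rcases (abs_eq (by norm_num : (0 : ℝ) ≤ 1 / 2)).1 h6 with h7 | h7
      · linarith
      · linarith
    · exact h'
  have H2 : ∀ q, ∑ l, Int.fract (z l q) ≠ 2 := by
    intro q hq
    have h1 := claim q (fun _ => 0) (fun l => Or.inl rfl) (by rw [hq]; simp)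
    rw [Finset.sum_eq_zero (fun l _ => h1 l)] at hq
    norm_num at hq
  have H1 : ∀ q, ∑ l, Int.fract (z l q) = 1 → ∀ l, Int.fract (z l q) ≠ 0 := by
    intro q hq l0 hl0
    have h1 := claim q (fun l => if l = l0 then 1 else 0) (fun l => by
      by_cases hl : l = l0
      · right
        rw [if_pos hl, hl]
        exact ⟨rfl, hl0⟩
      · left
        rw [if_neg hl]) (by rw [hq]; simp; norm_num)
    rw [Finset.sum_eq_zero (fun l _ => h1 l)] at hq
    norm_num at hq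
  have hfin := frc z hsum htor H2 H1 y
  obtain ⟨M0, hM0⟩ := hfin 0
  obtain ⟨M1, hM1⟩ := hfin 1
  obtain ⟨M2, hM2⟩ := hfin 2
  obtain ⟨M3, hM3⟩ := hfin 3
  have hsy := hsum y
  rw [Fin.sum_univ_four, hM0, hM1, hM2, hM3] at hsy
  have hsy' : M0 + M1 + M2 + M3 = 0 := by exact_mod_cast hsy
  refine ⟨M0 + M1, M0 + M2, M0 + M3, ?_, ⟨M0, by linarith⟩⟩
  have h5 := hx' (toR y)
  have ht0 : t 0 (toR y) = z 0 y + z 1 y := by rw [hz, hz, z0, z1]; ring
  have ht1 : t 1 (toR y) = z 0 y + z 2 y := by rw [hz, hz, z0, z2]; ring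
  have ht2 : t 2 (toR y) = z 0 y + z 3 y := by rw [hz, hz, z0, z3]; ring
  rw [ht0, ht1, ht2, hM0, hM1, hM2, hM3] at h5
  push_cast
  exact h5

end H66OD

end S_GEN

section S_N12

/-!
# Row N12 (about 180 lines): configurations with one or two functionals

`n = 1`: claim: `u = (1/2) a 0` is an integer vector. For an integer vector `y` let `γ = a 0 ⬝ toR y`.
`2 • w 0` is an integer vector. For every integer `m` the point `p = w 0 + toR y - m (2 w 0)` is
`c + integer`, `a 0 ⬝ p = 1 + γ - 2 m`. Choose `m` with `1 + γ - 2 m ∈ [-1,1)`. `hcov`: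
`|1+γ-2m| ≥ 1`, so `1 + γ - 2m = -1` and `γ = 2 (m - 1)` is even. With `y` = the standard basis vectors
(`Pi.single`): the coordinates of `(1/2) a 0` are integers. `u ≠ 0` as `a 0 ⬝ w 0 = 1`. `t = 1/2`.

`n = 2`: let `m = a 0 ⬝ w 1`, `m' = a 1 ⬝ w 0`, `|m|,|m'| < 1`. Define
`U0 = (1 - m m')⁻¹ (a 0 - m a 1)`, `U1 = (1 - m m')⁻¹ (a 1 - m' a 0)`: `U i ⬝ w j = δ i j`,
`a 0 = U0 + m U1`, `a 1 = m' U0 + U1`. Put `Z+ = (U0+U1)/2`, `Z- = (U0-U1)/2`. Claim: `Z± ⬝ toR y` is an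
integer for every integer vector `y`. Let `A = ⌊Z+ ⬝ y⌋ + 1`, `B = ⌊Z- ⬝ y⌋ + 1` and
`p = w 0 + y - A (w0 + w1) - B (w0 - w1)`; `w0 ± w1` are integer vectors (`w = c + integer`,
`2 c = g`), so `p = c + integer`, and `Z+ ⬝ p = 1/2 + Z+ ⬝ y - A = fract(Z+ ⬝ y) - 1/2`,
`Z- ⬝ p = fract (Z- ⬝ y) - 1/2`. With `s0 = U0 ⬝ p = Z+ ⬝ p + Z- ⬝ p`, `s1 = U1 ⬝ p = Z+ ⬝ p - Z- ⬝ p`:
`|s0| + |s1| = 2 max(|Z+ ⬝ p|,|Z- ⬝ p|) ≤ 1`. `a 0 ⬝ p = s0 + m s1`, `a 1 ⬝ p = m' s0 + s1`.
`hcov`: one of them has absolute value `≥ 1`; since `|s0 + m s1| ≤ |s0| + |m||s1|` this forces (first case)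
`s1 = 0`, `|s0| = 1`; second case `s0 = 0`, `|s1| = 1`. In all cases `|Z+ ⬝ p| = 1/2`, so
`fract (Z+ ⬝ y) - 1/2 = -1/2` (fract < 1), so `Z+ ⬝ y` is an integer; same for `Z-`.
So `Z+`, `Z-` are integer vectors, nonzero since `Z± ⬝ w 0 = 1/2`.
`Z+ = ((1-m') a 0 + (1-m) a 1)/(2(1-mm'))` has coefficient sum `(2-(m+m'))/(2(1-mm'))`, and
`Z- = ((1+m') a 0 - (1+m) a 1)/(2(1-mm'))` has absolute coefficient sum `(2+(m+m'))/(2(1-mm'))`.
If `m+m' ≥ 0` use `Z+`: `(2-(m+m'))/2 ≤ 1 - mm'` iff `mm' ≤ (m+m')/2`: if `mm' ≤ 0` clear; if `mm' > 0` both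
are positive (sum `≥ 0`) and `< 1`: `mm' ≤ m`, `mm' ≤ m'`. If `m+m' ≤ 0` use `Z-`: symmetric
(replace `m,m'` by `-m,-m'`). So the absolute sum is `≤ 1 ≤ 3/2`.
-/

open Matrix

namespace H66OD

theorem N12_int (u : Fin 3 → ℝ) (h : ∀ y : Fin 3 → ℤ, ∃ m : ℤ, u ⬝ᵥ toR y = m) :
    ∃ U : Fin 3 → ℤ, toR U = u := by
  choose m hm using fun i : Fin 3 => h (Pi.single i 1)
  refine ⟨m, ?_⟩
  funext i
  have h1 := hm i
  have e : toR (Pi.single i 1 : Fin 3 → ℤ) = Pi.single i 1 := by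
    funext j
    by_cases hj : j = i
    · subst hj
      simp [toR]
    · simp [toR, Pi.single_eq_of_ne hj]
  rw [e, dotProduct_single, mul_one] at h1
  rw [toR_apply, ← h1]

theorem N12_real {P Q m m' : ℝ} (hP : -(1 / 2) ≤ P) (hP' : P < 1 / 2) (hQ : -(1 / 2) ≤ Q)
    (hQ' : Q < 1 / 2) (hm : |m| < 1) (hm' : |m'| < 1)
    (h : 1 ≤ |(1 + m) * P + (1 - m) * Q| ∨ 1 ≤ |(1 + m') * P - (1 - m') * Q|) :
    P = -(1 / 2) ∧ Q = -(1 / 2) := by
  rw [abs_lt] at hm hm'
  have a1 : 0 < 1 + m := by linarith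
  have a2 : 0 < 1 - m := by linarith
  have b1 : 0 < 1 + m' := by linarith
  have b2 : 0 < 1 - m' := by linarith
  have p1 : 0 ≤ P + 1 / 2 := by linarith
  have q1 : 0 ≤ Q + 1 / 2 := by linarith
  have p2 : 0 < 1 / 2 - P := by linarith
  have q2 : 0 < 1 / 2 - Q := by linarith
  rcases h with h | h
  · rcases le_abs.1 h with h | h
    · nlinarith [mul_pos a1 p2, mul_pos a2 q2]
    · have e1 := mul_nonneg a1.le p1
      have e2 := mul_nonneg a2.le q1
      have e3 : (1 + m) * (P + 1 / 2) = 0 := by nlinarith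
      have e4 : (1 - m) * (Q + 1 / 2) = 0 := by nlinarith
      rcases mul_eq_zero.1 e3 with h3 | h3
      · exact absurd h3 a1.ne'
      · rcases mul_eq_zero.1 e4 with h4 | h4
        · exact absurd h4 a2.ne'
        · exact ⟨by linarith, by linarith⟩
  · exfalso
    rcases le_abs.1 h with h | h
    · nlinarith [mul_pos b1 p2, mul_nonneg b2.le q1]
    · nlinarith [mul_nonneg b1.le p1, mul_pos b2 q2]

theorem N12_frac {α : ℝ} (h : α - (((⌊α⌋ + 1 : ℤ)) : ℝ) + 1 / 2 = -(1 / 2)) : ∃ k : ℤ, α = k := by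
  refine ⟨⌊α⌋, ?_⟩
  push_cast at h
  linarith

theorem n1 (C : Cfg 1) : Short 1 C.a := by
  obtain ⟨z0, hz0⟩ := C.hw 0
  have hu : ∀ y : Fin 3 → ℤ, ∃ k : ℤ, ((1 / 2 : ℝ) • C.a 0) ⬝ᵥ toR y = k := by
    intro y
    set γ : ℝ := C.a 0 ⬝ᵥ toR y with hγ
    set m : ℤ := ⌊(γ + 2) / 2⌋ with hm
    have f1 := Int.floor_le ((γ + 2) / 2)
    have f2 := Int.lt_floor_add_one ((γ + 2) / 2)
    rw [← hm] at f1 f2
    obtain ⟨i, hi⟩ := C.hcov (z0 + y - m • (C.g + (2 : ℤ) • z0))
    have hi0 : i = 0 := Subsingleton.elim _ _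
    subst hi0
    have e : C.c + toR (z0 + y - m • (C.g + (2 : ℤ) • z0)) =
        C.w 0 + toR y - (m : ℝ) • ((2 : ℝ) • C.w 0) := by
      rw [toR_sub, toR_add, toR_zsmul, toR_add, toR_zsmul, C.hg, hz0]
      push_cast
      module
    rw [e, dotProduct_sub, dotProduct_add, dotProduct_smul, dotProduct_smul, C.h1 0, ← hγ,
      smul_eq_mul, smul_eq_mul] at hi
    refine ⟨m - 1, ?_⟩
    rw [smul_dotProduct, ← hγ, smul_eq_mul]
    push_cast
    rcases le_abs.1 hi with h | h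
    · exfalso
      linarith
    · linarith
  obtain ⟨U, hU⟩ := N12_int _ hu
  refine ⟨U, ?_, fun _ => 1 / 2, ?_, ?_⟩
  · rintro rfl
    rw [toR_zero] at hU
    have h1 := C.h1 0
    have h2 : C.a 0 = 0 := by
      have := hU.symm
      rw [smul_eq_zero] at this
      exact this.resolve_left (by norm_num)
    rw [h2, zero_dotProduct] at h1
    exact zero_ne_one h1
  · rw [hU, Fin.sum_univ_one]
  · rw [Fin.sum_univ_one]
    norm_num

theorem N12_core (C : Cfg 2) {m m' D : ℝ} (hm : m = C.a 0 ⬝ᵥ C.w 1) (hm' : m' = C.a 1 ⬝ᵥ C.w 0)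
    (hD : D = 1 - m * m') (am : |m| < 1) (am' : |m'| < 1) (hD0 : 0 < D) (y : Fin 3 → ℤ) :
    (∃ k : ℤ, (((1 - m') / (2 * D)) • C.a 0 + ((1 - m) / (2 * D)) • C.a 1) ⬝ᵥ toR y = k) ∧
    (∃ k : ℤ, (((1 + m') / (2 * D)) • C.a 0 + (-(1 + m) / (2 * D)) • C.a 1) ⬝ᵥ toR y = k) := by
  obtain ⟨z0, hz0⟩ := C.hw 0
  obtain ⟨z1, hz1⟩ := C.hw 1
  set y0 : ℝ := C.a 0 ⬝ᵥ toR y with hy0
  set y1 : ℝ := C.a 1 ⬝ᵥ toR y with hy1
  rw [add_dotProduct, add_dotProduct, smul_dotProduct, smul_dotProduct, smul_dotProduct,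
    smul_dotProduct, ← hy0, ← hy1, smul_eq_mul, smul_eq_mul, smul_eq_mul, smul_eq_mul]
  set α : ℝ := (1 - m') / (2 * D) * y0 + (1 - m) / (2 * D) * y1 with hα
  set β : ℝ := (1 + m') / (2 * D) * y0 + -(1 + m) / (2 * D) * y1 with hβ
  set A : ℤ := ⌊α⌋ + 1 with hA
  set B : ℤ := ⌊β⌋ + 1 with hB
  have eα : 2 * D * α = (1 - m') * y0 + (1 - m) * y1 := by
    rw [hα]
    field_simp
  have eβ : 2 * D * β = (1 + m') * y0 - (1 + m) * y1 := by
    rw [hβ]
    field_simp
    ring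
  have ey0 : y0 = (1 + m) * α + (1 - m) * β := by
    have h1 : 2 * D * y0 = 2 * D * ((1 + m) * α + (1 - m) * β) := by
      have : 2 * D * ((1 + m) * α + (1 - m) * β) =
        (1 + m) * (2 * D * α) + (1 - m) * (2 * D * β) := by ring
      rw [this, eα, eβ, hD]
      ring
    exact mul_left_cancel₀ (by positivity) h1
  have ey1 : y1 = (1 + m') * α - (1 - m') * β := by
    have h1 : 2 * D * y1 = 2 * D * ((1 + m') * α - (1 - m') * β) := by
      have : 2 * D * ((1 + m') * α - (1 - m') * β) =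
        (1 + m') * (2 * D * α) - (1 - m') * (2 * D * β) := by ring
      rw [this, eα, eβ, hD]
      ring
    exact mul_left_cancel₀ (by positivity) h1
  have e : C.c + toR (z0 + y - A • (C.g + z0 + z1) - B • (z0 - z1)) =
      C.w 0 + toR y - (A : ℝ) • (C.w 0 + C.w 1) - (B : ℝ) • (C.w 0 - C.w 1) := by
    rw [toR_sub, toR_sub, toR_add, toR_zsmul, toR_zsmul, toR_add, toR_add, toR_sub, C.hg, hz0, hz1]
    module
  have d0 : C.a 0 ⬝ᵥ (C.w 0 + toR y - (A : ℝ) • (C.w 0 + C.w 1) - (B : ℝ) • (C.w 0 - C.w 1)) =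
      1 + y0 - A * (1 + m) - B * (1 - m) := by
    rw [dotProduct_sub, dotProduct_sub, dotProduct_add, dotProduct_smul, dotProduct_smul,
      dotProduct_add, dotProduct_sub, C.h1 0, ← hm, ← hy0, smul_eq_mul, smul_eq_mul]
  have d1 : C.a 1 ⬝ᵥ (C.w 0 + toR y - (A : ℝ) • (C.w 0 + C.w 1) - (B : ℝ) • (C.w 0 - C.w 1)) =
      m' + y1 - A * (m' + 1) - B * (m' - 1) := by
    rw [dotProduct_sub, dotProduct_sub, dotProduct_add, dotProduct_smul, dotProduct_smul,
      dotProduct_add, dotProduct_sub, C.h1 1, ← hm', ← hy1, smul_eq_mul, smul_eq_mul]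
  have fa1 := Int.floor_le α
  have fa2 := Int.lt_floor_add_one α
  have fb1 := Int.floor_le β
  have fb2 := Int.lt_floor_add_one β
  have cA : (A : ℝ) = (⌊α⌋ : ℝ) + 1 := by rw [hA]; push_cast; ring
  have cB : (B : ℝ) = (⌊β⌋ : ℝ) + 1 := by rw [hB]; push_cast; ring
  have key : α - (A : ℝ) + 1 / 2 = -(1 / 2) ∧ β - (B : ℝ) + 1 / 2 = -(1 / 2) := by
    refine N12_real (by linarith) (by linarith) (by linarith) (by linarith) am am' ?_
    obtain ⟨i, hi⟩ := C.hcov (z0 + y - A • (C.g + z0 + z1) - B • (z0 - z1))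
    rw [e] at hi
    fin_cases i
    · left
      have hi' : 1 ≤ |C.a 0 ⬝ᵥ (C.w 0 + toR y - (A : ℝ) • (C.w 0 + C.w 1) -
        (B : ℝ) • (C.w 0 - C.w 1))| := hi
      rw [d0, ey0] at hi'
      have : (1 + m) * (α - (A : ℝ) + 1 / 2) + (1 - m) * (β - (B : ℝ) + 1 / 2) =
        1 + ((1 + m) * α + (1 - m) * β) - A * (1 + m) - B * (1 - m) := by ring
      rw [this]
      exact hi'
    · right
      have hi' : 1 ≤ |C.a 1 ⬝ᵥ (C.w 0 + toR y - (A : ℝ) • (C.w 0 + C.w 1) -
        (B : ℝ) • (C.w 0 - C.w 1))| := hi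
      rw [d1, ey1] at hi'
      have : (1 + m') * (α - (A : ℝ) + 1 / 2) - (1 - m') * (β - (B : ℝ) + 1 / 2) =
        m' + ((1 + m') * α - (1 - m') * β) - A * (m' + 1) - B * (m' - 1) := by ring
      rw [this]
      exact hi'
  exact ⟨N12_frac key.1, N12_frac key.2⟩

theorem n2 (C : Cfg 2) : Short 2 C.a := by
  obtain ⟨m, hm⟩ : ∃ m, m = C.a 0 ⬝ᵥ C.w 1 := ⟨_, rfl⟩
  obtain ⟨m', hm'⟩ : ∃ m', m' = C.a 1 ⬝ᵥ C.w 0 := ⟨_, rfl⟩
  have am : |m| < 1 := by
    rw [hm]
    exact C.h2 1 0 (by decide)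
  have am' : |m'| < 1 := by
    rw [hm']
    exact C.h2 0 1 (by decide)
  obtain ⟨D, hD⟩ : ∃ D, D = 1 - m * m' := ⟨_, rfl⟩
  have b1 := abs_lt.1 am
  have b2 := abs_lt.1 am'
  have hD0 : 0 < D := by
    rw [hD]
    nlinarith [mul_pos (show 0 < 1 - m by linarith) (show 0 < 1 + m' by linarith),
      mul_pos (show 0 < 1 + m by linarith) (show 0 < 1 - m' by linarith)]
  obtain ⟨U, hU⟩ := N12_int _ fun y => (N12_core C hm hm' hD am am' hD0 y).1
  obtain ⟨W, hW⟩ := N12_int _ fun y => (N12_core C hm hm' hD am am' hD0 y).2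
  by_cases hs : 0 ≤ m + m'
  · refine ⟨U, ?_, ![(1 - m') / (2 * D), (1 - m) / (2 * D)], ?_, ?_⟩
    · rintro rfl
      rw [toR_zero] at hU
      have h1 : (((1 - m') / (2 * D)) • C.a 0 + ((1 - m) / (2 * D)) • C.a 1) ⬝ᵥ C.w 0 = 1 / 2 := by
        rw [add_dotProduct, smul_dotProduct, smul_dotProduct, C.h1 0, ← hm', smul_eq_mul,
          smul_eq_mul]
        field_simp
        rw [hD]
        ring
      rw [← hU, zero_dotProduct] at h1
      norm_num at h1
    · rw [hU, Fin.sum_univ_two]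
      rfl
    · rw [Fin.sum_univ_two]
      show |(1 - m') / (2 * D)| + |(1 - m) / (2 * D)| ≤ 3 / 2
      rw [abs_of_nonneg (div_nonneg (by linarith) (by linarith)),
        abs_of_nonneg (div_nonneg (by linarith) (by linarith)), ← add_div,
        div_le_iff₀ (by positivity), hD]
      have : m * m' * 2 ≤ m + m' := by
        rcases le_total 0 m with h | h
        · rcases le_total 0 m' with h' | h'
          · nlinarith [mul_nonneg h (show 0 ≤ 1 - m' by linarith),
              mul_nonneg h' (show 0 ≤ 1 - m by linarith)]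
          · nlinarith [mul_nonneg h (neg_nonneg.2 h')]
        · have h' : 0 ≤ m' := by linarith
          nlinarith [mul_nonneg (neg_nonneg.2 h) h']
      nlinarith
  · refine ⟨W, ?_, ![(1 + m') / (2 * D), -(1 + m) / (2 * D)], ?_, ?_⟩
    · rintro rfl
      rw [toR_zero] at hW
      have h1 : (((1 + m') / (2 * D)) • C.a 0 + (-(1 + m) / (2 * D)) • C.a 1) ⬝ᵥ C.w 0 =
          1 / 2 := by
        rw [add_dotProduct, smul_dotProduct, smul_dotProduct, C.h1 0, ← hm', smul_eq_mul,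
          smul_eq_mul]
        field_simp
        rw [hD]
        ring
      rw [← hW, zero_dotProduct] at h1
      norm_num at h1
    · rw [hW, Fin.sum_univ_two]
      rfl
    · rw [Fin.sum_univ_two]
      show |(1 + m') / (2 * D)| + |-(1 + m) / (2 * D)| ≤ 3 / 2
      rw [neg_div, abs_neg, abs_of_nonneg (div_nonneg (by linarith) (by linarith)),
        abs_of_nonneg (div_nonneg (by linarith) (by linarith)), ← add_div,
        div_le_iff₀ (by positivity), hD]
      have hs' : m + m' ≤ 0 := by linarith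
      have : m * m' * 2 ≤ -(m + m') := by
        rcases le_total 0 m with h | h
        · have h' : m' ≤ 0 := by linarith
          nlinarith [mul_nonneg h (neg_nonneg.2 h')]
        · rcases le_total 0 m' with h' | h'
          · nlinarith [mul_nonneg (neg_nonneg.2 h) h']
          · nlinarith [mul_nonneg (neg_nonneg.2 h) (show 0 ≤ 1 + m' by linarith),
              mul_nonneg (neg_nonneg.2 h') (show 0 ≤ 1 + m by linarith)]
      nlinarith

end H66OD

end S_N12

section S_HB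

/-!
# Row HB (about 80 lines): duality (Hahn-Banach)

If `u` is not a combination of the `a i` with absolute coefficient sum `≤ 3/2`, then some `X` has
`|a i ⬝ X| ≤ 1` for all `i` and `u ⬝ X > 3/2`.

PROOF. Let `Q = {q | ∃ t : Fin n → ℝ, Σ |t i| ≤ 1 ∧ q = Σ t i • a i}`: the image of the compact convex set
`{t | Σ |t i| ≤ 1}` (closed, bounded) under a continuous linear map, so compact convex, closed.
`(2/3) • u ∉ Q` (otherwise `u = Σ (3/2 t i) a i`). `geometric_hahn_banach_closed_point`: a continuous linear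
`f` and a real `r` with `f q < r` for `q ∈ Q` and `r < f ((2/3) u)`. `f y = y ⬝ᵥ X0` for some vector `X0`
(`X0 j = f (Pi.single j 1)`). `0 ∈ Q`, so `r > 0`; put `X = r⁻¹ • X0`. `± a i ∈ Q` gives
`|a i ⬝ᵥ X| < 1`. `(2/3) u ⬝ᵥ X > 1`.
-/

open Matrix

namespace H66OD

theorem HB_compact (n : ℕ) : IsCompact {t : Fin n → ℝ | ∑ i, |t i| ≤ 1} := by
  apply Metric.isCompact_of_isClosed_isBounded
  · apply isClosed_le _ continuous_const
    exact continuous_finset_sum _ (fun i _ => (continuous_apply i).abs)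
  · apply (Metric.isBounded_closedBall (x := (0 : Fin n → ℝ)) (r := 1)).subset
    intro t ht
    rw [mem_closedBall_zero_iff, pi_norm_le_iff_of_nonneg zero_le_one]
    intro i
    rw [Real.norm_eq_abs]
    exact (Finset.single_le_sum (f := fun i => |t i|) (fun j _ => abs_nonneg _)
      (Finset.mem_univ i)).trans ht

theorem HB_convex (n : ℕ) : Convex ℝ {t : Fin n → ℝ | ∑ i, |t i| ≤ 1} := by
  intro s hs t ht α β hα hβ hαβ
  simp only [Set.mem_setOf_eq, Pi.add_apply, Pi.smul_apply, smul_eq_mul] at hs ht ⊢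
  calc ∑ i, |α * s i + β * t i| ≤ ∑ i, (α * |s i| + β * |t i|) := by
        apply Finset.sum_le_sum
        intro i _
        calc |α * s i + β * t i| ≤ |α * s i| + |β * t i| := abs_add_le _ _
          _ = _ := by rw [abs_mul, abs_mul, abs_of_nonneg hα, abs_of_nonneg hβ]
    _ = α * ∑ i, |s i| + β * ∑ i, |t i| := by
        rw [Finset.sum_add_distrib, Finset.mul_sum, Finset.mul_sum]
    _ ≤ α * 1 + β * 1 := by
        exact add_le_add (mul_le_mul_of_nonneg_left hs hα) (mul_le_mul_of_nonneg_left ht hβ)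
    _ = 1 := by linarith

/-- The linear map `t ↦ Σ t i • a i`. -/
def HB_map (n : ℕ) (a : Fin n → (Fin 3 → ℝ)) : (Fin n → ℝ) →ₗ[ℝ] (Fin 3 → ℝ) where
  toFun t := ∑ i, t i • a i
  map_add' s t := by simp [add_smul, Finset.sum_add_distrib]
  map_smul' c t := by simp [Finset.smul_sum, smul_smul]

theorem hb (n : ℕ) (a : Fin n → (Fin 3 → ℝ)) (u : Fin 3 → ℝ)
    (h : ¬ ∃ t : Fin n → ℝ, u = ∑ i, t i • a i ∧ ∑ i, |t i| ≤ 3 / 2) :
    ∃ X : Fin 3 → ℝ, (∀ i, |a i ⬝ᵥ X| ≤ 1) ∧ 3 / 2 < u ⬝ᵥ X := by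
  have hcont : Continuous (HB_map n a) := (HB_map n a).continuous_of_finiteDimensional
  have hQc : IsCompact ((HB_map n a) '' {t : Fin n → ℝ | ∑ i, |t i| ≤ 1}) :=
    (HB_compact n).image hcont
  have hQv : Convex ℝ ((HB_map n a) '' {t : Fin n → ℝ | ∑ i, |t i| ≤ 1}) :=
    (HB_convex n).linear_image (HB_map n a)
  have hu : (2 / 3 : ℝ) • u ∉ ((HB_map n a) '' {t : Fin n → ℝ | ∑ i, |t i| ≤ 1}) := by
    rintro ⟨t, ht, htu⟩
    apply h
    refine ⟨fun i => 3 / 2 * t i, ?_, ?_⟩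
    · have h1 : u = (3 / 2 : ℝ) • ((2 / 3 : ℝ) • u) := by
        rw [smul_smul]; norm_num
      rw [h1, ← htu]
      change (3 / 2 : ℝ) • (∑ i, t i • a i) = _
      rw [Finset.smul_sum]
      apply Finset.sum_congr rfl
      intro i _
      rw [smul_smul]
    · have h2 : ∑ i, |3 / 2 * t i| = 3 / 2 * ∑ i, |t i| := by
        rw [Finset.mul_sum]
        apply Finset.sum_congr rfl
        intro i _
        rw [abs_mul, abs_of_pos (by norm_num : (0 : ℝ) < 3 / 2)]
      rw [h2]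
      have ht' : ∑ i, |t i| ≤ 1 := ht
      linarith
  obtain ⟨f, r, hf1, hf2⟩ := geometric_hahn_banach_closed_point hQv hQc.isClosed hu
  have hr : 0 < r := by
    have h0 : (0 : Fin 3 → ℝ) ∈ ((HB_map n a) '' {t : Fin n → ℝ | ∑ i, |t i| ≤ 1}) :=
      ⟨0, by simp, map_zero _⟩
    have := hf1 0 h0
    simpa using this
  obtain ⟨X0, hX0⟩ : ∃ X0 : Fin 3 → ℝ, ∀ y, f y = y ⬝ᵥ X0 := by
    refine ⟨fun j => f (fun k => if j = k then 1 else 0), fun y => ?_⟩
    have := LinearMap.pi_apply_eq_sum_univ (f : (Fin 3 → ℝ) →ₗ[ℝ] ℝ) y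
    simpa [dotProduct] using this
  have hmem : ∀ i, ∀ s : ℝ, |s| ≤ 1 → s * (a i ⬝ᵥ X0) < r := by
    intro i s hs
    have h1 : s • a i ∈ ((HB_map n a) '' {t : Fin n → ℝ | ∑ i, |t i| ≤ 1}) := by
      refine ⟨Pi.single i s, ?_, ?_⟩
      · simp only [Set.mem_setOf_eq]
        rw [Finset.sum_eq_single i]
        · simpa using hs
        · intro b _ hb
          simp [Pi.single_eq_of_ne hb]
        · intro hi
          exact absurd (Finset.mem_univ i) hi
      · change ∑ j, (Pi.single i s : Fin n → ℝ) j • a j = s • a i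
        rw [Finset.sum_eq_single i]
        · simp
        · intro b _ hb
          simp [Pi.single_eq_of_ne hb]
        · intro hi
          exact absurd (Finset.mem_univ i) hi
    have h2 := hf1 _ h1
    rw [hX0, smul_dotProduct, smul_eq_mul] at h2
    exact h2
  refine ⟨r⁻¹ • X0, ?_, ?_⟩
  · intro i
    have h1 := hmem i 1 (by norm_num)
    have h2 := hmem i (-1) (by norm_num)
    rw [dotProduct_smul, smul_eq_mul, abs_mul, abs_of_pos (inv_pos.mpr hr),
      inv_mul_le_iff₀ hr, mul_one, abs_le]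
    constructor <;> linarith
  · rw [hX0, smul_dotProduct, smul_eq_mul] at hf2
    rw [dotProduct_smul, smul_eq_mul, lt_inv_mul_iff₀ hr]
    linarith

end H66OD

end S_HB
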