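import Pool.Agent.H66.OD.Defs
import Pool.Agent.H66.ODM.G2

/-! Oda in dimension three, part G3: this file joins the modules PLK1 PLK2 PLK3 QUAD N4 to save build time. -/

section S_PLK1

/-!
# Row PLK1 (about 90 lines): a maximiser over the orthogonal matrices

PROOF. `K = {U | Uᵀ * U = 1 ∧ ∀ i, 0 ≤ (A * U) i i}` is closed (polynomial conditions) and bounded
(`Uᵀ U = 1` gives `Σ_i U i j ^ 2 = 1`, so all entries are in `[-1,1]`), so compact in
`Matrix (Fin 3) (Fin 3) ℝ` (the product topology; `isCompact_univ_pi` of `Set.Icc (-1) 1` twice). `1 ∈ K`.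
The continuous function `U ↦ Π_i (A*U) i i` attains its maximum on `K` at `U`; the value is `≥` the value
at `1`, `Π A i i = 1 > 0`; as all factors are `≥ 0` all are `> 0` (`Finset.prod_pos` converse: no factor is
zero).
-/

open Matrix

namespace H66OD

theorem PLK1_entry {U : Matrix (Fin 3) (Fin 3) ℝ} (hU : Uᵀ * U = 1) (i j : Fin 3) :
    U i j ∈ Set.Icc (-1 : ℝ) 1 := by
  have h1 : (Uᵀ * U) j j = 1 := by rw [hU, Matrix.one_apply_eq]
  rw [Matrix.mul_apply] at h1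
  have h2 : Uᵀ j i * U i j ≤ ∑ k, Uᵀ j k * U k j :=
    Finset.single_le_sum (f := fun k => Uᵀ j k * U k j)
      (fun k _ => by rw [Matrix.transpose_apply]; exact mul_self_nonneg _) (Finset.mem_univ i)
  rw [h1, Matrix.transpose_apply] at h2
  have h3 : U i j ^ 2 ≤ 1 := by nlinarith
  exact abs_le.mp ((sq_le_one_iff_abs_le_one _).mp h3)

theorem plk1 (A : Matrix (Fin 3) (Fin 3) ℝ) (hA : ∀ i, A i i = 1) :
    ∃ U : Matrix (Fin 3) (Fin 3) ℝ, Uᵀ * U = 1 ∧ (∀ i, 0 < (A * U) i i) ∧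
      ∀ U' : Matrix (Fin 3) (Fin 3) ℝ, U'ᵀ * U' = 1 → (∀ i, 0 ≤ (A * U') i i) →
        ∏ i, (A * U') i i ≤ ∏ i, (A * U) i i := by
  have hcA : ∀ i, Continuous (fun U : Matrix (Fin 3) (Fin 3) ℝ => (A * U) i i) := fun i => by
    have h1 : Continuous (fun U : Matrix (Fin 3) (Fin 3) ℝ => A * U) :=
      continuous_const.matrix_mul continuous_id
    exact h1.matrix_elem i i
  have hcT : Continuous (fun U : Matrix (Fin 3) (Fin 3) ℝ => Uᵀ * U) :=
    (continuous_id.matrix_transpose).matrix_mul continuous_id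
  set K : Set (Matrix (Fin 3) (Fin 3) ℝ) := {U | Uᵀ * U = 1 ∧ ∀ i, 0 ≤ (A * U) i i} with hK
  have hKc : IsClosed K := by
    have h1 : IsClosed {U : Matrix (Fin 3) (Fin 3) ℝ | Uᵀ * U = 1} :=
      isClosed_eq hcT continuous_const
    have h2 : IsClosed (⋂ i, {U : Matrix (Fin 3) (Fin 3) ℝ | 0 ≤ (A * U) i i}) :=
      isClosed_iInter fun i => isClosed_le continuous_const (hcA i)
    have h3 : K = {U : Matrix (Fin 3) (Fin 3) ℝ | Uᵀ * U = 1} ∩
        ⋂ i, {U : Matrix (Fin 3) (Fin 3) ℝ | 0 ≤ (A * U) i i} := by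
      ext U
      simp [hK]
    rw [h3]
    exact h1.inter h2
  have hB : IsCompact (Set.univ.pi fun _ : Fin 3 => Set.univ.pi fun _ : Fin 3 =>
      Set.Icc (-1 : ℝ) 1) := isCompact_univ_pi fun _ => isCompact_univ_pi fun _ => isCompact_Icc
  have hKcomp : IsCompact K := by
    refine IsCompact.of_isClosed_subset hB hKc ?_
    intro U hU i _ j _
    exact PLK1_entry hU.1 i j
  have h1K : (1 : Matrix (Fin 3) (Fin 3) ℝ) ∈ K := by
    refine ⟨by simp, fun i => ?_⟩
    rw [Matrix.mul_one, hA]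
    norm_num
  have hcont : Continuous (fun U : Matrix (Fin 3) (Fin 3) ℝ => ∏ i, (A * U) i i) :=
    continuous_finsetProd _ fun i _ => hcA i
  obtain ⟨U, hUK, hmax⟩ := hKcomp.exists_isMaxOn ⟨1, h1K⟩ hcont.continuousOn
  have hval : 1 ≤ ∏ i, (A * U) i i := by
    have h := hmax h1K
    have h2 : ∏ i, (A * (1 : Matrix (Fin 3) (Fin 3) ℝ)) i i = 1 :=
      Finset.prod_eq_one fun i _ => by rw [Matrix.mul_one, hA]
    have h3 : ∏ i, (A * (1 : Matrix (Fin 3) (Fin 3) ℝ)) i i ≤ ∏ i, (A * U) i i := h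
    rwa [h2] at h3
  refine ⟨U, hUK.1, fun i => ?_, fun U' h1 h2 => hmax ⟨h1, h2⟩⟩
  rcases (hUK.2 i).lt_or_eq with h | h
  · exact h
  · exfalso
    have h0 : ∏ i, (A * U) i i = 0 := Finset.prod_eq_zero (Finset.mem_univ i) h.symm
    rw [h0] at hval
    exact absurd hval (by norm_num)

end H66OD

end S_PLK1

section S_PLK2

/-!
# Row PLK2 (about 160 lines): the maximal matrix is symmetric and positive semidefinite

`H` has unit diagonal and `Π_i (H R) i i ≤ 1` for every orthogonal `R` with all `(H R) i i ≥ 0`.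

PROOF. Symmetric: let `i ≠ j`, `s` real, `co = (1-s²)/(1+s²)`, `si = 2s/(1+s²)`, and `R` the rotation in the
plane `i,j`: `R i i = co`, `R j i = si`, `R i j = -si`, `R j j = co`, `R k k = 1` for the third index `k`,
other entries `0`. `Rᵀ R = 1`. `(H R) i i = co + H i j si`, `(H R) j j = co - H j i si`, `(H R) k k = 1`.
For `|s|` small all are `≥ 0` (continuity at `s = 0`, value 1), so
`(co + H i j si)(co - H j i si) ≤ 1 = co² + si²`; hence `(H i j - H j i) co si ≤ (1 + H i j H j i) si²`,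
i.e. (multiply by `(1+s²)²`) `(H i j - H j i) 2 s (1-s²) ≤ 4 s² (1 + H i j H j i)` for small `s` of both
signs; dividing by `s > 0` and letting `s → 0`: `H i j - H j i ≤ 0`; `s < 0`: `≥ 0`. (Or: by contradiction,
take an explicit small `s`.) By the symmetry in `i,j` only one sign is needed.
PSD: `H` is Hermitian (real symmetric). Suppose it is not PSD: some eigenvalue `-κ < 0`
(`Matrix.IsHermitian.posSemidef_iff_eigenvalues_nonneg` or similar) with an eigenvector `v` of norm one,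
`Σ v i² = 1`, `H v = -κ v`. `R = 1 - 2 v vᵀ` satisfies `Rᵀ R = 1`. `(H R) i i = 1 - 2 (H v) i v i =
1 + 2 κ v i² ≥ 1`, so the product is `≤ 1` by the hypothesis but `≥ 1` with strict inequality since some
`v i ≠ 0`. Contradiction.
-/

open Matrix

namespace H66OD

theorem PLK2_rot (H : Matrix (Fin 3) (Fin 3) ℝ) (h1 : ∀ i, H i i = 1)
    (hmax : ∀ R : Matrix (Fin 3) (Fin 3) ℝ, Rᵀ * R = 1 → (∀ i, 0 ≤ (H * R) i i) →
      ∏ i, (H * R) i i ≤ 1) (i j : Fin 3) (hij : i ≠ j) (co si : ℝ) (hcs : co ^ 2 + si ^ 2 = 1)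
    (hA : 0 ≤ co + H i j * si) (hB : 0 ≤ co - H j i * si) :
    (co + H i j * si) * (co - H j i * si) ≤ 1 := by
  have h00 := h1 0
  have h11 := h1 1
  have h22 := h1 2
  have key := hmax (Matrix.of (fun k l => if k = i ∧ l = i then co else if k = j ∧ l = j then co else
    if k = j ∧ l = i then si else if k = i ∧ l = j then -si else if k = l then 1 else 0))
  fin_cases i <;> fin_cases j
  · exact absurd rfl hij
  · simp only [Fin.isValue, Fin.zero_eta, Fin.mk_one, Fin.reduceFinMk] at hA hB key ⊢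
    have hR := key (by
      ext a b
      fin_cases a <;> fin_cases b <;> simp [Matrix.mul_apply, Fin.sum_univ_three] <;> nlinarith)
      (by
        intro a
        fin_cases a <;> simp [Matrix.mul_apply, Fin.sum_univ_three, h00, h11, h22] <;> linarith)
    simp [Matrix.mul_apply, Fin.sum_univ_three, Fin.prod_univ_three, h00, h11, h22] at hR
    linarith
  · simp only [Fin.isValue, Fin.zero_eta, Fin.mk_one, Fin.reduceFinMk] at hA hB key ⊢
    have hR := key (by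
      ext a b
      fin_cases a <;> fin_cases b <;> simp [Matrix.mul_apply, Fin.sum_univ_three] <;> nlinarith)
      (by
        intro a
        fin_cases a <;> simp [Matrix.mul_apply, Fin.sum_univ_three, h00, h11, h22] <;> linarith)
    simp [Matrix.mul_apply, Fin.sum_univ_three, Fin.prod_univ_three, h00, h11, h22] at hR
    linarith
  · simp only [Fin.isValue, Fin.zero_eta, Fin.mk_one, Fin.reduceFinMk] at hA hB key ⊢
    have hR := key (by
      ext a b
      fin_cases a <;> fin_cases b <;> simp [Matrix.mul_apply, Fin.sum_univ_three] <;> nlinarith)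
      (by
        intro a
        fin_cases a <;> simp [Matrix.mul_apply, Fin.sum_univ_three, h00, h11, h22] <;> linarith)
    simp [Matrix.mul_apply, Fin.sum_univ_three, Fin.prod_univ_three, h00, h11, h22] at hR
    linarith
  · exact absurd rfl hij
  · simp only [Fin.isValue, Fin.zero_eta, Fin.mk_one, Fin.reduceFinMk] at hA hB key ⊢
    have hR := key (by
      ext a b
      fin_cases a <;> fin_cases b <;> simp [Matrix.mul_apply, Fin.sum_univ_three] <;> nlinarith)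
      (by
        intro a
        fin_cases a <;> simp [Matrix.mul_apply, Fin.sum_univ_three, h00, h11, h22] <;> linarith)
    simp [Matrix.mul_apply, Fin.sum_univ_three, Fin.prod_univ_three, h00, h11, h22] at hR
    linarith
  · simp only [Fin.isValue, Fin.zero_eta, Fin.mk_one, Fin.reduceFinMk] at hA hB key ⊢
    have hR := key (by
      ext a b
      fin_cases a <;> fin_cases b <;> simp [Matrix.mul_apply, Fin.sum_univ_three] <;> nlinarith)
      (by
        intro a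
        fin_cases a <;> simp [Matrix.mul_apply, Fin.sum_univ_three, h00, h11, h22] <;> linarith)
    simp [Matrix.mul_apply, Fin.sum_univ_three, Fin.prod_univ_three, h00, h11, h22] at hR
    linarith
  · simp only [Fin.isValue, Fin.zero_eta, Fin.mk_one, Fin.reduceFinMk] at hA hB key ⊢
    have hR := key (by
      ext a b
      fin_cases a <;> fin_cases b <;> simp [Matrix.mul_apply, Fin.sum_univ_three] <;> nlinarith)
      (by
        intro a
        fin_cases a <;> simp [Matrix.mul_apply, Fin.sum_univ_three, h00, h11, h22] <;> linarith)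
    simp [Matrix.mul_apply, Fin.sum_univ_three, Fin.prod_univ_three, h00, h11, h22] at hR
    linarith
  · exact absurd rfl hij

theorem PLK2_sym (H : Matrix (Fin 3) (Fin 3) ℝ) (h1 : ∀ i, H i i = 1)
    (hmax : ∀ R : Matrix (Fin 3) (Fin 3) ℝ, Rᵀ * R = 1 → (∀ i, 0 ≤ (H * R) i i) →
      ∏ i, (H * R) i i ≤ 1) (i j : Fin 3) (hij : i ≠ j) : H i j ≤ H j i := by
  by_contra hcon
  push Not at hcon
  have hrot := PLK2_rot H h1 hmax i j hij
  set a := H i j with ha
  set b := H j i with hb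
  obtain ⟨M, hM⟩ : ∃ M : ℝ, M = 1 + |a| + |b| := ⟨_, rfl⟩
  have haM : |a| ≤ M := by have := abs_nonneg b; linarith
  have hbM : |b| ≤ M := by have := abs_nonneg a; linarith
  have hM1 : 1 ≤ M := by have := abs_nonneg a; have := abs_nonneg b; linarith
  obtain ⟨d, hd⟩ : ∃ d : ℝ, d = a - b := ⟨_, rfl⟩
  have hd0 : 0 < d := by linarith
  have hdM : d ≤ M := by
    have h1 := le_abs_self a
    have h2 := neg_abs_le b
    linarith
  obtain ⟨s, hs⟩ : ∃ s : ℝ, s = d / (8 * M ^ 2) := ⟨_, rfl⟩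
  have hs0 : 0 < s := by rw [hs]; positivity
  have hsM2 : s * M ^ 2 = d / 8 := by rw [hs]; field_simp
  have hsM : s * M ≤ 1 / 8 := by
    have : s * M * M ≤ M / 8 := by nlinarith
    have hM0 : 0 < M := by linarith
    by_contra hc
    push Not at hc
    nlinarith
  have hs8 : s ≤ 1 / 8 := by nlinarith
  have hsa : |s * a| ≤ 1 / 8 := by
    rw [abs_mul, abs_of_pos hs0]
    nlinarith
  have hsb : |s * b| ≤ 1 / 8 := by
    rw [abs_mul, abs_of_pos hs0]
    nlinarith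
  have hsa' := abs_le.mp hsa
  have hsb' := abs_le.mp hsb
  have hpos : 0 < 1 + s ^ 2 := by positivity
  have hA : (1 - s ^ 2) / (1 + s ^ 2) + a * (2 * s / (1 + s ^ 2))
      = (1 - s ^ 2 + 2 * (s * a)) / (1 + s ^ 2) := by
    field_simp
  have hB : (1 - s ^ 2) / (1 + s ^ 2) - b * (2 * s / (1 + s ^ 2))
      = (1 - s ^ 2 - 2 * (s * b)) / (1 + s ^ 2) := by
    field_simp
  have h := hrot ((1 - s ^ 2) / (1 + s ^ 2)) (2 * s / (1 + s ^ 2)) (by field_simp; ring)
    (by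
      rw [hA]
      apply div_nonneg _ hpos.le
      nlinarith)
    (by
      rw [hB]
      apply div_nonneg _ hpos.le
      nlinarith)
  rw [hA, hB, div_mul_div_comm, div_le_one (by positivity)] at h
  have hab : a * b ≤ |a| * |b| := by
    rw [← abs_mul]; exact le_abs_self _
  have hab2 : -(|a| * |b|) ≤ a * b := by
    rw [← abs_mul]; exact neg_abs_le _
  have hMab : 1 + |a| * |b| ≤ M ^ 2 := by
    rw [hM]
    have := abs_nonneg a
    have := abs_nonneg b
    nlinarith [mul_nonneg (abs_nonneg a) (abs_nonneg b)]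
  have h2 : d * (1 - s ^ 2) ≤ 2 * s * (1 + a * b) := by
    have h3 : s * (d * (1 - s ^ 2)) ≤ s * (2 * s * (1 + a * b)) := by
      rw [hd]
      nlinarith
    exact le_of_mul_le_mul_left h3 hs0
  have h4 : 2 * s * (1 + a * b) ≤ 2 * (s * M ^ 2) := by
    have : s * (1 + a * b) ≤ s * M ^ 2 := mul_le_mul_of_nonneg_left (by linarith) hs0.le
    linarith
  rw [hsM2] at h4
  have h5 : s ^ 2 ≤ 1 / 64 := by nlinarith
  nlinarith

theorem plk2 (H : Matrix (Fin 3) (Fin 3) ℝ) (h1 : ∀ i, H i i = 1)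
    (hmax : ∀ R : Matrix (Fin 3) (Fin 3) ℝ, Rᵀ * R = 1 → (∀ i, 0 ≤ (H * R) i i) →
      ∏ i, (H * R) i i ≤ 1) : H.PosSemidef := by
  have hH : H.IsHermitian := by
    ext i j
    simp only [Matrix.conjTranspose_apply, star_trivial]
    rcases eq_or_ne i j with rfl | hij
    · rfl
    · exact le_antisymm (PLK2_sym H h1 hmax j i hij.symm) (PLK2_sym H h1 hmax i j hij)
  rw [hH.posSemidef_iff_eigenvalues_nonneg]
  intro p
  by_contra hcon
  push Not at hcon
  obtain ⟨κ, hκ⟩ : ∃ κ : ℝ, κ = - hH.eigenvalues p := ⟨_, rfl⟩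
  have hκ0 : 0 < κ := by
    rw [hκ]
    simpa using hcon
  have hv := hH.mulVec_eigenvectorBasis p
  have hn : ‖hH.eigenvectorBasis p‖ = 1 := hH.eigenvectorBasis.orthonormal.1 p
  set w := hH.eigenvectorBasis p with hw
  obtain ⟨v, hvw⟩ : ∃ v : Fin 3 → ℝ, v = fun i => w i := ⟨_, rfl⟩
  have hsum : v 0 ^ 2 + v 1 ^ 2 + v 2 ^ 2 = 1 := by
    have h2 := EuclideanSpace.norm_sq_eq w
    rw [hn] at h2
    simp [Fin.sum_univ_three] at h2
    rw [hvw]
    linarith
  have hHv : ∀ i, H i 0 * v 0 + H i 1 * v 1 + H i 2 * v 2 = -κ * v i := by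
    intro i
    have h3 := congrFun hv i
    simp [Matrix.mulVec, dotProduct, Fin.sum_univ_three] at h3
    rw [hvw, hκ]
    simp only
    linarith
  have hR := hmax (Matrix.of (fun k l => (if k = l then 1 else 0) - 2 * v k * v l)) (by
    ext a b
    fin_cases a <;> fin_cases b <;>
      simp [Matrix.mul_apply, Fin.sum_univ_three] <;>
      first
        | linear_combination (4 * v 0 * v 0) * hsum
        | linear_combination (4 * v 0 * v 1) * hsum
        | linear_combination (4 * v 0 * v 2) * hsum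
        | linear_combination (4 * v 1 * v 1) * hsum
        | linear_combination (4 * v 1 * v 2) * hsum
        | linear_combination (4 * v 2 * v 2) * hsum)
  have hd : ∀ i, (H * (Matrix.of (fun k l => (if k = l then 1 else 0) - 2 * v k * v l))) i i
      = 1 + 2 * κ * v i ^ 2 := by
    intro i
    have h4 := hHv i
    have h5 := h1 i
    have h6 : (H * (Matrix.of (fun k l => (if k = l then 1 else 0) - 2 * v k * v l))) i i
        = H i i - 2 * (H i 0 * v 0 + H i 1 * v 1 + H i 2 * v 2) * v i := by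
      fin_cases i <;> simp [Matrix.mul_apply, Fin.sum_univ_three] <;> ring
    rw [h6, h4, h5]
    ring
  have h7 := hR (fun i => by rw [hd i]; positivity)
  simp only [hd, Fin.prod_univ_three] at h7
  have g0 : 0 ≤ 2 * κ * v 0 ^ 2 := by positivity
  have g1 : 0 ≤ 2 * κ * v 1 ^ 2 := by positivity
  have g2 : 0 ≤ 2 * κ * v 2 ^ 2 := by positivity
  have g3 : 2 * κ * v 0 ^ 2 + 2 * κ * v 1 ^ 2 + 2 * κ * v 2 ^ 2 = 2 * κ := by
    calc _ = 2 * κ * (v 0 ^ 2 + v 1 ^ 2 + v 2 ^ 2) := by ring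
      _ = _ := by rw [hsum, mul_one]
  nlinarith [mul_nonneg g0 g1, mul_nonneg g0 g2, mul_nonneg g1 g2, mul_nonneg (mul_nonneg g0 g1) g2]

end H66OD

end S_PLK2

section S_PLK3

/-!
# Row PLK3 (about 180 lines): the 3 x 3 plank theorem (K. Ball)

If `A i i ≥ 1` for all `i` there is `l` with `Σ |l j| ≤ 1` and `|Σ_j A i j l j| ≥ 1/3` for all `i`.

PROOF. Replacing row `i` by `row i / A i i` we may assume `A i i = 1` (the value `|Σ_j A i j l j|` of the
original matrix is `A i i ≥ 1` times the new one). Take `U` from `plk1`; `U` is orthogonal, also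
`U * Uᵀ = 1`. `d i = 1/(A*U) i i > 0`, `H = diagonal d * A * U`: `H i i = 1`. For `R` with `Rᵀ R = 1` and
`(H R) i i ≥ 0`: `(A (U R)) i i = (H R) i i / d i ≥ 0` and `U R` is orthogonal, so
`Π (H R) i i = Π d i · Π (A U R) i i ≤ Π d i · Π (A U) i i = 1`. So `H` is PSD by `plk2`.
`Σ d i² ≤ 3`: `d i = d i A i i = (H Uᵀ) i i`. `H = Bᵀ B` (`posSemidef_iff_eq_conjTranspose_mul_self`), so
`(H Uᵀ) i i = Σ_k (B)_{k i} (B Uᵀ)_{k i}`, and by Cauchy-Schwarz `d i² ≤ (Bᵀ B) i i · (U Bᵀ B Uᵀ) i i =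
H i i (U H Uᵀ) i i = (U H Uᵀ) i i`; the sum over `i` is `trace (U H Uᵀ) = trace H = 3`.
Put `y i = d i / 3`, `M = diagonal y * H * diagonal y` (symmetric). Among the 8 sign vectors
`ε : Fin 3 → {1,-1}` choose one maximising `ε ⬝ M ε` (finite). Flipping the sign `i`:
`ε ⬝ M ε - ε' ⬝ M ε' = 4 ε i Σ_{j ≠ i} M i j ε j ≥ 0`, so `ε i (M ε) i ≥ M i i = y i²`, where
`(M ε) i = y i (H (y ε)) i`; so `|(H (y ε)) i| ≥ y i`. Put `l = U (y ε)` (`y ε` the vector `y i ε i`):
`(A l) i = (A U (yε)) i = (H (y ε)) i / d i`, so `|(A l) i| ≥ y i/d i = 1/3`.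
`(Σ |l j|)² ≤ 3 Σ l j² = 3 Σ y i² = Σ d i² / 3 ≤ 1` (Cauchy-Schwarz, `U` orthogonal).
-/

open Matrix

namespace H66OD

theorem PLK3_sign (M : Matrix (Fin 3) (Fin 3) ℝ) (hM : ∀ i j, M i j = M j i) :
    ∃ ε : Fin 3 → ℝ, (∀ i, ε i = 1 ∨ ε i = -1) ∧ ∀ k, M k k ≤ ε k * ∑ j, M k j * ε j := by
  obtain ⟨b, hb⟩ := Finite.exists_max
    (fun b : Fin 3 → Bool => ∑ i, ∑ j, (if b i = true then (1 : ℝ) else -1) *
      (if b j = true then (1 : ℝ) else -1) * M i j)
  have hmax : ∀ ε' : Fin 3 → ℝ, (∀ i, ε' i = 1 ∨ ε' i = -1) →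
      ∑ i, ∑ j, ε' i * ε' j * M i j ≤ ∑ i, ∑ j, (if b i = true then (1 : ℝ) else -1) *
      (if b j = true then (1 : ℝ) else -1) * M i j := by
    intro ε' hε'
    have h1 := hb (fun i => decide (ε' i = 1))
    have h2 : ∀ i, (if decide (ε' i = 1) = true then (1 : ℝ) else -1) = ε' i := by
      intro i
      rcases hε' i with h | h
      · rw [h]; simp
      · rw [h]; norm_num
    simp only [h2] at h1
    exact h1
  set ε : Fin 3 → ℝ := fun i => if b i = true then (1 : ℝ) else -1 with hε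
  have hs : ∀ i, ε i = 1 ∨ ε i = -1 := by
    intro i
    simp only [hε]
    by_cases h : b i = true
    · left; rw [if_pos h]
    · right; rw [if_neg h]
  have hmax' : ∀ ε' : Fin 3 → ℝ, (∀ i, ε' i = 1 ∨ ε' i = -1) →
      ∑ i, ∑ j, ε' i * ε' j * M i j ≤ ∑ i, ∑ j, ε i * ε j * M i j := hmax
  refine ⟨ε, hs, ?_⟩
  have hsq : ∀ i, ε i * ε i = 1 := by
    intro i
    rcases hs i with h | h <;> rw [h] <;> norm_num
  have m10 := hM 1 0
  have m20 := hM 2 0
  have m21 := hM 2 1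
  have q0 := hsq 0
  have q1 := hsq 1
  have q2 := hsq 2
  have flip : ∀ k, ∑ i, ∑ j, (Function.update ε k (-ε k)) i * (Function.update ε k (-ε k)) j * M i j
      ≤ ∑ i, ∑ j, ε i * ε j * M i j := by
    intro k
    apply hmax'
    intro i
    by_cases h : i = k
    · rw [h, Function.update_self]
      rcases hs k with h' | h'
      · right; rw [h']
      · left; rw [h']; norm_num
    · rw [Function.update_of_ne h]
      exact hs i
  clear_value ε
  intro k
  have hf := flip k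
  simp only [Fin.sum_univ_three] at hf ⊢
  have e10 : (1 : Fin 3) ≠ 0 := by decide
  have e20 : (2 : Fin 3) ≠ 0 := by decide
  have e21 : (2 : Fin 3) ≠ 1 := by decide
  fin_cases k
  · simp only [Fin.zero_eta, Fin.isValue, Function.update_self, Function.update_of_ne e10,
      Function.update_of_ne e20] at hf ⊢
    rw [m10, m20] at hf
    have h1 : ε 0 * ε 0 * M 0 0 = M 0 0 := by rw [q0, one_mul]
    nlinarith [h1]
  · simp only [Fin.mk_one, Fin.isValue, Function.update_self, Function.update_of_ne e10.symm,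
      Function.update_of_ne e21] at hf ⊢
    rw [m21, ← m10] at hf
    have h1 : ε 1 * ε 1 * M 1 1 = M 1 1 := by rw [q1, one_mul]
    nlinarith [h1]
  · simp only [Fin.reduceFinMk, Fin.isValue, Function.update_self, Function.update_of_ne e20.symm,
      Function.update_of_ne e21.symm] at hf ⊢
    rw [← m20, ← m21] at hf
    have h1 : ε 2 * ε 2 * M 2 2 = M 2 2 := by rw [q2, one_mul]
    nlinarith [h1]

theorem PLK3_norm {U : Matrix (Fin 3) (Fin 3) ℝ} (hU : Uᵀ * U = 1) (v : Fin 3 → ℝ) :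
    (U *ᵥ v) ⬝ᵥ (U *ᵥ v) = v ⬝ᵥ v := by
  have h1 : (U *ᵥ v) = v ᵥ* Uᵀ := (Matrix.vecMul_transpose U v).symm
  calc (U *ᵥ v) ⬝ᵥ (U *ᵥ v) = (v ᵥ* Uᵀ) ⬝ᵥ (U *ᵥ v) := by rw [← h1]
    _ = v ⬝ᵥ (Uᵀ *ᵥ (U *ᵥ v)) := (Matrix.dotProduct_mulVec v Uᵀ (U *ᵥ v)).symm
    _ = v ⬝ᵥ v := by rw [Matrix.mulVec_mulVec, hU, Matrix.one_mulVec]

theorem PLK3_core (A : Matrix (Fin 3) (Fin 3) ℝ) (hA : ∀ i, A i i = 1) :
    ∃ l : Fin 3 → ℝ, ∑ j, |l j| ≤ 1 ∧ ∀ i, 1 / 3 ≤ |∑ j, A i j * l j| := by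
  obtain ⟨U, hU, hpos, hmax⟩ := plk1 A hA
  have hU' : U * Uᵀ = 1 := mul_eq_one_comm.mp hU
  set d : Fin 3 → ℝ := fun i => 1 / (A * U) i i with hd
  have hd0 : ∀ i, 0 < d i := fun i => one_div_pos.mpr (hpos i)
  have hdA : ∀ i, d i * (A * U) i i = 1 := fun i => one_div_mul_cancel (hpos i).ne'
  set H : Matrix (Fin 3) (Fin 3) ℝ := diagonal d * (A * U) with hH
  have hHij : ∀ i j, H i j = d i * (A * U) i j := fun i j => by
    rw [hH, Matrix.diagonal_mul]
  have hHii : ∀ i, H i i = 1 := fun i => by rw [hHij, hdA]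
  have hPSD : H.PosSemidef := by
    apply plk2 H hHii
    intro R hR hR0
    have e1 : ∀ i, (H * R) i i = d i * (A * (U * R)) i i := by
      intro i
      rw [hH, Matrix.mul_assoc, Matrix.mul_assoc, Matrix.diagonal_mul]
    have h1 : ∀ i, 0 ≤ (A * (U * R)) i i := by
      intro i
      have h2 := hR0 i
      rw [e1] at h2
      exact nonneg_of_mul_nonneg_right h2 (hd0 i)
    have hUR : (U * R)ᵀ * (U * R) = 1 := by
      rw [Matrix.transpose_mul, Matrix.mul_assoc, ← Matrix.mul_assoc Uᵀ, hU, Matrix.one_mul, hR]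
    have h3 := hmax (U * R) hUR h1
    simp only [e1, Finset.prod_mul_distrib]
    calc (∏ i, d i) * ∏ i, (A * (U * R)) i i ≤ (∏ i, d i) * ∏ i, (A * U) i i :=
          mul_le_mul_of_nonneg_left h3 (Finset.prod_nonneg fun i _ => (hd0 i).le)
      _ = 1 := by
          rw [← Finset.prod_mul_distrib]
          exact Finset.prod_eq_one fun i _ => hdA i
  have hHsym : Hᵀ = H := by
    have h := hPSD.isHermitian
    rwa [Matrix.IsHermitian, Matrix.conjTranspose_eq_transpose_of_trivial] at h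
  have hHs : ∀ i j, H i j = H j i := fun i j => by
    conv_lhs => rw [← hHsym]
    rfl
  have hHU : ∀ i, (H * Uᵀ) i i = d i := by
    intro i
    rw [hH, Matrix.mul_assoc, Matrix.mul_assoc, hU', Matrix.mul_one, Matrix.diagonal_mul, hA,
      mul_one]
  have hUH : ∀ i, (U * H) i i = d i := by
    intro i
    have h1 : (U * H) i i = ((U * H)ᵀ) i i := rfl
    rw [h1, Matrix.transpose_mul, hHsym, hHU]
  have hsum3 : ∑ i, d i ^ 2 ≤ 3 := by
    have h1 := (hPSD.mul_mul_conjTranspose_same (diagonal d - U)).trace_nonneg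
    rw [Matrix.conjTranspose_eq_transpose_of_trivial, Matrix.transpose_sub,
      Matrix.diagonal_transpose, Matrix.sub_mul, Matrix.sub_mul, Matrix.mul_sub, Matrix.mul_sub,
      Matrix.trace_sub, Matrix.trace_sub, Matrix.trace_sub] at h1
    have t1 : (diagonal d * H * diagonal d).trace = ∑ i, d i ^ 2 := by
      unfold Matrix.trace
      refine Finset.sum_congr rfl fun i _ => ?_
      rw [Matrix.diag_apply, Matrix.mul_diagonal, Matrix.diagonal_mul, hHii]
      ring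
    have t2 : (diagonal d * H * Uᵀ).trace = ∑ i, d i ^ 2 := by
      unfold Matrix.trace
      refine Finset.sum_congr rfl fun i _ => ?_
      rw [Matrix.diag_apply, Matrix.mul_assoc, Matrix.diagonal_mul, hHU]
      ring
    have t3 : (U * H * diagonal d).trace = ∑ i, d i ^ 2 := by
      unfold Matrix.trace
      refine Finset.sum_congr rfl fun i _ => ?_
      rw [Matrix.diag_apply, Matrix.mul_diagonal, hUH]
      ring
    have t4 : (U * H * Uᵀ).trace = 3 := by
      rw [Matrix.trace_mul_cycle, hU, Matrix.one_mul]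
      unfold Matrix.trace
      simp only [Matrix.diag_apply, hHii, Fin.sum_univ_three]
      norm_num
    rw [t1, t2, t3, t4] at h1
    linarith
  set y : Fin 3 → ℝ := fun i => d i / 3 with hy
  have hy0 : ∀ i, 0 < y i := fun i => by
    have := hd0 i
    simp only [hy]
    positivity
  obtain ⟨ε, hε, hsg⟩ := PLK3_sign (fun i j => y i * H i j * y j) (fun i j => by
    show y i * H i j * y j = y j * H j i * y i
    rw [hHs i j]; ring)
  set v : Fin 3 → ℝ := fun i => y i * ε i with hv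
  have hεsq : ∀ i, ε i ^ 2 = 1 := fun i => by
    rcases hε i with h | h <;> rw [h] <;> norm_num
  have hHv : ∀ i, y i ≤ |(H *ᵥ v) i| := by
    intro i
    have h1 : y i * H i i * y i ≤ ε i * ∑ j, y i * H i j * y j * ε j := hsg i
    have h2 : ∑ j, y i * H i j * y j * ε j = y i * (H *ᵥ v) i := by
      rw [Matrix.mulVec, dotProduct, Finset.mul_sum]
      refine Finset.sum_congr rfl fun j _ => ?_
      simp only [hv]
      ring
    rw [h2, hHii] at h1
    have h3 : y i * y i ≤ y i * (ε i * (H *ᵥ v) i) := by linarith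
    have h4 : y i ≤ ε i * (H *ᵥ v) i := le_of_mul_le_mul_left h3 (hy0 i)
    refine h4.trans ?_
    rcases hε i with h | h <;> rw [h]
    · rw [one_mul]; exact le_abs_self _
    · rw [neg_one_mul]; exact neg_le_abs _
  refine ⟨U *ᵥ v, ?_, ?_⟩
  · have h1 : ∑ j, (U *ᵥ v) j ^ 2 = ∑ j, y j ^ 2 := by
      have h2 := PLK3_norm hU v
      unfold dotProduct at h2
      have h3 : ∑ j, (U *ᵥ v) j ^ 2 = ∑ j, (U *ᵥ v) j * (U *ᵥ v) j :=
        Finset.sum_congr rfl fun j _ => sq _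
      rw [h3, h2]
      refine Finset.sum_congr rfl fun j _ => ?_
      simp only [hv]
      have := hεsq j
      linear_combination (y j ^ 2) * this
    have h4 : ∑ j, y j ^ 2 ≤ 1 / 3 := by
      have h5 : ∑ j, y j ^ 2 = (∑ j, d j ^ 2) / 9 := by
        rw [Finset.sum_div]
        refine Finset.sum_congr rfl fun j _ => ?_
        simp only [hy]
        ring
      rw [h5]
      linarith
    have h6 : (∑ j, |(U *ᵥ v) j|) ^ 2 ≤ 3 * ∑ j, |(U *ᵥ v) j| ^ 2 := by
      have h7 := sq_sum_le_card_mul_sum_sq (s := (Finset.univ : Finset (Fin 3)))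
        (f := fun j => |(U *ᵥ v) j|)
      simpa using h7
    simp only [sq_abs] at h6
    rw [h1] at h6
    have h8 : (∑ j, |(U *ᵥ v) j|) ^ 2 ≤ 1 := by linarith
    exact (sq_le_one_iff₀ (Finset.sum_nonneg fun j _ => abs_nonneg _)).mp h8
  · intro i
    have h1 : ∑ j, A i j * (U *ᵥ v) j = (A *ᵥ (U *ᵥ v)) i := rfl
    rw [h1, Matrix.mulVec_mulVec]
    have h2 : (H *ᵥ v) i = d i * ((A * U) *ᵥ v) i := by
      rw [hH, ← Matrix.mulVec_mulVec, Matrix.mulVec_diagonal]
    have h3 := hHv i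
    rw [h2, abs_mul, abs_of_pos (hd0 i)] at h3
    have h4 : d i * (1 / 3) ≤ d i * |((A * U) *ᵥ v) i| := by
      have h5 : y i = d i * (1 / 3) := by simp only [hy]; ring
      rw [← h5]
      exact h3
    exact le_of_mul_le_mul_left h4 (hd0 i)

theorem plank3 (A : Matrix (Fin 3) (Fin 3) ℝ) (hA : ∀ i, 1 ≤ A i i) :
    ∃ l : Fin 3 → ℝ, ∑ j, |l j| ≤ 1 ∧ ∀ i, 1 / 3 ≤ |∑ j, A i j * l j| := by
  have hA0 : ∀ i, 0 < A i i := fun i => lt_of_lt_of_le one_pos (hA i)
  obtain ⟨l, hl, hl'⟩ := PLK3_core (fun i j => A i j / A i i) (fun i => div_self (hA0 i).ne')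
  refine ⟨l, hl, fun i => ?_⟩
  have h1 : ∑ j, A i j * l j = A i i * ∑ j, A i j / A i i * l j := by
    rw [Finset.mul_sum]
    refine Finset.sum_congr rfl fun j _ => ?_
    have := (hA0 i).ne'
    field_simp
  rw [h1, abs_mul, abs_of_pos (hA0 i)]
  have h2 : (1 : ℝ) / 3 ≤ |∑ j, A i j / A i i * l j| := hl' i
  have h3 : 1 * |∑ j, A i j / A i i * l j| ≤ A i i * |∑ j, A i j / A i i * l j| :=
    mul_le_mul_of_nonneg_right (hA i) (abs_nonneg _)
  linarith

end H66OD

end S_PLK3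

section S_QUAD

/-!
# Row QUAD (about 220 lines)

Four points with sum zero, the first three a basis of `ℝ³` such that every integer vector is an integer
combination of them with even coefficient sum; four functionals, `a i ⬝ w i = 1`, `|a i ⬝ w j| ≤ 1`.
Then `Short 4 a`.

PROOF. Suppose not. For `j = 1,2,3` let `U j` be the vector with `U j ⬝ w 0 = U j ⬝ w j = 1/2` and
`U j ⬝ w l = -1/2` for the two other indices (defined by the values on the basis `w 0, w 1, w 2`; the value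
on `w 3 = -w 0 - w 1 - w 2` is then correct as the four values sum to zero). `U j` is an integer
vector: for a standard basis vector `e k = Σ_{l<3} m l w l`, `Σ m l` even, `U j ⬝ e k = (± m 0 ± m 1 ± m 2)/2`
is an integer (same parity as `Σ m l`). `U j ≠ 0`. By `¬ Short` and `hb` there is `X j` with
`|a i ⬝ X j| ≤ 1` for all `i` and `U j ⬝ X j > 3/2`. Let `μ = min_j U j ⬝ X j > 3/2`, and apply `plank3` to
the matrix `(U i ⬝ X j)/μ` (index `Fin 3` for `1,2,3`), whose diagonal is `≥ 1`: `l` with `Σ |l j| ≤ 1` and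
`z = Σ l j X j` satisfies `|U i ⬝ z| ≥ μ/3 > 1/2` and `|a i ⬝ z| ≤ Σ |l j| ≤ 1`.
With `M i j = a i ⬝ w j` (row sums `0`, `M i i = 1`, `|M i j| ≤ 1`):
 `a 0 = (1+M 0 1) U1 + (1+M 0 2) U2 + (1+M 0 3) U3`,
 `a 1 = (1+M 1 0) U1 - (1+M 1 2) U3 - (1+M 1 3) U2`,
 `a 2 = (1+M 2 0) U2 - (1+M 2 1) U3 - (1+M 2 3) U1`,
 `a 3 = (1+M 3 0) U3 - (1+M 3 1) U2 - (1+M 3 2) U1`
(check on `w 0, w 1, w 2, w 3`; it suffices on the basis `w 0, w 1, w 2`). The coefficients `1 + M` are `≥ 0`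
and sum to `3 - 1 = 2` in each line (the row sum without the diagonal is `-1`).
Signs of `(U1 ⬝ z, U2 ⬝ z, U3 ⬝ z)`, all of absolute value `> 1/2`:
`(+,+,+)`: `a 0 ⬝ z > 1`; `(+,-,-)`: `a 1 ⬝ z > 1`; `(-,+,-)`: `a 2 ⬝ z > 1`; `(-,-,+)`: `a 3 ⬝ z > 1`; the
negatives of these patterns give `a k ⬝ z < -1`. (Each line is a combination of three numbers `> 1/2` with
coefficients `≥ 0` of sum `2`.) All eight patterns contradict `|a k ⬝ z| ≤ 1`.
-/

open Matrix

namespace H66OD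

theorem QUAD_lt {c1 c2 c3 x1 x2 x3 : ℝ} (h1 : 0 ≤ c1) (h2 : 0 ≤ c2) (h3 : 0 ≤ c3)
    (hs : c1 + c2 + c3 = 2) (k1 : 1 / 2 < x1) (k2 : 1 / 2 < x2) (k3 : 1 / 2 < x3) :
    1 < c1 * x1 + c2 * x2 + c3 * x3 := by
  have hm : 1 / 2 < min x1 (min x2 x3) := lt_min k1 (lt_min k2 k3)
  have e1 : c1 * min x1 (min x2 x3) ≤ c1 * x1 := mul_le_mul_of_nonneg_left (min_le_left _ _) h1
  have e2 : c2 * min x1 (min x2 x3) ≤ c2 * x2 :=
    mul_le_mul_of_nonneg_left ((min_le_right _ _).trans (min_le_left _ _)) h2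
  have e3 : c3 * min x1 (min x2 x3) ≤ c3 * x3 :=
    mul_le_mul_of_nonneg_left ((min_le_right _ _).trans (min_le_right _ _)) h3
  have e4 : c1 * min x1 (min x2 x3) + c2 * min x1 (min x2 x3) + c3 * min x1 (min x2 x3) =
      2 * min x1 (min x2 x3) := by
    rw [← hs]
    ring
  linarith

/-- the matrix of the basis is injective and surjective -/
theorem QUAD_basis (w0 w1 w2 : Fin 3 → ℝ) (hlin : LinearIndependent ℝ ![w0, w1, w2]) :
    (∀ p q : Fin 3 → ℝ, p ⬝ᵥ w0 = q ⬝ᵥ w0 → p ⬝ᵥ w1 = q ⬝ᵥ w1 → p ⬝ᵥ w2 = q ⬝ᵥ w2 → p = q) ∧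
      ∀ s0 s1 s2 : ℝ, ∃ p : Fin 3 → ℝ, p ⬝ᵥ w0 = s0 ∧ p ⬝ᵥ w1 = s1 ∧ p ⬝ᵥ w2 = s2 := by
  set W : Matrix (Fin 3) (Fin 3) ℝ := Matrix.of ![w0, w1, w2] with hW
  have hu : IsUnit W := Matrix.linearIndependent_rows_iff_isUnit.1 hlin
  have hdet : IsUnit W.det := (Matrix.isUnit_iff_isUnit_det W).1 hu
  have r0 : ∀ p, (W *ᵥ p) 0 = p ⬝ᵥ w0 := fun p => dotProduct_comm _ _
  have r1 : ∀ p, (W *ᵥ p) 1 = p ⬝ᵥ w1 := fun p => dotProduct_comm _ _
  have r2 : ∀ p, (W *ᵥ p) 2 = p ⬝ᵥ w2 := fun p => dotProduct_comm _ _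
  constructor
  · intro p q h0 h1 h2
    have h3 : W *ᵥ p = W *ᵥ q := by
      funext l
      fin_cases l
      · exact (r0 p).trans (h0.trans (r0 q).symm)
      · exact (r1 p).trans (h1.trans (r1 q).symm)
      · exact (r2 p).trans (h2.trans (r2 q).symm)
    have h4 := congrArg (fun v => W⁻¹ *ᵥ v) h3
    simpa only [Matrix.mulVec_mulVec, Matrix.nonsing_inv_mul W hdet, Matrix.one_mulVec] using h4
  · intro s0 s1 s2
    refine ⟨W⁻¹ *ᵥ ![s0, s1, s2], ?_, ?_, ?_⟩
    · rw [← r0, Matrix.mulVec_mulVec, Matrix.mul_nonsing_inv W hdet, Matrix.one_mulVec]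
      rfl
    · rw [← r1, Matrix.mulVec_mulVec, Matrix.mul_nonsing_inv W hdet, Matrix.one_mulVec]
      rfl
    · rw [← r2, Matrix.mulVec_mulVec, Matrix.mul_nonsing_inv W hdet, Matrix.one_mulVec]
      rfl

theorem QUAD_int (w0 w1 w2 : Fin 3 → ℝ) (hlin : LinearIndependent ℝ ![w0, w1, w2])
    (hlat : ∀ y : Fin 3 → ℤ, ∃ m0 m1 m2 : ℤ,
      toR y = (m0 : ℝ) • w0 + (m1 : ℝ) • w1 + (m2 : ℝ) • w2 ∧ Even (m0 + m1 + m2))
    (s0 s1 s2 : ℤ) (h0 : Odd s0) (h1 : Odd s1) (h2 : Odd s2) :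
    ∃ U : Fin 3 → ℤ, toR U ⬝ᵥ w0 = s0 / 2 ∧ toR U ⬝ᵥ w1 = s1 / 2 ∧ toR U ⬝ᵥ w2 = s2 / 2 := by
  obtain ⟨p, p0, p1, p2⟩ := (QUAD_basis w0 w1 w2 hlin).2 (s0 / 2) (s1 / 2) (s2 / 2)
  have hk : ∀ k : Fin 3, ∃ n : ℤ, p k = n := by
    intro k
    obtain ⟨m0, m1, m2, hm, he⟩ := hlat (Pi.single k 1)
    have e1 : p ⬝ᵥ toR (Pi.single k 1) = p k := by
      have e2 : toR (Pi.single k 1 : Fin 3 → ℤ) = Pi.single k 1 := by
        funext j
        by_cases hj : j = k
        · subst hj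
          simp
        · simp [hj]
      rw [e2, dotProduct_single, mul_one]
    rw [hm, dotProduct_add, dotProduct_add, dotProduct_smul, dotProduct_smul, dotProduct_smul,
      p0, p1, p2, smul_eq_mul, smul_eq_mul, smul_eq_mul] at e1
    obtain ⟨a0, rfl⟩ := h0
    obtain ⟨a1, rfl⟩ := h1
    obtain ⟨a2, rfl⟩ := h2
    obtain ⟨b, hb⟩ := he
    have hb' : (m0 : ℝ) + m1 + m2 = b + b := by exact_mod_cast hb
    refine ⟨m0 * a0 + m1 * a1 + m2 * a2 + b, ?_⟩
    rw [← e1]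
    push_cast
    linarith
  choose U hU using hk
  have hp : toR U = p := by
    funext k
    rw [toR_apply, ← hU k]
  exact ⟨U, by rw [hp, p0], by rw [hp, p1], by rw [hp, p2]⟩

theorem quad (a w : Fin 4 → (Fin 3 → ℝ)) (hsum : ∑ i, w i = 0)
    (h1 : ∀ i, a i ⬝ᵥ w i = 1) (h2 : ∀ i j, |a i ⬝ᵥ w j| ≤ 1)
    (hlin : LinearIndependent ℝ ![w 0, w 1, w 2])
    (hlat : ∀ y : Fin 3 → ℤ, ∃ m0 m1 m2 : ℤ,
      toR y = (m0 : ℝ) • w 0 + (m1 : ℝ) • w 1 + (m2 : ℝ) • w 2 ∧ Even (m0 + m1 + m2)) :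
    Short 4 a := by
  by_contra hns
  have hw3 : w 0 + w 1 + w 2 + w 3 = 0 := by
    rw [Fin.sum_univ_four] at hsum
    exact hsum
  obtain ⟨U1, u10, u11, u12⟩ := QUAD_int (w 0) (w 1) (w 2) hlin hlat 1 1 (-1) (by decide)
    (by decide) (by decide)
  obtain ⟨U2, u20, u21, u22⟩ := QUAD_int (w 0) (w 1) (w 2) hlin hlat 1 (-1) 1 (by decide)
    (by decide) (by decide)
  obtain ⟨U3, u30, u31, u32⟩ := QUAD_int (w 0) (w 1) (w 2) hlin hlat 1 (-1) (-1) (by decide)
    (by decide) (by decide)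
  push_cast at u10 u11 u12 u20 u21 u22 u30 u31 u32
  have hX : ∀ U : Fin 3 → ℤ, toR U ⬝ᵥ w 0 = 1 / 2 →
      ∃ X : Fin 3 → ℝ, (∀ i, |a i ⬝ᵥ X| ≤ 1) ∧ 3 / 2 < toR U ⬝ᵥ X := by
    intro U hU
    refine hb 4 a (toR U) fun ht => hns ⟨U, ?_, ht⟩
    rintro rfl
    rw [toR_zero, zero_dotProduct] at hU
    norm_num at hU
  obtain ⟨X1, x1, y1⟩ := hX U1 u10
  obtain ⟨X2, x2, y2⟩ := hX U2 u20
  obtain ⟨X3, x3, y3⟩ := hX U3 u30
  set UU : Fin 3 → (Fin 3 → ℝ) := ![toR U1, toR U2, toR U3] with hUU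
  set XX : Fin 3 → (Fin 3 → ℝ) := ![X1, X2, X3] with hXX
  have hd : ∀ i, 3 / 2 < UU i ⬝ᵥ XX i := by
    intro i
    fin_cases i
    · exact y1
    · exact y2
    · exact y3
  have hXa : ∀ j i, |a i ⬝ᵥ XX j| ≤ 1 := by
    intro j
    fin_cases j
    · exact x1
    · exact x2
    · exact x3
  obtain ⟨l, hl1, hl2⟩ := plank3 (fun i j => (UU i ⬝ᵥ XX j) / (UU i ⬝ᵥ XX i)) fun i => by
    have := hd i
    rw [div_self (by linarith)]
  set z : Fin 3 → ℝ := ∑ j, l j • XX j with hz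
  have hdot : ∀ p : Fin 3 → ℝ, p ⬝ᵥ z = ∑ j, l j * (p ⬝ᵥ XX j) := by
    intro p
    rw [hz, dotProduct_sum]
    exact Finset.sum_congr rfl fun j _ => by rw [dotProduct_smul, smul_eq_mul]
  have hUz : ∀ i, 1 / 2 < |UU i ⬝ᵥ z| := by
    intro i
    have h3 := hd i
    have h4 : UU i ⬝ᵥ z = (UU i ⬝ᵥ XX i) * ∑ j, (UU i ⬝ᵥ XX j) / (UU i ⬝ᵥ XX i) * l j := by
      rw [hdot, Finset.mul_sum]
      refine Finset.sum_congr rfl fun j _ => ?_
      have : UU i ⬝ᵥ XX i ≠ 0 := by linarith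
      field_simp
    rw [h4, abs_mul, abs_of_pos (by linarith : 0 < UU i ⬝ᵥ XX i)]
    have h5 := hl2 i
    nlinarith
  have haz : ∀ i, |a i ⬝ᵥ z| ≤ 1 := by
    intro i
    rw [hdot]
    refine (Finset.abs_sum_le_sum_abs _ _).trans (le_trans ?_ hl1)
    refine Finset.sum_le_sum fun j _ => ?_
    rw [abs_mul]
    exact mul_le_of_le_one_right (abs_nonneg _) (hXa j i)
  -- row sums
  have hrow : ∀ i, a i ⬝ᵥ w 0 + a i ⬝ᵥ w 1 + a i ⬝ᵥ w 2 + a i ⬝ᵥ w 3 = 0 := by
    intro i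
    rw [← dotProduct_add, ← dotProduct_add, ← dotProduct_add, hw3, dotProduct_zero]
  have hext := (QUAD_basis (w 0) (w 1) (w 2) hlin).1
  have d0 := h1 0
  have d1 := h1 1
  have d2 := h1 2
  have d3 := h1 3
  have s0 := hrow 0
  have s1 := hrow 1
  have s2 := hrow 2
  have s3 := hrow 3
  have A0 : a 0 = (1 + a 0 ⬝ᵥ w 1) • toR U1 + (1 + a 0 ⬝ᵥ w 2) • toR U2 +
      (1 + a 0 ⬝ᵥ w 3) • toR U3 := by
    apply hext
    · simp only [add_dotProduct, smul_dotProduct, smul_eq_mul, u10, u20, u30]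
      linarith
    · simp only [add_dotProduct, smul_dotProduct, smul_eq_mul, u11, u21, u31]
      linarith
    · simp only [add_dotProduct, smul_dotProduct, smul_eq_mul, u12, u22, u32]
      linarith
  have A1 : a 1 = (1 + a 1 ⬝ᵥ w 0) • toR U1 + (1 + a 1 ⬝ᵥ w 2) • (-toR U3) +
      (1 + a 1 ⬝ᵥ w 3) • (-toR U2) := by
    apply hext
    · simp only [add_dotProduct, smul_dotProduct, neg_dotProduct, smul_eq_mul, u10, u20, u30]
      linarith
    · simp only [add_dotProduct, smul_dotProduct, neg_dotProduct, smul_eq_mul, u11, u21, u31]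
      linarith
    · simp only [add_dotProduct, smul_dotProduct, neg_dotProduct, smul_eq_mul, u12, u22, u32]
      linarith
  have A2 : a 2 = (1 + a 2 ⬝ᵥ w 0) • toR U2 + (1 + a 2 ⬝ᵥ w 1) • (-toR U3) +
      (1 + a 2 ⬝ᵥ w 3) • (-toR U1) := by
    apply hext
    · simp only [add_dotProduct, smul_dotProduct, neg_dotProduct, smul_eq_mul, u10, u20, u30]
      linarith
    · simp only [add_dotProduct, smul_dotProduct, neg_dotProduct, smul_eq_mul, u11, u21, u31]
      linarith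
    · simp only [add_dotProduct, smul_dotProduct, neg_dotProduct, smul_eq_mul, u12, u22, u32]
      linarith
  have A3 : a 3 = (1 + a 3 ⬝ᵥ w 0) • toR U3 + (1 + a 3 ⬝ᵥ w 1) • (-toR U2) +
      (1 + a 3 ⬝ᵥ w 2) • (-toR U1) := by
    apply hext
    · simp only [add_dotProduct, smul_dotProduct, neg_dotProduct, smul_eq_mul, u10, u20, u30]
      linarith
    · simp only [add_dotProduct, smul_dotProduct, neg_dotProduct, smul_eq_mul, u11, u21, u31]
      linarith
    · simp only [add_dotProduct, smul_dotProduct, neg_dotProduct, smul_eq_mul, u12, u22, u32]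
      linarith
  have z0 := haz 0
  have z1 := haz 1
  have z2 := haz 2
  have z3 := haz 3
  have e0 := congrArg (fun v => v ⬝ᵥ z) A0
  have e1 := congrArg (fun v => v ⬝ᵥ z) A1
  have e2 := congrArg (fun v => v ⬝ᵥ z) A2
  have e3 := congrArg (fun v => v ⬝ᵥ z) A3
  simp only [add_dotProduct, smul_dotProduct, neg_dotProduct, smul_eq_mul] at e0 e1 e2 e3
  have hpos : ∀ i j, 0 ≤ 1 + a i ⬝ᵥ w j := fun i j => by
    have := (abs_le.1 (h2 i j)).1
    linarith
  have v1 : 1 / 2 < |toR U1 ⬝ᵥ z| := hUz 0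
  have v2 : 1 / 2 < |toR U2 ⬝ᵥ z| := hUz 1
  have v3 : 1 / 2 < |toR U3 ⬝ᵥ z| := hUz 2
  set q1 := toR U1 ⬝ᵥ z
  set q2 := toR U2 ⬝ᵥ z
  set q3 := toR U3 ⬝ᵥ z
  rw [abs_le] at z0 z1 z2 z3
  rcases lt_abs.1 v1 with c1 | c1 <;> rcases lt_abs.1 v2 with c2 | c2 <;>
    rcases lt_abs.1 v3 with c3 | c3
  · have := QUAD_lt (hpos 0 1) (hpos 0 2) (hpos 0 3) (by linarith) c1 c2 c3
    linarith
  · have := QUAD_lt (hpos 3 0) (hpos 3 1) (hpos 3 2) (by linarith) c3 c2 c1
    linarith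
  · have := QUAD_lt (hpos 2 0) (hpos 2 1) (hpos 2 3) (by linarith) c2 c3 c1
    linarith
  · have := QUAD_lt (hpos 1 0) (hpos 1 2) (hpos 1 3) (by linarith) c1 c3 c2
    linarith
  · have := QUAD_lt (hpos 1 0) (hpos 1 2) (hpos 1 3) (by linarith) c1 c3 c2
    linarith
  · have := QUAD_lt (hpos 2 0) (hpos 2 1) (hpos 2 3) (by linarith) c2 c3 c1
    linarith
  · have := QUAD_lt (hpos 3 0) (hpos 3 1) (hpos 3 2) (by linarith) c3 c2 c1
    linarith
  · have := QUAD_lt (hpos 0 1) (hpos 0 2) (hpos 0 3) (by linarith) c1 c2 c3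
    linarith

end H66OD

end S_QUAD

section S_N4

/-!
# Row N4 (about 120 lines): configurations with four functionals

PROOF. Let `w = C.w`, `a = C.a`. `w 3 - w 0` is an integer vector, so by `gen` (indices 0,1,2)
`w 3 = n0 w 0 + n1 w 1 + n2 w 2` with integers `n`. `w 0 - w 3` is an integer vector, by `gen`
(indices 3,1,2) `w 0 = k w 3 + k1 w 1 + k2 w 2` with integers; substituting and comparing the coefficients of
`w 0` (independent, `ind`): `k n0 = 1`, so `n0 = ±1`. In the same way (indices 0,3,2 and `w 1 - w 3`)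
`n1 = ±1`, (indices 0,1,3 and `w 2 - w 3`) `n2 = ±1`. Let `σ l = -n l ∈ {1,-1}` for `l = 0,1,2`, `σ 3 = 1`,
`w' i = σ i w i`, `a' i = σ i a i`. `Σ w' i = 0`; `a' i ⬝ w' i = 1`; `|a' i ⬝ w' j| ≤ 1`; `w' 0, w' 1, w' 2`
independent; `hlat`: from `gen` with coefficients `σ l m l` (the same parity of the sum). `quad` gives
`Short 4 a'`: `u = Σ t i a' i = Σ (t i σ i) a i`, `|t i σ i| = |t i|`.
-/

open Matrix

namespace H66OD

theorem N4_unit {n : ℕ} (C : Cfg n) (i j k l : Fin n) (hij : i ≠ j) (hik : i ≠ k) (hjk : j ≠ k)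
    (hlj : l ≠ j) (hlk : l ≠ k) (n0 n1 n2 : ℤ)
    (h : C.w l = (n0 : ℝ) • C.w i + (n1 : ℝ) • C.w j + (n2 : ℝ) • C.w k) :
    n0 = 1 ∨ n0 = -1 := by
  obtain ⟨t, -, htw⟩ := GEN_coord (ind C i j k hij hik hjk)
  have t00 : t 0 (C.w i) = 1 := by simpa using htw 0 0
  have t01 : t 0 (C.w j) = 0 := by simpa using htw 0 1
  have t02 : t 0 (C.w k) = 0 := by simpa using htw 0 2
  obtain ⟨zi, hzi⟩ := C.hw i
  obtain ⟨zl, hzl⟩ := C.hw l
  obtain ⟨m0, m1, m2, hm, -⟩ := gen C l j k hlj hlk hjk (zi - zl)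
  have h1 : toR (zi - zl) = C.w i - C.w l := by
    rw [toR_sub, hzi, hzl]; abel
  rw [h1] at hm
  have h2 := congrArg (t 0) hm
  have h3 : t 0 (C.w l) = n0 := by
    rw [h]
    simp only [map_add, map_smul, smul_eq_mul, t00, t01, t02]
    ring
  simp only [map_add, map_sub, map_smul, smul_eq_mul, t00, t01, t02, h3] at h2
  have h4 : (n0 : ℝ) * (m0 + 1) = 1 := by linarith
  have h5 : n0 * (m0 + 1) = 1 := by exact_mod_cast h4
  exact Int.eq_one_or_neg_one_of_mul_eq_one h5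

theorem n4 (C : Cfg 4) : Short 4 C.a := by
  obtain ⟨z0, hz0⟩ := C.hw 0
  obtain ⟨z3, hz3⟩ := C.hw 3
  obtain ⟨m0, m1, m2, hm, -⟩ := gen C 0 1 2 (by decide) (by decide) (by decide) (z3 - z0)
  have h1 : toR (z3 - z0) = C.w 3 - C.w 0 := by
    rw [toR_sub, hz3, hz0]; abel
  rw [h1] at hm
  obtain ⟨n0, hn0⟩ : ∃ n0 : ℤ, n0 = m0 + 1 := ⟨_, rfl⟩
  have hw3 : C.w 3 = (n0 : ℝ) • C.w 0 + (m1 : ℝ) • C.w 1 + (m2 : ℝ) • C.w 2 := by
    rw [hn0]
    push_cast
    rw [add_smul, one_smul]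
    rw [sub_eq_iff_eq_add] at hm
    rw [hm]
    abel
  have u0 := N4_unit C 0 1 2 3 (by decide) (by decide) (by decide) (by decide) (by decide)
    n0 m1 m2 hw3
  have u1 := N4_unit C 1 0 2 3 (by decide) (by decide) (by decide) (by decide) (by decide)
    m1 n0 m2 (by rw [hw3]; abel)
  have u2 := N4_unit C 2 0 1 3 (by decide) (by decide) (by decide) (by decide) (by decide)
    m2 n0 m1 (by rw [hw3]; abel)
  obtain ⟨σ, hσ⟩ : ∃ σ : Fin 4 → ℤ, σ = ![-n0, -m1, -m2, 1] := ⟨_, rfl⟩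
  have hσ0 : σ 0 = -n0 := by rw [hσ]; rfl
  have hσ1 : σ 1 = -m1 := by rw [hσ]; rfl
  have hσ2 : σ 2 = -m2 := by rw [hσ]; rfl
  have hσ3 : σ 3 = 1 := by rw [hσ]; rfl
  have hpm : ∀ i, σ i = 1 ∨ σ i = -1 := by
    intro i
    fin_cases i
    · show σ 0 = 1 ∨ σ 0 = -1
      rw [hσ0]; omega
    · show σ 1 = 1 ∨ σ 1 = -1
      rw [hσ1]; omega
    · show σ 2 = 1 ∨ σ 2 = -1
      rw [hσ2]; omega
    · show σ 3 = 1 ∨ σ 3 = -1
      left; exact hσ3
  have hsq : ∀ i, (σ i : ℝ) * σ i = 1 := by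
    intro i
    rcases hpm i with h | h <;> rw [h] <;> norm_num
  have habs : ∀ i, |(σ i : ℝ)| = 1 := by
    intro i
    rcases hpm i with h | h <;> rw [h] <;> norm_num
  obtain ⟨t, htx, htw⟩ := GEN_coord (ind C 0 1 2 (by decide) (by decide) (by decide))
  have t00 : t 0 (C.w 0) = 1 := by simpa using htw 0 0
  have t01 : t 0 (C.w 1) = 0 := by simpa using htw 0 1
  have t02 : t 0 (C.w 2) = 0 := by simpa using htw 0 2
  have t10 : t 1 (C.w 0) = 0 := by simpa using htw 1 0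
  have t11 : t 1 (C.w 1) = 1 := by simpa using htw 1 1
  have t12 : t 1 (C.w 2) = 0 := by simpa using htw 1 2
  have t20 : t 2 (C.w 0) = 0 := by simpa using htw 2 0
  have t21 : t 2 (C.w 1) = 0 := by simpa using htw 2 1
  have t22 : t 2 (C.w 2) = 1 := by simpa using htw 2 2
  have hq := quad (fun i => (σ i : ℝ) • C.a i) (fun i => (σ i : ℝ) • C.w i) ?_ ?_ ?_ ?_ ?_
  · obtain ⟨u, hu, s, hs, hle⟩ := hq
    refine ⟨u, hu, fun i => s i * σ i, ?_, ?_⟩
    · rw [hs]
      exact Finset.sum_congr rfl fun i _ => by rw [smul_smul]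
    · refine le_trans (le_of_eq ?_) hle
      exact Finset.sum_congr rfl fun i _ => by rw [abs_mul, habs, mul_one]
  · rw [Fin.sum_univ_four, hσ0, hσ1, hσ2, hσ3, hw3]
    push_cast
    rw [one_smul, neg_smul, neg_smul, neg_smul]
    abel
  · intro i
    show ((σ i : ℝ) • C.a i) ⬝ᵥ ((σ i : ℝ) • C.w i) = 1
    rw [smul_dotProduct, dotProduct_smul, C.h1 i, smul_eq_mul, smul_eq_mul, mul_one, hsq]
  · intro i j
    show |((σ i : ℝ) • C.a i) ⬝ᵥ ((σ j : ℝ) • C.w j)| ≤ 1
    rw [smul_dotProduct, dotProduct_smul, smul_eq_mul, smul_eq_mul, abs_mul, abs_mul, habs, habs,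
      one_mul, one_mul]
    by_cases hij : j = i
    · rw [hij, C.h1 i, abs_one]
    · exact (C.h2 j i hij).le
  · rw [Fintype.linearIndependent_iff]
    intro g hg
    rw [Fin.sum_univ_three] at hg
    have hg' : g 0 • ((σ 0 : ℝ) • C.w 0) + g 1 • ((σ 1 : ℝ) • C.w 1) +
        g 2 • ((σ 2 : ℝ) • C.w 2) = 0 := hg
    have e0 := congrArg (t 0) hg'
    have e1 := congrArg (t 1) hg'
    have e2 := congrArg (t 2) hg'
    simp only [map_add, map_smul, smul_eq_mul, map_zero, t00, t01, t02, t10, t11, t12, t20, t21,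
      t22, mul_zero, mul_one, add_zero, zero_add] at e0 e1 e2
    have hne : ∀ i, (σ i : ℝ) ≠ 0 := fun i h0 => by
      have := hsq i
      rw [h0] at this
      norm_num at this
    intro i
    fin_cases i
    · exact (mul_eq_zero.1 e0).resolve_right (hne 0)
    · exact (mul_eq_zero.1 e1).resolve_right (hne 1)
    · exact (mul_eq_zero.1 e2).resolve_right (hne 2)
  · intro y
    obtain ⟨k0, k1, k2, hk, hev⟩ := gen C 0 1 2 (by decide) (by decide) (by decide) y
    refine ⟨k0 * σ 0, k1 * σ 1, k2 * σ 2, ?_, ?_⟩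
    · rw [hk]
      push_cast
      simp only [smul_smul, mul_assoc, hsq, mul_one]
    · have p0 := hpm 0
      have p1 := hpm 1
      have p2 := hpm 2
      obtain ⟨r, hr⟩ := hev
      rcases p0 with h | h <;> rcases p1 with h' | h' <;> rcases p2 with h'' | h'' <;>
        rw [h, h', h''] <;> rw [Int.even_iff] <;> omega

end H66OD

end S_N4
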