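import Pool.Agent.H66.OD.Defs

/-! Oda in dimension three, part G4: this file joins the modules CER1 to save build time. -/

section S_CER1

/-!
# CER1: certificate AAAB of the P-type (generated by an exact linear program)
-/

namespace H66OD

set_option maxRecDepth 10000 in
theorem cert_AAAB (l0 lp lm m0 mp mm p pb q qb s sb t tb A1 B1 A2 B2 D : ℝ)
    (hl0 : 0 < l0) (hlp : 0 ≤ lp) (hlm : 0 ≤ lm) (hm0 : 0 < m0) (hmp : 0 ≤ mp) (hmm : 0 ≤ mm)
    (hp : 0 < p) (hpb : 0 < pb) (hq : 0 < q) (hqb : 0 < qb)
    (hs : s = l0 / 2 + lp) (hsb : sb = l0 / 2 + lm) (ht : t = m0 / 2 + mp)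
    (htb : tb = m0 / 2 + mm) (hA1 : A1 = 2 * (p * sb + pb * s))
    (hB1 : B1 = 2 * (lp * qb + lm * q)) (hA2 : A2 = 2 * (mp * p + mm * pb))
    (hB2 : B2 = 2 * (q * tb + qb * t)) (hD : D = A1 * B2 + A2 * B1)
    (h0 : 0 < 2*(pb*sb*B2) - 2*(pb*tb*B1) + 2*(qb*sb*A2) + 2*(qb*tb*A1) - D)
    (h1 : 0 < 2*(p*s*B2) + 2*(p*tb*B1) - 2*(qb*s*A2) + 2*(qb*tb*A1) - D)
    (h2 : 0 < 2*(p*s*B2) - 2*(p*t*B1) + 2*(q*s*A2) + 2*(q*t*A1) - D)
    (h3 : 0 < -2*(pb*s*B2) + 2*(pb*t*B1) + 2*(q*s*A2) + 2*(q*t*A1) - D)
    : False := by
  have w0 : 0 <
      360314456 * lm * mm * pb * q + 1048902112 * lm * mm * p * q +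
        1048902112 * lm * mp * p * qb + 524451056 * lm * m0 * p * qb +
        1097382300 * lm * m0 * p * q + 546787328 * lp * mm * pb * qb +
        1783178304 * lp * mm * p * q + 5228227336 * lp * mp * pb * qb +
        737774160 * lp * mp * pb * q + 2329822528 * lp * mp * p * qb +
        1592998016 * lp * mp * p * q + 932737612 * lp * m0 * pb * qb +
        502068500 * lp * m0 * pb * q + 891589152 * lp * m0 * p * qb +
        1500385344 * lp * m0 * p * q + 545334092 * l0 * mm * pb * q +
        273393664 * l0 * mm * p * q + 1401492352 * l0 * mp * pb * qb +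
        83284928 * l0 * mp * pb * q + 273322112 * l0 * mp * p * qb + 166569856 * l0 * mp * p * q +
        689081540 * l0 * m0 * pb * qb + 499774336 * l0 * m0 * pb * q +
        136696832 * l0 * m0 * p * qb + 472006376 * l0 * m0 * p * q := by positivity
  have w1 : 0 <
      3238275960 * lm * mm * pb * q + 4275269424 * lm * mp * pb * qb +
        2599162736 * lm * mp * pb * q + 1848626752 * lm * mp * p * q +
        1464079916 * lm * m0 * pb * qb + 288206888 * lm * m0 * pb * q +
        445794576 * lm * m0 * p * q + 1018998096 * lp * mm * pb * q +
        100243312 * lp * mp * pb * qb + 285602152 * lp * mp * pb * q +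
        133037568 * lp * m0 * pb * qb + 935484324 * lp * m0 * pb * q +
        582764596 * l0 * mm * pb * q + 356607040 * l0 * mp * pb * q + 71552 * l0 * mp * p * qb +
        713214080 * l0 * mp * p * q + 11664636 * l0 * m0 * pb * qb + 81038652 * l0 * m0 * pb * q +
        304398096 * l0 * m0 * p * q := by positivity
  have w2 : 0 <
      1409216568 * lm * mp * pb * qb + 1378163080 * lm * m0 * pb * qb +
        1011374480 * lm * m0 * pb * q + 1041131252 * lp * m0 * pb * qb +
        86197048 * l0 * m0 * pb * qb + 178303520 * l0 * m0 * pb * q := by positivity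
  have w3 : 0 <
      5324171536 * lm * mm * pb * qb + 2599162736 * lm * mm * pb * q +
        1048902112 * lm * mm * p * qb + 879855488 * lm * mm * p * q +
        2350813088 * lm * mp * p * qb + 879783936 * lm * mp * p * q +
        1292155260 * lm * m0 * p * qb + 859689400 * lm * m0 * p * q +
        2160773752 * lp * mm * pb * qb + 452172008 * lp * mm * pb * q +
        1783178304 * lp * mm * p * qb + 452172008 * lp * mp * pb * qb +
        523176896 * lp * mp * p * qb + 962011416 * lp * m0 * pb * qb +
        226086004 * lp * m0 * pb * q + 1054590768 * lp * m0 * p * qb +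
        1401492352 * l0 * mm * pb * qb + 356607040 * l0 * mm * pb * q +
        273393664 * l0 * mm * p * qb + 83284928 * l0 * mm * p * q +
        356607040 * l0 * mp * pb * qb + 356607040 * l0 * mp * p * qb +
        309806180 * l0 * m0 * pb * qb + 241386584 * l0 * m0 * p * qb +
        41642464 * l0 * m0 * p * q := by positivity
  have q2 : 0 ≤
      3566356608 * l0 * lp * p * p + 628690572 * l0 * l0 * p * pb + 713357184 * l0 * l0 * p * p := by positivity
  have r : 0 ≤
      19855428320 * lm * lm * mm * mm * pb * pb * q * qb +
        24791012608 * lm * lm * mm * mm * pb * pb * q * q +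
        6902324480 * lm * lm * mm * mm * p * pb * q * qb +
        19552939168 * lm * lm * mm * mm * p * pb * q * q +
        7715030400 * lm * lm * mm * mm * p * p * q * q +
        23797614016 * lm * lm * mp * mm * p * pb * q * qb +
        21788582464 * lm * lm * mp * mm * p * pb * q * q +
        9723775744 * lm * lm * mp * mm * p * p * q * qb +
        7714744192 * lm * lm * mp * mm * p * p * q * q +
        18542335520 * lm * lm * mp * mp * p * pb * qb * qb +
        23731342560 * lm * lm * mp * mp * p * pb * q * qb +
        6877515200 * lm * lm * mp * mp * p * pb * q * q +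
        9403252352 * lm * lm * mp * mp * p * p * qb * qb +
        15109251200 * lm * lm * mp * mp * p * p * q * qb +
        7394507008 * lm * lm * mp * mp * p * p * q * q +
        2694219184 * lm * lm * m0 * mm * p * pb * qb * qb +
        8239437856 * lm * lm * m0 * mm * p * pb * q * qb +
        12617880960 * lm * lm * m0 * mm * p * pb * q * q +
        2853428736 * lm * lm * m0 * mm * p * p * q * qb +
        9926091024 * lm * lm * m0 * mm * p * p * q * q +
        9991796672 * lm * lm * m0 * mp * p * pb * qb * qb +
        5125954176 * lm * lm * m0 * mp * p * pb * q * qb +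
        9870247216 * lm * lm * m0 * mp * p * p * qb * qb +
        11177112224 * lm * lm * m0 * mp * p * p * q * qb +
        6172707504 * lm * lm * m0 * mp * p * p * q * q +
        1707424048 * lm * lm * m0 * m0 * p * pb * qb * qb +
        303370160 * lm * lm * m0 * m0 * p * pb * q * q +
        2584310520 * lm * lm * m0 * m0 * p * p * qb * qb +
        2768280912 * lm * lm * m0 * m0 * p * p * q * qb +
        2194764600 * lm * lm * m0 * m0 * p * p * q * q +
        19109536832 * lp * lm * mm * mm * pb * pb * qb * qb +
        56917943072 * lp * lm * mm * mm * pb * pb * q * qb +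
        30675693024 * lp * lm * mm * mm * pb * pb * q * q +
        2008459136 * lp * lm * mm * mm * p * pb * qb * qb +
        5711786944 * lp * lm * mm * mm * p * pb * q * qb +
        3703327808 * lp * lm * mm * mm * p * pb * q * q +
        7132713216 * lp * lm * mm * mm * p * p * q * q +
        20934571456 * lp * lm * mp * mm * pb * pb * qb * qb +
        42520434080 * lp * lm * mp * mm * pb * pb * q * qb +
        2284817216 * lp * lm * mp * mm * pb * pb * q * q +
        15866158112 * lp * lm * mp * mm * p * pb * q * qb +
        2009031552 * lp * lm * mp * mm * p * p * qb * qb +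
        1164920576 * lp * lm * mp * mm * p * p * q * qb +
        2590776320 * lp * lm * mp * mm * p * p * q * q +
        1825034624 * lp * lm * mp * mp * pb * pb * qb * qb +
        29227175936 * lp * lm * mp * mp * p * pb * qb * qb +
        20261766624 * lp * lm * mp * mp * p * pb * q * qb +
        574369504 * lp * lm * mp * mp * p * pb * q * q +
        15691568384 * lp * lm * mp * mp * p * p * qb * qb +
        10829680512 * lp * lm * mp * mp * p * p * q * qb +
        2852856320 * lp * lm * mp * mp * p * p * q * q +
        17192789952 * lp * lm * m0 * mm * pb * pb * qb * qb +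
        33567792480 * lp * lm * m0 * mm * pb * pb * q * qb +
        19298545152 * lp * lm * m0 * mm * pb * pb * q * q +
        10708262304 * lp * lm * m0 * mm * p * pb * q * q +
        7784719680 * lp * lm * m0 * mm * p * p * q * q +
        248483536 * lp * lm * m0 * mp * pb * pb * q * q +
        9556813248 * lp * lm * m0 * mp * p * pb * qb * qb +
        12531142128 * lp * lm * m0 * mp * p * p * qb * qb +
        5274338720 * lp * lm * m0 * mp * p * p * q * qb +
        2051526304 * lp * lm * m0 * mp * p * p * q * q +
        890850936 * lp * lm * m0 * m0 * pb * pb * qb * qb +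
        2022748960 * lp * lm * m0 * m0 * pb * pb * q * qb +
        124241768 * lp * lm * m0 * m0 * pb * pb * q * q +
        3210706816 * lp * lm * m0 * m0 * p * pb * q * q +
        2109181536 * lp * lm * m0 * m0 * p * p * qb * qb +
        2109181536 * lp * lm * m0 * m0 * p * p * q * q +
        10830244320 * lp * lp * mm * mm * pb * pb * qb * qb +
        16714924736 * lp * lp * mm * mm * pb * pb * q * qb +
        5884680416 * lp * lp * mm * mm * pb * pb * q * q +
        7132713216 * lp * lp * mm * mm * p * pb * qb * qb +
        10189434048 * lp * lp * mm * mm * p * pb * q * qb +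
        3056720832 * lp * lp * mm * mm * p * pb * q * q +
        33952814944 * lp * lp * mp * mm * pb * pb * qb * qb +
        24457661280 * lp * lp * mp * mm * pb * pb * q * qb +
        2284817216 * lp * lp * mp * mm * pb * pb * q * q +
        28973981984 * lp * lp * mp * mm * p * pb * qb * qb +
        13482193312 * lp * lp * mp * mm * p * pb * q * qb +
        3420895424 * lp * lp * mp * mm * p * pb * q * q +
        7132713216 * lp * lp * mp * mm * p * p * qb * qb +
        23122570624 * lp * lp * mp * mp * pb * pb * qb * qb +
        2284817216 * lp * lp * mp * mp * pb * pb * q * qb +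
        34534568320 * lp * lp * mp * mp * p * pb * qb * qb +
        6564101696 * lp * lp * mp * mp * p * pb * q * qb +
        11411997696 * lp * lp * mp * mp * p * p * qb * qb +
        4279284480 * lp * lp * mp * mp * p * p * q * qb +
        17690793552 * lp * lp * m0 * mm * pb * pb * qb * qb +
        21085167872 * lp * lp * m0 * mm * pb * pb * q * qb +
        9596895520 * lp * lp * m0 * mm * pb * pb * q * q +
        10818926016 * lp * lp * m0 * mm * p * pb * qb * qb +
        8404369312 * lp * lp * m0 * mm * p * pb * q * qb +
        3787964496 * lp * lp * m0 * mm * p * pb * q * q +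
        23636470080 * lp * lp * m0 * mp * pb * pb * qb * qb +
        11678818272 * lp * lp * m0 * mp * pb * pb * q * qb +
        1142408608 * lp * lp * m0 * mp * pb * pb * q * q +
        25365416672 * lp * lp * m0 * mp * p * pb * qb * qb +
        7974262592 * lp * lp * m0 * mp * p * pb * q * qb +
        1710447712 * lp * lp * m0 * mp * p * pb * q * q +
        7784719680 * lp * lp * m0 * mp * p * p * qb * qb +
        1783178304 * lp * lp * m0 * mp * p * p * q * qb +
        5871760560 * lp * lp * m0 * m0 * pb * pb * qb * qb +
        5511882200 * lp * lp * m0 * m0 * pb * pb * q * qb +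
        3327277656 * lp * lp * m0 * m0 * pb * pb * q * q +
        3360209568 * lp * lp * m0 * m0 * p * pb * qb * qb +
        802855592 * lp * lp * m0 * m0 * p * pb * q * qb +
        1129802040 * lp * lp * m0 * m0 * p * pb * q * q +
        12631718288 * l0 * lm * mm * mm * pb * pb * q * qb +
        17613700304 * l0 * lm * mm * mm * pb * pb * q * q +
        2446932672 * l0 * lm * mm * mm * p * pb * q * qb +
        12713144256 * l0 * lm * mm * mm * p * pb * q * q +
        5284229568 * l0 * lm * mm * mm * p * p * q * q +
        15690716736 * l0 * lm * mp * mm * pb * pb * qb * qb +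
        13687350720 * l0 * lm * mp * mm * pb * pb * q * qb +
        333139712 * l0 * lm * mp * mm * pb * pb * q * q +
        1004515776 * l0 * lm * mp * mm * p * pb * qb * qb +
        1331989952 * l0 * lm * mp * mm * p * pb * q * q +
        5763002576 * l0 * lm * mp * mp * pb * pb * qb * qb +
        620324464 * l0 * lm * mp * mp * pb * pb * q * qb +
        18286930912 * l0 * lm * mp * mp * p * pb * qb * qb +
        7015912256 * l0 * lm * mp * mp * p * pb * q * qb +
        6128340544 * l0 * lm * mp * mp * p * p * qb * qb +
        7892016912 * l0 * lm * m0 * mm * pb * pb * qb * qb +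
        11584589768 * l0 * lm * m0 * mm * pb * pb * q * qb +
        8737104424 * l0 * lm * m0 * mm * pb * pb * q * q +
        1849224376 * l0 * lm * m0 * mm * p * pb * qb * qb +
        10759735392 * l0 * lm * m0 * mm * p * pb * q * q +
        7564428200 * l0 * lm * m0 * mm * p * p * q * q +
        1534391696 * l0 * lm * m0 * mp * pb * pb * qb * qb +
        576413776 * l0 * lm * m0 * mp * pb * pb * q * q +
        8724689496 * l0 * lm * m0 * mp * p * pb * qb * qb +
        6613884024 * l0 * lm * m0 * mp * p * p * qb * qb +
        856293364 * l0 * lm * m0 * m0 * pb * pb * q * qb +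
        288206888 * l0 * lm * m0 * m0 * pb * pb * q * q +
        1114392340 * l0 * lm * m0 * m0 * p * pb * qb * qb +
        728160088 * l0 * lm * m0 * m0 * p * pb * q * qb +
        1566980280 * l0 * lm * m0 * m0 * p * pb * q * q +
        1774928428 * l0 * lm * m0 * m0 * p * p * qb * qb +
        1295024472 * l0 * lm * m0 * m0 * p * p * q * qb +
        2041395052 * l0 * lm * m0 * m0 * p * p * q * q +
        3418820096 * l0 * lp * mm * mm * pb * pb * qb * qb +
        15866339824 * l0 * lp * mm * mm * pb * pb * q * qb +
        8881163120 * l0 * lp * mm * mm * pb * pb * q * q +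
        368552640 * l0 * lp * mp * mm * pb * pb * qb * qb +
        6803689664 * l0 * lp * mp * mm * pb * pb * q * qb +
        697576192 * l0 * lp * mp * mm * p * pb * qb * qb +
        9041572224 * l0 * lp * mp * mp * pb * pb * qb * qb +
        12749938608 * l0 * lp * mp * mp * p * pb * qb * qb +
        142009776 * l0 * lp * mp * mp * p * pb * q * qb +
        7233792048 * l0 * lp * m0 * mm * pb * pb * qb * qb +
        14932484160 * l0 * lp * m0 * mm * pb * pb * q * qb +
        9086974168 * l0 * lp * m0 * mm * pb * pb * q * q +
        2041685840 * l0 * lp * m0 * mm * p * pb * qb * qb +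
        3238956056 * l0 * lp * m0 * mm * p * pb * q * q +
        3240353376 * l0 * lp * m0 * mm * p * p * q * qb +
        9775696384 * l0 * lp * m0 * mp * pb * pb * qb * qb +
        3718890248 * l0 * lp * m0 * mp * pb * pb * q * qb +
        12636110584 * l0 * lp * m0 * mp * p * pb * qb * qb +
        578049280 * l0 * lp * m0 * mp * p * p * qb * qb +
        1131458048 * l0 * lp * m0 * mp * p * p * q * qb +
        4202586008 * l0 * lp * m0 * m0 * pb * pb * qb * qb +
        4422412916 * l0 * lp * m0 * m0 * pb * pb * q * qb +
        2323196304 * l0 * lp * m0 * m0 * pb * pb * q * q +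
        2756074520 * l0 * lp * m0 * m0 * p * pb * qb * qb +
        1619478028 * l0 * lp * m0 * m0 * p * pb * q * q +
        163001616 * l0 * lp * m0 * m0 * p * p * qb * qb +
        1457175072 * l0 * lp * m0 * m0 * p * p * q * qb +
        621648336 * l0 * l0 * mm * mm * pb * pb * q * qb +
        1878743272 * l0 * l0 * mm * mm * pb * pb * q * q +
        1341761548 * l0 * l0 * mm * mm * p * pb * q * q +
        169047016 * l0 * l0 * mp * mm * pb * pb * q * qb +
        286208 * l0 * l0 * mp * mm * p * pb * qb * qb +
        1426428160 * l0 * l0 * mp * mp * pb * pb * qb * qb +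
        1511094772 * l0 * l0 * mp * mp * p * pb * qb * qb +
        46658544 * l0 * l0 * m0 * mm * pb * pb * qb * qb +
        213216628 * l0 * l0 * m0 * mm * pb * pb * q * qb +
        1101448940 * l0 * l0 * m0 * mm * pb * pb * q * q +
        1691558240 * l0 * l0 * m0 * mm * p * pb * q * q +
        587334160 * l0 * l0 * m0 * mm * p * p * q * q +
        746669816 * l0 * l0 * m0 * mp * pb * pb * qb * qb +
        1776296404 * l0 * l0 * m0 * mp * p * pb * qb * qb +
        734341892 * l0 * l0 * m0 * mp * p * pb * q * qb +
        125951472 * l0 * l0 * m0 * mp * p * p * qb * qb +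
        16727868 * l0 * l0 * m0 * m0 * pb * pb * qb * qb +
        81038652 * l0 * l0 * m0 * m0 * pb * pb * q * q +
        487045237 * l0 * l0 * m0 * m0 * p * pb * qb * qb +
        688856262 * l0 * l0 * m0 * m0 * p * pb * q * qb +
        510338733 * l0 * l0 * m0 * m0 * p * pb * q * q +
        63047288 * l0 * l0 * m0 * m0 * p * p * qb * qb +
        230619792 * l0 * l0 * m0 * m0 * p * p * q * qb +
        293667080 * l0 * l0 * m0 * m0 * p * p * q * q := by positivity
  have key :
      (360314456 * lm * mm * pb * q + 1048902112 * lm * mm * p * q +
         1048902112 * lm * mp * p * qb + 524451056 * lm * m0 * p * qb +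
         1097382300 * lm * m0 * p * q + 546787328 * lp * mm * pb * qb +
         1783178304 * lp * mm * p * q + 5228227336 * lp * mp * pb * qb +
         737774160 * lp * mp * pb * q + 2329822528 * lp * mp * p * qb +
         1592998016 * lp * mp * p * q + 932737612 * lp * m0 * pb * qb +
         502068500 * lp * m0 * pb * q + 891589152 * lp * m0 * p * qb +
         1500385344 * lp * m0 * p * q + 545334092 * l0 * mm * pb * q +
         273393664 * l0 * mm * p * q + 1401492352 * l0 * mp * pb * qb +
         83284928 * l0 * mp * pb * q + 273322112 * l0 * mp * p * qb +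
         166569856 * l0 * mp * p * q + 689081540 * l0 * m0 * pb * qb +
         499774336 * l0 * m0 * pb * q + 136696832 * l0 * m0 * p * qb +
         472006376 * l0 * m0 * p * q) *
        (2*(pb*sb*B2) - 2*(pb*tb*B1) + 2*(qb*sb*A2) + 2*(qb*tb*A1) - D) +
      (3238275960 * lm * mm * pb * q + 4275269424 * lm * mp * pb * qb +
         2599162736 * lm * mp * pb * q + 1848626752 * lm * mp * p * q +
         1464079916 * lm * m0 * pb * qb + 288206888 * lm * m0 * pb * q +
         445794576 * lm * m0 * p * q + 1018998096 * lp * mm * pb * q +
         100243312 * lp * mp * pb * qb + 285602152 * lp * mp * pb * q +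
         133037568 * lp * m0 * pb * qb + 935484324 * lp * m0 * pb * q +
         582764596 * l0 * mm * pb * q + 356607040 * l0 * mp * pb * q + 71552 * l0 * mp * p * qb +
         713214080 * l0 * mp * p * q + 11664636 * l0 * m0 * pb * qb +
         81038652 * l0 * m0 * pb * q + 304398096 * l0 * m0 * p * q) *
        (2*(p*s*B2) + 2*(p*tb*B1) - 2*(qb*s*A2) + 2*(qb*tb*A1) - D) +
      (1409216568 * lm * mp * pb * qb + 1378163080 * lm * m0 * pb * qb +
         1011374480 * lm * m0 * pb * q + 1041131252 * lp * m0 * pb * qb +
         86197048 * l0 * m0 * pb * qb + 178303520 * l0 * m0 * pb * q) *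
        (2*(p*s*B2) - 2*(p*t*B1) + 2*(q*s*A2) + 2*(q*t*A1) - D) +
      (5324171536 * lm * mm * pb * qb + 2599162736 * lm * mm * pb * q +
         1048902112 * lm * mm * p * qb + 879855488 * lm * mm * p * q +
         2350813088 * lm * mp * p * qb + 879783936 * lm * mp * p * q +
         1292155260 * lm * m0 * p * qb + 859689400 * lm * m0 * p * q +
         2160773752 * lp * mm * pb * qb + 452172008 * lp * mm * pb * q +
         1783178304 * lp * mm * p * qb + 452172008 * lp * mp * pb * qb +
         523176896 * lp * mp * p * qb + 962011416 * lp * m0 * pb * qb +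
         226086004 * lp * m0 * pb * q + 1054590768 * lp * m0 * p * qb +
         1401492352 * l0 * mm * pb * qb + 356607040 * l0 * mm * pb * q +
         273393664 * l0 * mm * p * qb + 83284928 * l0 * mm * p * q +
         356607040 * l0 * mp * pb * qb + 356607040 * l0 * mp * p * qb +
         309806180 * l0 * m0 * pb * qb + 241386584 * l0 * m0 * p * qb +
         41642464 * l0 * m0 * p * q) *
        (-2*(pb*s*B2) + 2*(pb*t*B1) + 2*(q*s*A2) + 2*(q*t*A1) - D) +
      (3566356608 * l0 * lp * p * p + 628690572 * l0 * l0 * p * pb + 713357184 * l0 * l0 * p * p) *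
        (q * tb - qb * t) ^ 2 =
      -(19855428320 * lm * lm * mm * mm * pb * pb * q * qb +
         24791012608 * lm * lm * mm * mm * pb * pb * q * q +
         6902324480 * lm * lm * mm * mm * p * pb * q * qb +
         19552939168 * lm * lm * mm * mm * p * pb * q * q +
         7715030400 * lm * lm * mm * mm * p * p * q * q +
         23797614016 * lm * lm * mp * mm * p * pb * q * qb +
         21788582464 * lm * lm * mp * mm * p * pb * q * q +
         9723775744 * lm * lm * mp * mm * p * p * q * qb +
         7714744192 * lm * lm * mp * mm * p * p * q * q +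
         18542335520 * lm * lm * mp * mp * p * pb * qb * qb +
         23731342560 * lm * lm * mp * mp * p * pb * q * qb +
         6877515200 * lm * lm * mp * mp * p * pb * q * q +
         9403252352 * lm * lm * mp * mp * p * p * qb * qb +
         15109251200 * lm * lm * mp * mp * p * p * q * qb +
         7394507008 * lm * lm * mp * mp * p * p * q * q +
         2694219184 * lm * lm * m0 * mm * p * pb * qb * qb +
         8239437856 * lm * lm * m0 * mm * p * pb * q * qb +
         12617880960 * lm * lm * m0 * mm * p * pb * q * q +
         2853428736 * lm * lm * m0 * mm * p * p * q * qb +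
         9926091024 * lm * lm * m0 * mm * p * p * q * q +
         9991796672 * lm * lm * m0 * mp * p * pb * qb * qb +
         5125954176 * lm * lm * m0 * mp * p * pb * q * qb +
         9870247216 * lm * lm * m0 * mp * p * p * qb * qb +
         11177112224 * lm * lm * m0 * mp * p * p * q * qb +
         6172707504 * lm * lm * m0 * mp * p * p * q * q +
         1707424048 * lm * lm * m0 * m0 * p * pb * qb * qb +
         303370160 * lm * lm * m0 * m0 * p * pb * q * q +
         2584310520 * lm * lm * m0 * m0 * p * p * qb * qb +
         2768280912 * lm * lm * m0 * m0 * p * p * q * qb +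
         2194764600 * lm * lm * m0 * m0 * p * p * q * q +
         19109536832 * lp * lm * mm * mm * pb * pb * qb * qb +
         56917943072 * lp * lm * mm * mm * pb * pb * q * qb +
         30675693024 * lp * lm * mm * mm * pb * pb * q * q +
         2008459136 * lp * lm * mm * mm * p * pb * qb * qb +
         5711786944 * lp * lm * mm * mm * p * pb * q * qb +
         3703327808 * lp * lm * mm * mm * p * pb * q * q +
         7132713216 * lp * lm * mm * mm * p * p * q * q +
         20934571456 * lp * lm * mp * mm * pb * pb * qb * qb +
         42520434080 * lp * lm * mp * mm * pb * pb * q * qb +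
         2284817216 * lp * lm * mp * mm * pb * pb * q * q +
         15866158112 * lp * lm * mp * mm * p * pb * q * qb +
         2009031552 * lp * lm * mp * mm * p * p * qb * qb +
         1164920576 * lp * lm * mp * mm * p * p * q * qb +
         2590776320 * lp * lm * mp * mm * p * p * q * q +
         1825034624 * lp * lm * mp * mp * pb * pb * qb * qb +
         29227175936 * lp * lm * mp * mp * p * pb * qb * qb +
         20261766624 * lp * lm * mp * mp * p * pb * q * qb +
         574369504 * lp * lm * mp * mp * p * pb * q * q +
         15691568384 * lp * lm * mp * mp * p * p * qb * qb +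
         10829680512 * lp * lm * mp * mp * p * p * q * qb +
         2852856320 * lp * lm * mp * mp * p * p * q * q +
         17192789952 * lp * lm * m0 * mm * pb * pb * qb * qb +
         33567792480 * lp * lm * m0 * mm * pb * pb * q * qb +
         19298545152 * lp * lm * m0 * mm * pb * pb * q * q +
         10708262304 * lp * lm * m0 * mm * p * pb * q * q +
         7784719680 * lp * lm * m0 * mm * p * p * q * q +
         248483536 * lp * lm * m0 * mp * pb * pb * q * q +
         9556813248 * lp * lm * m0 * mp * p * pb * qb * qb +
         12531142128 * lp * lm * m0 * mp * p * p * qb * qb +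
         5274338720 * lp * lm * m0 * mp * p * p * q * qb +
         2051526304 * lp * lm * m0 * mp * p * p * q * q +
         890850936 * lp * lm * m0 * m0 * pb * pb * qb * qb +
         2022748960 * lp * lm * m0 * m0 * pb * pb * q * qb +
         124241768 * lp * lm * m0 * m0 * pb * pb * q * q +
         3210706816 * lp * lm * m0 * m0 * p * pb * q * q +
         2109181536 * lp * lm * m0 * m0 * p * p * qb * qb +
         2109181536 * lp * lm * m0 * m0 * p * p * q * q +
         10830244320 * lp * lp * mm * mm * pb * pb * qb * qb +
         16714924736 * lp * lp * mm * mm * pb * pb * q * qb +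
         5884680416 * lp * lp * mm * mm * pb * pb * q * q +
         7132713216 * lp * lp * mm * mm * p * pb * qb * qb +
         10189434048 * lp * lp * mm * mm * p * pb * q * qb +
         3056720832 * lp * lp * mm * mm * p * pb * q * q +
         33952814944 * lp * lp * mp * mm * pb * pb * qb * qb +
         24457661280 * lp * lp * mp * mm * pb * pb * q * qb +
         2284817216 * lp * lp * mp * mm * pb * pb * q * q +
         28973981984 * lp * lp * mp * mm * p * pb * qb * qb +
         13482193312 * lp * lp * mp * mm * p * pb * q * qb +
         3420895424 * lp * lp * mp * mm * p * pb * q * q +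
         7132713216 * lp * lp * mp * mm * p * p * qb * qb +
         23122570624 * lp * lp * mp * mp * pb * pb * qb * qb +
         2284817216 * lp * lp * mp * mp * pb * pb * q * qb +
         34534568320 * lp * lp * mp * mp * p * pb * qb * qb +
         6564101696 * lp * lp * mp * mp * p * pb * q * qb +
         11411997696 * lp * lp * mp * mp * p * p * qb * qb +
         4279284480 * lp * lp * mp * mp * p * p * q * qb +
         17690793552 * lp * lp * m0 * mm * pb * pb * qb * qb +
         21085167872 * lp * lp * m0 * mm * pb * pb * q * qb +
         9596895520 * lp * lp * m0 * mm * pb * pb * q * q +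
         10818926016 * lp * lp * m0 * mm * p * pb * qb * qb +
         8404369312 * lp * lp * m0 * mm * p * pb * q * qb +
         3787964496 * lp * lp * m0 * mm * p * pb * q * q +
         23636470080 * lp * lp * m0 * mp * pb * pb * qb * qb +
         11678818272 * lp * lp * m0 * mp * pb * pb * q * qb +
         1142408608 * lp * lp * m0 * mp * pb * pb * q * q +
         25365416672 * lp * lp * m0 * mp * p * pb * qb * qb +
         7974262592 * lp * lp * m0 * mp * p * pb * q * qb +
         1710447712 * lp * lp * m0 * mp * p * pb * q * q +
         7784719680 * lp * lp * m0 * mp * p * p * qb * qb +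
         1783178304 * lp * lp * m0 * mp * p * p * q * qb +
         5871760560 * lp * lp * m0 * m0 * pb * pb * qb * qb +
         5511882200 * lp * lp * m0 * m0 * pb * pb * q * qb +
         3327277656 * lp * lp * m0 * m0 * pb * pb * q * q +
         3360209568 * lp * lp * m0 * m0 * p * pb * qb * qb +
         802855592 * lp * lp * m0 * m0 * p * pb * q * qb +
         1129802040 * lp * lp * m0 * m0 * p * pb * q * q +
         12631718288 * l0 * lm * mm * mm * pb * pb * q * qb +
         17613700304 * l0 * lm * mm * mm * pb * pb * q * q +
         2446932672 * l0 * lm * mm * mm * p * pb * q * qb +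
         12713144256 * l0 * lm * mm * mm * p * pb * q * q +
         5284229568 * l0 * lm * mm * mm * p * p * q * q +
         15690716736 * l0 * lm * mp * mm * pb * pb * qb * qb +
         13687350720 * l0 * lm * mp * mm * pb * pb * q * qb +
         333139712 * l0 * lm * mp * mm * pb * pb * q * q +
         1004515776 * l0 * lm * mp * mm * p * pb * qb * qb +
         1331989952 * l0 * lm * mp * mm * p * pb * q * q +
         5763002576 * l0 * lm * mp * mp * pb * pb * qb * qb +
         620324464 * l0 * lm * mp * mp * pb * pb * q * qb +
         18286930912 * l0 * lm * mp * mp * p * pb * qb * qb +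
         7015912256 * l0 * lm * mp * mp * p * pb * q * qb +
         6128340544 * l0 * lm * mp * mp * p * p * qb * qb +
         7892016912 * l0 * lm * m0 * mm * pb * pb * qb * qb +
         11584589768 * l0 * lm * m0 * mm * pb * pb * q * qb +
         8737104424 * l0 * lm * m0 * mm * pb * pb * q * q +
         1849224376 * l0 * lm * m0 * mm * p * pb * qb * qb +
         10759735392 * l0 * lm * m0 * mm * p * pb * q * q +
         7564428200 * l0 * lm * m0 * mm * p * p * q * q +
         1534391696 * l0 * lm * m0 * mp * pb * pb * qb * qb +
         576413776 * l0 * lm * m0 * mp * pb * pb * q * q +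
         8724689496 * l0 * lm * m0 * mp * p * pb * qb * qb +
         6613884024 * l0 * lm * m0 * mp * p * p * qb * qb +
         856293364 * l0 * lm * m0 * m0 * pb * pb * q * qb +
         288206888 * l0 * lm * m0 * m0 * pb * pb * q * q +
         1114392340 * l0 * lm * m0 * m0 * p * pb * qb * qb +
         728160088 * l0 * lm * m0 * m0 * p * pb * q * qb +
         1566980280 * l0 * lm * m0 * m0 * p * pb * q * q +
         1774928428 * l0 * lm * m0 * m0 * p * p * qb * qb +
         1295024472 * l0 * lm * m0 * m0 * p * p * q * qb +
         2041395052 * l0 * lm * m0 * m0 * p * p * q * q +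
         3418820096 * l0 * lp * mm * mm * pb * pb * qb * qb +
         15866339824 * l0 * lp * mm * mm * pb * pb * q * qb +
         8881163120 * l0 * lp * mm * mm * pb * pb * q * q +
         368552640 * l0 * lp * mp * mm * pb * pb * qb * qb +
         6803689664 * l0 * lp * mp * mm * pb * pb * q * qb +
         697576192 * l0 * lp * mp * mm * p * pb * qb * qb +
         9041572224 * l0 * lp * mp * mp * pb * pb * qb * qb +
         12749938608 * l0 * lp * mp * mp * p * pb * qb * qb +
         142009776 * l0 * lp * mp * mp * p * pb * q * qb +
         7233792048 * l0 * lp * m0 * mm * pb * pb * qb * qb +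
         14932484160 * l0 * lp * m0 * mm * pb * pb * q * qb +
         9086974168 * l0 * lp * m0 * mm * pb * pb * q * q +
         2041685840 * l0 * lp * m0 * mm * p * pb * qb * qb +
         3238956056 * l0 * lp * m0 * mm * p * pb * q * q +
         3240353376 * l0 * lp * m0 * mm * p * p * q * qb +
         9775696384 * l0 * lp * m0 * mp * pb * pb * qb * qb +
         3718890248 * l0 * lp * m0 * mp * pb * pb * q * qb +
         12636110584 * l0 * lp * m0 * mp * p * pb * qb * qb +
         578049280 * l0 * lp * m0 * mp * p * p * qb * qb +
         1131458048 * l0 * lp * m0 * mp * p * p * q * qb +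
         4202586008 * l0 * lp * m0 * m0 * pb * pb * qb * qb +
         4422412916 * l0 * lp * m0 * m0 * pb * pb * q * qb +
         2323196304 * l0 * lp * m0 * m0 * pb * pb * q * q +
         2756074520 * l0 * lp * m0 * m0 * p * pb * qb * qb +
         1619478028 * l0 * lp * m0 * m0 * p * pb * q * q +
         163001616 * l0 * lp * m0 * m0 * p * p * qb * qb +
         1457175072 * l0 * lp * m0 * m0 * p * p * q * qb +
         621648336 * l0 * l0 * mm * mm * pb * pb * q * qb +
         1878743272 * l0 * l0 * mm * mm * pb * pb * q * q +
         1341761548 * l0 * l0 * mm * mm * p * pb * q * q +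
         169047016 * l0 * l0 * mp * mm * pb * pb * q * qb +
         286208 * l0 * l0 * mp * mm * p * pb * qb * qb +
         1426428160 * l0 * l0 * mp * mp * pb * pb * qb * qb +
         1511094772 * l0 * l0 * mp * mp * p * pb * qb * qb +
         46658544 * l0 * l0 * m0 * mm * pb * pb * qb * qb +
         213216628 * l0 * l0 * m0 * mm * pb * pb * q * qb +
         1101448940 * l0 * l0 * m0 * mm * pb * pb * q * q +
         1691558240 * l0 * l0 * m0 * mm * p * pb * q * q +
         587334160 * l0 * l0 * m0 * mm * p * p * q * q +
         746669816 * l0 * l0 * m0 * mp * pb * pb * qb * qb +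
         1776296404 * l0 * l0 * m0 * mp * p * pb * qb * qb +
         734341892 * l0 * l0 * m0 * mp * p * pb * q * qb +
         125951472 * l0 * l0 * m0 * mp * p * p * qb * qb +
         16727868 * l0 * l0 * m0 * m0 * pb * pb * qb * qb +
         81038652 * l0 * l0 * m0 * m0 * pb * pb * q * q +
         487045237 * l0 * l0 * m0 * m0 * p * pb * qb * qb +
         688856262 * l0 * l0 * m0 * m0 * p * pb * q * qb +
         510338733 * l0 * l0 * m0 * m0 * p * pb * q * q +
         63047288 * l0 * l0 * m0 * m0 * p * p * qb * qb +
         230619792 * l0 * l0 * m0 * m0 * p * p * q * qb +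
         293667080 * l0 * l0 * m0 * m0 * p * p * q * q) := by
    subst hs hsb ht htb hA1 hB1 hA2 hB2 hD
    ring
  have z0 := mul_pos w0 h0
  have z1 := mul_pos w1 h1
  have z2 := mul_pos w2 h2
  have z3 := mul_pos w3 h3
  have y2 := mul_nonneg q2 (sq_nonneg (q * tb - qb * t))
  linarith

end H66OD

end S_CER1
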