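import Pool.Agent.H66.OD.Defs
import Pool.Agent.H66.ODM.G2
import Pool.Agent.H66.ODM.G3
import Pool.Agent.H66.ODM.G4
import Pool.Agent.H66.ODM.G5

/-! Oda in dimension three, part G6: this file joins the modules MTD CER2 CER NTY PTYS PTY MTC N3 L3D to save build time. -/

section S_MTD

/-!
# MTD: the predicate `Good` for the 3 x 3 matrix theorem
-/

namespace H66OD

/-- Some sign vector `ε` is a combination `t A` of the rows of `A` with `Σ |t i| ≤ 3`. -/
def Good (A : Fin 3 → Fin 3 → ℝ) : Prop :=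
  ∃ ε t : Fin 3 → ℝ, (∀ i, ε i = 1 ∨ ε i = -1) ∧ (∀ j, ∑ i, t i * A i j = ε j) ∧ ∑ i, |t i| ≤ 3

end H66OD

end S_MTD

section S_CER2

/-!
# CER2: certificate AABA of the P-type, from AAAB by a rotation of the variables
-/

namespace H66OD

theorem cert_AABA (l0 lp lm m0 mp mm p pb q qb s sb t tb A1 B1 A2 B2 D : ℝ)
    (hl0 : 0 < l0) (hlp : 0 ≤ lp) (hlm : 0 ≤ lm) (hm0 : 0 < m0) (hmp : 0 ≤ mp) (hmm : 0 ≤ mm)
    (hp : 0 < p) (hpb : 0 < pb) (hq : 0 < q) (hqb : 0 < qb)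
    (hs : s = l0 / 2 + lp) (hsb : sb = l0 / 2 + lm) (ht : t = m0 / 2 + mp)
    (htb : tb = m0 / 2 + mm) (hA1 : A1 = 2 * (p * sb + pb * s))
    (hB1 : B1 = 2 * (lp * qb + lm * q)) (hA2 : A2 = 2 * (mp * p + mm * pb))
    (hB2 : B2 = 2 * (q * tb + qb * t)) (hD : D = A1 * B2 + A2 * B1)
    (h0 : 0 < 2*(pb*sb*B2) - 2*(pb*tb*B1) + 2*(qb*sb*A2) + 2*(qb*tb*A1) - D)
    (h1 : 0 < 2*(p*s*B2) + 2*(p*tb*B1) - 2*(qb*s*A2) + 2*(qb*tb*A1) - D)
    (h2 : 0 < 2*(p*s*B2) + 2*(p*tb*B1) + 2*(q*s*A2) - 2*(q*tb*A1) - D)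
    (h3 : 0 < 2*(pb*sb*B2) + 2*(pb*t*B1) - 2*(q*sb*A2) + 2*(q*t*A1) - D)
    : False := by
  refine cert_AAAB m0 mm mp l0 lp lm qb q p pb tb t s sb B2 A2 B1 A1 D hm0 hmm hmp hl0 hlp hlm
    hqb hq hp hpb htb ht hs hsb ?_ ?_ ?_ ?_ ?_ ?_ ?_ ?_ ?_
  · rw [hB2]; ring
  · rw [hA2]; ring
  · rw [hB1]
  · rw [hA1]
  · rw [hD]; ring
  · linarith
  · linarith
  · linarith
  · linarith

end H66OD

end S_CER2

section S_CER

/-!
# CER: the certificate AAAA of the P-type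
-/

namespace H66OD

theorem cert_AAAA (l0 lp lm m0 mp mm p pb q qb s sb t tb A1 B1 A2 B2 D : ℝ)
    (hl0 : 0 < l0) (hlp : 0 ≤ lp) (hlm : 0 ≤ lm) (hm0 : 0 < m0) (hmp : 0 ≤ mp) (hmm : 0 ≤ mm)
    (hp : 0 < p) (hpb : 0 < pb) (hq : 0 < q) (hqb : 0 < qb)
    (hs : s = l0 / 2 + lp) (hsb : sb = l0 / 2 + lm) (ht : t = m0 / 2 + mp)
    (htb : tb = m0 / 2 + mm) (hA1 : A1 = 2 * (p * sb + pb * s))
    (hB1 : B1 = 2 * (lp * qb + lm * q)) (hA2 : A2 = 2 * (mp * p + mm * pb))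
    (hB2 : B2 = 2 * (q * tb + qb * t)) (hD : D = A1 * B2 + A2 * B1)
    (h0 : 0 < 2*(pb*sb*B2) - 2*(pb*tb*B1) + 2*(qb*sb*A2) + 2*(qb*tb*A1) - D)
    (h1 : 0 < 2*(p*s*B2) + 2*(p*tb*B1) - 2*(qb*s*A2) + 2*(qb*tb*A1) - D)
    (h2 : 0 < 2*(p*s*B2) - 2*(p*t*B1) + 2*(q*s*A2) + 2*(q*t*A1) - D)
    (h3 : 0 < 2*(pb*sb*B2) + 2*(pb*t*B1) - 2*(q*sb*A2) + 2*(q*t*A1) - D)
    : False := by
  have s0 : 0 < s := by rw [hs]; positivity
  have sb0 : 0 < sb := by rw [hsb]; positivity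
  have t0 : 0 < t := by rw [ht]; positivity
  have tb0 : 0 < tb := by rw [htb]; positivity
  have a1 : 0 ≤ A1 := by rw [hA1]; positivity
  have b1 : 0 ≤ B1 := by rw [hB1]; positivity
  have a2 : 0 ≤ A2 := by rw [hA2]; positivity
  have b2 : 0 ≤ B2 := by rw [hB2]; positivity
  have w0 : 0 < p * q * (s + sb) * (t + tb) + s * t * (p + pb) * (q + qb) := by positivity
  have w1 : 0 < pb * q * (s + sb) * (t + tb) + sb * t * (p + pb) * (q + qb) := by positivity
  have w2 : 0 < pb * qb * (s + sb) * (t + tb) + sb * tb * (p + pb) * (q + qb) := by positivity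
  have w3 : 0 < p * qb * (s + sb) * (t + tb) + s * tb * (p + pb) * (q + qb) := by positivity
  have r : 0 ≤ 2 * B2 * (t + tb) * (q + qb) * (p * sb - pb * s) ^ 2 +
      2 * A1 * (s + sb) * (p + pb) * (q * tb - qb * t) ^ 2 +
      2 * (s + sb) * (t + tb) * (p + pb) * (q + qb) * (A2 * B1) := by positivity
  have key : (p * q * (s + sb) * (t + tb) + s * t * (p + pb) * (q + qb)) *
        (2*(pb*sb*B2) - 2*(pb*tb*B1) + 2*(qb*sb*A2) + 2*(qb*tb*A1) - D) +
      (pb * q * (s + sb) * (t + tb) + sb * t * (p + pb) * (q + qb)) *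
        (2*(p*s*B2) + 2*(p*tb*B1) - 2*(qb*s*A2) + 2*(qb*tb*A1) - D) +
      (pb * qb * (s + sb) * (t + tb) + sb * tb * (p + pb) * (q + qb)) *
        (2*(p*s*B2) - 2*(p*t*B1) + 2*(q*s*A2) + 2*(q*t*A1) - D) +
      (p * qb * (s + sb) * (t + tb) + s * tb * (p + pb) * (q + qb)) *
        (2*(pb*sb*B2) + 2*(pb*t*B1) - 2*(q*sb*A2) + 2*(q*t*A1) - D) =
      -(2 * B2 * (t + tb) * (q + qb) * (p * sb - pb * s) ^ 2 +
      2 * A1 * (s + sb) * (p + pb) * (q * tb - qb * t) ^ 2 +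
      2 * (s + sb) * (t + tb) * (p + pb) * (q + qb) * (A2 * B1)) := by
    clear h0 h1 h2 h3 hs hsb ht htb hB1 hA2 a1 b1 a2 b2 w0 w1 w2 w3 r
    subst hA1 hB2 hD
    ring
  have z0 := mul_pos w0 h0
  have z1 := mul_pos w1 h1
  have z2 := mul_pos w2 h2
  have z3 := mul_pos w3 h3
  linarith

end H66OD

end S_CER

section S_NTY

/-!
# Row NTY (about 120 lines): the N-type matrices

Rows `(1,α,α')`, `(β',1,β)`, `(γ,γ',1)` with `|α'| ≤ α < 1`, `|β'| ≤ β < 1`, `|γ'| ≤ γ < 1`.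
Then `(1,1,1) = t A` with `t ≥ 0`, `Σ t ≤ 3`.

PROOF. Put `α = l₊ + l₋`, `α' = l₊ - l₋` with `l₊ = (α+α')/2 ≥ 0`, `l₋ = (α-α')/2 ≥ 0`,
`l₀ = 1 - α > 0`; similarly `m` for `β` and `n` for `γ`. All polynomials below are affine in each of the three
pairs, so after homogenising (`1 = l₀+l₊+l₋` etc.) they are combinations of the 27 products
`l_a m_b n_c`, and the coefficients are the values at `(α,α') ∈ {(0,0),(1,1),(1,-1)}` etc.
det: `D = 1 + αβγ + α'β'γ' - αβ' - βγ' - γα'`. All 27 values are `≥ 0`, the value at `(0,0,0)` is `1`, so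
`D ≥ l₀ m₀ n₀ > 0`.
Cramer: `D t1 = 1 - βγ' - β' + βγ + β'γ' - γ`, and cyclically
`D t2 = 1 - γα' - γ' + γα + γ'α' - α`, `D t3 = 1 - αβ' - α' + αβ + α'β' - β`; each is `≥ 0` (9 values
`1,0,0 | 0,0,0... ` all `≥ 0`). [`t1 + β' t2 + γ t3 = 1`, `α t1 + t2 + γ' t3 = 1`, `α' t1 + β t2 + t3 = 1`.]
`Σ t ≤ 3`: `D (Σ t) - 3 D = 2X + (αβ+βγ+γα) + (α'β'+β'γ'+γ'α') - (α+β+γ) - (α'+β'+γ') - 3αβγ - 3α'β'γ'`
with `X = αβ' + βγ' + γα'`; all 27 values are `≤ 0`.
In Lean: substitute `α = l₊+l₋, α' = l₊-l₋`, etc. and use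
`nlinarith [products l_a m_b n_c ≥ 0]`, or write each polynomial explicitly as the combination of the 27
products (`ring`) and `positivity`. With `t i` := numerator / D.
-/

namespace H66OD

private theorem nty_D (lp lm mp mm np nm : ℝ) (hlp : 0 ≤ lp) (hlm : 0 ≤ lm) (hmp : 0 ≤ mp)
    (hmm : 0 ≤ mm) (hnp : 0 ≤ np) (hnm : 0 ≤ nm) (hl : 0 < 1 - lp - lm) (hm : 0 < 1 - mp - mm)
    (hn : 0 < 1 - np - nm) :
    0 < 1 + (lp + lm) * (mp + mm) * (np + nm) + (lp - lm) * (mp - mm) * (np - nm) - (lp + lm) *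
      (mp - mm) - (mp + mm) * (np - nm) - (np + nm) * (lp - lm) := by
  have h : 1 + (lp + lm) * (mp + mm) * (np + nm) + (lp - lm) * (mp - mm) * (np - nm) - (lp + lm) *
      (mp - mm) - (mp + mm) * (np - nm) - (np + nm) * (lp - lm) =
      1 * ((1 - lp - lm) * (1 - mp - mm) * (1 - np - nm)) + 1 * ((1 - lp - lm) * (1 - mp - mm) *
      np) + 1 * ((1 - lp - lm) * (1 - mp - mm) * nm) + 1 * ((1 - lp - lm) * mp * (1 - np - nm))
      + 2 * ((1 - lp - lm) * mp * nm) + 1 * ((1 - lp - lm) * mm * (1 - np - nm)) + 2 * ((1 - lp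
      - lm) * mm * nm) + 1 * (lp * (1 - mp - mm) * (1 - np - nm)) + 2 * (lp * mm * (1 - np -
      nm)) + 4 * (lp * mm * nm) + 1 * (lm * (1 - mp - mm) * (1 - np - nm)) + 2 * (lm * (1 - mp -
      mm) * np) + 2 * (lm * (1 - mp - mm) * nm) + 4 * (lm * mp * nm) + 2 * (lm * mm * (1 - np -
      nm)) + 4 * (lm * mm * np) + 4 * (lm * mm * nm) := by
    ring
  rw [h]
  have hl' := hl.le
  have hm' := hm.le
  have hn' := hn.le
  positivity

private theorem nty_N1 (lp lm mp mm np nm : ℝ) (hlp : 0 ≤ lp) (hlm : 0 ≤ lm) (hmp : 0 ≤ mp)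
    (hmm : 0 ≤ mm) (hnp : 0 ≤ np) (hnm : 0 ≤ nm) (hl : 0 < 1 - lp - lm) (hm : 0 < 1 - mp - mm)
    (hn : 0 < 1 - np - nm) :
    0 ≤ 1 - (mp + mm) * (np - nm) - (mp - mm) + (mp - mm) * (np - nm) + (mp + mm) * (np + nm) -
      (np + nm) := by
  have h : 1 - (mp + mm) * (np - nm) - (mp - mm) + (mp - mm) * (np - nm) + (mp + mm) * (np + nm) -
      (np + nm) =
      1 * ((1 - lp - lm) * (1 - mp - mm) * (1 - np - nm)) + 2 * ((1 - lp - lm) * mm * (1 - np -
      nm)) + 4 * ((1 - lp - lm) * mm * nm) + 1 * (lp * (1 - mp - mm) * (1 - np - nm)) + 2 * (lp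
      * mm * (1 - np - nm)) + 4 * (lp * mm * nm) + 1 * (lm * (1 - mp - mm) * (1 - np - nm)) + 2
      * (lm * mm * (1 - np - nm)) + 4 * (lm * mm * nm) := by
    ring
  rw [h]
  have hl' := hl.le
  have hm' := hm.le
  have hn' := hn.le
  positivity

private theorem nty_N2 (lp lm mp mm np nm : ℝ) (hlp : 0 ≤ lp) (hlm : 0 ≤ lm) (hmp : 0 ≤ mp)
    (hmm : 0 ≤ mm) (hnp : 0 ≤ np) (hnm : 0 ≤ nm) (hl : 0 < 1 - lp - lm) (hm : 0 < 1 - mp - mm)
    (hn : 0 < 1 - np - nm) :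
    0 ≤ 1 - (np - nm) - (lp + lm) + (lp - lm) * (np - nm) + (lp + lm) * (np + nm) - (lp - lm) *
      (np + nm) := by
  have h : 1 - (np - nm) - (lp + lm) + (lp - lm) * (np - nm) + (lp + lm) * (np + nm) - (lp - lm) *
      (np + nm) =
      1 * ((1 - lp - lm) * (1 - mp - mm) * (1 - np - nm)) + 2 * ((1 - lp - lm) * (1 - mp - mm) *
      nm) + 1 * ((1 - lp - lm) * mp * (1 - np - nm)) + 2 * ((1 - lp - lm) * mp * nm) + 1 * ((1 -
      lp - lm) * mm * (1 - np - nm)) + 2 * ((1 - lp - lm) * mm * nm) + 4 * (lm * (1 - mp - mm) *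
      nm) + 4 * (lm * mp * nm) + 4 * (lm * mm * nm) := by
    ring
  rw [h]
  have hl' := hl.le
  have hm' := hm.le
  have hn' := hn.le
  positivity

private theorem nty_N3 (lp lm mp mm np nm : ℝ) (hlp : 0 ≤ lp) (hlm : 0 ≤ lm) (hmp : 0 ≤ mp)
    (hmm : 0 ≤ mm) (hnp : 0 ≤ np) (hnm : 0 ≤ nm) (hl : 0 < 1 - lp - lm) (hm : 0 < 1 - mp - mm)
    (hn : 0 < 1 - np - nm) :
    0 ≤ 1 - (mp + mm) - (lp + lm) * (mp - mm) + (lp - lm) * (mp - mm) + (lp + lm) * (mp + mm) -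
      (lp - lm) := by
  have h : 1 - (mp + mm) - (lp + lm) * (mp - mm) + (lp - lm) * (mp - mm) + (lp + lm) * (mp + mm) -
      (lp - lm) =
      1 * ((1 - lp - lm) * (1 - mp - mm) * (1 - np - nm)) + 1 * ((1 - lp - lm) * (1 - mp - mm) *
      np) + 1 * ((1 - lp - lm) * (1 - mp - mm) * nm) + 2 * (lm * (1 - mp - mm) * (1 - np - nm))
      + 2 * (lm * (1 - mp - mm) * np) + 2 * (lm * (1 - mp - mm) * nm) + 4 * (lm * mm * (1 - np -
      nm)) + 4 * (lm * mm * np) + 4 * (lm * mm * nm) := by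
    ring
  rw [h]
  have hl' := hl.le
  have hm' := hm.le
  have hn' := hn.le
  positivity

private theorem nty_S (lp lm mp mm np nm : ℝ) (hlp : 0 ≤ lp) (hlm : 0 ≤ lm) (hmp : 0 ≤ mp)
    (hmm : 0 ≤ mm) (hnp : 0 ≤ np) (hnm : 0 ≤ nm) (hl : 0 < 1 - lp - lm) (hm : 0 < 1 - mp - mm)
    (hn : 0 < 1 - np - nm) :
    0 ≤ 3 * (1 + (lp + lm) * (mp + mm) * (np + nm) + (lp - lm) * (mp - mm) * (np - nm) - (lp + lm)
      * (mp - mm) - (mp + mm) * (np - nm) - (np + nm) * (lp - lm)) - (1 - (mp + mm) * (np - nm)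
      - (mp - mm) + (mp - mm) * (np - nm) + (mp + mm) * (np + nm) - (np + nm)) - (1 - (np - nm)
      - (lp + lm) + (lp - lm) * (np - nm) + (lp + lm) * (np + nm) - (lp - lm) * (np + nm)) - (1
      - (mp + mm) - (lp + lm) * (mp - mm) + (lp - lm) * (mp - mm) + (lp + lm) * (mp + mm) - (lp
      - lm)) := by
  have h : 3 * (1 + (lp + lm) * (mp + mm) * (np + nm) + (lp - lm) * (mp - mm) * (np - nm) - (lp + lm)
      * (mp - mm) - (mp + mm) * (np - nm) - (np + nm) * (lp - lm)) - (1 - (mp + mm) * (np - nm)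
      - (mp - mm) + (mp - mm) * (np - nm) + (mp + mm) * (np + nm) - (np + nm)) - (1 - (np - nm)
      - (lp + lm) + (lp - lm) * (np - nm) + (lp + lm) * (np + nm) - (lp - lm) * (np + nm)) - (1
      - (mp + mm) - (lp + lm) * (mp - mm) + (lp - lm) * (mp - mm) + (lp + lm) * (mp + mm) - (lp
      - lm)) =
      2 * ((1 - lp - lm) * (1 - mp - mm) * np) + 2 * ((1 - lp - lm) * mp * (1 - np - nm)) + 4 *
      ((1 - lp - lm) * mp * nm) + 2 * (lp * (1 - mp - mm) * (1 - np - nm)) + 4 * (lp * mm * (1 -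
      np - nm)) + 8 * (lp * mm * nm) + 4 * (lm * (1 - mp - mm) * np) + 8 * (lm * mp * nm) + 8 *
      (lm * mm * np) := by
    ring
  rw [h]
  have hl' := hl.le
  have hm' := hm.le
  have hn' := hn.le
  positivity

theorem nty (al al' be be' ga ga' : ℝ) (h1 : |al'| ≤ al) (h2 : al < 1) (h3 : |be'| ≤ be)
    (h4 : be < 1) (h5 : |ga'| ≤ ga) (h6 : ga < 1) :
    Good ![![1, al, al'], ![be', 1, be], ![ga, ga', 1]] := by
  have a1 := abs_le.1 h1
  have b1 := abs_le.1 h3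
  have c1 := abs_le.1 h5
  have ea : (al + al') / 2 + (al - al') / 2 = al := by ring
  have ea' : (al + al') / 2 - (al - al') / 2 = al' := by ring
  have eb : (be + be') / 2 + (be - be') / 2 = be := by ring
  have eb' : (be + be') / 2 - (be - be') / 2 = be' := by ring
  have ec : (ga + ga') / 2 + (ga - ga') / 2 = ga := by ring
  have ec' : (ga + ga') / 2 - (ga - ga') / 2 = ga' := by ring
  have hD := nty_D ((al + al') / 2) ((al - al') / 2) ((be + be') / 2) ((be - be') / 2)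
    ((ga + ga') / 2) ((ga - ga') / 2) (by linarith) (by linarith) (by linarith) (by linarith)
    (by linarith) (by linarith) (by linarith) (by linarith) (by linarith)
  have hN1 := nty_N1 ((al + al') / 2) ((al - al') / 2) ((be + be') / 2) ((be - be') / 2)
    ((ga + ga') / 2) ((ga - ga') / 2) (by linarith) (by linarith) (by linarith) (by linarith)
    (by linarith) (by linarith) (by linarith) (by linarith) (by linarith)
  have hN2 := nty_N2 ((al + al') / 2) ((al - al') / 2) ((be + be') / 2) ((be - be') / 2)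
    ((ga + ga') / 2) ((ga - ga') / 2) (by linarith) (by linarith) (by linarith) (by linarith)
    (by linarith) (by linarith) (by linarith) (by linarith) (by linarith)
  have hN3 := nty_N3 ((al + al') / 2) ((al - al') / 2) ((be + be') / 2) ((be - be') / 2)
    ((ga + ga') / 2) ((ga - ga') / 2) (by linarith) (by linarith) (by linarith) (by linarith)
    (by linarith) (by linarith) (by linarith) (by linarith) (by linarith)
  have hS := nty_S ((al + al') / 2) ((al - al') / 2) ((be + be') / 2) ((be - be') / 2)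
    ((ga + ga') / 2) ((ga - ga') / 2) (by linarith) (by linarith) (by linarith) (by linarith)
    (by linarith) (by linarith) (by linarith) (by linarith) (by linarith)
  rw [ea, ea', eb, eb', ec, ec'] at hD hS
  rw [eb, eb', ec, ec'] at hN1
  rw [ea, ea', ec, ec'] at hN2
  rw [ea, ea', eb, eb'] at hN3
  obtain ⟨D, hDd⟩ : ∃ D, D = 1 + al * be * ga + al' * be' * ga' - al * be' - be * ga' - ga * al' :=
    ⟨_, rfl⟩
  obtain ⟨N1, hN1d⟩ : ∃ N, N = 1 - be * ga' - be' + be' * ga' + be * ga - ga := ⟨_, rfl⟩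
  obtain ⟨N2, hN2d⟩ : ∃ N, N = 1 - ga' - al + al' * ga' + al * ga - al' * ga := ⟨_, rfl⟩
  obtain ⟨N3, hN3d⟩ : ∃ N, N = 1 - be - al * be' + al' * be' + al * be - al' := ⟨_, rfl⟩
  have hD0 : 0 < D := by rw [hDd]; exact hD
  have hN10 : 0 ≤ N1 := by rw [hN1d]; exact hN1
  have hN20 : 0 ≤ N2 := by rw [hN2d]; exact hN2
  have hN30 : 0 ≤ N3 := by rw [hN3d]; exact hN3
  have hS0 : N1 + N2 + N3 ≤ 3 * D := by rw [hN1d, hN2d, hN3d, hDd]; linarith
  refine ⟨fun _ => 1, ![N1 / D, N2 / D, N3 / D], fun _ => Or.inl rfl, ?_, ?_⟩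
  · intro j
    have q0 : N1 + N2 * be' + N3 * ga = D := by rw [hN1d, hN2d, hN3d, hDd]; ring
    have q1 : N1 * al + N2 + N3 * ga' = D := by rw [hN1d, hN2d, hN3d, hDd]; ring
    have q2 : N1 * al' + N2 * be + N3 = D := by rw [hN1d, hN2d, hN3d, hDd]; ring
    fin_cases j
    · simp only [Fin.sum_univ_three, Fin.isValue, Matrix.cons_val_zero, Matrix.cons_val_one,
        Matrix.cons_val, Fin.zero_eta, Fin.mk_one, Fin.reduceFinMk]
      field_simp
      linarith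
    · simp only [Fin.sum_univ_three, Fin.isValue, Matrix.cons_val_zero, Matrix.cons_val_one,
        Matrix.cons_val, Fin.zero_eta, Fin.mk_one, Fin.reduceFinMk]
      field_simp
      linarith
    · simp only [Fin.sum_univ_three, Fin.isValue, Matrix.cons_val_zero, Matrix.cons_val_one,
        Matrix.cons_val, Fin.zero_eta, Fin.mk_one, Fin.reduceFinMk]
      field_simp
      linarith
  · have e : ∑ i, |(![N1 / D, N2 / D, N3 / D] : Fin 3 → ℝ) i| = (N1 + N2 + N3) / D := by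
      rw [Fin.sum_univ_three]
      show |N1 / D| + |N2 / D| + |N3 / D| = (N1 + N2 + N3) / D
      rw [abs_of_nonneg (div_nonneg hN10 hD0.le), abs_of_nonneg (div_nonneg hN20 hD0.le),
        abs_of_nonneg (div_nonneg hN30 hD0.le)]
      ring
    rw [e, div_le_iff₀ hD0]
    exact hS0

end H66OD

end S_NTY

section S_PTYS

/-!
# Row PTYS (about 150 lines): P-type matrices in the sector `γ ≥ |γ'|`

PROOF. Write `p=(1+γ)/2`, `pb = 1-p`, `q = (1+γ')/2`, `qb = 1-q`, `lp = (α+α')/2`, `lm = (α-α')/2`,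
`l0 = 1-α`, `mp = (β+β')/2`, `mm = (β-β')/2`, `m0 = 1-β` (all `≥ 0`, and `l0,m0,p,pb,q,qb > 0`), so
`s := l0/2+lp = (1+α')/2`, `sb = l0/2+lm = (1-α')/2`, `t = m0/2+mp = (1+β')/2`, `tb = (1-β')/2`,
`A1 = 1-α'γ = 2(p sb + pb s)`, `B1 = α-α'γ' = 2(lp qb + lm q)`, `A2 = β+β'γ = 2(mp p + mm pb)`,
`B2 = 1-β'γ' = 2 (q tb + qb t)`, `D = A1 B2 + A2 B1 = det A`. `D ≥ A1 B2 > 0` (`A1, B2 > 0`,
`A2, B1 ≥ 0`).
For signs `ε1, ε2` the solution of `t A = (ε1, ε2, 1)` is `t i = T i / D`,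
`T1 = ε1 B2 + ε2 A2 - (γ + β γ')`, `T2 = -ε1 B1 + ε2 A1 + αγ - γ'`,
`T3 = ε1 (αβ' - α') - ε2 (β' + α'β) + 1 + αβ`.
(equations `t1 - β t2 + γ t3 = ε1`, `α t1 + t2 + γ' t3 = ε2`, `α' t1 + β' t2 + t3 = 1`; check by `field_simp; ring`.)
Suppose `Good` fails: for each of the four `(ε1,ε2)`: `|T1|+|T2|+|T3| > 3 D`.
Sign facts (each is affine in `(α,α')`, `(β,β')` and in `γ,γ'`; nlinarith with products of the nonnegative
quantities): `T3 ≥ 0` for all four `(ε1,ε2)`;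
(1,1): `T1 ≥ 0` and, in the sector, `T2 ≥ 0` (`T2 = l0 (1-γ') + lm·2(γ-γ')`);
(-1,1): `T2 ≥ 0` and, in the sector, `T1 ≤ 0` (`-T1 = m0 (1+γ) + mm·2(γ+γ')`);
(-1,-1): `T1 ≤ 0`; (1,-1): `T2 ≤ 0`.
Identities (`ring` after substitution):
(1,1):   `T1+T2+T3-3D = 2 (2 pb sb B2 - 2 pb tb B1 + 2 qb sb A2 + 2 qb tb A1 - D)`,
(-1,1):  `-T1+T2+T3-3D = 2 (2 p s B2 + 2 p tb B1 - 2 qb s A2 + 2 qb tb A1 - D)`,
(-1,-1): `-T1-T2+T3-3D = 2 (2 p s B2 - 2 p t B1 + 2 q s A2 + 2 q t A1 - D)`       (type A, if `T2 ≤ 0`)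
         `-T1+T2+T3-3D = 2 (2 p s B2 + 2 p tb B1 + 2 q s A2 - 2 q tb A1 - D)`     (type B, if `T2 ≥ 0`)
(1,-1):  `T1-T2+T3-3D = 2 (2 pb sb B2 + 2 pb t B1 - 2 q sb A2 + 2 q t A1 - D)`    (type A, if `T1 ≥ 0`)
         `-T1-T2+T3-3D = 2 (-2 pb s B2 + 2 pb t B1 + 2 q s A2 + 2 q t A1 - D)`    (type B, if `T1 ≤ 0`)
So all four brackets are positive, and the certificate `cert_AAAA`, `cert_AAAB`, `cert_AABA` or `cert_AABB`
(file CER.lean; the letters are the types for (1,1), (-1,1), (-1,-1), (1,-1)) gives `False`.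
-/

namespace H66OD

private theorem PTYS_good (al al' be be' ga ga' e1 e2 : ℝ)
    (hD : 0 < (1 - al' * ga) * (1 - be' * ga') + (be + be' * ga) * (al - al' * ga'))
    (he1 : e1 = 1 ∨ e1 = -1) (he2 : e2 = 1 ∨ e2 = -1)
    (h : |e1 * (1 - be' * ga') + e2 * (be + be' * ga) - (ga + be * ga')| +
      |-e1 * (al - al' * ga') + e2 * (1 - al' * ga) + al * ga - ga'| +
      |e1 * (al * be' - al') - e2 * (be' + al' * be) + 1 + al * be| ≤
      3 * ((1 - al' * ga) * (1 - be' * ga') + (be + be' * ga) * (al - al' * ga'))) :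
    Good ![![1, al, al'], ![-be, 1, be'], ![ga, ga', 1]] := by
  obtain ⟨D, hDe⟩ : ∃ D : ℝ, D = (1 - al' * ga) * (1 - be' * ga') +
    (be + be' * ga) * (al - al' * ga') := ⟨_, rfl⟩
  rw [← hDe] at hD h
  obtain ⟨T1, hT1⟩ : ∃ T : ℝ, T = e1 * (1 - be' * ga') + e2 * (be + be' * ga) -
    (ga + be * ga') := ⟨_, rfl⟩
  obtain ⟨T2, hT2⟩ : ∃ T : ℝ, T = -e1 * (al - al' * ga') + e2 * (1 - al' * ga) + al * ga - ga' :=
    ⟨_, rfl⟩
  obtain ⟨T3, hT3⟩ : ∃ T : ℝ, T = e1 * (al * be' - al') - e2 * (be' + al' * be) + 1 + al * be :=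
    ⟨_, rfl⟩
  rw [← hT1, ← hT2, ← hT3] at h
  refine ⟨![e1, e2, 1], ![T1 / D, T2 / D, T3 / D], ?_, ?_, ?_⟩
  · intro i
    fin_cases i
    · exact he1
    · exact he2
    · exact Or.inl rfl
  · intro j
    fin_cases j
    · rw [Fin.sum_univ_three]
      show T1 / D * 1 + T2 / D * (-be) + T3 / D * ga = e1
      have e : T1 * 1 + T2 * (-be) + T3 * ga = e1 * D := by
        rw [hT1, hT2, hT3, hDe]; ring
      field_simp
      linarith
    · rw [Fin.sum_univ_three]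
      show T1 / D * al + T2 / D * 1 + T3 / D * ga' = e2
      have e : T1 * al + T2 * 1 + T3 * ga' = e2 * D := by
        rw [hT1, hT2, hT3, hDe]; ring
      field_simp
      linarith
    · rw [Fin.sum_univ_three]
      show T1 / D * al' + T2 / D * be' + T3 / D * 1 = 1
      have e : T1 * al' + T2 * be' + T3 * 1 = D := by
        rw [hT1, hT2, hT3, hDe]; ring
      field_simp
      linarith
  · rw [Fin.sum_univ_three]
    show |T1 / D| + |T2 / D| + |T3 / D| ≤ 3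
    rw [abs_div, abs_div, abs_div, abs_of_pos hD, ← add_div, ← add_div, div_le_iff₀ hD]
    exact h

theorem ptys (al al' be be' ga ga' : ℝ) (h1 : |al'| ≤ al) (h2 : al < 1) (h3 : |be'| ≤ be)
    (h4 : be < 1) (h5 : |ga'| ≤ ga) (h6 : ga < 1) :
    Good ![![1, al, al'], ![-be, 1, be'], ![ga, ga', 1]] := by
  obtain ⟨a1, a2⟩ := abs_le.1 h1
  obtain ⟨b1, b2⟩ := abs_le.1 h3
  obtain ⟨c1, c2⟩ := abs_le.1 h5
  have hl0 : 0 < 1 - al := by linarith
  have hlp : 0 ≤ (al + al') / 2 := by linarith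
  have hlm : 0 ≤ (al - al') / 2 := by linarith
  have hm0 : 0 < 1 - be := by linarith
  have hmp : 0 ≤ (be + be') / 2 := by linarith
  have hmm : 0 ≤ (be - be') / 2 := by linarith
  have hp : 0 < (1 + ga) / 2 := by linarith
  have hpb : 0 < (1 - ga) / 2 := by linarith
  have hq : 0 < (1 + ga') / 2 := by linarith
  have hqb : 0 < (1 - ga') / 2 := by linarith
  have hs : 0 < (1 + al') / 2 := by linarith
  have hsb : 0 < (1 - al') / 2 := by linarith
  have ht : 0 < (1 + be') / 2 := by linarith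
  have htb : 0 < (1 - be') / 2 := by linarith
  have hA1 : 0 < 1 - al' * ga := by
    have e : 1 - al' * ga = 2 * ((1 + ga) / 2 * ((1 - al') / 2) + (1 - ga) / 2 * ((1 + al') / 2)) := by
      ring
    rw [e]; positivity
  have hB1 : 0 ≤ al - al' * ga' := by
    have e : al - al' * ga' = 2 * ((al + al') / 2 * ((1 - ga') / 2) +
      (al - al') / 2 * ((1 + ga') / 2)) := by ring
    rw [e]; positivity
  have hA2 : 0 ≤ be + be' * ga := by
    have e : be + be' * ga = 2 * ((be + be') / 2 * ((1 + ga) / 2) +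
      (be - be') / 2 * ((1 - ga) / 2)) := by ring
    rw [e]; positivity
  have hB2 : 0 < 1 - be' * ga' := by
    have e : 1 - be' * ga' = 2 * ((1 + ga') / 2 * ((1 - be') / 2) +
      (1 - ga') / 2 * ((1 + be') / 2)) := by ring
    rw [e]; positivity
  have hD : 0 < (1 - al' * ga) * (1 - be' * ga') + (be + be' * ga) * (al - al' * ga') := by
    positivity
  by_contra hG
  have hno : ∀ e1 e2 : ℝ, (e1 = 1 ∨ e1 = -1) → (e2 = 1 ∨ e2 = -1) →
      3 * ((1 - al' * ga) * (1 - be' * ga') + (be + be' * ga) * (al - al' * ga')) <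
      |e1 * (1 - be' * ga') + e2 * (be + be' * ga) - (ga + be * ga')| +
      |-e1 * (al - al' * ga') + e2 * (1 - al' * ga) + al * ga - ga'| +
      |e1 * (al * be' - al') - e2 * (be' + al' * be) + 1 + al * be| := by
    intro e1 e2 he1 he2
    by_contra hcon
    exact hG (PTYS_good al al' be be' ga ga' e1 e2 hD he1 he2 (not_lt.1 hcon))
  -- products of the nonnegative quantities
  have k1 := mul_nonneg hl0.le hm0.le
  have k2 := mul_nonneg hl0.le hmp
  have k3 := mul_nonneg hl0.le hmm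
  have k4 := mul_nonneg hlp hm0.le
  have k5 := mul_nonneg hlp hmp
  have k6 := mul_nonneg hlp hmm
  have k7 := mul_nonneg hlm hm0.le
  have k8 := mul_nonneg hlm hmp
  have k9 := mul_nonneg hlm hmm
  have hga : 0 ≤ ga := (abs_nonneg _).trans h5
  have r1 : 0 ≤ 1 - ga := by linarith
  have r2 : 0 ≤ 1 + ga := by linarith
  have r3 : 0 ≤ 1 - ga' := by linarith
  have r4 : 0 ≤ 1 + ga' := by linarith
  have r5 : 0 ≤ ga - ga' := by linarith
  have r6 : 0 ≤ ga + ga' := by linarith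
  have g11 := hno 1 1 (Or.inl rfl) (Or.inl rfl)
  have g21 := hno (-1) 1 (Or.inr rfl) (Or.inl rfl)
  have g22 := hno (-1) (-1) (Or.inr rfl) (Or.inr rfl)
  have g12 := hno 1 (-1) (Or.inl rfl) (Or.inr rfl)
  -- (1, 1)
  have h0 : 0 < 2 * ((1 - ga) / 2 * ((1 - al') / 2) * (1 - be' * ga')) -
      2 * ((1 - ga) / 2 * ((1 - be') / 2) * (al - al' * ga')) +
      2 * ((1 - ga') / 2 * ((1 - al') / 2) * (be + be' * ga)) +
      2 * ((1 - ga') / 2 * ((1 - be') / 2) * (1 - al' * ga)) -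
      ((1 - al' * ga) * (1 - be' * ga') + (be + be' * ga) * (al - al' * ga')) := by
    have t1 : 0 ≤ 1 * (1 - be' * ga') + 1 * (be + be' * ga) - (ga + be * ga') := by
      linarith [mul_nonneg hm0.le r1, mul_nonneg hmp r3, mul_nonneg hmm r1]
    have t2 : 0 ≤ -1 * (al - al' * ga') + 1 * (1 - al' * ga) + al * ga - ga' := by
      linarith [mul_nonneg hl0.le r3, mul_nonneg hlm r5]
    have t3 : 0 ≤ 1 * (al * be' - al') - 1 * (be' + al' * be) + 1 + al * be := by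
      linarith
    rw [abs_of_nonneg t1, abs_of_nonneg t2, abs_of_nonneg t3] at g11
    linarith
  -- (-1, 1)
  have h1' : 0 < 2 * ((1 + ga) / 2 * ((1 + al') / 2) * (1 - be' * ga')) +
      2 * ((1 + ga) / 2 * ((1 - be') / 2) * (al - al' * ga')) -
      2 * ((1 - ga') / 2 * ((1 + al') / 2) * (be + be' * ga)) +
      2 * ((1 - ga') / 2 * ((1 - be') / 2) * (1 - al' * ga)) -
      ((1 - al' * ga) * (1 - be' * ga') + (be + be' * ga) * (al - al' * ga')) := by
    have t1 : -1 * (1 - be' * ga') + 1 * (be + be' * ga) - (ga + be * ga') ≤ 0 := by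
      linarith [mul_nonneg hm0.le r2, mul_nonneg hmm r6]
    have t2 : 0 ≤ -(-1) * (al - al' * ga') + 1 * (1 - al' * ga) + al * ga - ga' := by
      linarith [mul_nonneg hl0.le r3, mul_nonneg hlp r3, mul_nonneg hlm r2]
    have t3 : 0 ≤ -1 * (al * be' - al') - 1 * (be' + al' * be) + 1 + al * be := by
      linarith
    rw [abs_of_nonpos t1, abs_of_nonneg t2, abs_of_nonneg t3] at g21
    linarith
  -- (-1, -1)
  have t1 : -1 * (1 - be' * ga') + -1 * (be + be' * ga) - (ga + be * ga') ≤ 0 := by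
    linarith [mul_nonneg hm0.le r2, mul_nonneg hmp r2, mul_nonneg hmm r4]
  have t3 : 0 ≤ -1 * (al * be' - al') - -1 * (be' + al' * be) + 1 + al * be := by
    linarith
  -- (1, -1)
  have u2 : -1 * (al - al' * ga') + -1 * (1 - al' * ga) + al * ga - ga' ≤ 0 := by
    linarith [mul_nonneg hl0.le r4, mul_nonneg hlp r1, mul_nonneg hlm r4]
  have u3 : 0 ≤ 1 * (al * be' - al') - -1 * (be' + al' * be) + 1 + al * be := by
    linarith
  rw [abs_of_nonpos t1, abs_of_nonneg t3] at g22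
  rw [abs_of_nonpos u2, abs_of_nonneg u3] at g12
  rcases le_total (-(-1) * (al - al' * ga') + -1 * (1 - al' * ga) + al * ga - ga') 0 with t2 | t2
  · rw [abs_of_nonpos t2] at g22
    have h2' : 0 < 2 * ((1 + ga) / 2 * ((1 + al') / 2) * (1 - be' * ga')) -
        2 * ((1 + ga) / 2 * ((1 + be') / 2) * (al - al' * ga')) +
        2 * ((1 + ga') / 2 * ((1 + al') / 2) * (be + be' * ga)) +
        2 * ((1 + ga') / 2 * ((1 + be') / 2) * (1 - al' * ga)) -
        ((1 - al' * ga) * (1 - be' * ga') + (be + be' * ga) * (al - al' * ga')) := by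
      linarith
    rcases le_total 0 (1 * (1 - be' * ga') + -1 * (be + be' * ga) - (ga + be * ga')) with u1 | u1
    · rw [abs_of_nonneg u1] at g12
      have h3' : 0 < 2 * ((1 - ga) / 2 * ((1 - al') / 2) * (1 - be' * ga')) +
          2 * ((1 - ga) / 2 * ((1 + be') / 2) * (al - al' * ga')) -
          2 * ((1 + ga') / 2 * ((1 - al') / 2) * (be + be' * ga)) +
          2 * ((1 + ga') / 2 * ((1 + be') / 2) * (1 - al' * ga)) -
          ((1 - al' * ga) * (1 - be' * ga') + (be + be' * ga) * (al - al' * ga')) := by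
        linarith
      exact cert_AAAA (1 - al) ((al + al') / 2) ((al - al') / 2) (1 - be) ((be + be') / 2)
        ((be - be') / 2) _ _ _ _ _ _ _ _ _ _ _ _ _ hl0 hlp hlm hm0 hmp hmm hp hpb hq hqb
        (by ring) (by ring) (by ring) (by ring) (by ring) (by ring) (by ring) (by ring) rfl
        h0 h1' h2' h3'
    · rw [abs_of_nonpos u1] at g12
      have h3' : 0 < -2 * ((1 - ga) / 2 * ((1 + al') / 2) * (1 - be' * ga')) +
          2 * ((1 - ga) / 2 * ((1 + be') / 2) * (al - al' * ga')) +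
          2 * ((1 + ga') / 2 * ((1 + al') / 2) * (be + be' * ga)) +
          2 * ((1 + ga') / 2 * ((1 + be') / 2) * (1 - al' * ga)) -
          ((1 - al' * ga) * (1 - be' * ga') + (be + be' * ga) * (al - al' * ga')) := by
        linarith
      exact cert_AAAB (1 - al) ((al + al') / 2) ((al - al') / 2) (1 - be) ((be + be') / 2)
        ((be - be') / 2) _ _ _ _ _ ((1 - al') / 2) _ _ _ _ _ _ _ hl0 hlp hlm hm0 hmp hmm hp hpb
        hq hqb (by ring) (by ring) (by ring) (by ring) (by ring) (by ring) (by ring) (by ring) rfl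
        h0 h1' h2' h3'
  · rw [abs_of_nonneg t2] at g22
    have h2' : 0 < 2 * ((1 + ga) / 2 * ((1 + al') / 2) * (1 - be' * ga')) +
        2 * ((1 + ga) / 2 * ((1 - be') / 2) * (al - al' * ga')) +
        2 * ((1 + ga') / 2 * ((1 + al') / 2) * (be + be' * ga)) -
        2 * ((1 + ga') / 2 * ((1 - be') / 2) * (1 - al' * ga)) -
        ((1 - al' * ga) * (1 - be' * ga') + (be + be' * ga) * (al - al' * ga')) := by
      linarith
    rcases le_total 0 (1 * (1 - be' * ga') + -1 * (be + be' * ga) - (ga + be * ga')) with u1 | u1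
    · rw [abs_of_nonneg u1] at g12
      have h3' : 0 < 2 * ((1 - ga) / 2 * ((1 - al') / 2) * (1 - be' * ga')) +
          2 * ((1 - ga) / 2 * ((1 + be') / 2) * (al - al' * ga')) -
          2 * ((1 + ga') / 2 * ((1 - al') / 2) * (be + be' * ga)) +
          2 * ((1 + ga') / 2 * ((1 + be') / 2) * (1 - al' * ga)) -
          ((1 - al' * ga) * (1 - be' * ga') + (be + be' * ga) * (al - al' * ga')) := by
        linarith
      exact cert_AABA (1 - al) ((al + al') / 2) ((al - al') / 2) (1 - be) ((be + be') / 2)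
        ((be - be') / 2) _ _ _ _ _ _ _ _ _ _ _ _ _ hl0 hlp hlm hm0 hmp hmm hp hpb hq hqb
        (by ring) (by ring) (by ring) (by ring) (by ring) (by ring) (by ring) (by ring) rfl
        h0 h1' h2' h3'
    · rw [abs_of_nonpos u1] at g12
      have h3' : 0 < -2 * ((1 - ga) / 2 * ((1 + al') / 2) * (1 - be' * ga')) +
          2 * ((1 - ga) / 2 * ((1 + be') / 2) * (al - al' * ga')) +
          2 * ((1 + ga') / 2 * ((1 + al') / 2) * (be + be' * ga)) +
          2 * ((1 + ga') / 2 * ((1 + be') / 2) * (1 - al' * ga)) -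
          ((1 - al' * ga) * (1 - be' * ga') + (be + be' * ga) * (al - al' * ga')) := by
        linarith
      exact cert_AABB (1 - al) ((al + al') / 2) ((al - al') / 2) (1 - be) ((be + be') / 2)
        ((be - be') / 2) _ _ _ _ _ ((1 - al') / 2) _ _ _ _ _ _ _ hl0 hlp hlm hm0 hmp hmm hp hpb
        hq hqb (by ring) (by ring) (by ring) (by ring) (by ring) (by ring) (by ring) (by ring) rfl
        h0 h1' h2' h3'

end H66OD

end S_PTYS

section S_PTY

/-!
# Row PTY (about 80 lines): the P-type matrices from the sector `γ ≥ |γ'|`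

Rows `(1,α,α')`, `(-β,1,β')`, `(γ,γ',1)` with `|α'| ≤ α < 1`, `|β'| ≤ β < 1`, `|γ|,|γ'| < 1`.

PROOF. Rotation: if `Good` holds for the parameters `(β,β',α,-α',γ',-γ)`, i.e. for the rows
`(1,β,β')`, `(-α,1,-α')`, `(γ',-γ,1)`, with `t' = (t'1,t'2,t'3)` and sign vector `ε'`, then for
the matrix `A` of `(α,α',β,β',γ,γ')`: `t1 = -t'2`, `t2 = t'1`, `t3 = t'3` gives
`t A = (t1 - β t2 + γ t3, α t1 + t2 + γ' t3, α' t1 + β' t2 + t3)
     = (-(t'2 + β t'1 - γ t'3), t'1 - α t'2 + γ' t'3, β' t'1 - α' t'2 + t'3) = (-ε'2, ε'1, ε'3)`: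
indeed `t' A' = (t'1 - α t'2 + γ' t'3, β t'1 + t'2 - γ t'3, β' t'1 - α' t'2 + t'3)`. So `Good A`.
Applying the rotation once, twice, three times maps `(γ,γ')` to `(γ',-γ)`, `(-γ,-γ')`, `(-γ',γ)`, keeping the
other hypotheses. One of the four vectors `(γ,γ')`, `(γ',-γ)`, `(-γ,-γ')`, `(-γ',γ)` has first coordinate
`≥ |second coordinate|`; there use `ptys`.
-/

namespace H66OD

private theorem PTY_rot (al al' be be' ga ga' : ℝ)
    (h : Good ![![1, be, be'], ![-al, 1, -al'], ![ga', -ga, 1]]) :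
    Good ![![1, al, al'], ![-be, 1, be'], ![ga, ga', 1]] := by
  obtain ⟨e, t, he, ht, hs⟩ := h
  have h0 : t 0 * 1 + t 1 * (-al) + t 2 * ga' = e 0 := by
    have := ht 0
    rw [Fin.sum_univ_three] at this
    exact this
  have h1 : t 0 * be + t 1 * 1 + t 2 * (-ga) = e 1 := by
    have := ht 1
    rw [Fin.sum_univ_three] at this
    exact this
  have h2 : t 0 * be' + t 1 * (-al') + t 2 * 1 = e 2 := by
    have := ht 2
    rw [Fin.sum_univ_three] at this
    exact this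
  refine ⟨![-e 1, e 0, e 2], ![-t 1, t 0, t 2], ?_, ?_, ?_⟩
  · intro i
    fin_cases i
    · show -e 1 = 1 ∨ -e 1 = -1
      rcases he 1 with h | h
      · right; rw [h]
      · left; rw [h, neg_neg]
    · exact he 0
    · exact he 2
  · intro j
    fin_cases j
    · rw [Fin.sum_univ_three]
      show -t 1 * 1 + t 0 * (-be) + t 2 * ga = -e 1
      linarith
    · rw [Fin.sum_univ_three]
      show -t 1 * al + t 0 * 1 + t 2 * ga' = e 0
      linarith
    · rw [Fin.sum_univ_three]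
      show -t 1 * al' + t 0 * be' + t 2 * 1 = e 2
      linarith
  · rw [Fin.sum_univ_three] at hs ⊢
    show |-t 1| + |t 0| + |t 2| ≤ 3
    rw [abs_neg]
    linarith

theorem pty (al al' be be' ga ga' : ℝ) (h1 : |al'| ≤ al) (h2 : al < 1) (h3 : |be'| ≤ be)
    (h4 : be < 1) (h5 : |ga| < 1) (h6 : |ga'| < 1) :
    Good ![![1, al, al'], ![-be, 1, be'], ![ga, ga', 1]] := by
  obtain ⟨g1, g2⟩ := abs_lt.1 h5
  obtain ⟨k1, k2⟩ := abs_lt.1 h6
  have hna : |-al'| ≤ al := by rw [abs_neg]; exact h1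
  have hnb : |-be'| ≤ be := by rw [abs_neg]; exact h3
  rcases le_total |ga'| |ga| with h | h
  · rcases le_total 0 ga with hg | hg
    · rw [abs_of_nonneg hg] at h
      exact ptys al al' be be' ga ga' h1 h2 h3 h4 h g2
    · rw [abs_of_nonpos hg] at h
      refine PTY_rot _ _ _ _ _ _ (PTY_rot _ _ _ _ _ _ ?_)
      exact ptys al (-al') be (-be') (-ga) (-ga') hna h2 hnb h4 (by rw [abs_neg]; exact h)
        (by linarith)
  · rcases le_total 0 ga' with hg | hg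
    · rw [abs_of_nonneg hg] at h
      refine PTY_rot _ _ _ _ _ _ ?_
      exact ptys be be' al (-al') ga' (-ga) h3 h4 hna h2 (by rw [abs_neg]; exact h) k2
    · rw [abs_of_nonpos hg] at h
      refine PTY_rot _ _ _ _ _ _ (PTY_rot _ _ _ _ _ _ (PTY_rot _ _ _ _ _ _ ?_))
      rw [neg_neg, neg_neg]
      exact ptys be (-be') al al' (-ga') ga hnb h4 h1 h2 h (by linarith)

end H66OD

end S_PTY

section S_MTC

/-!
# Row MTC (about 220 lines): the 3 x 3 matrix theorem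

`A` has unit diagonal, `|A i j| < 1` off the diagonal, and for every sign vector `ε` some `i` has
`|Σ_j A i j ε j| > 1`. Then `Good A`.

PROOF. For a sign vector `ε` put `b i = ε i Σ_{j≠i} A i j ε j`; `|Σ_j A i j ε j| = |1 + b i|`, `|b i| < 2`, so
the hypothesis says: for every `ε` some `b i > 0`. (*)
Symmetry: for a permutation `σ` of `Fin 3` and signs `s` let `A' i j = s i s j A (σ i) (σ j)`; if
`Good A'` with `ε', t'` then `Good A` with `t (σ i) = s i t' i`, `ε (σ j) = s j ε' j`. `A'` satisfies the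
same hypotheses.
Mutual pair lemma: if `|A 0 2| ≤ |A 0 1|` and `|A 1 2| ≤ |A 1 0|` then `Good A`. Proof: if
`A 0 1 * A 1 0 < 0`: if `A 0 1 > 0 > A 1 0` this is `pty` with `α = A 0 1, α' = A 0 2, β = -A 1 0,
β' = A 1 2, γ = A 2 0, γ' = A 2 1`; if `A 0 1 < 0 < A 1 0` first change signs with `s = (1,-1,1)`
(then `A' 0 1 = -A 0 1`, `A' 1 0 = -A 1 0`, `A' 0 2 = A 0 2`, `A' 1 2 = -A 1 2`, ...). If
`A 0 1 * A 1 0 ≥ 0`: contradiction to (*): there is `η = ±1` with `η A 0 1 ≤ 0` and `η A 1 0 ≤ 0`; take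
`ε 0 = 1`, `ε 1 = η`, and `ε 2 = ±1` with `ε 2 (A 2 0 + η A 2 1) ≤ 0`. Then
`b 0 = η A 0 1 + ε 2 A 0 2 ≤ -|A 0 1| + |A 0 2| ≤ 0`, `b 1 = η (A 1 0 + ε 2 A 1 2) ≤ -|A 1 0| + |A 1 2| ≤ 0`,
`b 2 = ε 2 (A 2 0 + η A 2 1) ≤ 0`.
Cyclic lemma: if `|A 0 2| ≤ |A 0 1|`, `|A 1 0| ≤ |A 1 2|`, `|A 2 1| ≤ |A 2 0|` then `Good A`. Proof: if
`A 0 1 * A 1 2 * A 2 0 > 0` there are signs `s` with `s 0 s 1 A 0 1 > 0`, `s 1 s 2 A 1 2 > 0`,
`s 2 s 0 A 2 0 > 0` (`s 0 = 1`, `s 1 = sign A 0 1`, `s 2 = sign A 2 0`); the signed matrix is of the form of `nty`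
(`α = A' 0 1, α' = A' 0 2, β = A' 1 2, β' = A' 1 0, γ = A' 2 0, γ' = A' 2 1`). If the product is
`≤ 0` there are signs `ε` with `ε 0 ε 1 A 0 1 ≤ 0`, `ε 1 ε 2 A 1 2 ≤ 0`, `ε 2 ε 0 A 2 0 ≤ 0` (8 sign cases of
the three numbers, take `ε 0 = 1`), and then all `b i ≤ 0` as above (`b i ≤ -|dominant| + |other| ≤ 0`),
contradicting (*).
Conclusion: for each `i` one of the two off-diagonal entries dominates: 8 cases:
`j(0) ∈ {1,2}`, `j(1) ∈ {0,2}`, `j(2) ∈ {0,1}`. Six of them contain a mutual pair (`j(i) = k`, `j(k) = i`), reduced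
to the mutual pair lemma by a permutation; `(1,2,0)` is the cyclic lemma and `(2,0,1)` is the cyclic lemma after
exchanging the indices 1 and 2.
-/

namespace H66OD

theorem MTC_iff (a a' b' b c c' : ℝ) : Good ![![1, a, a'], ![b', 1, b], ![c, c', 1]] ↔
    ∃ x y z r s t : ℝ, (x = 1 ∨ x = -1) ∧ (y = 1 ∨ y = -1) ∧ (z = 1 ∨ z = -1) ∧
      r + s * b' + t * c = x ∧ r * a + s + t * c' = y ∧ r * a' + s * b + t = z ∧
      |r| + |s| + |t| ≤ 3 := by
  constructor
  · rintro ⟨ε, t, h1, h2, h3⟩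
    refine ⟨ε 0, ε 1, ε 2, t 0, t 1, t 2, h1 0, h1 1, h1 2, ?_, ?_, ?_, ?_⟩
    · have := h2 0
      simp [Fin.sum_univ_three] at this
      linarith
    · have := h2 1
      simp [Fin.sum_univ_three] at this
      linarith
    · have := h2 2
      simp [Fin.sum_univ_three] at this
      linarith
    · rw [Fin.sum_univ_three] at h3
      exact h3
  · rintro ⟨x, y, z, r, s, t, hx, hy, hz, e1, e2, e3, e4⟩
    refine ⟨![x, y, z], ![r, s, t], ?_, ?_, ?_⟩
    · intro i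
      fin_cases i
      · exact hx
      · exact hy
      · exact hz
    · intro j
      fin_cases j
      · simp [Fin.sum_univ_three]
        linarith
      · simp [Fin.sum_univ_three]
        linarith
      · simp [Fin.sum_univ_three]
        linarith
    · simp [Fin.sum_univ_three]
      linarith

/-- The hypotheses in coordinates. -/
def MTC_H (a a' b' b c c' : ℝ) : Prop :=
  |a| < 1 ∧ |a'| < 1 ∧ |b'| < 1 ∧ |b| < 1 ∧ |c| < 1 ∧ |c'| < 1 ∧
    ∀ x y z : ℝ, (x = 1 ∨ x = -1) → (y = 1 ∨ y = -1) → (z = 1 ∨ z = -1) →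
      0 < x * (a * y + a' * z) ∨ 0 < y * (b' * x + b * z) ∨ 0 < z * (c * x + c' * y)

theorem MTC_neg {x : ℝ} (h : x = 1 ∨ x = -1) : -x = 1 ∨ -x = -1 := by
  rcases h with h | h
  · right; rw [h]
  · left; rw [h]; ring

theorem MTC_s1 {a a' b' b c c' : ℝ}
    (h : Good ![![1, -a, a'], ![-b', 1, -b], ![c, -c', 1]]) :
    Good ![![1, a, a'], ![b', 1, b], ![c, c', 1]] := by
  rw [MTC_iff] at h ⊢
  obtain ⟨x, y, z, r, s, t, hx, hy, hz, e1, e2, e3, e4⟩ := h
  refine ⟨x, -y, z, r, -s, t, hx, MTC_neg hy, hz, ?_, ?_, ?_, ?_⟩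
  · linarith
  · linarith
  · linarith
  · rw [abs_neg]; exact e4

theorem MTC_s2 {a a' b' b c c' : ℝ}
    (h : Good ![![1, a, -a'], ![b', 1, -b], ![-c, -c', 1]]) :
    Good ![![1, a, a'], ![b', 1, b], ![c, c', 1]] := by
  rw [MTC_iff] at h ⊢
  obtain ⟨x, y, z, r, s, t, hx, hy, hz, e1, e2, e3, e4⟩ := h
  refine ⟨x, y, -z, r, s, -t, hx, hy, MTC_neg hz, ?_, ?_, ?_, ?_⟩
  · linarith
  · linarith
  · linarith
  · rw [abs_neg]; exact e4

theorem MTC_p12 {a a' b' b c c' : ℝ}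
    (h : Good ![![1, a', a], ![c, 1, c'], ![b', b, 1]]) :
    Good ![![1, a, a'], ![b', 1, b], ![c, c', 1]] := by
  rw [MTC_iff] at h ⊢
  obtain ⟨x, y, z, r, s, t, hx, hy, hz, e1, e2, e3, e4⟩ := h
  refine ⟨x, z, y, r, t, s, hx, hz, hy, ?_, ?_, ?_, ?_⟩ <;> linarith

theorem MTC_p01 {a a' b' b c c' : ℝ}
    (h : Good ![![1, b', b], ![a, 1, a'], ![c', c, 1]]) :
    Good ![![1, a, a'], ![b', 1, b], ![c, c', 1]] := by
  rw [MTC_iff] at h ⊢
  obtain ⟨x, y, z, r, s, t, hx, hy, hz, e1, e2, e3, e4⟩ := h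
  refine ⟨y, x, z, s, r, t, hy, hx, hz, ?_, ?_, ?_, ?_⟩ <;> linarith

theorem MTC_h12 {a a' b' b c c' : ℝ} (h : MTC_H a a' b' b c c') : MTC_H a' a c c' b' b := by
  obtain ⟨h1, h2, h3, h4, h5, h6, h7⟩ := h
  refine ⟨h2, h1, h5, h6, h3, h4, fun x y z hx hy hz => ?_⟩
  rcases h7 x z y hx hz hy with h | h | h
  · left; linarith
  · right; right; linarith
  · right; left; linarith

theorem MTC_h01 {a a' b' b c c' : ℝ} (h : MTC_H a a' b' b c c') : MTC_H b' b a a' c' c := by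
  obtain ⟨h1, h2, h3, h4, h5, h6, h7⟩ := h
  refine ⟨h3, h4, h1, h2, h6, h5, fun x y z hx hy hz => ?_⟩
  rcases h7 y x z hy hx hz with h | h | h
  · right; left; linarith
  · left; linarith
  · right; right; linarith

theorem MTC_le {x a a' y z : ℝ} (hx : x = 1 ∨ x = -1) (hy : y = 1 ∨ y = -1) (hz : z = 1 ∨ z = -1)
    (h : |a'| ≤ |a|) (h0 : x * y * a ≤ 0) : ¬ 0 < x * (a * y + a' * z) := by
  intro hc
  have e1 : |x * y * a| = |a| := by
    rw [abs_mul, abs_mul]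
    rcases hx with hx | hx <;> rcases hy with hy | hy <;> rw [hx, hy] <;> simp
  have e2 : |x * z * a'| = |a'| := by
    rw [abs_mul, abs_mul]
    rcases hx with hx | hx <;> rcases hz with hz | hz <;> rw [hx, hz] <;> simp
  rw [abs_of_nonpos h0] at e1
  have e3 := le_abs_self (x * z * a')
  rw [e2] at e3
  have e4 : x * (a * y + a' * z) = x * y * a + x * z * a' := by ring
  rw [e4] at hc
  linarith

theorem MTC_mut {a a' b' b c c' : ℝ} (h : MTC_H a a' b' b c c') (ha : |a'| ≤ |a|)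
    (hb : |b| ≤ |b'|) : Good ![![1, a, a'], ![b', 1, b], ![c, c', 1]] := by
  obtain ⟨h1, h2, h3, h4, h5, h6, h7⟩ := h
  rcases lt_or_ge (a * b') 0 with hn | hp
  · rcases mul_neg_iff.1 hn with ⟨ap, bn⟩ | ⟨an, bp⟩
    · rw [abs_of_pos ap] at h1 ha
      rw [abs_of_neg bn] at h3 hb
      have := pty a a' (-b') b c c' ha h1 hb h3 h5 h6
      rw [neg_neg] at this
      exact this
    · rw [abs_of_neg an] at h1 ha
      rw [abs_of_pos bp] at h3 hb
      refine MTC_s1 ?_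
      exact pty (-a) a' b' (-b) c (-c') ha h1 (by rw [abs_neg]; exact hb) h3 h5
        (by rw [abs_neg]; exact h6)
  · exfalso
    obtain ⟨y, hy, y1, y2⟩ : ∃ y : ℝ, (y = 1 ∨ y = -1) ∧ y * a ≤ 0 ∧ y * b' ≤ 0 := by
      rcases mul_nonneg_iff.1 hp with ⟨ap, bp⟩ | ⟨an, bn⟩
      · exact ⟨-1, Or.inr rfl, by linarith, by linarith⟩
      · exact ⟨1, Or.inl rfl, by linarith, by linarith⟩
    obtain ⟨z, hz, z1⟩ : ∃ z : ℝ, (z = 1 ∨ z = -1) ∧ z * (c * 1 + c' * y) ≤ 0 := by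
      rcases le_total (c * 1 + c' * y) 0 with hc | hc
      · exact ⟨1, Or.inl rfl, by linarith⟩
      · exact ⟨-1, Or.inr rfl, by linarith⟩
    rcases h7 1 y z (Or.inl rfl) hy hz with h | h | h
    · exact MTC_le (Or.inl rfl) hy hz ha (by linarith) h
    · exact MTC_le hy (Or.inl rfl) hz hb (by linarith) h
    · linarith

theorem MTC_cyc {a a' b' b c c' : ℝ} (h : MTC_H a a' b' b c c') (ha : |a'| ≤ |a|)
    (hb : |b'| ≤ |b|) (hc : |c'| ≤ |c|) : Good ![![1, a, a'], ![b', 1, b], ![c, c', 1]] := by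
  obtain ⟨h1, h2, h3, h4, h5, h6, h7⟩ := h
  rcases lt_or_ge 0 (a * b * c) with hp | hn
  · rcases pos_and_pos_or_neg_and_neg_of_mul_pos hp with ⟨hab, cp⟩ | ⟨hab, cn⟩
    · rcases pos_and_pos_or_neg_and_neg_of_mul_pos hab with ⟨ap, bp⟩ | ⟨an, bn⟩
      · rw [abs_of_pos ap] at h1 ha
        rw [abs_of_pos bp] at h4 hb
        rw [abs_of_pos cp] at h5 hc
        exact nty a a' b b' c c' ha h1 hb h4 hc h5
      · rw [abs_of_neg an] at h1 ha
        rw [abs_of_neg bn] at h4 hb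
        rw [abs_of_pos cp] at h5 hc
        refine MTC_s1 ?_
        exact nty (-a) a' (-b) (-b') c (-c') ha h1 (by rw [abs_neg]; exact hb) h4
          (by rw [abs_neg]; exact hc) h5
    · rcases mul_neg_iff.1 hab with ⟨ap, bn⟩ | ⟨an, bp⟩
      · rw [abs_of_pos ap] at h1 ha
        rw [abs_of_neg bn] at h4 hb
        rw [abs_of_neg cn] at h5 hc
        refine MTC_s2 ?_
        exact nty a (-a') (-b) b' (-c) (-c') (by rw [abs_neg]; exact ha) h1 hb h4
          (by rw [abs_neg]; exact hc) h5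
      · rw [abs_of_neg an] at h1 ha
        rw [abs_of_pos bp] at h4 hb
        rw [abs_of_neg cn] at h5 hc
        refine MTC_s1 (MTC_s2 ?_)
        rw [neg_neg, neg_neg]
        exact nty (-a) (-a') b (-b') (-c) c' (by rw [abs_neg]; exact ha) h1
          (by rw [abs_neg]; exact hb) h4 hc h5
  · exfalso
    obtain ⟨y, z, hy, hz, e1, e2, e3⟩ : ∃ y z : ℝ, (y = 1 ∨ y = -1) ∧ (z = 1 ∨ z = -1) ∧
        y * a ≤ 0 ∧ y * z * b ≤ 0 ∧ z * c ≤ 0 := by
      rcases le_total a 0 with ha0 | ha0 <;> rcases le_total b 0 with hb0 | hb0 <;>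
        rcases le_total c 0 with hc0 | hc0
      · exact ⟨1, 1, Or.inl rfl, Or.inl rfl, by linarith, by linarith, by linarith⟩
      · have h0 : a * b * c = 0 := le_antisymm hn (mul_nonneg (mul_nonneg_of_nonpos_of_nonpos ha0 hb0) hc0)
        rcases mul_eq_zero.1 h0 with h0 | h0
        · rcases mul_eq_zero.1 h0 with h0 | h0
          · exact ⟨-1, -1, Or.inr rfl, Or.inr rfl, by linarith, by linarith, by linarith⟩
          · exact ⟨1, -1, Or.inl rfl, Or.inr rfl, by linarith, by linarith, by linarith⟩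
        · exact ⟨1, 1, Or.inl rfl, Or.inl rfl, by linarith, by linarith, by linarith⟩
      · have h0 : a * b * c = 0 := le_antisymm hn (by
          have := mul_nonneg (mul_nonneg (neg_nonneg.2 ha0) hb0) (neg_nonneg.2 hc0)
          linarith)
        rcases mul_eq_zero.1 h0 with h0 | h0
        · rcases mul_eq_zero.1 h0 with h0 | h0
          · exact ⟨-1, 1, Or.inr rfl, Or.inl rfl, by linarith, by linarith, by linarith⟩
          · exact ⟨1, 1, Or.inl rfl, Or.inl rfl, by linarith, by linarith, by linarith⟩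
        · exact ⟨1, -1, Or.inl rfl, Or.inr rfl, by linarith, by linarith, by linarith⟩
      · exact ⟨1, -1, Or.inl rfl, Or.inr rfl, by linarith, by linarith, by linarith⟩
      · have h0 : a * b * c = 0 := le_antisymm hn (by
          have := mul_nonneg (mul_nonneg ha0 (neg_nonneg.2 hb0)) (neg_nonneg.2 hc0)
          linarith)
        rcases mul_eq_zero.1 h0 with h0 | h0
        · rcases mul_eq_zero.1 h0 with h0 | h0
          · exact ⟨1, 1, Or.inl rfl, Or.inl rfl, by linarith, by linarith, by linarith⟩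
          · exact ⟨-1, 1, Or.inr rfl, Or.inl rfl, by linarith, by linarith, by linarith⟩
        · exact ⟨-1, -1, Or.inr rfl, Or.inr rfl, by linarith, by linarith, by linarith⟩
      · exact ⟨-1, -1, Or.inr rfl, Or.inr rfl, by linarith, by linarith, by linarith⟩
      · exact ⟨-1, 1, Or.inr rfl, Or.inl rfl, by linarith, by linarith, by linarith⟩
      · have h0 : a * b * c = 0 := le_antisymm hn (mul_nonneg (mul_nonneg ha0 hb0) hc0)
        rcases mul_eq_zero.1 h0 with h0 | h0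
        · rcases mul_eq_zero.1 h0 with h0 | h0
          · exact ⟨1, -1, Or.inl rfl, Or.inr rfl, by linarith, by linarith, by linarith⟩
          · exact ⟨-1, -1, Or.inr rfl, Or.inr rfl, by linarith, by linarith, by linarith⟩
        · exact ⟨-1, 1, Or.inr rfl, Or.inl rfl, by linarith, by linarith, by linarith⟩
    rcases h7 1 y z (Or.inl rfl) hy hz with h | h | h
    · exact MTC_le (Or.inl rfl) hy hz ha (by linarith) h
    · rw [add_comm] at h
      exact MTC_le hy hz (Or.inl rfl) hb (by linarith) h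
    · exact MTC_le hz (Or.inl rfl) hy hc (by linarith) h

theorem MTC_all {a a' b' b c c' : ℝ} (h : MTC_H a a' b' b c c') :
    Good ![![1, a, a'], ![b', 1, b], ![c, c', 1]] := by
  rcases le_total |a'| |a| with ha | ha
  · rcases le_total |b| |b'| with hb | hb
    · exact MTC_mut h ha hb
    · rcases le_total |c'| |c| with hc | hc
      · exact MTC_cyc h ha hb hc
      · exact MTC_p01 (MTC_p12 (MTC_mut (MTC_h12 (MTC_h01 h)) hb hc))
  · rcases le_total |c'| |c| with hc | hc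
    · exact MTC_p12 (MTC_mut (MTC_h12 h) ha hc)
    · rcases le_total |b| |b'| with hb | hb
      · exact MTC_p12 (MTC_cyc (MTC_h12 h) ha hc hb)
      · exact MTC_p01 (MTC_p12 (MTC_mut (MTC_h12 (MTC_h01 h)) hb hc))

theorem mtc (A : Fin 3 → Fin 3 → ℝ) (h1 : ∀ i, A i i = 1) (h2 : ∀ i j, i ≠ j → |A i j| < 1)
    (hcov : ∀ ε : Fin 3 → ℝ, (∀ i, ε i = 1 ∨ ε i = -1) → ∃ i, 1 < |∑ j, A i j * ε j|) :
    Good A := by
  have hA : A = ![![1, A 0 1, A 0 2], ![A 1 0, 1, A 1 2], ![A 2 0, A 2 1, 1]] := by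
    funext i j
    fin_cases i <;> fin_cases j
    · exact h1 0
    · rfl
    · rfl
    · rfl
    · exact h1 1
    · rfl
    · rfl
    · rfl
    · exact h1 2
  rw [hA]
  refine MTC_all ⟨h2 0 1 (by decide), h2 0 2 (by decide), h2 1 0 (by decide), h2 1 2 (by decide),
    h2 2 0 (by decide), h2 2 1 (by decide), ?_⟩
  have key : ∀ e u v p q : ℝ, (e = 1 ∨ e = -1) → (p = 1 ∨ p = -1) → (q = 1 ∨ q = -1) →
      |u| < 1 → |v| < 1 → 1 < |e + (u * p + v * q)| → 0 < e * (u * p + v * q) := by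
    intro e u v p q he hp hq hu hv h
    have hu' := abs_lt.1 hu
    have hv' := abs_lt.1 hv
    rcases lt_abs.1 h with h | h <;> rcases he with he | he <;> rcases hp with hp | hp <;>
      rcases hq with hq | hq <;> rw [he, hp, hq] at h ⊢ <;> linarith
  intro x y z hx hy hz
  obtain ⟨i, hi⟩ := hcov ![x, y, z] (by
    intro i
    fin_cases i
    · exact hx
    · exact hy
    · exact hz)
  rw [Fin.sum_univ_three] at hi
  fin_cases i
  · left
    refine key x _ _ y z hx hy hz (h2 0 1 (by decide)) (h2 0 2 (by decide)) ?_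
    have e : A 0 0 * x + A 0 1 * y + A 0 2 * z = x + (A 0 1 * y + A 0 2 * z) := by
      rw [h1 0]; ring
    rw [← e]
    exact hi
  · right; left
    refine key y _ _ x z hy hx hz (h2 1 0 (by decide)) (h2 1 2 (by decide)) ?_
    have e : A 1 0 * x + A 1 1 * y + A 1 2 * z = y + (A 1 0 * x + A 1 2 * z) := by
      rw [h1 1]; ring
    rw [← e]
    exact hi
  · right; right
    refine key z _ _ x y hz hx hy (h2 2 0 (by decide)) (h2 2 1 (by decide)) ?_
    have e : A 2 0 * x + A 2 1 * y + A 2 2 * z = z + (A 2 0 * x + A 2 1 * y) := by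
      rw [h1 2]; ring
    rw [← e]
    exact hi

end H66OD

end S_MTC

section S_N3

/-!
# Row N3 (about 180 lines): configurations with three functionals

PROOF. `w = C.w`, `a = C.a`; `w 0, w 1, w 2` is a basis of `ℝ³` (`ind`).
Case 1: some sign vector `ε` has `|a i ⬝ p| ≤ 1` for all `i`, `p = Σ ε j w j`. `p` is `c + integer`: with
`w j = c + toR (z j)`, `Σ ε j = 2 k + 1` odd, `p = c + toR (k • g + Σ ε j z j)`. By `hcov` some `i0` has
`|a i0 ⬝ p| ≥ 1`, so `ρ := a i0 ⬝ p = ±1`. Apply `quad` to `w' = (ε0 w0, ε1 w1, ε2 w2, -p)` and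
`a' = (ε0 a0, ε1 a1, ε2 a2, -ρ a i0)`: `Σ w' = 0`; `a' i ⬝ w' i = 1` (`(-ρ a i0) ⬝ (-p) = ρ² = 1`);
`|a' i ⬝ w' j| ≤ 1` by `C.h1`, `C.h2`, the case hypothesis; `hlat` from `gen C 0 1 2` with coefficients
`ε j m j` (same parity of the sum). From `Short 4 a'` with `t'`: `u = Σ_{i<3} (t' i ε i) a i - t' 3 ρ a i0`, a
combination of the `a i` with absolute coefficient sum `≤ Σ |t' i| ≤ 3/2`.
Case 2: every sign vector `ε` has some `i` with `|a i ⬝ Σ ε j w j| > 1`. Apply `mtc` to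
`A i j = a i ⬝ w j`: `ε`, `t` with `Σ_i t i (a i ⬝ w j) = ε j`, `Σ |t i| ≤ 3`. Let
`v = Σ (t i / 2) • a i`, `v ⬝ w j = ε j / 2`. For the standard basis vectors `e k` (`Pi.single k 1`) of `ℤ³`:
by `gen`, `e k = Σ m j w j`, `Σ m j` even, `v ⬝ e k = (Σ ε j m j)/2` is an integer (`Σ ε j m j ≡ Σ m j` mod 2).
So `v = toR u` for an integer vector `u`; `u ≠ 0` since `v ⬝ w 0 ≠ 0`; `Σ |t i / 2| ≤ 3/2`.
-/

open Matrix

namespace H66OD

theorem N3_parity {e0 e1 e2 : ℤ} (h0 : e0 = 1 ∨ e0 = -1) (h1 : e1 = 1 ∨ e1 = -1)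
    (h2 : e2 = 1 ∨ e2 = -1) {m0 m1 m2 : ℤ} (h : Even (m0 + m1 + m2)) :
    Even (e0 * m0 + e1 * m1 + e2 * m2) := by
  rw [Int.even_iff] at h ⊢
  rcases h0 with rfl | rfl <;> rcases h1 with rfl | rfl <;> rcases h2 with rfl | rfl <;> omega

theorem N3_odd {e0 e1 e2 : ℤ} (h0 : e0 = 1 ∨ e0 = -1) (h1 : e1 = 1 ∨ e1 = -1)
    (h2 : e2 = 1 ∨ e2 = -1) : ∃ k : ℤ, e0 + e1 + e2 = 2 * k + 1 := by
  rcases h0 with rfl | rfl <;> rcases h1 with rfl | rfl <;> rcases h2 with rfl | rfl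
  · exact ⟨1, by norm_num⟩
  · exact ⟨0, by norm_num⟩
  · exact ⟨0, by norm_num⟩
  · exact ⟨-1, by norm_num⟩
  · exact ⟨0, by norm_num⟩
  · exact ⟨-1, by norm_num⟩
  · exact ⟨-1, by norm_num⟩
  · exact ⟨-2, by norm_num⟩

theorem N3_int {ε : Fin 3 → ℝ} (h : ∀ i, ε i = 1 ∨ ε i = -1) :
    ∃ e : Fin 3 → ℤ, (∀ i, ((e i : ℤ) : ℝ) = ε i) ∧ ∀ i, e i = 1 ∨ e i = -1 := by
  have h1 : ∀ i, ∃ z : ℤ, ((z : ℤ) : ℝ) = ε i ∧ (z = 1 ∨ z = -1) := by
    intro i
    rcases h i with h2 | h2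
    · exact ⟨1, by rw [h2]; norm_num, Or.inl rfl⟩
    · exact ⟨-1, by rw [h2]; norm_num, Or.inr rfl⟩
  choose e h2 h3 using h1
  exact ⟨e, h2, h3⟩

theorem N3_sq {x : ℝ} (h : x = 1 ∨ x = -1) : x * x = 1 := by
  rcases h with rfl | rfl <;> norm_num

theorem N3_abs {x : ℝ} (h : x = 1 ∨ x = -1) : |x| = 1 := by
  rcases h with rfl | rfl <;> simp

/-- the signed sum of the touching points -/
noncomputable def N3_p (C : Cfg 3) (ε : Fin 3 → ℝ) : Fin 3 → ℝ :=
  ε 0 • C.w 0 + ε 1 • C.w 1 + ε 2 • C.w 2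

theorem N3_dot (C : Cfg 3) (ε : Fin 3 → ℝ) (b : Fin 3 → ℝ) :
    b ⬝ᵥ N3_p C ε = ∑ j, (b ⬝ᵥ C.w j) * ε j := by
  unfold N3_p
  rw [Fin.sum_univ_three, dotProduct_add, dotProduct_add, dotProduct_smul, dotProduct_smul,
    dotProduct_smul]
  simp only [smul_eq_mul]
  ring

theorem N3_coset (C : Cfg 3) {ε : Fin 3 → ℝ} (h : ∀ i, ε i = 1 ∨ ε i = -1) :
    ∃ z : Fin 3 → ℤ, N3_p C ε = C.c + toR z := by
  obtain ⟨e, he, he'⟩ := N3_int h
  choose z hz using C.hw
  obtain ⟨k, hk⟩ := N3_odd (he' 0) (he' 1) (he' 2)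
  refine ⟨k • C.g + (e 0 • z 0 + e 1 • z 1 + e 2 • z 2), ?_⟩
  unfold N3_p
  rw [toR_add, toR_add, toR_add, toR_zsmul, toR_zsmul, toR_zsmul, toR_zsmul, C.hg, hz 0, hz 1, hz 2,
    he, he, he]
  have h1 : ε 0 + ε 1 + ε 2 = 2 * (k : ℝ) + 1 := by
    rw [← he 0, ← he 1, ← he 2]
    exact_mod_cast hk
  funext j
  simp only [Pi.add_apply, Pi.smul_apply, smul_eq_mul]
  linear_combination (C.c j) * h1

theorem N3_le (C : Cfg 3) (i j : Fin 3) : |C.a i ⬝ᵥ C.w j| ≤ 1 := by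
  by_cases h : j = i
  · rw [h, C.h1 i, abs_one]
  · exact (C.h2 j i h).le

theorem N3_case1 (C : Cfg 3) {ε : Fin 3 → ℝ} (h : ∀ i, ε i = 1 ∨ ε i = -1)
    (hp : ∀ i, |C.a i ⬝ᵥ N3_p C ε| ≤ 1) : Short 3 C.a := by
  obtain ⟨z, hz⟩ := N3_coset C h
  obtain ⟨i0, hi0⟩ := C.hcov z
  rw [← hz] at hi0
  obtain ⟨e, he, he'⟩ := N3_int h
  obtain ⟨ρ, hρ⟩ : ∃ ρ : ℝ, ρ = C.a i0 ⬝ᵥ N3_p C ε := ⟨_, rfl⟩
  have hρ1 : |ρ| = 1 := by
    rw [hρ]
    exact le_antisymm (hp i0) hi0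
  have hρ2 : ρ * ρ = 1 := by
    rw [← abs_mul_abs_self, hρ1, one_mul]
  have hε : ∀ i, |ε i| = 1 := fun i => N3_abs (h i)
  have hε2 : ∀ i, ε i * ε i = 1 := fun i => N3_sq (h i)
  obtain ⟨w', hw'⟩ : ∃ w' : Fin 4 → (Fin 3 → ℝ),
      w' = ![ε 0 • C.w 0, ε 1 • C.w 1, ε 2 • C.w 2, -N3_p C ε] := ⟨_, rfl⟩
  obtain ⟨a', ha'⟩ : ∃ a' : Fin 4 → (Fin 3 → ℝ),
      a' = ![ε 0 • C.a 0, ε 1 • C.a 1, ε 2 • C.a 2, (-ρ) • C.a i0] := ⟨_, rfl⟩
  have w0 : w' 0 = ε 0 • C.w 0 := by rw [hw']; rfl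
  have w1 : w' 1 = ε 1 • C.w 1 := by rw [hw']; rfl
  have w2 : w' 2 = ε 2 • C.w 2 := by rw [hw']; rfl
  have w3 : w' 3 = -N3_p C ε := by rw [hw']; rfl
  have a0 : a' 0 = ε 0 • C.a 0 := by rw [ha']; rfl
  have a1 : a' 1 = ε 1 • C.a 1 := by rw [ha']; rfl
  have a2 : a' 2 = ε 2 • C.a 2 := by rw [ha']; rfl
  have a3 : a' 3 = (-ρ) • C.a i0 := by rw [ha']; rfl
  have hab : ∀ i j : Fin 3, |(ε i • C.a i) ⬝ᵥ (ε j • C.w j)| ≤ 1 := by
    intro i j
    rw [smul_dotProduct, dotProduct_smul, smul_eq_mul, smul_eq_mul, abs_mul, abs_mul, hε, hε,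
      one_mul, one_mul]
    exact N3_le C i j
  have hap : ∀ i : Fin 3, |(ε i • C.a i) ⬝ᵥ (-N3_p C ε)| ≤ 1 := by
    intro i
    rw [smul_dotProduct, dotProduct_neg, smul_eq_mul, abs_mul, hε, one_mul, abs_neg]
    exact hp i
  have hρw : ∀ j : Fin 3, |((-ρ) • C.a i0) ⬝ᵥ (ε j • C.w j)| ≤ 1 := by
    intro j
    rw [smul_dotProduct, dotProduct_smul, smul_eq_mul, smul_eq_mul, abs_mul, abs_mul, hε, abs_neg,
      hρ1, one_mul, one_mul]
    exact N3_le C i0 j
  have hρp : ((-ρ) • C.a i0) ⬝ᵥ (-N3_p C ε) = 1 := by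
    rw [smul_dotProduct, dotProduct_neg, smul_eq_mul, ← hρ]
    linarith
  have haw : ∀ i : Fin 3, (ε i • C.a i) ⬝ᵥ (ε i • C.w i) = 1 := by
    intro i
    rw [smul_dotProduct, dotProduct_smul, smul_eq_mul, smul_eq_mul, C.h1 i, mul_one]
    exact hε2 i
  have hli := ind C 0 1 2 (by decide) (by decide) (by decide)
  have hS : Short 4 a' := by
    refine quad a' w' ?_ ?_ ?_ ?_ ?_
    · rw [Fin.sum_univ_four, w0, w1, w2, w3]
      unfold N3_p
      exact add_neg_cancel _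
    · intro i
      fin_cases i
      · show a' 0 ⬝ᵥ w' 0 = 1
        rw [a0, w0]
        exact haw 0
      · show a' 1 ⬝ᵥ w' 1 = 1
        rw [a1, w1]
        exact haw 1
      · show a' 2 ⬝ᵥ w' 2 = 1
        rw [a2, w2]
        exact haw 2
      · show a' 3 ⬝ᵥ w' 3 = 1
        rw [a3, w3]
        exact hρp
    · have hcol : ∀ j : Fin 4, w' j = -N3_p C ε ∨ ∃ k : Fin 3, w' j = ε k • C.w k := by
        intro j
        fin_cases j
        · exact Or.inr ⟨0, w0⟩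
        · exact Or.inr ⟨1, w1⟩
        · exact Or.inr ⟨2, w2⟩
        · exact Or.inl w3
      have hrow : ∀ i : Fin 4, a' i = (-ρ) • C.a i0 ∨ ∃ k : Fin 3, a' i = ε k • C.a k := by
        intro j
        fin_cases j
        · exact Or.inr ⟨0, a0⟩
        · exact Or.inr ⟨1, a1⟩
        · exact Or.inr ⟨2, a2⟩
        · exact Or.inl a3
      intro i j
      rcases hrow i with h1 | ⟨k, h1⟩ <;> rcases hcol j with h2 | ⟨l, h2⟩
      · rw [h1, h2, hρp, abs_one]
      · rw [h1, h2]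
        exact hρw l
      · rw [h1, h2]
        exact hap k
      · rw [h1, h2]
        exact hab k l
    · rw [w0, w1, w2]
      rw [Fintype.linearIndependent_iff] at hli ⊢
      intro g hg
      have h1 := hli (fun i => g i * ε i) (by
        rw [Fin.sum_univ_three] at hg ⊢
        simp only [Matrix.cons_val_zero, Matrix.cons_val_one, Matrix.cons_val_two,
          Matrix.head_cons, Matrix.tail_cons, Matrix.cons_val, smul_smul] at hg ⊢
        exact hg)
      intro i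
      have h2 := h1 i
      beta_reduce at h2
      rcases mul_eq_zero.1 h2 with h3 | h3
      · exact h3
      · have h4 := hε2 i
        rw [h3, mul_zero] at h4
        exact absurd h4 zero_ne_one
    · intro y
      obtain ⟨m0, m1, m2, hy, hev⟩ := gen C 0 1 2 (by decide) (by decide) (by decide) y
      refine ⟨e 0 * m0, e 1 * m1, e 2 * m2, ?_, N3_parity (he' 0) (he' 1) (he' 2) hev⟩
      rw [hy, w0, w1, w2, smul_smul, smul_smul, smul_smul]
      have h1 : ∀ (i : Fin 3) (m : ℤ), ((e i * m : ℤ) : ℝ) * ε i = (m : ℝ) := by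
        intro i m
        rw [Int.cast_mul, he i]
        linear_combination (m : ℝ) * hε2 i
      rw [h1, h1, h1]
  obtain ⟨u, hu, t, ht, ht'⟩ := hS
  refine ⟨u, hu, fun i => t i.castSucc * ε i + (if i = i0 then -(t 3 * ρ) else 0), ?_, ?_⟩
  · rw [ht, Fin.sum_univ_castSucc]
    have h1 : ∀ i : Fin 3, a' i.castSucc = ε i • C.a i := by
      intro i
      fin_cases i
      · exact a0
      · exact a1
      · exact a2
    have h2 : a' (Fin.last 3) = (-ρ) • C.a i0 := a3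
    simp only [h1, h2, add_smul, Finset.sum_add_distrib, ite_smul, zero_smul, smul_smul]
    rw [Finset.sum_ite_eq' Finset.univ i0, if_pos (Finset.mem_univ _)]
    congr 2
    show t 3 * -ρ = -(t 3 * ρ)
    ring
  · rw [Fin.sum_univ_castSucc] at ht'
    have h1 : ∀ i : Fin 3, |t i.castSucc * ε i + (if i = i0 then -(t 3 * ρ) else 0)| ≤
        |t i.castSucc| + (if i = i0 then |t 3| else 0) := by
      intro i
      refine (abs_add_le _ _).trans ?_
      rw [abs_mul, hε, mul_one]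
      split_ifs
      · rw [abs_neg, abs_mul, hρ1, mul_one]
      · rw [abs_zero]
    refine (Finset.sum_le_sum fun i _ => h1 i).trans ?_
    rw [Finset.sum_add_distrib, Finset.sum_ite_eq' Finset.univ i0, if_pos (Finset.mem_univ _)]
    exact ht'

theorem N3_case2 (C : Cfg 3)
    (h : ∀ ε : Fin 3 → ℝ, (∀ i, ε i = 1 ∨ ε i = -1) → ∃ i, 1 < |C.a i ⬝ᵥ N3_p C ε|) :
    Short 3 C.a := by
  obtain ⟨ε, t, hε, ht, ht'⟩ := mtc (fun i j => C.a i ⬝ᵥ C.w j) (fun i => C.h1 i)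
    (fun i j hij => C.h2 j i (Ne.symm hij)) (by
      intro ε hε
      obtain ⟨i, hi⟩ := h ε hε
      refine ⟨i, ?_⟩
      rw [N3_dot] at hi
      exact hi)
  obtain ⟨e, he, he'⟩ := N3_int hε
  obtain ⟨v, hv⟩ : ∃ v : Fin 3 → ℝ, v = ∑ i, (t i / 2) • C.a i := ⟨_, rfl⟩
  have hvw : ∀ j, v ⬝ᵥ C.w j = ε j / 2 := by
    intro j
    rw [hv, sum_dotProduct, ← ht j, Finset.sum_div]
    refine Finset.sum_congr rfl fun i _ => ?_
    rw [smul_dotProduct, smul_eq_mul]
    ring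
  have hvy : ∀ y : Fin 3 → ℤ, ∃ n : ℤ, v ⬝ᵥ toR y = (n : ℝ) := by
    intro y
    obtain ⟨m0, m1, m2, hy, hev⟩ := gen C 0 1 2 (by decide) (by decide) (by decide) y
    obtain ⟨n, hn⟩ := N3_parity (he' 0) (he' 1) (he' 2) hev
    refine ⟨n, ?_⟩
    have hn' : (e 0 : ℝ) * m0 + (e 1 : ℝ) * m1 + (e 2 : ℝ) * m2 = n + n := by exact_mod_cast hn
    rw [he, he, he] at hn'
    rw [hy, dotProduct_add, dotProduct_add, dotProduct_smul, dotProduct_smul, dotProduct_smul,
      hvw, hvw, hvw]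
    simp only [smul_eq_mul]
    linear_combination (1 / 2 : ℝ) * hn'
  have hvk : ∀ k : Fin 3, ∃ n : ℤ, v k = (n : ℝ) := by
    intro k
    obtain ⟨n, hn⟩ := hvy (Pi.single k 1)
    refine ⟨n, ?_⟩
    rw [← hn]
    have h1 : toR (Pi.single k (1 : ℤ)) = Pi.single k (1 : ℝ) := by
      funext j
      rw [toR_apply]
      by_cases hj : j = k
      · subst hj
        simp
      · simp [hj]
    rw [h1, dotProduct_single, mul_one]
  choose u hu using hvk
  have huv : toR u = v := by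
    funext k
    rw [toR_apply, hu k]
  refine ⟨u, ?_, fun i => t i / 2, ?_, ?_⟩
  · rintro rfl
    rw [toR_zero] at huv
    have h1 := hvw 0
    rw [← huv, zero_dotProduct] at h1
    rcases hε 0 with h2 | h2
    · rw [h2] at h1
      norm_num at h1
    · rw [h2] at h1
      norm_num at h1
  · rw [huv, hv]
  · have h1 : ∑ i, |t i / 2| = (∑ i, |t i|) / 2 := by
      rw [Finset.sum_div]
      refine Finset.sum_congr rfl fun i _ => ?_
      rw [abs_div, abs_two]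
    rw [h1]
    linarith

theorem n3 (C : Cfg 3) : Short 3 C.a := by
  by_cases h : ∃ ε : Fin 3 → ℝ, (∀ i, ε i = 1 ∨ ε i = -1) ∧ ∀ i, |C.a i ⬝ᵥ N3_p C ε| ≤ 1
  · obtain ⟨ε, h1, h2⟩ := h
    exact N3_case1 C h1 h2
  · refine N3_case2 C fun ε hε => ?_
    by_contra hcon
    push Not at hcon
    exact h ⟨ε, hε, hcon⟩

end H66OD

end S_N3

section S_L3D

/-!
# L3D: the three-dimensional covering lemma (assembly, helper66)
-/

open Matrix

namespace H66OD

theorem l3d (n : ℕ) (C : Cfg n) : Short n C.a := by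
  have hn : n ≤ 4 := par3_card C
  interval_cases n
  · obtain ⟨i, _⟩ := C.hcov 0
    exact i.elim0
  · exact n1 C
  · exact n2 C
  · exact n3 C
  · exact n4 C

end H66OD

end S_L3D
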