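import Pool.Agent.H66.OD.Defs

/-! Oda in dimension three, part G7: this file joins the modules EDG1 EDG2 EDG3 AFI BGT FLP HRP FV SLC to save build time. -/

section S_EDG1

/-!
# Row EDG1 (about 200 lines): a lattice polytope lies in the cone of its edge vectors at a vertex

PROOF. Let `W = {s - v : s ∈ S, s ≠ v}`, a finite set of nonzero integer vectors. (`v ∈ S` because extreme
points of a convex hull belong to the set: `extremePoints_convexHull_subset`, `toR` injective.) Every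
`x ∈ P` is `toR v + Σ_{w ∈ W} c w • toR w` with `c ≥ 0` (convex combination of `S`, `Σ = 1`).
(a) No nontrivial nonnegative relation: if `Σ_{w ∈ W} c w • toR w = 0`, `c ≥ 0`, not all zero, then with
`C = Σ c w > 0`, `toR v = Σ (c w / C) • toR (v + w)` is a convex combination of points of `S \ {v}`, so
`toR v ∈ convexHull (toR '' (S \ {v}))`; being an extreme point of the larger set `P` it is an extreme point of
this smaller convex set (`inter_extremePoints_subset_extremePoints_of_subset`), hence (again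
`extremePoints_convexHull_subset`) in `toR '' (S \ {v})`: contradiction with injectivity.
(b) Let `W' ⊆ W` be of minimal cardinality with: every `x ∈ P` is `toR v + Σ_{w ∈ W'} c w • toR w`, `c ≥ 0`
(`W` is such a set). Let `w ∈ W'` and `F = {x ∈ P | ∃ r ≥ 0, x = toR v + r • toR w}`.
 `F` is convex, contains `toR v` and `toR (v + w)`, and `vectorSpan ℝ F = ℝ (toR w)` has dimension one
 (`toR w ≠ 0`; `vectorSpan` is spanned by differences, all multiples of `toR w`;
 `finrank_span_singleton`).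
 `F` is extreme in `P`: let `x, y ∈ P`, `z ∈ F` in the open segment, `z = α x + β y`, `α, β > 0`, `α+β = 1`.
 `x - v = Σ_{W'} c`, `y - v = Σ_{W'} c'`, `z - v = r toR w`; `r toR w = Σ_{W'} (α c + β c') w'`. Suppose some
 `w1 ∈ W'`, `w1 ≠ w` has `c w1 > 0`. Then `γ = α c + β c' ≥ 0` has `γ w1 > 0` and
 `(r - γ w) toR w = Σ_{w' ≠ w} γ w' toR w'`. If `r - γ w > 0` then `toR w` is a nonnegative combination of
 `W' \ {w}`, and so `W' \ {w}` has the property of (b), contradicting minimality. If `r - γ w ≤ 0` then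
 `Σ_{w' ≠ w} γ w' toR w' + (γ w - r) toR w = 0` is a nontrivial nonnegative relation, contradicting (a). So
 `x - v = c w • toR w`, `x ∈ F`.
 So `F` is an edge through `toR v`. Let `m ≥ 1` be the gcd of the coordinates of `w` and `w = m • e`; `e` is
 primitive (nonzero; if `e = m' • f` then `m m'` divides all coordinates of `w`, so `m' = ±1`), and
 `toR v + m • toR e = toR (v + w) ∈ F`: `e ∈ edgeVectors P (toR v)`.
(c) So every `x ∈ P` is `toR v + Σ_{w ∈ W'} (c w m_w) • toR (e_w)`. Index `W'` by `Fin n`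
(`Finset.equivFin`).
-/

namespace H66OD

/-- every point of `P` is `toR v` plus a nonnegative combination of `W` -/
def EDG1_Rep {d : ℕ} (P : Set (Fin d → ℝ)) (v : Fin d → ℤ) (W : Finset (Fin d → ℤ)) : Prop :=
  ∀ x ∈ P, ∃ c : (Fin d → ℤ) → ℝ, (∀ w ∈ W, 0 ≤ c w) ∧ x = toR v + ∑ w ∈ W, c w • toR w

theorem EDG1_prim {d : ℕ} {w : Fin d → ℤ} (hw : w ≠ 0) :
    ∃ (m : ℤ) (e : Fin d → ℤ), 0 < m ∧ w = m • e ∧ IsPrimitive e := by
  obtain ⟨m, hm⟩ : ∃ m : ℤ, m = Finset.univ.gcd w := ⟨_, rfl⟩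
  have hm0 : m ≠ 0 := by
    rw [hm]
    intro h
    apply hw
    funext a
    exact Finset.gcd_eq_zero_iff.1 h a (Finset.mem_univ a)
  have hmn : 0 ≤ m := by
    rw [hm, ← Finset.normalize_gcd]
    rw [← Int.abs_eq_normalize]
    exact abs_nonneg _
  have hdvd : ∀ a, m ∣ w a := fun a => by rw [hm]; exact Finset.gcd_dvd (Finset.mem_univ a)
  choose e he using hdvd
  have hwe : w = m • e := by
    funext a
    rw [he a]
    simp
  refine ⟨m, e, lt_of_le_of_ne hmn (Ne.symm hm0), hwe, ?_, ?_⟩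
  · rintro rfl
    apply hw
    rw [hwe, smul_zero]
  · intro m' f hf
    have h1 : m * m' ∣ m := by
      conv_rhs => rw [hm]
      apply Finset.dvd_gcd
      intro a _
      refine ⟨f a, ?_⟩
      rw [he a, hf, Pi.smul_apply, smul_eq_mul, mul_assoc]
    have h2 : m' ∣ 1 := by
      have : m * m' ∣ m * 1 := by rw [mul_one]; exact h1
      exact (mul_dvd_mul_iff_left hm0).1 this
    exact Int.isUnit_iff.1 (isUnit_of_dvd_one h2)

theorem edg1 {d : ℕ} (S : Finset (Fin d → ℤ)) (P : Set (Fin d → ℝ))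
    (hP : P = convexHull ℝ (toR '' (S : Set (Fin d → ℤ)))) (v : Fin d → ℤ)
    (hv : toR v ∈ P.extremePoints ℝ) (x : Fin d → ℝ) (hx : x ∈ P) :
    ∃ (n : ℕ) (e : Fin n → (Fin d → ℤ)) (t : Fin n → ℝ),
      (∀ i, e i ∈ edgeVectors P (toR v)) ∧ (∀ i, 0 ≤ t i) ∧ x = toR v + ∑ i, t i • toR (e i) := by
  classical
  have hPc : Convex ℝ P := by rw [hP]; exact convex_convexHull ℝ _
  have hSP : ∀ s ∈ S, toR s ∈ P := fun s hs => by
    rw [hP]
    exact subset_convexHull ℝ _ ⟨s, hs, rfl⟩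
  have hvP : toR v ∈ P := hv.1
  have hvS : v ∈ S := by
    have h1 : toR v ∈ (convexHull ℝ (toR '' (S : Set (Fin d → ℤ)))).extremePoints ℝ := by rw [← hP]; exact hv
    obtain ⟨s, hs, hsv⟩ := extremePoints_convexHull_subset h1
    rw [toR_inj] at hsv
    rw [← hsv]
    exact hs
  obtain ⟨W, hW⟩ : ∃ W : Finset (Fin d → ℤ), W = (S.erase v).image (fun s => s - v) := ⟨_, rfl⟩
  have hWS : ∀ w ∈ W, w ≠ 0 ∧ v + w ∈ S.erase v := by
    intro w hw
    rw [hW] at hw
    obtain ⟨s, hs, rfl⟩ := Finset.mem_image.1 hw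
    refine ⟨sub_ne_zero.2 (Finset.ne_of_mem_erase hs), ?_⟩
    rw [add_sub_cancel]
    exact hs
  have hRepW : EDG1_Rep P v W := by
    intro x hx
    have hsub : P ⊆ {x | ∃ c : (Fin d → ℤ) → ℝ, (∀ w ∈ W, 0 ≤ c w) ∧ x = toR v + ∑ w ∈ W, c w • toR w} := by
      rw [hP]
      apply convexHull_min
      · rintro _ ⟨s, hs, rfl⟩
        by_cases hsv : s = v
        · refine ⟨fun _ => 0, fun _ _ => le_rfl, ?_⟩
          rw [hsv]
          simp
        · have hmem : s - v ∈ W := by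
            rw [hW]
            exact Finset.mem_image.2 ⟨s, Finset.mem_erase.2 ⟨hsv, hs⟩, rfl⟩
          refine ⟨fun w => if w = s - v then 1 else 0, fun w _ => by beta_reduce; split_ifs <;> norm_num, ?_⟩
          rw [Finset.sum_eq_single (s - v)]
          · beta_reduce
            rw [if_pos rfl, one_smul, toR_sub]
            abel
          · intro w _ hne
            beta_reduce
            rw [if_neg hne, zero_smul]
          · intro h
            exact absurd hmem h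
      · rintro y ⟨c, hc, rfl⟩ z ⟨c', hc', rfl⟩ a b ha hb hab
        refine ⟨fun w => a * c w + b * c' w, fun w hw => add_nonneg (mul_nonneg ha (hc w hw)) (mul_nonneg hb (hc' w hw)), ?_⟩
        simp only [smul_add, Finset.smul_sum, add_smul, Finset.sum_add_distrib, smul_smul]
        have e1 : toR v = a • toR v + b • toR v := by rw [← add_smul, hab, one_smul]
        rw [add_add_add_comm, ← e1]
    exact hsub hx
  -- (a)
  have ha : ∀ c : (Fin d → ℤ) → ℝ, (∀ w ∈ W, 0 ≤ c w) → ∑ w ∈ W, c w • toR w = 0 → ∀ w ∈ W, c w = 0 := by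
    intro c hc h0
    by_contra hcon
    push Not at hcon
    obtain ⟨w0, hw0, hne⟩ := hcon
    have hpos : 0 < ∑ w ∈ W, c w :=
      Finset.sum_pos' hc ⟨w0, hw0, lt_of_le_of_ne (hc w0 hw0) (Ne.symm hne)⟩
    obtain ⟨D, hD⟩ : ∃ D : ℝ, D = ∑ w ∈ W, c w := ⟨_, rfl⟩
    rw [← hD] at hpos
    have hmem : toR v ∈ convexHull ℝ (toR '' ((S.erase v : Finset (Fin d → ℤ)) : Set (Fin d → ℤ))) := by
      have e1 : toR v = ∑ w ∈ W, (c w / D) • toR (v + w) := by
        have e2 : ∑ w ∈ W, (c w / D) • toR (v + w) = (∑ w ∈ W, c w / D) • toR v + D⁻¹ • ∑ w ∈ W, c w • toR w := by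
          rw [Finset.sum_smul, Finset.smul_sum, ← Finset.sum_add_distrib]
          refine Finset.sum_congr rfl (fun w _ => ?_)
          rw [toR_add, smul_add, smul_smul, div_eq_inv_mul]
        rw [e2, h0, smul_zero, add_zero, ← Finset.sum_div, ← hD, div_self hpos.ne', one_smul]
      rw [e1]
      apply (convex_convexHull ℝ _).sum_mem
      · intro w hw
        exact div_nonneg (hc w hw) hpos.le
      · rw [← Finset.sum_div, ← hD, div_self hpos.ne']
      · intro w hw
        exact subset_convexHull ℝ _ ⟨v + w, (hWS w hw).2, rfl⟩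
    have hsub : convexHull ℝ (toR '' ((S.erase v : Finset (Fin d → ℤ)) : Set (Fin d → ℤ))) ⊆ P := by
      rw [hP]
      apply convexHull_mono
      apply Set.image_mono
      exact_mod_cast Finset.erase_subset v S
    have h3 := inter_extremePoints_subset_extremePoints_of_subset hsub ⟨hmem, hv⟩
    obtain ⟨s, hs, hsv⟩ := extremePoints_convexHull_subset h3
    rw [toR_inj] at hsv
    rw [hsv] at hs
    exact Finset.notMem_erase v S (by exact_mod_cast hs)
  -- (b) minimal subset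
  obtain ⟨W', hW'mem, hmin⟩ := Finset.exists_min_image (W.powerset.filter (EDG1_Rep P v)) Finset.card
    ⟨W, Finset.mem_filter.2 ⟨Finset.mem_powerset_self W, hRepW⟩⟩
  obtain ⟨hW'1, hRep⟩ := Finset.mem_filter.1 hW'mem
  have hW'W : W' ⊆ W := Finset.mem_powerset.1 hW'1
  have hb : ∀ w ∈ W', ∀ g : (Fin d → ℤ) → ℝ, (∀ w' ∈ W'.erase w, 0 ≤ g w') →
      toR w ≠ ∑ w' ∈ W'.erase w, g w' • toR w' := by
    intro w hw g hg hEq
    have hR : EDG1_Rep P v (W'.erase w) := by
      intro x hx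
      obtain ⟨c, hc, hxc⟩ := hRep x hx
      refine ⟨fun w' => c w * g w' + c w', fun w' hw' => add_nonneg (mul_nonneg (hc w hw) (hg w' hw'))
        (hc w' (Finset.mem_of_mem_erase hw')), ?_⟩
      rw [hxc, ← Finset.add_sum_erase W' _ hw]
      congr 1
      conv_lhs => rw [hEq]
      rw [Finset.smul_sum, ← Finset.sum_add_distrib]
      refine Finset.sum_congr rfl (fun w' _ => ?_)
      rw [add_smul, smul_smul]
    have h4 := hmin (W'.erase w) (Finset.mem_filter.2 ⟨Finset.mem_powerset.2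
      ((Finset.erase_subset w W').trans hW'W), hR⟩)
    have h5 := Finset.card_erase_lt_of_mem hw
    omega
  have ha' : ∀ c : (Fin d → ℤ) → ℝ, (∀ w ∈ W', 0 ≤ c w) → ∑ w ∈ W', c w • toR w = 0 → ∀ w ∈ W', c w = 0 := by
    intro c hc h0 w hw
    have h6 := ha (fun w => if w ∈ W' then c w else 0) (fun w _ => by
      by_cases h : w ∈ W'
      · simp only [if_pos h]; exact hc w h
      · simp only [if_neg h]; exact le_rfl) (by
      rw [← Finset.sum_subset hW'W]
      · rw [← h0]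
        refine Finset.sum_congr rfl (fun w hw => ?_)
        rw [if_pos hw]
      · intro w _ hw
        rw [if_neg hw, zero_smul]) w (hW'W hw)
    simp only [if_pos hw] at h6
    exact h6
  -- the edges
  have hedge : ∀ w ∈ W', IsEdge P {x | x ∈ P ∧ ∃ r : ℝ, 0 ≤ r ∧ x = toR v + r • toR w} := by
    intro w hw
    have hw0 : toR w ≠ 0 := by
      intro h
      apply (hWS w (hW'W hw)).1
      rw [← toR_zero, toR_inj] at h
      exact h
    refine ⟨?_, ⟨fun x hx => hx.1, ?_⟩, ?_⟩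
    · rintro y ⟨hy, r, hr, rfl⟩ z ⟨hz, r', hr', rfl⟩ a b ha hb hab
      refine ⟨hPc hy hz ha hb hab, a * r + b * r', by positivity, ?_⟩
      have e1 : toR v = a • toR v + b • toR v := by rw [← add_smul, hab, one_smul]
      rw [smul_add, smul_add, add_add_add_comm, ← e1, smul_smul, smul_smul, add_smul]
    · rintro x hx y hy z ⟨hz, r, hr, hzr⟩ ⟨a, b, ha0, hb0, hab, hxy⟩
      obtain ⟨c, hc, hxc⟩ := hRep x hx
      obtain ⟨c', hc', hyc⟩ := hRep y hy
      have hγ : ∀ w' ∈ W', 0 ≤ a * c w' + b * c' w' := fun w' hw' =>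
        add_nonneg (mul_nonneg ha0.le (hc w' hw')) (mul_nonneg hb0.le (hc' w' hw'))
      have hsum : r • toR w = ∑ w' ∈ W', (a * c w' + b * c' w') • toR w' := by
        have e1 : toR v = a • toR v + b • toR v := by rw [← add_smul, hab, one_smul]
        have e2 : toR v + r • toR w = toR v + ∑ w' ∈ W', (a * c w' + b * c' w') • toR w' := by
          rw [← hzr, ← hxy, hxc, hyc]
          simp only [smul_add, Finset.smul_sum, add_smul, Finset.sum_add_distrib, smul_smul]
          conv_rhs => rw [e1]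
          abel
        exact add_left_cancel e2
      have hzero : ∀ w' ∈ W'.erase w, a * c w' + b * c' w' = 0 := by
        have hs2 : ∑ w' ∈ W'.erase w, (a * c w' + b * c' w') • toR w' = (r - (a * c w + b * c' w)) • toR w := by
          rw [sub_smul, hsum, ← Finset.add_sum_erase W' _ hw, add_sub_cancel_left]
        rcases lt_or_ge 0 (r - (a * c w + b * c' w)) with hpos | hneg
        · exfalso
          apply hb w hw (fun w' => (r - (a * c w + b * c' w))⁻¹ * (a * c w' + b * c' w'))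
            (fun w' hw' => mul_nonneg (inv_nonneg.2 hpos.le) (hγ w' (Finset.mem_of_mem_erase hw')))
          have e3 : ∑ w' ∈ W'.erase w, ((r - (a * c w + b * c' w))⁻¹ * (a * c w' + b * c' w')) • toR w' =
              (r - (a * c w + b * c' w))⁻¹ • ∑ w' ∈ W'.erase w, (a * c w' + b * c' w') • toR w' := by
            rw [Finset.smul_sum]
            refine Finset.sum_congr rfl (fun w' _ => ?_)
            rw [smul_smul]
          rw [e3, hs2, smul_smul, inv_mul_cancel₀ hpos.ne', one_smul]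
        · have h7 := ha' (fun w' => if w' = w then (a * c w + b * c' w) - r else a * c w' + b * c' w')
            (fun w' hw' => by
              by_cases h : w' = w
              · simp only [if_pos h]; linarith
              · simp only [if_neg h]; exact hγ w' hw')
            (by
              rw [← Finset.add_sum_erase W' _ hw, if_pos rfl]
              have e4 : ∑ w' ∈ W'.erase w, (if w' = w then (a * c w + b * c' w) - r else a * c w' + b * c' w') • toR w' =
                  ∑ w' ∈ W'.erase w, (a * c w' + b * c' w') • toR w' := by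
                refine Finset.sum_congr rfl (fun w' hw' => ?_)
                rw [if_neg (Finset.ne_of_mem_erase hw')]
              rw [e4, hs2, ← add_smul]
              have : a * c w + b * c' w - r + (r - (a * c w + b * c' w)) = 0 := by ring
              rw [this, zero_smul])
          intro w' hw'
          have h8 := h7 w' (Finset.mem_of_mem_erase hw')
          simp only [if_neg (Finset.ne_of_mem_erase hw')] at h8
          exact h8
      have hc0 : ∀ w' ∈ W'.erase w, c w' = 0 := by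
        intro w' hw'
        have h9 := hzero w' hw'
        have h10 := mul_nonneg ha0.le (hc w' (Finset.mem_of_mem_erase hw'))
        have h11 := mul_nonneg hb0.le (hc' w' (Finset.mem_of_mem_erase hw'))
        have h12 : a * c w' = 0 := by linarith
        exact (mul_eq_zero.1 h12).resolve_left ha0.ne'
      refine ⟨hx, c w, hc w hw, ?_⟩
      rw [hxc, ← Finset.add_sum_erase W' _ hw]
      rw [Finset.sum_eq_zero (fun w' hw' => by rw [hc0 w' hw', zero_smul]), add_zero]
    · have hvF : toR v ∈ {x | x ∈ P ∧ ∃ r : ℝ, 0 ≤ r ∧ x = toR v + r • toR w} :=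
        ⟨hvP, 0, le_rfl, by rw [zero_smul, add_zero]⟩
      have hwF : toR (v + w) ∈ {x | x ∈ P ∧ ∃ r : ℝ, 0 ≤ r ∧ x = toR v + r • toR w} :=
        ⟨hSP _ (Finset.mem_of_mem_erase (hWS w (hW'W hw)).2), 1, zero_le_one, by rw [toR_add, one_smul]⟩
      have hspan : vectorSpan ℝ {x | x ∈ P ∧ ∃ r : ℝ, 0 ≤ r ∧ x = toR v + r • toR w} = Submodule.span ℝ {toR w} := by
        apply le_antisymm
        · rw [vectorSpan_def, Submodule.span_le]
          rintro _ ⟨y, ⟨-, r, -, rfl⟩, z, ⟨-, r', -, rfl⟩, rfl⟩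
          rw [SetLike.mem_coe, Submodule.mem_span_singleton]
          refine ⟨r - r', ?_⟩
          simp only [vsub_eq_sub, sub_smul]
          abel
        · rw [Submodule.span_singleton_le_iff_mem]
          have h13 := vsub_mem_vectorSpan ℝ hwF hvF
          rw [vsub_eq_sub, toR_add, add_sub_cancel_left] at h13
          exact h13
      rw [hspan]
      exact finrank_span_singleton hw0
  have hex : ∀ w : W', ∃ (e : Fin d → ℤ) (m : ℝ), 0 ≤ m ∧ toR (w : Fin d → ℤ) = m • toR e ∧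
      e ∈ edgeVectors P (toR v) := by
    rintro ⟨w, hw⟩
    obtain ⟨m, e, hm, hwe, hprim⟩ := EDG1_prim (hWS w (hW'W hw)).1
    have hmR : (0 : ℝ) < m := by exact_mod_cast hm
    have hwR : toR w = (m : ℝ) • toR e := by rw [hwe, toR_zsmul]
    refine ⟨e, m, hmR.le, hwR, hprim, _, hedge w hw, ?_, m, hmR, ?_⟩
    · exact ⟨hvP, 0, le_rfl, by rw [zero_smul, add_zero]⟩
    · rw [← hwR, ← toR_add]
      exact ⟨hSP _ (Finset.mem_of_mem_erase (hWS w (hW'W hw)).2), 1, zero_le_one, by rw [toR_add, one_smul]⟩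
  choose e m hm0 hwe hedgev using hex
  obtain ⟨c, hc, hxc⟩ := hRep x hx
  refine ⟨W'.card, fun i => e (W'.equivFin.symm i), fun i => c (W'.equivFin.symm i) * m (W'.equivFin.symm i),
    fun i => hedgev _, fun i => mul_nonneg (hc _ (W'.equivFin.symm i).2) (hm0 _), ?_⟩
  rw [hxc]
  congr 1
  rw [← Finset.sum_coe_sort W' (fun w => c w • toR w)]
  rw [← Equiv.sum_comp W'.equivFin.symm (fun w : W' => c w • toR (w : Fin d → ℤ))]
  refine Finset.sum_congr rfl (fun i _ => ?_)
  rw [hwe, smul_smul]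

end H66OD

end S_EDG1

section S_EDG2

/-!
# Row EDG2 (about 120 lines): `v + e` is in `P` for an edge vector `e`

PROOF. `e` primitive, `F` an edge with `toR v ∈ F`, `toR v + t • toR e ∈ F`, `t > 0`. `F` is a face of
`P = conv (toR '' S)`, so `F ⊆ conv (toR '' {s ∈ S | toR s ∈ F})`: write `x ∈ F` as a convex combination of `S`;
the points with positive coefficient belong to `F` since `F` is extreme in `P` (if a coefficient `c s` is in
`(0,1)`, `x` is in the open segment of `toR s` and the normalised rest, a point of `P`; if `c s = 1`, `x = toR s`).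
As `toR v + t • toR e ≠ toR v` (`e ≠ 0`), some `s ∈ S`, `s ≠ v` has `toR s ∈ F` (otherwise `F ⊆ {toR v}`).
`vectorSpan ℝ F` has dimension one and contains `t • toR e ≠ 0`, so it equals `ℝ (toR e)`, and
`toR (s - v) ∈ vectorSpan` is `r • toR e`, `r ≠ 0` real. `r` is an integer: let `i0` be a coordinate with
`e i0 ≠ 0`; `r = (s-v) i0 / e i0 = a/b` in lowest terms, `b ≥ 1`, `b (s - v) = a e`, so `b` divides all
coordinates `e i` (coprime to `a`), `e = b • f`, so `b = 1` by primitivity. `r > 0`: if `r < 0` then `toR v` is in the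
open segment between `toR s = toR v + r toR e` and `toR v + t toR e`, both in `P`, contradicting that `toR v` is an
extreme point (the end points are not `toR v`). So `r ≥ 1` and
`toR (v + e) = toR v + (1/r) (toR s - toR v)` is in the segment from `toR v` to `toR s`, in `P` (convex).
-/

namespace H66OD

theorem EDG2_ext {E : Type*} [AddCommGroup E] [Module ℝ E] {T : Finset E} {F : Set E}
    (hF : IsExtreme ℝ (convexHull ℝ (T : Set E)) F) {w : E → ℝ} (hw : ∀ y ∈ T, 0 ≤ w y)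
    (h1 : ∑ y ∈ T, w y = 1) (hx : ∑ y ∈ T, w y • y ∈ F) {y : E} (hy : y ∈ T) (hwy : 0 < w y) :
    y ∈ F := by
  classical
  have hsplit := Finset.add_sum_erase T w hy
  have hsplit2 := Finset.add_sum_erase T (fun y => w y • y) hy
  rw [h1] at hsplit
  by_cases hw1 : w y = 1
  · have h0 : ∑ z ∈ T.erase y, w z = 0 := by linarith
    have h00 : ∀ z ∈ T.erase y, w z = 0 := (Finset.sum_eq_zero_iff_of_nonneg
      (fun z hz => hw z (Finset.mem_of_mem_erase hz))).1 h0
    have h2 : ∑ z ∈ T.erase y, w z • z = 0 :=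
      Finset.sum_eq_zero fun z hz => by rw [h00 z hz, zero_smul]
    rw [← hsplit2, h2, add_zero, hw1, one_smul] at hx
    exact hx
  · have hrest : ∑ z ∈ T.erase y, w z = 1 - w y := by linarith
    have hle : w y ≤ 1 := by
      have : 0 ≤ ∑ z ∈ T.erase y, w z :=
        Finset.sum_nonneg fun z hz => hw z (Finset.mem_of_mem_erase hz)
      linarith
    have hlt : w y < 1 := lt_of_le_of_ne hle hw1
    have hpos : 0 < 1 - w y := by linarith
    have hz : (1 - w y)⁻¹ • ∑ z ∈ T.erase y, w z • z ∈ convexHull ℝ (T : Set E) := by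
      rw [Finset.smul_sum]
      have h3 : ∀ z ∈ T.erase y, (1 - w y)⁻¹ • (w z • z) = ((1 - w y)⁻¹ * w z) • z := fun z _ =>
        smul_smul _ _ _
      rw [Finset.sum_congr rfl h3]
      refine (convex_convexHull ℝ (T : Set E)).sum_mem ?_ ?_ ?_
      · intro z hz
        exact mul_nonneg (inv_nonneg.2 hpos.le) (hw z (Finset.mem_of_mem_erase hz))
      · rw [← Finset.mul_sum, hrest, inv_mul_cancel₀ hpos.ne']
      · intro z hz
        exact subset_convexHull ℝ _ (Finset.mem_coe.2 (Finset.mem_of_mem_erase hz))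
    refine hF.left_mem_of_mem_openSegment (subset_convexHull ℝ _ (Finset.mem_coe.2 hy)) hz hx ?_
    refine ⟨w y, 1 - w y, hwy, hpos, by ring, ?_⟩
    rw [smul_inv_smul₀ hpos.ne']
    exact hsplit2

theorem EDG2_int {d : ℕ} {w e : Fin d → ℤ} (he : IsPrimitive e) {r : ℝ}
    (h : r • toR e = toR w) : ∃ m : ℤ, r = (m : ℝ) := by
  obtain ⟨i0, hi0⟩ : ∃ i, e i ≠ 0 := by
    by_contra hcon
    push Not at hcon
    exact he.1 (funext hcon)
  have hi : ∀ i, r * (e i : ℝ) = (w i : ℝ) := fun i => by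
    have := congrFun h i
    simpa [toR] using this
  have hg : 0 < Int.gcd (w i0) (e i0) := Int.gcd_pos_of_ne_zero_right _ hi0
  obtain ⟨a, b, hab, ha, hb⟩ := Int.exists_gcd_one hg
  set g : ℤ := (Int.gcd (w i0) (e i0) : ℤ) with hgdef
  have hg0 : g ≠ 0 := by
    rw [hgdef]
    exact_mod_cast hg.ne'
  have hb0 : b ≠ 0 := by
    rintro rfl
    rw [zero_mul] at hb
    exact hi0 hb
  have hgR : (g : ℝ) ≠ 0 := by exact_mod_cast hg0
  have hbR : (b : ℝ) ≠ 0 := by exact_mod_cast hb0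
  have hr : r * (b : ℝ) = (a : ℝ) := by
    have h1 := hi i0
    rw [ha, hb] at h1
    push_cast at h1
    rw [← mul_assoc] at h1
    exact mul_right_cancel₀ hgR h1
  have hdiv : ∀ i, b ∣ e i := by
    intro i
    have h1 : b * w i = a * e i := by
      have h2 : ((b * w i : ℤ) : ℝ) = ((a * e i : ℤ) : ℝ) := by
        push_cast
        rw [← hi i, ← hr]
        ring
      exact_mod_cast h2
    have h3 : b ∣ a * e i := ⟨w i, h1.symm⟩
    have hcop : IsCoprime b a := by
      rw [Int.isCoprime_iff_gcd_eq_one, Int.gcd_comm]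
      exact hab
    exact hcop.dvd_of_dvd_mul_left h3
  choose f hf using hdiv
  have hef : e = b • f := by
    funext i
    rw [Pi.smul_apply, smul_eq_mul]
    exact hf i
  rcases he.2 b f hef with hb1 | hb1
  · refine ⟨a, ?_⟩
    rw [hb1] at hr
    push_cast at hr
    linarith
  · refine ⟨-a, ?_⟩
    rw [hb1] at hr
    push_cast at hr ⊢
    linarith

theorem edg2 {d : ℕ} (S : Finset (Fin d → ℤ)) (P : Set (Fin d → ℝ))
    (hP : P = convexHull ℝ (toR '' (S : Set (Fin d → ℤ)))) (v : Fin d → ℤ)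
    (hv : toR v ∈ P.extremePoints ℝ) (e : Fin d → ℤ) (he : e ∈ edgeVectors P (toR v)) :
    toR (v + e) ∈ P := by
  classical
  obtain ⟨hprim, F, ⟨hFc, hFe, hFd⟩, hvF, t, ht, hxF⟩ := he
  have hPconv : Convex ℝ P := by
    rw [hP]
    exact convex_convexHull ℝ _
  have hPT : P = convexHull ℝ ((S.image toR : Finset (Fin d → ℝ)) : Set (Fin d → ℝ)) := by
    rw [Finset.coe_image]
    exact hP
  have he0 : toR e ≠ 0 := by
    intro h0
    apply hprim.1
    apply toR_injective
    rw [h0, toR_zero]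
  have hte : t • toR e ≠ 0 := smul_ne_zero ht.ne' he0
  have hxP : toR v + t • toR e ∈ P := hFe.subset hxF
  have hvP : toR v ∈ P := hv.1
  -- a point of `S` in `F`
  obtain ⟨s, hsS, hsF, hsv⟩ : ∃ s ∈ S, toR s ∈ F ∧ s ≠ v := by
    have h1 := hxP
    rw [hPT] at h1
    obtain ⟨w, hw, hw1, hwx⟩ := Finset.mem_convexHull'.1 h1
    have hex : ∃ y ∈ S.image toR, 0 < w y ∧ y ≠ toR v := by
      by_contra hcon
      push Not at hcon
      have h2 : ∀ y ∈ S.image toR, w y • y = w y • toR v := by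
        intro y hy
        rcases (hw y hy).lt_or_eq with h3 | h3
        · rw [hcon y hy h3]
        · rw [← h3, zero_smul, zero_smul]
      rw [Finset.sum_congr rfl h2, ← Finset.sum_smul, hw1, one_smul] at hwx
      exact hte (by simpa using hwx.symm)
    obtain ⟨y, hy, hwy, hyv⟩ := hex
    obtain ⟨s, hs, rfl⟩ := Finset.mem_image.1 hy
    refine ⟨s, hs, ?_, fun h => hyv (by rw [h])⟩
    have hFe' := hFe
    rw [hPT] at hFe'
    exact EDG2_ext hFe' hw hw1 (by rw [hwx]; exact hxF) hy hwy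
  have hsP : toR s ∈ P := hFe.subset hsF
  -- the real number `r`
  obtain ⟨r, hr⟩ : ∃ r : ℝ, r • toR e = toR s - toR v := by
    have h1 : toR e ∈ vectorSpan ℝ F := by
      have h2 : (toR v + t • toR e) -ᵥ toR v ∈ vectorSpan ℝ F := vsub_mem_vectorSpan ℝ hxF hvF
      rw [vsub_eq_sub, add_sub_cancel_left] at h2
      have h3 := Submodule.smul_mem _ t⁻¹ h2
      rwa [inv_smul_smul₀ ht.ne'] at h3
    have h2 : toR s - toR v ∈ vectorSpan ℝ F := by
      have := vsub_mem_vectorSpan ℝ hsF hvF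
      rwa [vsub_eq_sub] at this
    have hne : (⟨toR e, h1⟩ : vectorSpan ℝ F) ≠ 0 := by
      intro h0
      exact he0 (congrArg Subtype.val h0)
    obtain ⟨r, hr⟩ := (finrank_eq_one_iff_of_nonzero' _ hne).1 hFd ⟨toR s - toR v, h2⟩
    exact ⟨r, congrArg Subtype.val hr⟩
  obtain ⟨m, hm⟩ := EDG2_int hprim (w := s - v) (r := r) (by rw [toR_sub]; exact hr)
  have hrs : toR s = toR v + r • toR e := by rw [hr]; abel
  have hr0 : r ≠ 0 := by
    rintro rfl
    rw [zero_smul, add_zero] at hrs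
    exact hsv (toR_injective hrs)
  have hrpos : 0 < r := by
    by_contra hcon
    have hneg : r < 0 := lt_of_le_of_ne (not_lt.1 hcon) hr0
    have htr : 0 < t - r := by linarith
    have hmem : toR v ∈ openSegment ℝ (toR s) (toR v + t • toR e) := by
      refine ⟨t / (t - r), -r / (t - r), div_pos ht htr, div_pos (by linarith) htr, ?_, ?_⟩
      · field_simp
        ring
      · rw [hrs]
        funext i
        simp only [Pi.add_apply, Pi.smul_apply, smul_eq_mul]
        field_simp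
        ring
    have h1 := hv.2 hsP hxP hmem
    exact hsv (toR_injective h1)
  have hm1 : (1 : ℝ) ≤ r := by
    rw [hm] at hrpos ⊢
    have : 0 < m := by exact_mod_cast hrpos
    exact_mod_cast this
  have hfin : toR (v + e) = (1 - 1 / r) • toR v + (1 / r) • toR s := by
    rw [hrs, toR_add]
    funext i
    simp only [Pi.add_apply, Pi.smul_apply, smul_eq_mul]
    field_simp
    ring
  rw [hfin]
  refine hPconv hvP hsP ?_ (by positivity) (by ring)
  rw [sub_nonneg, div_le_one hrpos]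
  exact hm1

end H66OD

end S_EDG2

section S_EDG3

/-!
# Row EDG3 (about 150 lines): the combinatorial data of a smooth polytope

PROOF. Let `P = conv (toR '' S)` (`S` finite), `Vt = {s ∈ S | toR s ∈ P.extremePoints ℝ}` (classical filter).
`P` is compact convex (finite hull: `Set.Finite.isCompact_convexHull`), so
`closure (convexHull ℝ (P.extremePoints ℝ)) = P` (Krein-Milman, `closure_convexHull_extremePoints`), the extreme
points are contained in `toR '' S` (`extremePoints_convexHull_subset`), so they are exactly `toR '' Vt`, and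
the hull of this finite set is closed: `P = convexHull ℝ (toR '' Vt)`. `Vt` is nonempty since `P` is nonempty
(`interior P` nonempty). For `v ∈ Vt` choose the basis `b` of `IsSmooth`; `e v i = b i`, and `u v i` the dual
basis: `u v i j = b.coord i (Pi.single j 1)` (as integers), so that for every integer vector `x`
`u v i ⬝ᵥ x = b.coord i x` (linearity, `x = Σ x j • Pi.single j 1`), hence `dual`, and
`x = Σ (u v i ⬝ᵥ x) • b i`, for integer vectors; for real vectors `span` follows by linearity from the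
standard basis vectors. (Outside `Vt` put `e = u = 0`.)
`mem`: `edg2` (as `b i ∈ Set.range b = edgeVectors P v`). `cone`: `edg1`: `x = v + Σ t l toR (e l)`, each
`e l ∈ edgeVectors = range b`, `e l = b (j l)`, so `toR (u v i) ⬝ᵥ (x - toR v) = Σ t l δ(i, j l) ≥ 0`.
-/

namespace H66OD

open Matrix in
theorem EDG3_at (S : Finset (Fin 3 → ℤ)) (P : Set (Fin 3 → ℝ))
    (hP : P = convexHull ℝ (toR '' (S : Set (Fin 3 → ℤ)))) (v : Fin 3 → ℤ)
    (hv : toR v ∈ P.extremePoints ℝ) (hb' : ∃ b : Module.Basis (Fin 3) ℤ (Fin 3 → ℤ),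
      Set.range b = edgeVectors P (toR v)) :
    ∃ e u : Fin 3 → (Fin 3 → ℤ), (∀ i j, u i ⬝ᵥ e j = if i = j then 1 else 0) ∧
      (∀ x : Fin 3 → ℝ, x = ∑ i, (toR (u i) ⬝ᵥ x) • toR (e i)) ∧
      (∀ i, toR (v + e i) ∈ P) ∧ ∀ i, ∀ x ∈ P, 0 ≤ toR (u i) ⬝ᵥ (x - toR v) := by
  obtain ⟨b, hb⟩ := hb'
  obtain ⟨u, hu⟩ : ∃ u : Fin 3 → (Fin 3 → ℤ),
      ∀ i j, u i j = b.coord i (fun k => if j = k then 1 else 0) := ⟨_, fun _ _ => rfl⟩
  have hdot : ∀ i (x : Fin 3 → ℤ), u i ⬝ᵥ x = b.coord i x := by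
    intro i x
    rw [LinearMap.pi_apply_eq_sum_univ (b.coord i) x]
    simp only [dotProduct, smul_eq_mul, mul_comm, hu]
  have hdual : ∀ i j, u i ⬝ᵥ b j = if i = j then 1 else 0 := by
    intro i j
    rw [hdot, Module.Basis.coord_apply, Module.Basis.repr_self_apply]
    simp only [eq_comm]
  refine ⟨b, u, hdual, fun x => ?_, fun i => ?_, fun i x hx => ?_⟩
  · have h1 : ∀ k m, ∑ i, (u i k : ℝ) * ((b i m : ℤ) : ℝ) = if k = m then 1 else 0 := by
      intro k m
      have h2 := congrFun (b.sum_repr (fun m => if k = m then (1 : ℤ) else 0)) m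
      rw [Finset.sum_apply] at h2
      have h3 : ∑ i, u i k * b i m = if k = m then 1 else 0 := by
        rw [← h2]
        refine Finset.sum_congr rfl fun i _ => ?_
        rw [hu, Module.Basis.coord_apply, Pi.smul_apply, smul_eq_mul]
      have h4 := congrArg (fun z : ℤ => (z : ℝ)) h3
      push_cast at h4
      exact h4
    ext m
    rw [Finset.sum_apply]
    simp only [Pi.smul_apply, smul_eq_mul, dotProduct, toR_apply]
    have h5 : ∑ i, (∑ k, (u i k : ℝ) * x k) * ((b i m : ℤ) : ℝ) =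
        ∑ k, (∑ i, (u i k : ℝ) * ((b i m : ℤ) : ℝ)) * x k := by
      simp only [Finset.sum_mul]
      rw [Finset.sum_comm]
      refine Finset.sum_congr rfl fun k _ => Finset.sum_congr rfl fun i _ => ?_
      ring
    rw [h5]
    simp only [h1, ite_mul, one_mul, zero_mul, Finset.sum_ite_eq', Finset.mem_univ, if_true]
  · exact edg2 S P hP v hv (b i) (hb ▸ Set.mem_range_self i)
  · obtain ⟨n, e, t, he, ht, rfl⟩ := edg1 S P hP v hv x hx
    rw [add_sub_cancel_left, dotProduct_sum]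
    refine Finset.sum_nonneg fun l _ => ?_
    rw [dotProduct_smul, smul_eq_mul]
    refine mul_nonneg (ht l) ?_
    have h1 := he l
    rw [← hb] at h1
    obtain ⟨j, hj⟩ := h1
    rw [← hj, toR_dot, hdual]
    split_ifs <;> norm_num

theorem EDG3_hull {S : Finset (Fin 3 → ℤ)} {P : Set (Fin 3 → ℝ)}
    (hP : P = convexHull ℝ (toR '' (S : Set (Fin 3 → ℤ)))) {Vt : Finset (Fin 3 → ℤ)}
    (hVt : ∀ v, v ∈ Vt ↔ v ∈ S ∧ toR v ∈ P.extremePoints ℝ) :
    P = convexHull ℝ (toR '' (Vt : Set (Fin 3 → ℤ))) := by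
  have hfin : (toR '' (S : Set (Fin 3 → ℤ))).Finite := S.finite_toSet.image _
  have hcomp : IsCompact P := by
    rw [hP]
    exact hfin.isCompact_convexHull ℝ
  have hconv : Convex ℝ P := by
    rw [hP]
    exact convex_convexHull ℝ _
  have hext : P.extremePoints ℝ = toR '' (Vt : Set (Fin 3 → ℤ)) := by
    ext x
    constructor
    · intro hx
      have h1 : x ∈ toR '' (S : Set (Fin 3 → ℤ)) := by
        have h2 := hx
        rw [hP] at h2
        exact extremePoints_convexHull_subset h2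
      obtain ⟨s, hs, rfl⟩ := h1
      exact ⟨s, (hVt s).2 ⟨hs, hx⟩, rfl⟩
    · rintro ⟨v, hv, rfl⟩
      exact ((hVt v).1 hv).2
  have hfin2 : (toR '' (Vt : Set (Fin 3 → ℤ))).Finite := Vt.finite_toSet.image _
  have h1 := closure_convexHull_extremePoints hcomp hconv
  rw [hext, (hfin2.isCompact_convexHull ℝ).isClosed.closure_eq] at h1
  exact h1.symm

theorem edg3 (P : Set (Fin 3 → ℝ)) (hP : IsSmooth P) : Nonempty (SmoothData P) := by
  classical
  obtain ⟨⟨S, hS⟩, hint, hb⟩ := hP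
  obtain ⟨Vt, hVt⟩ : ∃ Vt : Finset (Fin 3 → ℤ),
      ∀ v, v ∈ Vt ↔ v ∈ S ∧ toR v ∈ P.extremePoints ℝ :=
    ⟨S.filter (fun v => toR v ∈ P.extremePoints ℝ), fun v => Finset.mem_filter⟩
  have hhull := EDG3_hull hS hVt
  have hne : Vt.Nonempty := by
    rw [Finset.nonempty_iff_ne_empty]
    rintro rfl
    rw [Finset.coe_empty, Set.image_empty, convexHull_empty] at hhull
    rw [hhull, interior_empty] at hint
    exact Set.not_nonempty_empty hint
  have hex := fun v (hv : v ∈ Vt) =>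
    EDG3_at S P hS v ((hVt v).1 hv).2 (hb (toR v) ((hVt v).1 hv).2)
  choose! e u h1 h2 h3 h4 using hex
  exact ⟨⟨Vt, hne, hhull, e, u, h1, h2, h3, h4⟩⟩

end H66OD

end S_EDG3

section S_AFI

/-!
# Row AFI (about 80 lines): sizes of affinely independent sets

`afi4`: affinely independent points of `ℝ³`: at most 4 (`AffineIndependent.card_le_finrank_succ`, the
`vectorSpan` has finrank `≤ 3`).
`afi3`: if moreover all points satisfy `u ⬝ᵥ z = r` with `u ≠ 0`: the `vectorSpan` is contained in the kernel of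
`x ↦ toR u ⬝ᵥ x`, a nonzero linear functional (`toR u ⬝ᵥ toR u > 0`), whose kernel has finrank `2`; so at most 3.
-/

open Matrix

namespace H66OD

theorem afi4 (t : Finset (Fin 3 → ℤ))
    (h : AffineIndependent ℝ (fun z : t => toR (z : Fin 3 → ℤ))) : t.card ≤ 4 := by
  have h1 := h.card_le_finrank_succ
  have h2 := Submodule.finrank_le (vectorSpan ℝ (Set.range (fun z : t => toR (z : Fin 3 → ℤ))))
  rw [Module.finrank_fin_fun] at h2
  rw [Fintype.card_coe] at h1
  omega

theorem afi3 (t : Finset (Fin 3 → ℤ)) (u : Fin 3 → ℤ) (hu : u ≠ 0) (r : ℤ)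
    (hr : ∀ z ∈ t, u ⬝ᵥ z = r)
    (h : AffineIndependent ℝ (fun z : t => toR (z : Fin 3 → ℤ))) : t.card ≤ 3 := by
  have h1 := h.card_le_finrank_succ
  rw [Fintype.card_coe] at h1
  let L : (Fin 3 → ℝ) →ₗ[ℝ] ℝ :=
    { toFun := fun x => toR u ⬝ᵥ x
      map_add' := dotProduct_add _
      map_smul' := fun c x => dotProduct_smul c _ x }
  have hle : vectorSpan ℝ (Set.range (fun z : t => toR (z : Fin 3 → ℤ))) ≤ LinearMap.ker L := by
    rw [vectorSpan_def, Submodule.span_le]
    rintro _ ⟨_, ⟨z, rfl⟩, _, ⟨z', rfl⟩, rfl⟩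
    show L (toR (z : Fin 3 → ℤ) - toR (z' : Fin 3 → ℤ)) = 0
    show toR u ⬝ᵥ (toR (z : Fin 3 → ℤ) - toR (z' : Fin 3 → ℤ)) = 0
    rw [← toR_sub, toR_dot, dotProduct_sub, hr _ z.2, hr _ z'.2, sub_self, Int.cast_zero]
  have hker : LinearMap.ker L ≠ ⊤ := by
    intro htop
    have h3 : toR u ∈ LinearMap.ker L := by rw [htop]; trivial
    have h4 : toR u ⬝ᵥ toR u = 0 := h3
    rw [toR_dot] at h4
    have h5 : u ⬝ᵥ u = 0 := by exact_mod_cast h4
    exact hu (dotProduct_self_eq_zero.mp h5)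
  have h2 := Submodule.finrank_lt hker
  rw [Module.finrank_fin_fun] at h2
  have h3 := Submodule.finrank_mono hle
  omega

end H66OD

end S_AFI

section S_BGT

/-!
# Row BGT (about 250 lines): Bruns-Gubeladze-Trung step

`X` = a finite set of integer points containing all integer points of its hull. `k ≥ 1`, every affinely
independent subset of `X` has at most `k+1` elements. If `x` is an integer point, `x = k y`,
`y ∈ conv X`, then some `p ∈ X` has `x - p ∈ (k-1) conv X`.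

PROOF. Let `K` be the set of weights `μ : X → ℝ` (`stdSimplex ℝ X`, compact) with `Σ μ z • toR z = y`; it is
nonempty (`y` in the hull) and closed, so compact. The linear function `cost μ = Σ μ z ‖z‖²`
(`‖z‖² = Σ_i (z i)²`) attains its minimum on `K`; among the minimisers choose `μ` with the smallest support
`t = {z | μ z ≠ 0}` (`μ > 0` on `t`).
(i) The points of `t` are affinely independent: otherwise there is `δ ≠ 0` supported in `t` with `Σ δ z = 0`,
`Σ δ z • toR z = 0` (`affineIndependent_iff`/negation). For small `|ε|` `μ + ε δ ∈ K`, so minimality for both signs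
gives `Σ δ z ‖z‖² = 0` and then all `μ + ε δ ∈ K` have the same cost. Some `δ z < 0` (sum zero); with
`ε = min {μ z / (-δ z) : δ z < 0}` the weights `μ + ε δ` are `≥ 0`, in `K`, minimisers, with a strictly smaller
support: contradiction. So `t.card ≤ k + 1`.
(ii) If some `z ∈ t` has `k μ z ≥ 1`: `p = z`. `toR x - toR p = Σ_{z'} (k μ z' - [z' = z]) • toR z'`, weights `≥ 0` of
sum `k - 1`. If `k = 1`, the sum of nonnegative weights is 0, so `toR x - toR p = 0 = 0 • y`. If `k ≥ 2`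
divide by `k-1`: a point `y'` of the hull.
(iii) Otherwise `k μ z < 1` for all `z ∈ t`; `k = Σ_{t} k μ z < t.card` (`t` nonempty), so `t.card = k + 1 ≥ 2`. Let
`q = Σ_{z ∈ t} z - x`, an integer vector, `toR q = Σ_{z ∈ t} ν z • toR z`, `ν z = 1 - k μ z ∈ (0,1)`
(`μ z > 0`), `Σ ν = (k+1) - k = 1`. So `toR q` is in the hull of `X`, `q ∈ X`. By strict convexity of `‖·‖²`
`‖q‖² < Σ ν z ‖z‖²`: indeed `Σ ν z ‖z‖² - ‖q‖² = Σ ν z ‖z - q‖² > 0` as at least one `z ∈ t` is `≠ q`
(`t` has at least two elements). For small `ε > 0` (`ε ν z ≤ μ z` for all `z ∈ t`) the weights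
`μ - ε ν + ε [· = q]` are `≥ 0`, sum 1, `Σ = y - ε q + ε q = y`, so in `K`, with cost
`cost μ - ε (Σ ν z ‖z‖² - ‖q‖²) < cost μ`: contradiction.
-/

namespace H66OD

private def BGT_c (z : Fin 3 → ℤ) : ℝ := ∑ i, (z i : ℝ) ^ 2

private def BGT_cost (X : Finset (Fin 3 → ℤ)) (μ : (Fin 3 → ℤ) → ℝ) : ℝ := ∑ z ∈ X, μ z * BGT_c z

private structure BGT_Good (X : Finset (Fin 3 → ℤ)) (y : Fin 3 → ℝ) (μ : (Fin 3 → ℤ) → ℝ) :
    Prop where
  nn : ∀ z ∈ X, 0 ≤ μ z
  s1 : ∑ z ∈ X, μ z = 1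
  sy : ∑ z ∈ X, μ z • toR z = y

private theorem BGT_ex (X : Finset (Fin 3 → ℤ)) {y : Fin 3 → ℝ}
    (hy : y ∈ convexHull ℝ (toR '' (X : Set (Fin 3 → ℤ)))) : ∃ μ, BGT_Good X y μ := by
  classical
  rw [← Finset.coe_image, Finset.mem_convexHull'] at hy
  obtain ⟨w, h0, h1, h2⟩ := hy
  have hinj : ∀ a ∈ X, ∀ b ∈ X, (toR a : Fin 3 → ℝ) = toR b → a = b := fun a _ b _ h => toR_inj.1 h
  refine ⟨fun z => w (toR z), ⟨fun z hz => h0 _ (Finset.mem_image_of_mem _ hz), ?_, ?_⟩⟩
  · rw [Finset.sum_image hinj] at h1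
    exact h1
  · rw [Finset.sum_image hinj] at h2
    exact h2

private theorem BGT_mem (X : Finset (Fin 3 → ℤ)) {y : Fin 3 → ℝ} {μ : (Fin 3 → ℤ) → ℝ}
    (h : BGT_Good X y μ) : y ∈ convexHull ℝ (toR '' (X : Set (Fin 3 → ℤ))) := by
  rw [← h.sy]
  exact (convex_convexHull ℝ _).sum_mem h.nn h.s1
    (fun z hz => subset_convexHull ℝ _ ⟨z, hz, rfl⟩)

private theorem BGT_min (X : Finset (Fin 3 → ℤ)) {y : Fin 3 → ℝ}
    (hy : y ∈ convexHull ℝ (toR '' (X : Set (Fin 3 → ℤ)))) :
    ∃ μ, BGT_Good X y μ ∧ ∀ μ', BGT_Good X y μ' → BGT_cost X μ ≤ BGT_cost X μ' := by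
  classical
  have hle : ∀ μ, BGT_Good X y μ → ∀ z ∈ X, μ z ≤ 1 := by
    intro μ h z hz
    rw [← h.s1]
    exact Finset.single_le_sum (f := μ) h.nn hz
  have htr : ∀ μ, BGT_Good X y μ → ∃ μ' ∈ (Set.pi Set.univ (fun _ : Fin 3 → ℤ => Set.Icc (0 : ℝ) 1)),
      BGT_Good X y μ' ∧ BGT_cost X μ' = BGT_cost X μ := by
    intro μ h
    refine ⟨fun z => if z ∈ X then μ z else 0, ?_, ⟨?_, ?_, ?_⟩, ?_⟩
    · intro z _
      show (if z ∈ X then μ z else 0) ∈ Set.Icc (0 : ℝ) 1
      split_ifs with hz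
      · exact ⟨h.nn z hz, hle μ h z hz⟩
      · exact ⟨le_rfl, zero_le_one⟩
    · intro z hz
      show 0 ≤ (if z ∈ X then μ z else 0)
      rw [if_pos hz]
      exact h.nn z hz
    · rw [← h.s1]
      exact Finset.sum_congr rfl fun z hz => if_pos hz
    · rw [← h.sy]
      exact Finset.sum_congr rfl fun z hz => by rw [if_pos hz]
    · unfold BGT_cost
      refine Finset.sum_congr rfl fun z hz => ?_
      show (if z ∈ X then μ z else 0) * BGT_c z = μ z * BGT_c z
      rw [if_pos hz]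
  have hcomp : IsCompact ((Set.pi Set.univ (fun _ : Fin 3 → ℤ => Set.Icc (0 : ℝ) 1)) ∩
      ({μ : (Fin 3 → ℤ) → ℝ | ∑ z ∈ X, μ z = 1} ∩
        {μ : (Fin 3 → ℤ) → ℝ | ∑ z ∈ X, μ z • (toR z : Fin 3 → ℝ) = y})) := by
    refine (isCompact_univ_pi fun _ => isCompact_Icc).inter_right (IsClosed.inter ?_ ?_)
    · exact isClosed_eq (by fun_prop) continuous_const
    · exact isClosed_eq (by fun_prop) continuous_const
  obtain ⟨μ0, hμ0⟩ := BGT_ex X hy
  obtain ⟨μ1, hμ1a, hμ1b, -⟩ := htr μ0 hμ0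
  obtain ⟨μ, hμ, hmin⟩ := hcomp.exists_isMinOn ⟨μ1, hμ1a, hμ1b.s1, hμ1b.sy⟩
    (f := BGT_cost X) (Continuous.continuousOn (by unfold BGT_cost; fun_prop))
  refine ⟨μ, ⟨fun z _ => (hμ.1 z (Set.mem_univ z)).1, hμ.2.1, hμ.2.2⟩, fun μ' hμ' => ?_⟩
  obtain ⟨μ2, h2a, h2b, h2c⟩ := htr μ' hμ'
  rw [← h2c]
  exact hmin ⟨h2a, h2b.s1, h2b.sy⟩

open Classical in
private noncomputable def BGT_supp (X : Finset (Fin 3 → ℤ)) (μ : (Fin 3 → ℤ) → ℝ) :
    Finset (Fin 3 → ℤ) := X.filter (fun z => μ z ≠ 0)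

private theorem BGT_min2 (X : Finset (Fin 3 → ℤ)) {y : Fin 3 → ℝ}
    (hy : y ∈ convexHull ℝ (toR '' (X : Set (Fin 3 → ℤ)))) :
    ∃ μ, BGT_Good X y μ ∧ (∀ μ', BGT_Good X y μ' → BGT_cost X μ ≤ BGT_cost X μ') ∧
      ∀ μ', BGT_Good X y μ' → BGT_cost X μ' = BGT_cost X μ →
        (BGT_supp X μ).card ≤ (BGT_supp X μ').card := by
  classical
  obtain ⟨μ0, h0, h0'⟩ := BGT_min X hy
  have hex : ∃ n : ℕ, ∃ μ, BGT_Good X y μ ∧ BGT_cost X μ = BGT_cost X μ0 ∧
      (BGT_supp X μ).card = n := ⟨_, μ0, h0, rfl, rfl⟩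
  obtain ⟨μ, h1, h2, h3⟩ := Nat.find_spec hex
  refine ⟨μ, h1, fun μ' h => by rw [h2]; exact h0' μ' h, fun μ' h h' => ?_⟩
  rw [h3]
  exact Nat.find_min' hex ⟨μ', h, by rw [h', h2], rfl⟩

private theorem BGT_eps {α : Type*} (t : Finset α) (a b : α → ℝ) (ha : ∀ z ∈ t, 0 < a z) :
    ∃ ε : ℝ, 0 < ε ∧ ∀ z ∈ t, ε * b z ≤ a z := by
  classical
  induction t using Finset.induction_on with
  | empty => exact ⟨1, one_pos, fun z hz => absurd hz (Finset.notMem_empty z)⟩
  | insert z0 t hz0 ih =>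
    obtain ⟨ε, hε, h⟩ := ih fun z hz => ha z (Finset.mem_insert_of_mem hz)
    have ha0 := ha z0 (Finset.mem_insert_self _ _)
    refine ⟨min ε (a z0 / (|b z0| + 1)), lt_min hε (by positivity), ?_⟩
    have key : ∀ (e e' B A : ℝ), 0 < e → e ≤ e' → 0 ≤ A → e' * B ≤ A → e * B ≤ A := by
      intro e e' B A h1 h2 h3 h4
      rcases le_total 0 B with hB | hB
      · exact (mul_le_mul_of_nonneg_right h2 hB).trans h4
      · exact (mul_nonpos_of_nonneg_of_nonpos h1.le hB).trans h3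
    have hpos : 0 < min ε (a z0 / (|b z0| + 1)) := lt_min hε (by positivity)
    intro z hz
    rcases Finset.mem_insert.1 hz with rfl | hz
    · refine key _ _ _ _ hpos (min_le_right _ _) ha0.le ?_
      have h1 : a z / (|b z| + 1) * b z ≤ a z / (|b z| + 1) * (|b z| + 1) :=
        mul_le_mul_of_nonneg_left ((le_abs_self _).trans (by linarith)) (by positivity)
      refine h1.trans (le_of_eq ?_)
      exact div_mul_cancel₀ _ (by positivity)
    · exact key _ _ _ _ hpos (min_le_left _ _)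
        (ha z (Finset.mem_insert_of_mem hz)).le (h z hz)

private theorem BGT_ind (X : Finset (Fin 3 → ℤ)) {y : Fin 3 → ℝ} {μ : (Fin 3 → ℤ) → ℝ}
    (hμ : BGT_Good X y μ) (hmin : ∀ μ', BGT_Good X y μ' → BGT_cost X μ ≤ BGT_cost X μ')
    (hsup : ∀ μ', BGT_Good X y μ' → BGT_cost X μ' = BGT_cost X μ →
        (BGT_supp X μ).card ≤ (BGT_supp X μ').card) :
    AffineIndependent ℝ (fun z : BGT_supp X μ => (toR (z : Fin 3 → ℤ) : Fin 3 → ℝ)) := by
  classical
  rw [affineIndependent_iff]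
  intro s w hw0 hw1
  by_contra hne
  push Not at hne
  obtain ⟨e0, he0s, he0⟩ := hne
  have htX : BGT_supp X μ ⊆ X := Finset.filter_subset _ _
  obtain ⟨δ, hδ⟩ : ∃ δ : (Fin 3 → ℤ) → ℝ, δ = fun z =>
    if h : z ∈ BGT_supp X μ then (if (⟨z, h⟩ : BGT_supp X μ) ∈ s then w ⟨z, h⟩ else 0) else 0 :=
    ⟨_, rfl⟩
  have hδ1 : ∀ e : BGT_supp X μ, δ (e : Fin 3 → ℤ) = if e ∈ s then w e else 0 := by
    intro e
    rw [hδ]
    simp
  have hδ2 : ∀ z, z ∉ BGT_supp X μ → δ z = 0 := by
    intro z hz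
    rw [hδ]
    simp only
    rw [dif_neg hz]
  have s0 : ∑ z ∈ X, δ z = 0 := by
    rw [← Finset.sum_subset htX (fun z _ hz => hδ2 z hz), ← Finset.sum_coe_sort]
    simp only [hδ1]
    rw [Finset.sum_ite_mem, Finset.univ_inter]
    exact hw0
  have s1 : ∑ z ∈ X, δ z • (toR z : Fin 3 → ℝ) = 0 := by
    rw [← Finset.sum_subset htX (fun z _ hz => by rw [hδ2 z hz, zero_smul]),
      ← Finset.sum_coe_sort]
    simp only [hδ1, ite_smul, zero_smul]
    rw [Finset.sum_ite_mem, Finset.univ_inter]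
    exact hw1
  have hcostadd : ∀ ε : ℝ, BGT_cost X (fun z => μ z + ε * δ z) =
      BGT_cost X μ + ε * BGT_cost X δ := by
    intro ε
    unfold BGT_cost
    rw [Finset.mul_sum, ← Finset.sum_add_distrib]
    exact Finset.sum_congr rfl fun z _ => by ring
  have hgood : ∀ ε : ℝ, (∀ z ∈ BGT_supp X μ, 0 ≤ μ z + ε * δ z) →
      BGT_Good X y (fun z => μ z + ε * δ z) := by
    intro ε h
    refine ⟨fun z hz => ?_, ?_, ?_⟩
    · by_cases hz' : z ∈ BGT_supp X μ
      · exact h z hz'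
      · show 0 ≤ μ z + ε * δ z
        rw [hδ2 z hz', mul_zero, add_zero]
        exact hμ.nn z hz
    · rw [Finset.sum_add_distrib, ← Finset.mul_sum, s0, hμ.s1, mul_zero, add_zero]
    · simp only [add_smul, mul_smul]
      rw [Finset.sum_add_distrib, ← Finset.smul_sum, s1, hμ.sy, smul_zero, add_zero]
  have hpos : ∀ z ∈ BGT_supp X μ, 0 < μ z := by
    intro z hz
    have hz' := Finset.mem_filter.1 hz
    exact lt_of_le_of_ne (hμ.nn z hz'.1) (Ne.symm hz'.2)
  have hc0 : BGT_cost X δ = 0 := by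
    obtain ⟨ε, hε, h⟩ := BGT_eps (BGT_supp X μ) μ (fun z => |δ z|) hpos
    have hp := hmin _ (hgood ε fun z hz => by
      have h1 := h z hz
      have h2 := mul_le_mul_of_nonneg_left (neg_abs_le (δ z)) hε.le
      linarith)
    have hm := hmin _ (hgood (-ε) fun z hz => by
      have h1 := h z hz
      have h2 := mul_le_mul_of_nonneg_left (le_abs_self (δ z)) hε.le
      linarith)
    rw [hcostadd] at hp hm
    have h1 : 0 ≤ ε * BGT_cost X δ := by linarith
    have h2 : ε * BGT_cost X δ ≤ 0 := by linarith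
    have h3 : ε * BGT_cost X δ = 0 := le_antisymm h2 h1
    exact (mul_eq_zero.1 h3).resolve_left hε.ne'
  -- a negative coordinate
  have hneg : ∃ z ∈ X, δ z < 0 := by
    by_contra hcon
    push Not at hcon
    have h1 := (Finset.sum_eq_zero_iff_of_nonneg hcon).1 s0
    have h2 := h1 e0 (htX e0.2)
    rw [hδ1 e0, if_pos he0s] at h2
    exact he0 h2
  obtain ⟨z1, hz1X, hz1⟩ := hneg
  have hmemN : ∀ z, δ z < 0 → z ∈ BGT_supp X μ := by
    intro z hz
    by_contra hcon
    rw [hδ2 z hcon] at hz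
    exact lt_irrefl _ hz
  obtain ⟨z0, hz0, hz0min⟩ := Finset.exists_min_image ((BGT_supp X μ).filter (fun z => δ z < 0))
    (fun z => μ z / (-δ z)) ⟨z1, Finset.mem_filter.2 ⟨hmemN z1 hz1, hz1⟩⟩
  have hz0' := Finset.mem_filter.1 hz0
  have hd0 : 0 < -δ z0 := neg_pos.2 hz0'.2
  have hm0 := hpos z0 hz0'.1
  have hg := hgood (μ z0 / (-δ z0)) fun z hz => by
    rcases lt_or_ge (δ z) 0 with hd | hd
    · have h1 := hz0min z (Finset.mem_filter.2 ⟨hz, hd⟩)
      have hd' : 0 < -δ z := neg_pos.2 hd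
      have h2 := mul_le_mul_of_nonneg_right h1 hd'.le
      rw [div_mul_cancel₀ _ hd'.ne'] at h2
      linarith
    · have h1 : 0 ≤ μ z0 / (-δ z0) * δ z := mul_nonneg (div_pos hm0 hd0).le hd
      linarith [hpos z hz]
  have hcost := hcostadd (μ z0 / (-δ z0))
  rw [hc0, mul_zero, add_zero] at hcost
  have hcard := hsup _ hg hcost
  have hlt : (BGT_supp X (fun z => μ z + μ z0 / (-δ z0) * δ z)) ⊂ BGT_supp X μ := by
    rw [Finset.ssubset_iff_of_subset]
    · refine ⟨z0, hz0'.1, fun hcon => ?_⟩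
      refine (Finset.mem_filter.1 hcon).2 ?_
      show μ z0 + μ z0 / -δ z0 * δ z0 = 0
      rw [div_mul_eq_mul_div, div_neg, mul_div_assoc, div_self (ne_of_lt hz0'.2)]
      ring
    · intro z hz
      by_contra hcon
      have hz' := Finset.mem_filter.1 hz
      have h1 : μ z = 0 := by
        by_contra h2
        exact hcon (Finset.mem_filter.2 ⟨hz'.1, h2⟩)
      refine hz'.2 ?_
      show μ z + μ z0 / -δ z0 * δ z = 0
      rw [h1, hδ2 z hcon]
      ring
  exact absurd hcard (not_le.2 (Finset.card_lt_card hlt))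

private theorem BGT_conv (t : Finset (Fin 3 → ℤ)) (ν : (Fin 3 → ℤ) → ℝ) (q : Fin 3 → ℤ)
    (h1 : ∑ z ∈ t, ν z = 1) (hq : (toR q : Fin 3 → ℝ) = ∑ z ∈ t, ν z • toR z)
    (hν : ∀ z ∈ t, 0 < ν z) (hne : ∃ z ∈ t, z ≠ q) :
    BGT_c q < ∑ z ∈ t, ν z * BGT_c z := by
  have hqi : ∀ i, (q i : ℝ) = ∑ z ∈ t, ν z * (z i : ℝ) := by
    intro i
    have h := congrFun hq i
    rw [Finset.sum_apply] at h
    simpa [toR] using h
  have key : ∑ z ∈ t, ν z * (∑ i, ((z i : ℝ) - q i) ^ 2) = ∑ z ∈ t, ν z * BGT_c z - BGT_c q := by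
    have e1 : ∀ i : Fin 3, ∑ z ∈ t, ν z * ((z i : ℝ) - q i) ^ 2 =
        ∑ z ∈ t, ν z * (z i : ℝ) ^ 2 - (q i : ℝ) ^ 2 := by
      intro i
      have e2 : ∑ z ∈ t, ν z * ((z i : ℝ) - q i) ^ 2 = ∑ z ∈ t, ν z * (z i : ℝ) ^ 2 -
          2 * q i * ∑ z ∈ t, ν z * (z i : ℝ) + (q i : ℝ) ^ 2 * ∑ z ∈ t, ν z := by
        rw [Finset.mul_sum, Finset.mul_sum, ← Finset.sum_sub_distrib, ← Finset.sum_add_distrib]
        exact Finset.sum_congr rfl fun z _ => by ring
      rw [e2, ← hqi i, h1]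
      ring
    have e3 : ∑ z ∈ t, ν z * (∑ i, ((z i : ℝ) - q i) ^ 2) =
        ∑ i, ∑ z ∈ t, ν z * ((z i : ℝ) - q i) ^ 2 := by
      rw [Finset.sum_comm]
      exact Finset.sum_congr rfl fun z _ => Finset.mul_sum _ _ _
    rw [e3]
    simp only [e1]
    rw [Finset.sum_sub_distrib, Finset.sum_comm]
    unfold BGT_c
    congr 1
    exact Finset.sum_congr rfl fun z _ => (Finset.mul_sum _ _ _).symm
  have hpos : 0 < ∑ z ∈ t, ν z * (∑ i, ((z i : ℝ) - q i) ^ 2) := by
    obtain ⟨z, hz, hzq⟩ := hne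
    refine Finset.sum_pos' (fun z hz => mul_nonneg (hν z hz).le
      (Finset.sum_nonneg fun i _ => sq_nonneg _)) ⟨z, hz, mul_pos (hν z hz) ?_⟩
    obtain ⟨i, hi⟩ := Function.ne_iff.1 hzq
    refine Finset.sum_pos' (fun i _ => sq_nonneg _) ⟨i, Finset.mem_univ i, ?_⟩
    have : (z i : ℝ) - q i ≠ 0 := by
      rw [sub_ne_zero]
      exact_mod_cast hi
    positivity
  linarith

theorem bgt (X : Finset (Fin 3 → ℤ))
    (hX : ∀ z : Fin 3 → ℤ, toR z ∈ convexHull ℝ (toR '' (X : Set (Fin 3 → ℤ))) → z ∈ X)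
    (k : ℕ) (hk : 1 ≤ k)
    (hdim : ∀ t : Finset (Fin 3 → ℤ), t ⊆ X →
      AffineIndependent ℝ (fun z : t => toR (z : Fin 3 → ℤ)) → t.card ≤ k + 1)
    (x : Fin 3 → ℤ) (y : Fin 3 → ℝ) (hy : y ∈ convexHull ℝ (toR '' (X : Set (Fin 3 → ℤ))))
    (hx : toR x = (k : ℝ) • y) :
    ∃ p ∈ X, ∃ y' ∈ convexHull ℝ (toR '' (X : Set (Fin 3 → ℤ))),
      toR x - toR p = ((k : ℝ) - 1) • y' := by
  classical
  obtain ⟨μ, hμ, hmin, hsup⟩ := BGT_min2 X hy
  have hind := BGT_ind X hμ hmin hsup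
  have htX : BGT_supp X μ ⊆ X := Finset.filter_subset _ _
  have hcard := hdim _ htX hind
  have hpos : ∀ z ∈ BGT_supp X μ, 0 < μ z := by
    intro z hz
    have hz' := Finset.mem_filter.1 hz
    exact lt_of_le_of_ne (hμ.nn z hz'.1) (Ne.symm hz'.2)
  have hoff : ∀ z ∈ X, z ∉ BGT_supp X μ → μ z = 0 := by
    intro z hz hz'
    by_contra h
    exact hz' (Finset.mem_filter.2 ⟨hz, h⟩)
  have hk0 : (1 : ℝ) ≤ k := by exact_mod_cast hk
  by_cases hcase : ∃ z ∈ BGT_supp X μ, 1 ≤ (k : ℝ) * μ z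
  · obtain ⟨p, hp, hpk⟩ := hcase
    have hpX := htX hp
    obtain ⟨ω, hω⟩ : ∃ ω : (Fin 3 → ℤ) → ℝ, ω = fun z => k * μ z - if z = p then 1 else 0 :=
      ⟨_, rfl⟩
    have hωz : ∀ z, ω z = k * μ z - if z = p then 1 else 0 := fun z => by rw [hω]
    have hω0 : ∀ z ∈ X, 0 ≤ ω z := by
      intro z hz
      rw [hωz]
      split_ifs with h
      · rw [h]; linarith
      · have := hμ.nn z hz
        have : 0 ≤ (k : ℝ) * μ z := by positivity
        linarith
    have hω1 : ∑ z ∈ X, ω z = k - 1 := by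
      simp only [hωz]
      rw [Finset.sum_sub_distrib, ← Finset.mul_sum, hμ.s1, Finset.sum_ite_eq', if_pos hpX, mul_one]
    have hω2 : ∑ z ∈ X, ω z • (toR z : Fin 3 → ℝ) = toR x - toR p := by
      simp only [hωz, sub_smul, mul_smul, ite_smul, one_smul, zero_smul]
      rw [Finset.sum_sub_distrib, ← Finset.smul_sum, hμ.sy, Finset.sum_ite_eq', if_pos hpX, hx]
    refine ⟨p, hpX, ?_⟩
    rcases eq_or_lt_of_le hk0 with h1 | h1
    · refine ⟨y, hy, ?_⟩
      rw [← h1, sub_self] at hω1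
      have h3 := (Finset.sum_eq_zero_iff_of_nonneg hω0).1 hω1
      rw [← hω2, ← h1, sub_self, zero_smul]
      exact Finset.sum_eq_zero fun z hz => by rw [h3 z hz, zero_smul]
    · have hk1 : (0 : ℝ) < k - 1 := by linarith
      refine ⟨((k : ℝ) - 1)⁻¹ • (toR x - toR p), ?_, ?_⟩
      · refine BGT_mem X (μ := fun z => ((k : ℝ) - 1)⁻¹ * ω z) ⟨fun z hz => ?_, ?_, ?_⟩
        · exact mul_nonneg (inv_nonneg.2 hk1.le) (hω0 z hz)
        · rw [← Finset.mul_sum, hω1]
          exact inv_mul_cancel₀ hk1.ne'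
        · simp only [mul_smul]
          rw [← Finset.smul_sum, hω2]
      · rw [smul_smul, mul_inv_cancel₀ hk1.ne', one_smul]
  · exfalso
    push Not at hcase
    have hsum1 : ∑ z ∈ BGT_supp X μ, μ z = 1 := by
      rw [← hμ.s1]
      exact Finset.sum_subset htX hoff
    have hne : (BGT_supp X μ).Nonempty := by
      rw [Finset.nonempty_iff_ne_empty]
      intro h
      rw [h, Finset.sum_empty] at hsum1
      exact zero_ne_one hsum1
    have hlt : (k : ℝ) < (BGT_supp X μ).card := by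
      have h1 : ∑ z ∈ BGT_supp X μ, (k : ℝ) * μ z < ∑ _z ∈ BGT_supp X μ, (1 : ℝ) :=
        Finset.sum_lt_sum_of_nonempty hne hcase
      rw [← Finset.mul_sum, hsum1, mul_one, Finset.sum_const, nsmul_eq_mul, mul_one] at h1
      exact h1
    have hlt' : k < (BGT_supp X μ).card := by exact_mod_cast hlt
    have hcard' : (BGT_supp X μ).card = k + 1 := le_antisymm hcard hlt'
    obtain ⟨ν, hν⟩ : ∃ ν : (Fin 3 → ℤ) → ℝ, ν = fun z => 1 - k * μ z := ⟨_, rfl⟩
    have hνz : ∀ z, ν z = 1 - k * μ z := fun z => by rw [hν]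
    have hν0 : ∀ z ∈ BGT_supp X μ, 0 < ν z := by
      intro z hz
      rw [hνz]
      linarith [hcase z hz]
    have hν1 : ∑ z ∈ BGT_supp X μ, ν z = 1 := by
      simp only [hνz]
      rw [Finset.sum_sub_distrib, ← Finset.mul_sum, hsum1, Finset.sum_const, hcard', nsmul_eq_mul]
      push_cast
      ring
    have hsumy : ∑ z ∈ BGT_supp X μ, μ z • (toR z : Fin 3 → ℝ) = y := by
      rw [← hμ.sy]
      exact Finset.sum_subset htX fun z hz hz' => by rw [hoff z hz hz', zero_smul]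
    obtain ⟨q, hqdef⟩ : ∃ q : Fin 3 → ℤ, q = ∑ z ∈ BGT_supp X μ, z - x := ⟨_, rfl⟩
    have hq : (toR q : Fin 3 → ℝ) = ∑ z ∈ BGT_supp X μ, ν z • toR z := by
      rw [hqdef, toR_sub, toR_sum, hx]
      simp only [hνz, sub_smul, mul_smul, one_smul]
      rw [Finset.sum_sub_distrib, ← Finset.smul_sum, hsumy]
    have hqX : q ∈ X := by
      refine hX q ?_
      rw [hq]
      exact (convex_convexHull ℝ _).sum_mem (fun z hz => (hν0 z hz).le) hν1
        (fun z hz => subset_convexHull ℝ _ ⟨z, htX hz, rfl⟩)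
    have hne2 : ∃ z ∈ BGT_supp X μ, z ≠ q := by
      have h2 : 1 < (BGT_supp X μ).card := by omega
      obtain ⟨a, ha, b, hb, hab⟩ := Finset.one_lt_card.1 h2
      by_cases haq : a = q
      · exact ⟨b, hb, fun h => hab (haq.trans h.symm)⟩
      · exact ⟨a, ha, haq⟩
    have hconv := BGT_conv _ ν q hν1 hq hν0 hne2
    obtain ⟨ε, hε, hεle⟩ := BGT_eps (BGT_supp X μ) μ ν hpos
    obtain ⟨ν', hν'⟩ : ∃ ν' : (Fin 3 → ℤ) → ℝ,
        ν' = fun z => if z ∈ BGT_supp X μ then ν z else 0 := ⟨_, rfl⟩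
    have hν'z : ∀ z, ν' z = if z ∈ BGT_supp X μ then ν z else 0 := fun z => by rw [hν']
    have hsν : ∑ z ∈ X, ν' z = 1 := by
      simp only [hν'z]
      rw [Finset.sum_ite_mem, Finset.inter_eq_right.2 htX, hν1]
    have hsνy : ∑ z ∈ X, ν' z • (toR z : Fin 3 → ℝ) = toR q := by
      simp only [hν'z, ite_smul, zero_smul]
      rw [Finset.sum_ite_mem, Finset.inter_eq_right.2 htX, hq]
    have hsνc : ∑ z ∈ X, ν' z * BGT_c z = ∑ z ∈ BGT_supp X μ, ν z * BGT_c z := by
      simp only [hν'z, ite_mul, zero_mul]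
      rw [Finset.sum_ite_mem, Finset.inter_eq_right.2 htX]
    have hg : BGT_Good X y (fun z => μ z - ε * ν' z + ε * (if z = q then 1 else 0)) := by
      refine ⟨fun z hz => ?_, ?_, ?_⟩
      · have h1 : 0 ≤ μ z - ε * ν' z := by
          rw [hν'z]
          split_ifs with h
          · linarith [hεle z h]
          · rw [mul_zero, sub_zero]
            exact hμ.nn z hz
        have h2 : 0 ≤ ε * (if z = q then (1 : ℝ) else 0) := by
          split_ifs
          · linarith
          · rw [mul_zero]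
        show 0 ≤ μ z - ε * ν' z + ε * (if z = q then 1 else 0)
        linarith
      · rw [Finset.sum_add_distrib, Finset.sum_sub_distrib, ← Finset.mul_sum, ← Finset.mul_sum,
          hsν, hμ.s1, Finset.sum_ite_eq', if_pos hqX]
        ring
      · simp only [add_smul, sub_smul, mul_smul]
        rw [Finset.sum_add_distrib, Finset.sum_sub_distrib, ← Finset.smul_sum, ← Finset.smul_sum,
          hsνy, hμ.sy]
        simp only [ite_smul, one_smul, zero_smul]
        rw [Finset.sum_ite_eq', if_pos hqX]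
        abel
    have hc := hmin _ hg
    have hc2 : BGT_cost X (fun z => μ z - ε * ν' z + ε * (if z = q then 1 else 0)) =
        BGT_cost X μ - ε * (∑ z ∈ BGT_supp X μ, ν z * BGT_c z) + ε * BGT_c q := by
      rw [← hsνc]
      have e1 : BGT_c q = ∑ z ∈ X, (if z = q then (1 : ℝ) else 0) * BGT_c z := by
        simp only [ite_mul, one_mul, zero_mul]
        rw [Finset.sum_ite_eq', if_pos hqX]
      rw [e1]
      unfold BGT_cost
      rw [Finset.mul_sum, Finset.mul_sum, ← Finset.sum_sub_distrib, ← Finset.sum_add_distrib]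
      exact Finset.sum_congr rfl fun z _ => by ring
    rw [hc2] at hc
    have h9 := mul_lt_mul_of_pos_left hconv hε
    linarith

end H66OD

end S_BGT

section S_FLP

/-!
# Row FLP (about 40 lines): the integer points of `P` form a finite set

PROOF. All coordinates of the finitely many vertices are in `[-B,B]` for some integer `B`, so all points of the
hull have coordinates in `[-B,B]` (`convexHull_min` in the convex set `Set.Icc`). Take the filter of
`Finset.Icc (fun _ => -B) (fun _ => B)` by `toR z ∈ P` (classical).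
-/

namespace H66OD

theorem flp {P : Set (Fin 3 → ℝ)} (D : SmoothData P) :
    ∃ L : Finset (Fin 3 → ℤ), ∀ z, z ∈ L ↔ toR z ∈ P := by
  classical
  obtain ⟨B, hB⟩ : ∃ B : ℤ, ∀ v ∈ D.Vt, ∀ i, |v i| ≤ B := by
    refine ⟨∑ v ∈ D.Vt, ∑ i, |v i|, fun v hv i => ?_⟩
    calc |v i| ≤ ∑ i, |v i| :=
          Finset.single_le_sum (f := fun i => |v i|) (fun j _ => abs_nonneg _) (Finset.mem_univ i)
      _ ≤ _ := Finset.single_le_sum (f := fun v : Fin 3 → ℤ => ∑ i, |v i|)
          (fun w _ => Finset.sum_nonneg (fun j _ => abs_nonneg _)) hv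
  have hsub : P ⊆ Set.Icc (fun _ => -(B : ℝ)) (fun _ => (B : ℝ)) := by
    rw [D.hull]
    apply convexHull_min
    · rintro _ ⟨w, hw, rfl⟩
      constructor
      · intro i
        have := (abs_le.mp (hB w hw i)).1
        simp only [toR_apply]
        exact_mod_cast this
      · intro i
        have := (abs_le.mp (hB w hw i)).2
        simp only [toR_apply]
        exact_mod_cast this
    · exact convex_Icc _ _
  refine ⟨(Finset.Icc (fun _ => -B) (fun _ => B)).filter (fun z => toR z ∈ P), fun z => ?_⟩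
  rw [Finset.mem_filter, Finset.mem_Icc]
  constructor
  · exact fun h => h.2
  · intro h
    refine ⟨⟨fun i => ?_, fun i => ?_⟩, h⟩
    · have := (hsub h).1 i
      simp only [toR_apply] at this
      exact_mod_cast this
    · have := (hsub h).2 i
      simp only [toR_apply] at this
      exact_mod_cast this

end H66OD

end S_FLP

section S_HRP

/-!
# Row HRP (about 60 lines): `P` is the intersection of its tangent cones

PROOF. Suppose `y ∉ P`. `P` is convex and closed (hull of a finite set), so there is a continuous linear `f` and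
`r` with `f x < r < f y` for `x ∈ P` (`geometric_hahn_banach_closed_point`). Let `v ∈ Vt` maximise `f (toR v)`
over the finite nonempty `Vt`; then `f ≤ f (toR v)` on `P = conv`. `toR (v + e v i) ∈ P` gives
`f (toR (e v i)) ≤ 0`. By `span` applied to `y - toR v`:
`f y = f (toR v) + Σ (toR (u v i) ⬝ᵥ (y - toR v)) f (toR (e v i)) ≤ f (toR v) < r < f y`. Contradiction.
-/

open Matrix

namespace H66OD

theorem hrp {P : Set (Fin 3 → ℝ)} (D : SmoothData P) (y : Fin 3 → ℝ)
    (h : ∀ v ∈ D.Vt, ∀ i, 0 ≤ toR (D.u v i) ⬝ᵥ (y - toR v)) : y ∈ P := by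
  by_contra hy
  have hfin : (toR '' (D.Vt : Set (Fin 3 → ℤ))).Finite := D.Vt.finite_toSet.image _
  have hconv : Convex ℝ P := by
    rw [D.hull]
    exact convex_convexHull ℝ _
  have hclosed : IsClosed P := by
    rw [D.hull]
    exact hfin.isClosed_convexHull (𝕜 := ℝ)
  obtain ⟨f, r, hf1, hf2⟩ := geometric_hahn_banach_closed_point hconv hclosed hy
  obtain ⟨v, hv, hmax⟩ := D.Vt.exists_max_image (fun v => f (toR v)) D.ne
  have hvP : toR v ∈ P := by
    rw [D.hull]
    exact subset_convexHull ℝ _ ⟨v, hv, rfl⟩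
  have hle : ∀ x ∈ P, f x ≤ f (toR v) := by
    intro x hx
    have hsub : P ⊆ {w | f w ≤ f (toR v)} := by
      rw [D.hull]
      apply convexHull_min
      · rintro _ ⟨w, hw, rfl⟩
        exact hmax w hw
      · exact convex_halfSpace_le f.toLinearMap.isLinear (f (toR v))
    exact hsub hx
  have he : ∀ i, f (toR (D.e v i)) ≤ 0 := by
    intro i
    have h1 := hle _ (D.mem v hv i)
    rw [toR_add, map_add] at h1
    linarith
  have hs : f (y - toR v) = ∑ i, (toR (D.u v i) ⬝ᵥ (y - toR v)) * f (toR (D.e v i)) := by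
    have h1 := congrArg f (D.span v hv (y - toR v))
    rw [h1, map_sum]
    apply Finset.sum_congr rfl
    intro i _
    rw [map_smul, smul_eq_mul]
  have hneg : f (y - toR v) ≤ 0 := by
    rw [hs]
    apply Finset.sum_nonpos
    intro i _
    exact mul_nonpos_of_nonneg_of_nonpos (h v hv i) (he i)
  rw [map_sub] at hneg
  have h2 := hf1 _ hvP
  linarith

end H66OD

end S_HRP

section S_FV

/-!
# Row FV (about 120 lines): facets at their vertices

`h(x) = u v0 i0 ⬝ (x - v0)` is a facet functional, `w ∈ Vt` with `h(w) = 0`. Then `u v0 i0 = u w i` for some `i`.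

PROOF. Let `U = u v0 i0`, `c i = U ⬝ᵥ e w i` (integers), `c i ≥ 0` by `cone` at `v0` for the point
`w + e w i ∈ P` and `h(w) = 0`. Let `x ∈ P` with `h(x) = 0`: `x - w = Σ α i e w i`, `α i = u w i ⬝ (x - w) ≥ 0`,
`0 = h(x) - h(w) = Σ α i c i`, so `α i = 0` whenever `c i > 0`. If two of the `c i` are positive, every such
`x - w` is a multiple of the third vector `e w k`. Apply this to `x = v0`, `v0 + e v0 i'`, `v0 + e v0 i''`
(`i', i''` the two indices `≠ i0`; they are in `P` with `h = 0`): the differences `e v0 i'`, `e v0 i''` are both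
multiples of `toR (e w k)`, so linearly dependent: but `u v0 i' ⬝ e v0 i' = 1`, `u v0 i' ⬝ e v0 i'' = 0`,
`u v0 i'' ⬝ e v0 i'' = 1`: `e v0 i' = α E`, `e v0 i'' = β E`; `α (u' ⬝ E) = 1`, `β (u' ⬝ E) = 0` so `β = 0`, but
`β (u'' ⬝ E) = 1`: contradiction. If all `c i = 0`: `U ⬝ e v0 i0 = 1` but `e v0 i0 = Σ (..) e w i` gives `0`.
So exactly one `c i` is positive: by `span` at `w`, `U ⬝ x = Σ_j (u w j ⬝ x) c j = c i (u w i ⬝ x)` for all `x`, so
`U = c i • u w i` (test on standard basis vectors), and `1 = U ⬝ e v0 i0 = c i (u w i ⬝ e v0 i0)` with integers,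
`c i > 0`, so `c i = 1`.
-/

set_option autoImplicit false

open Matrix

namespace H66OD

/-- Points of the facet in the coordinates of `w`. -/
theorem FV_coef {P : Set (Fin 3 → ℝ)} (D : SmoothData P) (w : Fin 3 → ℤ) (hw : w ∈ D.Vt)
    (U v0 : Fin 3 → ℤ) (h : U ⬝ᵥ (w - v0) = 0) (hc : ∀ i, 0 ≤ U ⬝ᵥ D.e w i)
    (x : Fin 3 → ℝ) (hx : x ∈ P) (hx0 : toR U ⬝ᵥ (x - toR v0) = 0) :
    ∀ i, U ⬝ᵥ D.e w i ≠ 0 → toR (D.u w i) ⬝ᵥ (x - toR w) = 0 := by
  have h1 : toR U ⬝ᵥ (x - toR w) = 0 := by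
    have h2 : toR U ⬝ᵥ (toR w - toR v0) = 0 := by
      rw [← toR_sub, toR_dot, h, Int.cast_zero]
    have h3 : x - toR w = (x - toR v0) - (toR w - toR v0) := by abel
    rw [h3, dotProduct_sub, hx0, h2, sub_zero]
  have h4 : toR U ⬝ᵥ (x - toR w) =
      ∑ i, (toR (D.u w i) ⬝ᵥ (x - toR w)) * ((U ⬝ᵥ D.e w i : ℤ) : ℝ) := by
    conv_lhs => rw [D.span w hw (x - toR w)]
    rw [dotProduct_sum]
    refine Finset.sum_congr rfl fun i _ => ?_
    rw [dotProduct_smul, toR_dot, smul_eq_mul]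
  rw [h1] at h4
  have h5 := (Finset.sum_eq_zero_iff_of_nonneg (fun i _ => mul_nonneg (D.cone w hw i x hx)
    (by exact_mod_cast hc i))).1 h4.symm
  intro i hi
  rcases mul_eq_zero.1 (h5 i (Finset.mem_univ i)) with h6 | h6
  · exact h6
  · exact absurd (by exact_mod_cast h6) hi

theorem FV_mem {P : Set (Fin 3 → ℝ)} (D : SmoothData P) (w : Fin 3 → ℤ) (hw : w ∈ D.Vt) :
    toR w ∈ P := by
  rw [D.hull]
  exact subset_convexHull ℝ _ ⟨w, hw, rfl⟩

theorem fv {P : Set (Fin 3 → ℝ)} (D : SmoothData P) (v0 : Fin 3 → ℤ) (hv0 : v0 ∈ D.Vt)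
    (i0 : Fin 3) (w : Fin 3 → ℤ) (hw : w ∈ D.Vt) (h : D.u v0 i0 ⬝ᵥ (w - v0) = 0) :
    ∃ i, D.u w i = D.u v0 i0 := by
  have hc : ∀ i, 0 ≤ D.u v0 i0 ⬝ᵥ D.e w i := by
    intro i
    have h1 := D.cone v0 hv0 i0 _ (D.mem w hw i)
    rw [← toR_sub, toR_dot, show w + D.e w i - v0 = (w - v0) + D.e w i by abel,
      dotProduct_add, h, zero_add] at h1
    exact_mod_cast h1
  have hco := FV_coef D w hw (D.u v0 i0) v0 h hc
  -- the expansion in the basis at `w`
  have hexp : ∀ x : Fin 3 → ℝ, toR (D.u v0 i0) ⬝ᵥ x =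
      ∑ i, (toR (D.u w i) ⬝ᵥ x) * ((D.u v0 i0 ⬝ᵥ D.e w i : ℤ) : ℝ) := by
    intro x
    conv_lhs => rw [D.span w hw x]
    rw [dotProduct_sum]
    refine Finset.sum_congr rfl fun i _ => ?_
    rw [dotProduct_smul, toR_dot, smul_eq_mul]
  have hone : toR (D.u v0 i0) ⬝ᵥ toR (D.e v0 i0) = 1 := by
    rw [toR_dot, D.dual v0 hv0, if_pos rfl, Int.cast_one]
  have hno : ¬ ∃ k, ∀ l, l ≠ k → D.u v0 i0 ⬝ᵥ D.e w l ≠ 0 := by
    rintro ⟨k, hk⟩
    have hx : ∀ x ∈ P, toR (D.u v0 i0) ⬝ᵥ (x - toR v0) = 0 →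
        x - toR w = (toR (D.u w k) ⬝ᵥ (x - toR w)) • toR (D.e w k) := by
      intro x hx hx0
      conv_lhs => rw [D.span w hw (x - toR w)]
      rw [Finset.sum_eq_single k]
      · intro l _ hl
        rw [hco x hx hx0 l (hk l hl), zero_smul]
      · intro hh; exact absurd (Finset.mem_univ k) hh
    obtain ⟨i1, i2, h10, h20, h12⟩ : ∃ i1 i2 : Fin 3, i1 ≠ i0 ∧ i2 ≠ i0 ∧ i1 ≠ i2 := by
      fin_cases i0
      · exact ⟨1, 2, by decide, by decide, by decide⟩
      · exact ⟨0, 2, by decide, by decide, by decide⟩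
      · exact ⟨0, 1, by decide, by decide, by decide⟩
    have hmul : ∀ i, i ≠ i0 → ∃ α : ℝ, toR (D.e v0 i) = α • toR (D.e w k) := by
      intro i hi
      have e1 := hx (toR (v0 + D.e v0 i)) (D.mem v0 hv0 i) (by
        rw [← toR_sub, toR_dot, add_sub_cancel_left, D.dual v0 hv0, if_neg (Ne.symm hi),
          Int.cast_zero])
      have e2 := hx (toR v0) (FV_mem D v0 hv0) (by rw [sub_self, dotProduct_zero])
      refine ⟨toR (D.u w k) ⬝ᵥ (toR (v0 + D.e v0 i) - toR w) -
        toR (D.u w k) ⬝ᵥ (toR v0 - toR w), ?_⟩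
      rw [sub_smul, ← e1, ← e2, toR_add]
      abel
    obtain ⟨α, hα⟩ := hmul i1 h10
    obtain ⟨β, hβ⟩ := hmul i2 h20
    have f1 : toR (D.u v0 i1) ⬝ᵥ toR (D.e v0 i1) = 1 := by
      rw [toR_dot, D.dual v0 hv0, if_pos rfl, Int.cast_one]
    have f2 : toR (D.u v0 i1) ⬝ᵥ toR (D.e v0 i2) = 0 := by
      rw [toR_dot, D.dual v0 hv0, if_neg h12, Int.cast_zero]
    have f3 : toR (D.u v0 i2) ⬝ᵥ toR (D.e v0 i2) = 1 := by
      rw [toR_dot, D.dual v0 hv0, if_pos rfl, Int.cast_one]
    rw [hα, dotProduct_smul, smul_eq_mul] at f1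
    rw [hβ, dotProduct_smul, smul_eq_mul] at f2 f3
    rcases mul_eq_zero.1 f2 with g | g
    · rw [g, zero_mul] at f3
      exact zero_ne_one f3
    · rw [g, mul_zero] at f1
      exact zero_ne_one f1
  have hex : ∃ i, D.u v0 i0 ⬝ᵥ D.e w i ≠ 0 := by
    by_contra hall
    push Not at hall
    rw [hexp, Finset.sum_eq_zero (fun i _ => by rw [hall i, Int.cast_zero, mul_zero])] at hone
    exact zero_ne_one hone
  obtain ⟨i, hi⟩ := hex
  have hz : ∀ l, l ≠ i → D.u v0 i0 ⬝ᵥ D.e w l = 0 := by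
    intro l hl
    by_contra hne
    obtain ⟨k, hk⟩ : ∃ k : Fin 3, ∀ m, m ≠ k → m = l ∨ m = i := by
      revert hl
      fin_cases l <;> fin_cases i <;> decide
    apply hno
    refine ⟨k, fun m hm => ?_⟩
    rcases hk m hm with rfl | rfl
    · exact hne
    · exact hi
  have hexp2 : ∀ x : Fin 3 → ℝ, toR (D.u v0 i0) ⬝ᵥ x =
      (toR (D.u w i) ⬝ᵥ x) * ((D.u v0 i0 ⬝ᵥ D.e w i : ℤ) : ℝ) := by
    intro x
    rw [hexp, Finset.sum_eq_single i]
    · intro l _ hl
      rw [hz l hl, Int.cast_zero, mul_zero]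
    · intro hh; exact absurd (Finset.mem_univ i) hh
  have h1 := hexp2 (toR (D.e v0 i0))
  rw [hone, toR_dot] at h1
  have h2 : (1 : ℤ) = (D.u w i ⬝ᵥ D.e v0 i0) * (D.u v0 i0 ⬝ᵥ D.e w i) := by
    exact_mod_cast h1
  have h3 : D.u v0 i0 ⬝ᵥ D.e w i = 1 :=
    Int.eq_one_of_dvd_one (hc i) ⟨_, by rw [mul_comm]; exact h2⟩
  refine ⟨i, ?_⟩
  funext j
  have h4 := hexp2 (Pi.single j 1)
  rw [h3, Int.cast_one, mul_one, dotProduct_single, dotProduct_single, mul_one, mul_one,
    toR_apply, toR_apply] at h4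
  exact_mod_cast h4.symm

end H66OD

end S_FV

section S_SLC

/-!
# Row SLC (about 150 lines): the slices near a facet

`h(x) = u v0 i0 ⬝ (x - v0)`. If `h(y) = s`, and `u w i ⬝ (y - w) ≥ 0` for all vertices `w` with `h(w) = 0` and all
`i`, then `y` is in the hull of the points `w + s e w i`, `w` vertex with `h(w) = 0`, `u w i = u v0 i0`.
(No condition on `s` is needed.)

PROOF. Let `E` be the set of these points (finite: `w ∈ Vt`, `i : Fin 3`), its hull is closed convex. Suppose `y`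
is not in the hull: a continuous linear `f` and `r` with `f z < r < f y` for `z ∈ conv E`. Among the finitely many
`w ∈ Vt` with `h(w) = 0` (nonempty: `v0`) choose `w` maximising `f (toR w)`. Let `i` with `u w i = u v0 i0` (`fv`).
For `j ≠ i`: `x = w + e w j ∈ P` has `h(x) = u w i ⬝ e w j = 0` (`dual`). `x` is a convex combination of `Vt`; `h ≥ 0`
on `Vt` (`cone`), so all vertices `w'` with positive coefficient have `h(w') = 0`, hence
`f (toR x) ≤ f (toR w)`, `f (toR (e w j)) ≤ 0`. By `span` at `w`: `y = w + Σ_j (u w j ⬝ (y - w)) e w j`, where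
`u w i ⬝ (y - w) = h(y) - h(w) = s` (`u w i ⬝ (y - w) = u v0 i0 ⬝ (y - v0) - u v0 i0 ⬝ (w - v0)`). So
`f y = f (w + s e w i) + Σ_{j ≠ i} (u w j ⬝ (y - w)) f (e w j) ≤ f (w + s e w i) < r < f y`: contradiction.
-/

open Matrix

namespace H66OD

theorem slc {P : Set (Fin 3 → ℝ)} (D : SmoothData P) (v0 : Fin 3 → ℤ) (hv0 : v0 ∈ D.Vt)
    (i0 : Fin 3) (s : ℝ) (y : Fin 3 → ℝ) (hy : toR (D.u v0 i0) ⬝ᵥ (y - toR v0) = s)
    (hadj : ∀ w ∈ D.Vt, D.u v0 i0 ⬝ᵥ (w - v0) = 0 → ∀ i, 0 ≤ toR (D.u w i) ⬝ᵥ (y - toR w)) :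
    y ∈ convexHull ℝ {z : Fin 3 → ℝ | ∃ w ∈ D.Vt, ∃ i, D.u v0 i0 ⬝ᵥ (w - v0) = 0 ∧
      D.u w i = D.u v0 i0 ∧ z = toR w + s • toR (D.e w i)} := by
  classical
  obtain ⟨U, hU⟩ : ∃ U, U = D.u v0 i0 := ⟨_, rfl⟩
  rw [← hU] at hy hadj ⊢
  obtain ⟨E, hE⟩ : ∃ E : Set (Fin 3 → ℝ), E = {z : Fin 3 → ℝ | ∃ w ∈ D.Vt, ∃ i,
    U ⬝ᵥ (w - v0) = 0 ∧ D.u w i = U ∧ z = toR w + s • toR (D.e w i)} := ⟨_, rfl⟩
  rw [← hE]
  have hfin : E.Finite := by
    refine ((D.Vt ×ˢ (Finset.univ : Finset (Fin 3))).finite_toSet.image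
      (fun p : (Fin 3 → ℤ) × Fin 3 => toR p.1 + s • toR (D.e p.1 p.2))).subset ?_
    rw [hE]
    rintro z ⟨w, hw, i, -, -, rfl⟩
    refine ⟨(w, i), ?_, rfl⟩
    rw [Finset.mem_coe, Finset.mem_product]
    exact ⟨hw, Finset.mem_univ i⟩
  by_contra hcon
  obtain ⟨f, r, hf1, hf2⟩ := geometric_hahn_banach_closed_point (convex_convexHull ℝ E)
    (Set.Finite.isCompact_convexHull ℝ hfin).isClosed hcon
  -- the best vertex
  have hWne : (D.Vt.filter (fun w => U ⬝ᵥ (w - v0) = 0)).Nonempty :=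
    ⟨v0, Finset.mem_filter.2 ⟨hv0, by rw [sub_self, dotProduct_zero]⟩⟩
  obtain ⟨w, hw, hmax⟩ := Finset.exists_max_image _ (fun w => f (toR w)) hWne
  rw [Finset.mem_filter] at hw
  obtain ⟨hwV, hw0⟩ := hw
  obtain ⟨i, hi⟩ := fv D v0 hv0 i0 w hwV (by rw [← hU]; exact hw0)
  rw [← hU] at hi
  have hlin : ∀ w' : Fin 3 → ℤ, toR U ⬝ᵥ (toR w' - toR v0) = ((U ⬝ᵥ (w' - v0) : ℤ) : ℝ) := by
    intro w'
    rw [← toR_sub, toR_dot]
  -- the convex set
  have hconv : Convex ℝ {z : Fin 3 → ℝ | 0 ≤ toR U ⬝ᵥ (z - toR v0) ∧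
      (toR U ⬝ᵥ (z - toR v0) = 0 → f z ≤ f (toR w))} := by
    rw [convex_iff_forall_pos]
    rintro x ⟨hx1, hx2⟩ z ⟨hz1, hz2⟩ a b ha hb hab
    have e : toR U ⬝ᵥ (a • x + b • z - toR v0) =
        a * (toR U ⬝ᵥ (x - toR v0)) + b * (toR U ⬝ᵥ (z - toR v0)) := by
      have e1 : a • x + b • z - toR v0 = a • (x - toR v0) + b • (z - toR v0) := by
        have e2 : toR v0 = (a + b) • toR v0 := by rw [hab, one_smul]
        conv_lhs => rw [e2]
        module
      rw [e1, dotProduct_add, dotProduct_smul, dotProduct_smul, smul_eq_mul, smul_eq_mul]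
    refine ⟨?_, ?_⟩
    · rw [e]; positivity
    · intro h0
      rw [e] at h0
      have h1 := mul_nonneg ha.le hx1
      have h2 := mul_nonneg hb.le hz1
      have h3 : a * (toR U ⬝ᵥ (x - toR v0)) = 0 := by linarith
      have h4 : b * (toR U ⬝ᵥ (z - toR v0)) = 0 := by linarith
      have h5 := hx2 ((mul_eq_zero.1 h3).resolve_left ha.ne')
      have h6 := hz2 ((mul_eq_zero.1 h4).resolve_left hb.ne')
      rw [map_add, map_smul, map_smul, smul_eq_mul, smul_eq_mul]
      calc a * f x + b * f z ≤ a * f (toR w) + b * f (toR w) :=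
            add_le_add (mul_le_mul_of_nonneg_left h5 ha.le) (mul_le_mul_of_nonneg_left h6 hb.le)
        _ = f (toR w) := by rw [← add_mul, hab, one_mul]
  have hPsub : P ⊆ {z : Fin 3 → ℝ | 0 ≤ toR U ⬝ᵥ (z - toR v0) ∧
      (toR U ⬝ᵥ (z - toR v0) = 0 → f z ≤ f (toR w))} := by
    conv_lhs => rw [D.hull]
    refine convexHull_min ?_ hconv
    rintro _ ⟨w', hw', rfl⟩
    have hw'P : toR w' ∈ P := by
      rw [D.hull]
      exact subset_convexHull ℝ _ ⟨w', hw', rfl⟩
    refine ⟨?_, ?_⟩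
    · rw [hU]
      exact D.cone v0 hv0 i0 _ hw'P
    · intro h0
      rw [hlin] at h0
      have h1 : U ⬝ᵥ (w' - v0) = 0 := by exact_mod_cast h0
      exact hmax w' (Finset.mem_filter.2 ⟨hw', h1⟩)
  have hfe : ∀ j, j ≠ i → f (toR (D.e w j)) ≤ 0 := by
    intro j hj
    have h1 := hPsub (D.mem w hwV j)
    have h2 : toR U ⬝ᵥ (toR (w + D.e w j) - toR v0) = 0 := by
      rw [hlin]
      have h3 : U ⬝ᵥ (w + D.e w j - v0) = 0 := by
        have e1 : w + D.e w j - v0 = (w - v0) + D.e w j := by abel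
        rw [e1, dotProduct_add, hw0, zero_add, ← hi, D.dual w hwV i j, if_neg (Ne.symm hj)]
      rw [h3, Int.cast_zero]
    have h3 := h1.2 h2
    rw [toR_add, map_add] at h3
    linarith
  have hui : toR (D.u w i) ⬝ᵥ (y - toR w) = s := by
    rw [hi]
    have e1 : y - toR w = (y - toR v0) - (toR w - toR v0) := by abel
    rw [e1, dotProduct_sub, hy, hlin, hw0, Int.cast_zero, sub_zero]
  have hspan := D.span w hwV (y - toR w)
  have hfy : f y = f (toR w) + ∑ j, (toR (D.u w j) ⬝ᵥ (y - toR w)) * f (toR (D.e w j)) := by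
    have e1 : y = toR w + (y - toR w) := by abel
    conv_lhs => rw [e1, hspan]
    rw [map_add, map_sum]
    congr 1
    exact Finset.sum_congr rfl fun j _ => by rw [map_smul, smul_eq_mul]
  have hsum : ∑ j, (toR (D.u w j) ⬝ᵥ (y - toR w)) * f (toR (D.e w j)) ≤ s * f (toR (D.e w i)) := by
    rw [← Finset.add_sum_erase Finset.univ _ (Finset.mem_univ i), hui]
    have h1 : ∑ j ∈ Finset.univ.erase i, (toR (D.u w j) ⬝ᵥ (y - toR w)) * f (toR (D.e w j)) ≤ 0 := by
      refine Finset.sum_nonpos fun j hj => ?_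
      exact mul_nonpos_of_nonneg_of_nonpos (hadj w hwV hw0 j) (hfe j (Finset.ne_of_mem_erase hj))
    linarith
  have hz : toR w + s • toR (D.e w i) ∈ convexHull ℝ E := by
    refine subset_convexHull ℝ E ?_
    rw [hE]
    exact ⟨w, hwV, i, hw0, hi, rfl⟩
  have h1 := hf1 _ hz
  rw [map_add, map_smul, smul_eq_mul] at h1
  linarith

end H66OD

end S_SLC
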