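import Pool.Agent.H66.OD.Defs

/-! Oda in dimension three, part G8: this file joins the modules K1D STP S1 to save build time. -/

section S_K1D

/-!
# Row K1D (about 250 lines): a one-dimensional inequality for convex piecewise linear functions

`F t = max_{w ∈ I} (α w + t σ w)`, all slopes in `θ/2 + ℤ`, `F ≥ 0`, some slope `≥ 3/2`, some `≤ -3/2`; whenever `w`
is a maximiser at `a < b` and `|σ w| < 3/2` then `3 (b-a) ≤ F a + F b`. Then `F s + F t ≥ (3/2)(t - s)`, `s ≤ t`.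

PROOF. `F` is continuous (finite maximum) and convex. For `-3/2 < τ < 3/2` the function `F t - τ t` is continuous
and tends to `+∞` at `±∞` (it dominates `α w + t(σ w - τ)` for a `w` with `σ w ≥ 3/2`, and one with
`σ w ≤ -3/2`), so it has a minimum at some `p τ`:  `F t ≥ F (p τ) + τ (t - p τ)` for all `t`.   (1)
(2) If `τ < τ'` then `p τ ≤ p τ'` (add (1) for `τ` at `t = p τ'` and for `τ'` at `t = p τ`).
(3) Let `τ ≤ τ'`, `a = p τ < m < b = p τ'`, `w` a maximiser at `m`. Then `τ ≤ σ w ≤ τ'`: by (1)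
 `F m ≥ F a + τ (m-a)` and `F a ≥ α w + a σ w = F m - σ w (m-a)`, so `σ w ≥ τ`; in the same way from `b`.
(4) Let `τ < τ'` be such that `μ` is the only number of `θ/2 + ℤ` in `[τ,τ']`, `|μ| < 3/2`; `a = p τ`,
 `b = p τ'`. Then `F t = F b + μ (t - b)` for `t ∈ [a,b]` and `3 (b-a) ≤ F a + F b`. Proof: trivial if `a = b` (`F ≥ 0`).
 If `a < b`: all maximisers at interior points have slope `μ` by (3). Take `m = (a+b)/2` with maximiser `w`. For
 `m' ∈ (a,b)` with maximiser `w'`: `F m' = α w' + m' μ ≥ α w + m' μ` and `F m = α w + m μ ≥ α w' + m μ`, so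
 `α w = α w'` and `F m' = α w + m' μ`. By continuity `F a = α w + a μ`, `F b = α w + b μ`. So `w` is a maximiser at
 `a` and `b`: hypothesis `hK`.
(5) Let `a = p (-5/4)`. For `t ≤ a`: `F t ≥ F a + (3/2)(a - t)`. Proof: for `m < a` with maximiser `w`:
 `F a ≥ F m + σ w (a-m)` and `F m ≥ F a - (5/4)(m - a)`... so `σ w ≤ -5/4`, hence `σ w ≤ -3/2` (slopes are in
 `θ/2 + ℤ ⊆ ½ℤ`). For `t < m < a`: `F t ≥ α w + t σ w = F m + σ w (t - m) ≥ F m + (3/2)(m - t)`; let `m → a`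
 (continuity). In the same way for `t ≥ b = p (5/4)`: `F t ≥ F b + (3/2)(t - b)`.
(6) `θ` even (slopes are integers): `t0 = p(-5/4) ≤ t1 = p(-1/2) ≤ t2 = p(1/2) ≤ t3 = p(5/4)`, with `μ = -1, 0, 1` in (4).
 `M = F t1 = F t2`. On `[t0,t1]` `F t = M + (t1 - t)`, on `[t1,t2]` `F = M`, on `[t2,t3]` `F t = M + (t - t2)`;
 `3(t1-t0) ≤ 2M + (t1-t0)`, `3 (t2-t1) ≤ 2M`, `3 (t3-t2) ≤ 2M + (t3-t2)`. The claim for `s ≤ t` follows in each of
 the 15 cases for the positions of `s ≤ t` relative to `t0,t1,t2,t3` by `linarith` (use `F ≥ 0` when both are on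
 the same outer side).
 `θ` odd: `t0 = p(-5/4) ≤ t1 = p 0 ≤ t3 = p(5/4)`, `μ = -1/2, 1/2`; `M = F t1`, on `[t0,t1]` `F t = M + (t1-t)/2`,
 `3(t1-t0) ≤ 2M + (t1-t0)/2`, and the same on the right. Again `linarith` in each case.
-/

namespace H66OD

private theorem K1D_cont {W : Type} (I : Finset W) (α σ : W → ℝ) (F : ℝ → ℝ)
    (hle : ∀ t, ∀ w ∈ I, α w + t * σ w ≤ F t) (hex : ∀ t, ∃ w ∈ I, F t = α w + t * σ w) :
    Continuous F := by
  have hL : ∀ w ∈ I, |σ w| ≤ ∑ v ∈ I, |σ v| := fun w hw =>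
    Finset.single_le_sum (f := fun v => |σ v|) (fun v _ => abs_nonneg _) hw
  have h1 : ∀ a b, F a ≤ F b + (∑ v ∈ I, |σ v|) * |a - b| := by
    intro a b
    obtain ⟨w, hw, hwa⟩ := hex a
    have h2 := hle b w hw
    have h3 : (a - b) * σ w ≤ (∑ v ∈ I, |σ v|) * |a - b| := by
      calc (a - b) * σ w ≤ |(a - b) * σ w| := le_abs_self _
        _ = |σ w| * |a - b| := by rw [abs_mul, mul_comm]
        _ ≤ _ := mul_le_mul_of_nonneg_right (hL w hw) (abs_nonneg _)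
    rw [hwa]
    linarith
  have hnn : 0 ≤ ∑ v ∈ I, |σ v| := Finset.sum_nonneg fun v _ => abs_nonneg _
  refine (LipschitzWith.of_dist_le_mul (K := ⟨∑ v ∈ I, |σ v|, hnn⟩) fun a b => ?_).continuous
  rw [Real.dist_eq, Real.dist_eq]
  show |F a - F b| ≤ (∑ v ∈ I, |σ v|) * |a - b|
  rw [abs_le]
  have h4 := h1 a b
  have h5 := h1 b a
  rw [abs_sub_comm b a] at h5
  constructor <;> linarith

private theorem K1D_min {W : Type} (I : Finset W) (α σ : W → ℝ) (F : ℝ → ℝ)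
    (hc : Continuous F)
    (hle : ∀ t, ∀ w ∈ I, α w + t * σ w ≤ F t)
    (hpos : ∃ w ∈ I, 3 / 2 ≤ σ w) (hneg : ∃ w ∈ I, σ w ≤ -(3 / 2)) (τ : ℝ) (h1 : -(3 / 2) < τ)
    (h2 : τ < 3 / 2) : ∃ p, ∀ t, F p + τ * (t - p) ≤ F t := by
  obtain ⟨w, hw, hws⟩ := hpos
  obtain ⟨v, hv, hvs⟩ := hneg
  have hd1 : 0 < σ w - τ := by linarith
  have hd2 : 0 < τ - σ v := by linarith
  obtain ⟨R, hR0, hR1, hR2⟩ : ∃ R : ℝ, 0 ≤ R ∧ |F 0 - α w| / (σ w - τ) ≤ R ∧
      |F 0 - α v| / (τ - σ v) ≤ R := by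
    refine ⟨max (|F 0 - α w| / (σ w - τ)) (|F 0 - α v| / (τ - σ v)), ?_, le_max_left _ _,
      le_max_right _ _⟩
    exact le_trans (by positivity) (le_max_left _ _)
  have hcont : ContinuousOn (fun t => F t - τ * t) (Set.Icc (-R) R) := by
    have : Continuous fun t => F t - τ * t := hc.sub (continuous_const.mul continuous_id)
    exact this.continuousOn
  obtain ⟨p, hp, hpm⟩ := isCompact_Icc.exists_isMinOn (s := Set.Icc (-R) R)
    ⟨0, by constructor <;> linarith⟩ hcont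
  have hp0 : F p - τ * p ≤ F 0 := by
    have := hpm (show (0 : ℝ) ∈ Set.Icc (-R) R by constructor <;> linarith)
    have h3 : F p - τ * p ≤ F 0 - τ * 0 := this
    linarith
  refine ⟨p, fun t => ?_⟩
  rcases lt_or_ge t (-R) with h3 | h3
  · have h4 := hle t v hv
    have h5 : |F 0 - α v| ≤ R * (τ - σ v) := (div_le_iff₀ hd2).1 hR2
    have h6 := le_abs_self (F 0 - α v)
    have h7 : R * (τ - σ v) ≤ (-t) * (τ - σ v) := mul_le_mul_of_nonneg_right (by linarith) hd2.le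
    nlinarith
  rcases lt_or_ge R t with h4 | h4
  · have h5 := hle t w hw
    have h6 : |F 0 - α w| ≤ R * (σ w - τ) := (div_le_iff₀ hd1).1 hR1
    have h7 := le_abs_self (F 0 - α w)
    have h8 : R * (σ w - τ) ≤ t * (σ w - τ) := mul_le_mul_of_nonneg_right (by linarith) hd1.le
    nlinarith
  · have h5 : F p - τ * p ≤ F t - τ * t := hpm (show t ∈ Set.Icc (-R) R from ⟨h3, h4⟩)
    linarith

private theorem K1D_mono {F : ℝ → ℝ} {p q τ τ' : ℝ} (h : τ < τ')
    (hp : ∀ t, F p + τ * (t - p) ≤ F t) (hq : ∀ t, F q + τ' * (t - q) ≤ F t) : p ≤ q := by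
  have h1 := hp q
  have h2 := hq p
  have h3 : 0 ≤ (τ' - τ) * (q - p) := by linarith
  have h4 : 0 ≤ q - p := nonneg_of_mul_nonneg_right h3 (by linarith)
  linarith

private theorem K1D_mid {W : Type} (I : Finset W) (α σ : W → ℝ) (F : ℝ → ℝ)
    (hc : Continuous F)
    (hle : ∀ t, ∀ w ∈ I, α w + t * σ w ≤ F t) (hex : ∀ t, ∃ w ∈ I, F t = α w + t * σ w)
    (h0 : ∀ t, 0 ≤ F t)
    (hK : ∀ w ∈ I, ∀ a b, a < b → F a = α w + a * σ w → F b = α w + b * σ w → |σ w| < 3 / 2 →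
      3 * (b - a) ≤ F a + F b) {τ τ' μ a b : ℝ} (hab : a ≤ b) (hμ : |μ| < 3 / 2)
    (ha : ∀ t, F a + τ * (t - a) ≤ F t) (hb : ∀ t, F b + τ' * (t - b) ≤ F t)
    (hσ : ∀ w ∈ I, τ ≤ σ w → σ w ≤ τ' → σ w = μ) :
    3 * (b - a) ≤ F a + F b ∧ ∀ t, a ≤ t → t ≤ b → F t = F b + μ * (t - b) := by
  rcases eq_or_lt_of_le hab with h | h
  · subst h
    refine ⟨?_, ?_⟩
    · have := h0 a
      linarith
    · intro t h1 h2
      have : t = a := le_antisymm h2 h1
      rw [this]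
      ring
  · -- slopes at interior points
    have hs : ∀ m, a < m → m < b → ∀ w ∈ I, F m = α w + m * σ w → σ w = μ := by
      intro m h1 h2 w hw hm
      refine hσ w hw ?_ ?_
      · have h3 := ha m
        have h4 := hle a w hw
        have h5 : 0 ≤ (σ w - τ) * (m - a) := by linarith
        have h6 := nonneg_of_mul_nonneg_left h5 (by linarith)
        linarith
      · have h3 := hb m
        have h4 := hle b w hw
        have h5 : 0 ≤ (τ' - σ w) * (b - m) := by linarith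
        have h6 := nonneg_of_mul_nonneg_left h5 (by linarith)
        linarith
    obtain ⟨w, hw, hwm⟩ := hex ((a + b) / 2)
    have hwμ := hs ((a + b) / 2) (by linarith) (by linarith) w hw hwm
    have hEq : Set.EqOn F (fun t => α w + t * μ) (Set.Ioo a b) := by
      intro m hm
      obtain ⟨v, hv, hvm⟩ := hex m
      have hvμ := hs m hm.1 hm.2 v hv hvm
      have h1 := hle m w hw
      have h2 := hle ((a + b) / 2) v hv
      rw [hvμ] at hvm h2
      rw [hwμ] at hwm h1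
      show F m = α w + m * μ
      linarith
    have hcl : Set.EqOn F (fun t => α w + t * μ) (Set.Icc a b) := by
      rw [← closure_Ioo (ne_of_lt h)]
      exact hEq.closure hc (by fun_prop)
    have e1 : F a = α w + a * μ := hcl ⟨le_refl _, hab⟩
    have e2 : F b = α w + b * μ := hcl ⟨hab, le_refl _⟩
    refine ⟨?_, ?_⟩
    · refine hK w hw a b h ?_ ?_ ?_
      · rw [hwμ]; exact e1
      · rw [hwμ]; exact e2
      · rw [hwμ]; exact hμ
    · intro t h1 h2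
      have e3 : F t = α w + t * μ := hcl ⟨h1, h2⟩
      rw [e3, e2]
      ring

private theorem K1D_left {W : Type} (I : Finset W) (α σ : W → ℝ) (F : ℝ → ℝ)
    (hle : ∀ t, ∀ w ∈ I, α w + t * σ w ≤ F t) (hex : ∀ t, ∃ w ∈ I, F t = α w + t * σ w)
    {a : ℝ} (ha : ∀ t, F a + -(5 / 4) * (t - a) ≤ F t)
    (hσ : ∀ w ∈ I, σ w ≤ -(5 / 4) → σ w ≤ -(3 / 2)) (t : ℝ) (ht : t ≤ a) :
    F a + 3 / 2 * (a - t) ≤ F t := by
  rcases eq_or_lt_of_le ht with h | h
  · rw [h]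
    linarith
  refine le_of_forall_pos_le_add fun ε hε => ?_
  obtain ⟨m, hm1, hm2, hm3⟩ : ∃ m, t < m ∧ m < a ∧ 3 / 2 * (a - m) ≤ ε := by
    refine ⟨a - min (ε / 2) ((a - t) / 2), ?_, ?_, ?_⟩
    · have := min_le_right (ε / 2) ((a - t) / 2)
      linarith
    · have : 0 < min (ε / 2) ((a - t) / 2) := lt_min (by linarith) (by linarith)
      linarith
    · have := min_le_left (ε / 2) ((a - t) / 2)
      linarith
  obtain ⟨w, hw, hwm⟩ := hex m
  have h1 := hle a w hw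
  have h2 := ha m
  have h3 : 0 ≤ (-(5 / 4) - σ w) * (a - m) := by linarith
  have h4 := nonneg_of_mul_nonneg_left h3 (by linarith)
  have h5 := hσ w hw (by linarith)
  have h6 := hle t w hw
  have h7 : 0 ≤ (-(3 / 2) - σ w) * (m - t) := mul_nonneg (by linarith) (by linarith)
  have h8 : F a ≤ F m := by linarith
  nlinarith

private theorem K1D_int {x : ℤ} {a b : ℝ} {y : ℤ} (h1 : a ≤ x) (h2 : (x : ℝ) ≤ b)
    (h3 : (y : ℝ) - 1 < a) (h4 : b < y + 1) : x = y := by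
  have h5 : ((y - 1 : ℤ) : ℝ) < x := by push_cast; linarith
  have h6 : (x : ℝ) < ((y + 1 : ℤ) : ℝ) := by push_cast; linarith
  have h7 : y - 1 < x := by exact_mod_cast h5
  have h8 : x < y + 1 := by exact_mod_cast h6
  omega

private theorem K1D_even {F : ℝ → ℝ} {t0 t1 t2 t3 : ℝ} (h0 : ∀ t, 0 ≤ F t)
    (h01 : t0 ≤ t1) (h12 : t1 ≤ t2) (h23 : t2 ≤ t3)
    (hl : ∀ t, t ≤ t0 → F t0 + 3 / 2 * (t0 - t) ≤ F t)
    (hr : ∀ t, t3 ≤ t → F t3 + 3 / 2 * (t - t3) ≤ F t)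
    (a1 : 3 * (t1 - t0) ≤ F t0 + F t1) (a2 : 3 * (t2 - t1) ≤ F t1 + F t2)
    (a3 : 3 * (t3 - t2) ≤ F t2 + F t3)
    (b1 : ∀ t, t0 ≤ t → t ≤ t1 → F t = F t1 + (-1) * (t - t1))
    (b2 : ∀ t, t1 ≤ t → t ≤ t2 → F t = F t2 + 0 * (t - t2))
    (b3 : ∀ t, t2 ≤ t → t ≤ t3 → F t = F t3 + 1 * (t - t3)) (s t : ℝ) (hst : s ≤ t) :
    3 / 2 * (t - s) ≤ F s + F t := by
  have c0 := b1 t0 (le_refl _) h01
  have c1 := b2 t1 (le_refl _) h12
  have c2 := b3 t2 (le_refl _) h23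
  have z0 := h0 t0
  have z1 := h0 s
  have z2 := h0 t
  have z3 := h0 t3
  rcases le_total s t0 with hs | hs
  · have d1 := hl s hs
    rcases le_total t t0 with ht | ht
    · linarith
    rcases le_total t t1 with ht1 | ht1
    · have d2 := b1 t ht ht1
      linarith
    rcases le_total t t2 with ht2 | ht2
    · have d2 := b2 t ht1 ht2
      linarith
    rcases le_total t t3 with ht3 | ht3
    · have d2 := b3 t ht2 ht3
      linarith
    · have d2 := hr t ht3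
      linarith
  rcases le_total s t1 with hs1 | hs1
  · have d1 := b1 s hs hs1
    rcases le_total t t1 with ht1 | ht1
    · have d2 := b1 t (hs.trans hst) ht1
      linarith
    rcases le_total t t2 with ht2 | ht2
    · have d2 := b2 t ht1 ht2
      linarith
    rcases le_total t t3 with ht3 | ht3
    · have d2 := b3 t ht2 ht3
      linarith
    · have d2 := hr t ht3
      linarith
  rcases le_total s t2 with hs2 | hs2
  · have d1 := b2 s hs1 hs2
    rcases le_total t t2 with ht2 | ht2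
    · have d2 := b2 t (hs1.trans hst) ht2
      linarith
    rcases le_total t t3 with ht3 | ht3
    · have d2 := b3 t ht2 ht3
      linarith
    · have d2 := hr t ht3
      linarith
  rcases le_total s t3 with hs3 | hs3
  · have d1 := b3 s hs2 hs3
    rcases le_total t t3 with ht3 | ht3
    · have d2 := b3 t (hs2.trans hst) ht3
      linarith
    · have d2 := hr t ht3
      linarith
  · have d1 := hr s hs3
    have d2 := hr t (hs3.trans hst)
    linarith

private theorem K1D_odd {F : ℝ → ℝ} {t0 t1 t3 : ℝ} (h0 : ∀ t, 0 ≤ F t)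
    (h01 : t0 ≤ t1) (h13 : t1 ≤ t3)
    (hl : ∀ t, t ≤ t0 → F t0 + 3 / 2 * (t0 - t) ≤ F t)
    (hr : ∀ t, t3 ≤ t → F t3 + 3 / 2 * (t - t3) ≤ F t)
    (a1 : 3 * (t1 - t0) ≤ F t0 + F t1) (a3 : 3 * (t3 - t1) ≤ F t1 + F t3)
    (b1 : ∀ t, t0 ≤ t → t ≤ t1 → F t = F t1 + (-(1 / 2)) * (t - t1))
    (b3 : ∀ t, t1 ≤ t → t ≤ t3 → F t = F t3 + 1 / 2 * (t - t3)) (s t : ℝ) (hst : s ≤ t) :
    3 / 2 * (t - s) ≤ F s + F t := by
  have c0 := b1 t0 (le_refl _) h01
  have c1 := b3 t1 (le_refl _) h13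
  have z0 := h0 t0
  have z1 := h0 s
  have z2 := h0 t
  have z3 := h0 t3
  rcases le_total s t0 with hs | hs
  · have d1 := hl s hs
    rcases le_total t t0 with ht | ht
    · linarith
    rcases le_total t t1 with ht1 | ht1
    · have d2 := b1 t ht ht1
      linarith
    rcases le_total t t3 with ht3 | ht3
    · have d2 := b3 t ht1 ht3
      linarith
    · have d2 := hr t ht3
      linarith
  rcases le_total s t1 with hs1 | hs1
  · have d1 := b1 s hs hs1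
    rcases le_total t t1 with ht1 | ht1
    · have d2 := b1 t (hs.trans hst) ht1
      linarith
    rcases le_total t t3 with ht3 | ht3
    · have d2 := b3 t ht1 ht3
      linarith
    · have d2 := hr t ht3
      linarith
  rcases le_total s t3 with hs3 | hs3
  · have d1 := b3 s hs1 hs3
    rcases le_total t t3 with ht3 | ht3
    · have d2 := b3 t (hs1.trans hst) ht3
      linarith
    · have d2 := hr t ht3
      linarith
  · have d1 := hr s hs3
    have d2 := hr t (hs3.trans hst)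
    linarith

theorem k1d {W : Type} (I : Finset W) (α σ : W → ℝ) (θ : ℤ)
    (hσ : ∀ w ∈ I, ∃ m : ℤ, σ w = m + (θ : ℝ) / 2) (F : ℝ → ℝ)
    (hle : ∀ t, ∀ w ∈ I, α w + t * σ w ≤ F t) (hex : ∀ t, ∃ w ∈ I, F t = α w + t * σ w)
    (h0 : ∀ t, 0 ≤ F t) (hpos : ∃ w ∈ I, 3 / 2 ≤ σ w) (hneg : ∃ w ∈ I, σ w ≤ -(3 / 2))
    (hK : ∀ w ∈ I, ∀ a b, a < b → F a = α w + a * σ w → F b = α w + b * σ w → |σ w| < 3 / 2 →
      3 * (b - a) ≤ F a + F b) (s t : ℝ) (hst : s ≤ t) :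
    3 / 2 * (t - s) ≤ F s + F t := by
  have hc := K1D_cont I α σ F hle hex
  have hmin := K1D_min I α σ F hc hle hpos hneg
  -- slopes are half integers
  have hhalf : ∀ w ∈ I, ∃ x : ℤ, 2 * σ w = x := by
    intro w hw
    obtain ⟨m, hm⟩ := hσ w hw
    refine ⟨2 * m + θ, ?_⟩
    rw [hm]
    push_cast
    ring
  have hgap : ∀ w ∈ I, σ w ≤ -(5 / 4) → σ w ≤ -(3 / 2) := by
    intro w hw h
    obtain ⟨x, hx⟩ := hhalf w hw
    have h1 : (x : ℝ) < ((-2 : ℤ) : ℝ) := by push_cast; linarith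
    have h2 : x < -2 := by exact_mod_cast h1
    have h3 : x ≤ -3 := by omega
    have h4 : (x : ℝ) ≤ -3 := by exact_mod_cast h3
    linarith
  have hgap' : ∀ w ∈ I, 5 / 4 ≤ σ w → 3 / 2 ≤ σ w := by
    intro w hw h
    obtain ⟨x, hx⟩ := hhalf w hw
    have h1 : ((2 : ℤ) : ℝ) < (x : ℝ) := by push_cast; linarith
    have h2 : 2 < x := by exact_mod_cast h1
    have h3 : 3 ≤ x := by omega
    have h4 : (3 : ℝ) ≤ x := by exact_mod_cast h3
    linarith
  obtain ⟨t0, ht0⟩ := hmin (-(5 / 4)) (by norm_num) (by norm_num)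
  obtain ⟨t3, ht3⟩ := hmin (5 / 4) (by norm_num) (by norm_num)
  have hl := K1D_left I α σ F hle hex ht0 hgap
  have hr : ∀ t, t3 ≤ t → F t3 + 3 / 2 * (t - t3) ≤ F t := by
    intro t ht
    have h1 := K1D_left I α (fun w => -σ w) (fun x => F (-x)) (a := -t3)
      (fun x w hw => by
        have := hle (-x) w hw
        show α w + x * (-σ w) ≤ F (-x)
        linarith)
      (fun x => by
        obtain ⟨w, hw, hwx⟩ := hex (-x)
        refine ⟨w, hw, ?_⟩
        show F (-x) = α w + x * (-σ w)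
        rw [hwx]
        ring)
      (fun x => by
        have := ht3 (-x)
        show F (- -t3) + -(5 / 4) * (x - -t3) ≤ F (-x)
        rw [neg_neg]
        linarith)
      (fun w hw h => by
        have h2 : -σ w ≤ -(5 / 4) := h
        have := hgap' w hw (by linarith)
        show -σ w ≤ -(3 / 2)
        linarith) (-t) (by linarith)
    have h2 : F (- -t3) + 3 / 2 * (-t3 - -t) ≤ F (- -t) := h1
    rw [neg_neg, neg_neg] at h2
    linarith
  rcases Int.even_or_odd' θ with ⟨k, hk | hk⟩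
  · -- integer slopes
    have hint : ∀ w ∈ I, ∃ x : ℤ, σ w = x := by
      intro w hw
      obtain ⟨m, hm⟩ := hσ w hw
      refine ⟨m + k, ?_⟩
      rw [hm, hk]
      push_cast
      ring
    obtain ⟨t1, ht1⟩ := hmin (-(1 / 2)) (by norm_num) (by norm_num)
    obtain ⟨t2, ht2⟩ := hmin (1 / 2) (by norm_num) (by norm_num)
    have h01 : t0 ≤ t1 := K1D_mono (by norm_num) ht0 ht1
    have h12 : t1 ≤ t2 := K1D_mono (by norm_num) ht1 ht2
    have h23 : t2 ≤ t3 := K1D_mono (by norm_num) ht2 ht3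
    obtain ⟨a1, b1⟩ := K1D_mid I α σ F hc hle hex h0 hK (μ := -1) h01
      (by rw [abs_neg, abs_one]; norm_num) ht0 ht1 (by
        intro w hw h1 h2
        obtain ⟨x, hx⟩ := hint w hw
        rw [hx] at h1 h2 ⊢
        have := K1D_int (y := -1) h1 h2 (by push_cast; norm_num) (by push_cast; norm_num)
        rw [this]
        push_cast
        ring)
    obtain ⟨a2, b2⟩ := K1D_mid I α σ F hc hle hex h0 hK (μ := 0) h12
      (by rw [abs_zero]; norm_num) ht1 ht2 (by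
        intro w hw h1 h2
        obtain ⟨x, hx⟩ := hint w hw
        rw [hx] at h1 h2 ⊢
        have := K1D_int (y := 0) h1 h2 (by push_cast; norm_num) (by push_cast; norm_num)
        rw [this]
        push_cast
        ring)
    obtain ⟨a3, b3⟩ := K1D_mid I α σ F hc hle hex h0 hK (μ := 1) h23
      (by rw [abs_one]; norm_num) ht2 ht3 (by
        intro w hw h1 h2
        obtain ⟨x, hx⟩ := hint w hw
        rw [hx] at h1 h2 ⊢
        have := K1D_int (y := 1) h1 h2 (by push_cast; norm_num) (by push_cast; norm_num)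
        rw [this]
        push_cast
        ring)
    exact K1D_even h0 h01 h12 h23 hl hr a1 a2 a3 b1 b2 b3 s t hst
  · -- half integer slopes
    have hint : ∀ w ∈ I, ∃ x : ℤ, σ w = x + 1 / 2 := by
      intro w hw
      obtain ⟨m, hm⟩ := hσ w hw
      refine ⟨m + k, ?_⟩
      rw [hm, hk]
      push_cast
      ring
    obtain ⟨t1, ht1⟩ := hmin 0 (by norm_num) (by norm_num)
    have h01 : t0 ≤ t1 := K1D_mono (by norm_num) ht0 ht1
    have h13 : t1 ≤ t3 := K1D_mono (by norm_num) ht1 ht3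
    obtain ⟨a1, b1⟩ := K1D_mid I α σ F hc hle hex h0 hK (μ := -(1 / 2)) h01
      (by rw [abs_lt]; constructor <;> norm_num) ht0 ht1 (by
        intro w hw h1 h2
        obtain ⟨x, hx⟩ := hint w hw
        rw [hx] at h1 h2 ⊢
        have := K1D_int (x := x) (y := -1) (a := -(7 / 4)) (b := -(1 / 2)) (by linarith)
          (by linarith) (by push_cast; norm_num) (by push_cast; norm_num)
        rw [this]
        push_cast
        ring)
    obtain ⟨a3, b3⟩ := K1D_mid I α σ F hc hle hex h0 hK (μ := 1 / 2) h13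
      (by rw [abs_lt]; constructor <;> norm_num) ht1 ht3 (by
        intro w hw h1 h2
        obtain ⟨x, hx⟩ := hint w hw
        rw [hx] at h1 h2 ⊢
        have := K1D_int (x := x) (y := 0) (a := -(1 / 2)) (b := 3 / 4) (by linarith)
          (by linarith) (by push_cast; norm_num) (by push_cast; norm_num)
        rw [this]
        push_cast
        ring)
    exact K1D_odd h0 h01 h13 hl hr a1 a3 b1 b3 s t hst

end H66OD

end S_K1D

section S_STP

/-!
# Row STP (about 180 lines): Step 1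

`f y = max_{w ∈ Vt} y ⬝ (c - w)`. Then `f y + f (y - u) ≥ 3/2` for every nonzero integer vector `u`.

PROOF. (A) Let `w ∈ Vt` be a maximiser at `y`: `f y = y ⬝ (c - w)`. Then `y ⬝ w ≤ y ⬝ w'` for all `w' ∈ Vt`, hence
`y ⬝ w ≤ y ⬝ x` for all `x ∈ P` (hull), in particular for `x = w + e w i`: `γ i := y ⬝ toR (e w i) ≥ 0`. By `span` at
`w` (applied to `x`): `y ⬝ x = Σ (u w i ⬝ x) γ i`; so `f y = Σ γ i f i` with `f i = toR (u w i) ⬝ (c - toR w) ≥ 3/2`.
(B) 1D: for `t : ℝ` let `F t = f (y + t toR u)`; `α w = y ⬝ (c - w)`, `σ w = toR u ⬝ (c - w)`. As `2 c = toR x`,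
`σ w = (u ⬝ x)/2 - u ⬝ w` so the slopes are in `θ/2 + ℤ` with `θ = u ⬝ x`. `hle`, `hex` from `hf1`, `hf2`.
`h0`: (A). `hpos`: let `w` be a maximiser at `toR u`: `σ w = f (toR u) = Σ γ i f i` with `γ i = u ⬝ e w i`
nonnegative integers, not all zero (otherwise `u = 0` by `span`), so `≥ 3/2`. `hneg`: a maximiser `w` at `-toR u`:
`-σ w = f (-toR u) ≥ 3/2`.
`hK`: `w` is a maximiser at `a < b`, `|σ w| < 3/2`. `γ i (a) = (y + a u) ⬝ e w i ≥ 0`, `γ i (b) ≥ 0`,
`γ i (b) - γ i (a) = (b-a) β i`, `β i = u ⬝ e w i` integers. `F a + F b = Σ (γ i a + γ i b) f i ≥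
Σ |γ i b - γ i a| f i = (b-a) Σ |β i| f i`. `σ w = Σ β i f i`. If all `β i ≥ 0`: not all zero (`u ≠ 0`), so
`σ w ≥ 3/2`, contradiction; if all `≤ 0`: `σ w ≤ -3/2`, contradiction. So some `β i ≥ 1` and some `β j ≤ -1`,
`Σ |β i| f i ≥ 3`.
`k1d` with `s = -1`, `t = 0`: `F (-1) + F 0 ≥ 3/2`, and `F 0 = f y`, `F (-1) = f (y - toR u)`.
-/

open Matrix

namespace H66OD

private theorem STP_exp {P : Set (Fin 3 → ℝ)} (D : SmoothData P) {w : Fin 3 → ℤ} (hw : w ∈ D.Vt)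
    (y x : Fin 3 → ℝ) : y ⬝ᵥ x = ∑ i, (y ⬝ᵥ toR (D.e w i)) * (toR (D.u w i) ⬝ᵥ x) := by
  conv_lhs => rw [D.span w hw x]
  rw [dotProduct_sum]
  refine Finset.sum_congr rfl fun i _ => ?_
  rw [dotProduct_smul, smul_eq_mul, mul_comm]

private theorem STP_L1 {P : Set (Fin 3 → ℝ)} (D : SmoothData P) (c : Fin 3 → ℝ)
    (hH : ∀ v ∈ D.Vt, ∀ i, 3 / 2 ≤ toR (D.u v i) ⬝ᵥ (c - toR v)) {w : Fin 3 → ℤ} (hw : w ∈ D.Vt)
    (v : Fin 3 → ℤ) (hv : v ≠ 0) (h : ∀ i, 0 ≤ toR v ⬝ᵥ toR (D.e w i)) :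
    3 / 2 ≤ toR v ⬝ᵥ (c - toR w) := by
  have hne : ∃ i, toR v ⬝ᵥ toR (D.e w i) ≠ 0 := by
    by_contra hcon
    push Not at hcon
    have h1 := STP_exp D hw (toR v) (toR v)
    simp only [hcon, zero_mul, Finset.sum_const_zero] at h1
    rw [toR_dot] at h1
    have h2 : v ⬝ᵥ v = 0 := by exact_mod_cast h1
    exact hv (dotProduct_self_eq_zero.1 h2)
  obtain ⟨i, hi⟩ := hne
  have h1 : 1 ≤ toR v ⬝ᵥ toR (D.e w i) := by
    have h2 := h i
    rw [toR_dot] at h2 hi ⊢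
    have h3 : 0 ≤ v ⬝ᵥ D.e w i := by exact_mod_cast h2
    have h4 : v ⬝ᵥ D.e w i ≠ 0 := by exact_mod_cast hi
    have h5 : 1 ≤ v ⬝ᵥ D.e w i := by omega
    exact_mod_cast h5
  rw [STP_exp D hw (toR v) (c - toR w)]
  have h3 : (toR v ⬝ᵥ toR (D.e w i)) * (toR (D.u w i) ⬝ᵥ (c - toR w)) ≤
      ∑ i, (toR v ⬝ᵥ toR (D.e w i)) * (toR (D.u w i) ⬝ᵥ (c - toR w)) :=
    Finset.single_le_sum (f := fun i => (toR v ⬝ᵥ toR (D.e w i)) *
      (toR (D.u w i) ⬝ᵥ (c - toR w))) (fun j _ => mul_nonneg (h j) (by linarith [hH w hw j]))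
      (Finset.mem_univ i)
  have h4 := hH w hw i
  nlinarith

private theorem STP_M {P : Set (Fin 3 → ℝ)} (D : SmoothData P) (c : Fin 3 → ℝ)
    (f : (Fin 3 → ℝ) → ℝ) (hf1 : ∀ y, ∀ w ∈ D.Vt, y ⬝ᵥ (c - toR w) ≤ f y)
    {w : Fin 3 → ℤ} (hw : w ∈ D.Vt) (y : Fin 3 → ℝ) (h : f y = y ⬝ᵥ (c - toR w)) (i : Fin 3) :
    0 ≤ y ⬝ᵥ toR (D.e w i) := by
  have h1 : ∀ x ∈ P, y ⬝ᵥ toR w ≤ y ⬝ᵥ x := by
    have h2 : P ⊆ {x | y ⬝ᵥ toR w ≤ y ⬝ᵥ x} := by
      rw [D.hull]
      refine convexHull_min ?_ ?_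
      · rintro _ ⟨w', hw', rfl⟩
        have h3 := hf1 y w' hw'
        rw [h, dotProduct_sub, dotProduct_sub] at h3
        show y ⬝ᵥ toR w ≤ y ⬝ᵥ toR w'
        linarith
      · intro x hx x' hx' a b ha hb hab
        have hx : y ⬝ᵥ toR w ≤ y ⬝ᵥ x := hx
        have hx' : y ⬝ᵥ toR w ≤ y ⬝ᵥ x' := hx'
        show y ⬝ᵥ toR w ≤ y ⬝ᵥ (a • x + b • x')
        rw [dotProduct_add, dotProduct_smul, dotProduct_smul, smul_eq_mul, smul_eq_mul]
        have h3 := mul_le_mul_of_nonneg_left hx ha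
        have h4 := mul_le_mul_of_nonneg_left hx' hb
        have h5 : y ⬝ᵥ toR w = a * (y ⬝ᵥ toR w) + b * (y ⬝ᵥ toR w) := by
          rw [← add_mul, hab, one_mul]
        linarith
    exact fun x hx => h2 hx
  have h2 := h1 _ (D.mem w hw i)
  rw [toR_add, dotProduct_add] at h2
  linarith

theorem stp {P : Set (Fin 3 → ℝ)} (D : SmoothData P) (x : Fin 3 → ℤ) (c : Fin 3 → ℝ)
    (hc : toR x = (2 : ℝ) • c)
    (hH : ∀ v ∈ D.Vt, ∀ i, 3 / 2 ≤ toR (D.u v i) ⬝ᵥ (c - toR v))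
    (f : (Fin 3 → ℝ) → ℝ) (hf1 : ∀ y, ∀ w ∈ D.Vt, y ⬝ᵥ (c - toR w) ≤ f y)
    (hf2 : ∀ y, ∃ w ∈ D.Vt, f y = y ⬝ᵥ (c - toR w)) (u : Fin 3 → ℤ) (hu : u ≠ 0)
    (y : Fin 3 → ℝ) : 3 / 2 ≤ f y + f (y - toR u) := by
  have hexp : ∀ w ∈ D.Vt, ∀ z : Fin 3 → ℝ, z ⬝ᵥ (c - toR w) =
      ∑ i, (z ⬝ᵥ toR (D.e w i)) * (toR (D.u w i) ⬝ᵥ (c - toR w)) := fun w hw z =>
    STP_exp D hw z _
  have hlin : ∀ (t : ℝ) (w : Fin 3 → ℤ), (y + t • toR u) ⬝ᵥ (c - toR w) =
      y ⬝ᵥ (c - toR w) + t * (toR u ⬝ᵥ (c - toR w)) := by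
    intro t w
    rw [add_dotProduct, smul_dotProduct, smul_eq_mul]
  have hneg0 : -u ≠ 0 := neg_ne_zero.2 hu
  have hk := k1d D.Vt (fun w => y ⬝ᵥ (c - toR w)) (fun w => toR u ⬝ᵥ (c - toR w)) (u ⬝ᵥ x)
    (by
      intro w _
      refine ⟨-(u ⬝ᵥ w), ?_⟩
      show toR u ⬝ᵥ (c - toR w) = ((-(u ⬝ᵥ w) : ℤ) : ℝ) + ((u ⬝ᵥ x : ℤ) : ℝ) / 2
      rw [← toR_dot, hc, dotProduct_smul, dotProduct_sub, toR_dot]
      push_cast
      rw [smul_eq_mul]
      ring)
    (fun t => f (y + t • toR u))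
    (by
      intro t w hw
      show y ⬝ᵥ (c - toR w) + t * (toR u ⬝ᵥ (c - toR w)) ≤ f (y + t • toR u)
      rw [← hlin]
      exact hf1 _ w hw)
    (by
      intro t
      obtain ⟨w, hw, h⟩ := hf2 (y + t • toR u)
      exact ⟨w, hw, h.trans (hlin t w)⟩)
    (by
      intro t
      obtain ⟨w, hw, h⟩ := hf2 (y + t • toR u)
      show 0 ≤ f (y + t • toR u)
      rw [h, hexp w hw]
      exact Finset.sum_nonneg fun i _ => mul_nonneg (STP_M D c f hf1 hw _ h i)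
        (by linarith [hH w hw i]))
    (by
      obtain ⟨w, hw, h⟩ := hf2 (toR u)
      exact ⟨w, hw, STP_L1 D c hH hw u hu fun i => STP_M D c f hf1 hw _ h i⟩)
    (by
      obtain ⟨w, hw, h⟩ := hf2 (toR (-u))
      refine ⟨w, hw, ?_⟩
      have h1 := STP_L1 D c hH hw (-u) hneg0 fun i => STP_M D c f hf1 hw _ h i
      rw [toR_neg, neg_dotProduct] at h1
      show toR u ⬝ᵥ (c - toR w) ≤ -(3 / 2)
      linarith)
    (by
      intro w hw a b hab hFa hFb hs
      have hFa : f (y + a • toR u) = y ⬝ᵥ (c - toR w) + a * (toR u ⬝ᵥ (c - toR w)) := hFa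
      have hFb : f (y + b • toR u) = y ⬝ᵥ (c - toR w) + b * (toR u ⬝ᵥ (c - toR w)) := hFb
      have hs : |toR u ⬝ᵥ (c - toR w)| < 3 / 2 := hs
      rw [← hlin] at hFa hFb
      have ga := STP_M D c f hf1 hw _ hFa
      have gb := STP_M D c f hf1 hw _ hFb
      obtain ⟨hs1, hs2⟩ := abs_lt.1 hs
      have hi : ∃ i, toR u ⬝ᵥ toR (D.e w i) < 0 := by
        by_contra hcon
        push Not at hcon
        have := STP_L1 D c hH hw u hu hcon
        linarith
      have hj : ∃ j, 0 < toR u ⬝ᵥ toR (D.e w j) := by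
        by_contra hcon
        push Not at hcon
        have h1 := STP_L1 D c hH hw (-u) hneg0 (fun i => by
          rw [toR_neg, neg_dotProduct]
          linarith [hcon i])
        rw [toR_neg, neg_dotProduct] at h1
        linarith
      obtain ⟨i, hi⟩ := hi
      obtain ⟨j, hj⟩ := hj
      have hij : i ≠ j := by
        rintro rfl
        linarith
      have hi1 : 1 ≤ |toR u ⬝ᵥ toR (D.e w i)| := by
        rw [toR_dot] at hi ⊢
        have h1 : u ⬝ᵥ D.e w i < 0 := by exact_mod_cast hi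
        have h2 : 1 ≤ |u ⬝ᵥ D.e w i| := Int.one_le_abs (by omega)
        exact_mod_cast h2
      have hj1 : 1 ≤ |toR u ⬝ᵥ toR (D.e w j)| := by
        rw [toR_dot] at hj ⊢
        have h1 : 0 < u ⬝ᵥ D.e w j := by exact_mod_cast hj
        have h2 : 1 ≤ |u ⬝ᵥ D.e w j| := Int.one_le_abs (by omega)
        exact_mod_cast h2
      have hsum : 3 ≤ ∑ k, |toR u ⬝ᵥ toR (D.e w k)| * (toR (D.u w k) ⬝ᵥ (c - toR w)) := by
        have h1 : ∑ k ∈ {i, j}, |toR u ⬝ᵥ toR (D.e w k)| * (toR (D.u w k) ⬝ᵥ (c - toR w)) ≤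
            ∑ k, |toR u ⬝ᵥ toR (D.e w k)| * (toR (D.u w k) ⬝ᵥ (c - toR w)) :=
          Finset.sum_le_sum_of_subset_of_nonneg (Finset.subset_univ _) fun k _ _ =>
            mul_nonneg (abs_nonneg _) (by linarith [hH w hw k])
        rw [Finset.sum_pair hij] at h1
        have h2 := hH w hw i
        have h3 := hH w hw j
        nlinarith
      have hk1 : ∀ k, (b - a) * |toR u ⬝ᵥ toR (D.e w k)| ≤
          (y + a • toR u) ⬝ᵥ toR (D.e w k) + (y + b • toR u) ⬝ᵥ toR (D.e w k) := by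
        intro k
        have h1 := ga k
        have h2 := gb k
        have h3 : (b - a) * |toR u ⬝ᵥ toR (D.e w k)| =
            |(y + b • toR u) ⬝ᵥ toR (D.e w k) - (y + a • toR u) ⬝ᵥ toR (D.e w k)| := by
          rw [← abs_of_pos (sub_pos.2 hab), ← abs_mul, add_dotProduct, add_dotProduct,
            smul_dotProduct, smul_dotProduct, smul_eq_mul, smul_eq_mul]
          congr 1
          ring
        rw [h3, abs_le]
        constructor <;> linarith
      show 3 * (b - a) ≤ f (y + a • toR u) + f (y + b • toR u)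
      rw [hFa, hFb, hexp w hw, hexp w hw, ← Finset.sum_add_distrib]
      calc 3 * (b - a) ≤ (b - a) *
            ∑ k, |toR u ⬝ᵥ toR (D.e w k)| * (toR (D.u w k) ⬝ᵥ (c - toR w)) := by
            have := sub_pos.2 hab
            nlinarith
        _ = ∑ k, ((b - a) * |toR u ⬝ᵥ toR (D.e w k)|) * (toR (D.u w k) ⬝ᵥ (c - toR w)) := by
            rw [Finset.mul_sum]
            exact Finset.sum_congr rfl fun k _ => by ring
        _ ≤ ∑ k, ((y + a • toR u) ⬝ᵥ toR (D.e w k) + (y + b • toR u) ⬝ᵥ toR (D.e w k)) *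
              (toR (D.u w k) ⬝ᵥ (c - toR w)) :=
            Finset.sum_le_sum fun k _ => mul_le_mul_of_nonneg_right (hk1 k)
              (by linarith [hH w hw k])
        _ = _ := Finset.sum_congr rfl fun k _ => by ring)
    (-1) 0 (by norm_num)
  have e1 : y + (0 : ℝ) • toR u = y := by rw [zero_smul, add_zero]
  have e2 : y + (-1 : ℝ) • toR u = y - toR u := by rw [neg_one_smul, sub_eq_add_neg]
  simp only [e1, e2] at hk
  linarith

end H66OD

end S_STP

section S_S1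

/-!
# Row S1 (about 80 lines): the dual form of Step 1

PROOF. Let `f y = max_{w ∈ Vt} y ⬝ (c - w)` (`Finset.sup'` over `D.Vt`, `D.ne`). Put
`y = Σ max (t k) 0 • U k`, `U k = toR (u (v k) (i k))`; then `y - toR u = Σ max (-t k) 0 • U k`. For `w ∈ Vt`:
`U k ⬝ (c - w) = U k ⬝ (c - v k) - U k ⬝ (w - v k) ≤ U k ⬝ (c - v k) =: f k` by `cone` (`toR w ∈ P`). So
`f y ≤ Σ max (t k) 0 * f k` and `f (y - u) ≤ Σ max (-t k) 0 * f k`, and `max t 0 + max (-t) 0 = |t|`. `stp`.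
-/

open Matrix

namespace H66OD

theorem s1 {P : Set (Fin 3 → ℝ)} (D : SmoothData P) (x : Fin 3 → ℤ) (c : Fin 3 → ℝ)
    (hc : toR x = (2 : ℝ) • c)
    (hH : ∀ v ∈ D.Vt, ∀ i, 3 / 2 ≤ toR (D.u v i) ⬝ᵥ (c - toR v)) (n : ℕ)
    (v : Fin n → (Fin 3 → ℤ)) (hv : ∀ k, v k ∈ D.Vt) (i : Fin n → Fin 3) (t : Fin n → ℝ)
    (u : Fin 3 → ℤ) (hu : u ≠ 0) (h : toR u = ∑ k, t k • toR (D.u (v k) (i k))) :
    3 / 2 ≤ ∑ k, |t k| * (toR (D.u (v k) (i k)) ⬝ᵥ (c - toR (v k))) := by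
  obtain ⟨f, hf⟩ : ∃ f : (Fin 3 → ℝ) → ℝ, f = fun y => D.Vt.sup' D.ne (fun w => y ⬝ᵥ (c - toR w)) :=
    ⟨_, rfl⟩
  have hf1 : ∀ y, ∀ w ∈ D.Vt, y ⬝ᵥ (c - toR w) ≤ f y := by
    intro y w hw
    rw [hf]
    exact Finset.le_sup' (fun w => y ⬝ᵥ (c - toR w)) hw
  have hf2 : ∀ y, ∃ w ∈ D.Vt, f y = y ⬝ᵥ (c - toR w) := by
    intro y
    rw [hf]
    exact Finset.exists_mem_eq_sup' D.ne (fun w => y ⬝ᵥ (c - toR w))
  have hP : ∀ w ∈ D.Vt, toR w ∈ P := by
    intro w hw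
    rw [D.hull]
    exact subset_convexHull ℝ _ (Set.mem_image_of_mem _ hw)
  have hb : ∀ s : Fin n → ℝ, (∀ k, 0 ≤ s k) → f (∑ k, s k • toR (D.u (v k) (i k))) ≤
      ∑ k, s k * (toR (D.u (v k) (i k)) ⬝ᵥ (c - toR (v k))) := by
    intro s hs
    obtain ⟨w, hw, hfw⟩ := hf2 (∑ k, s k • toR (D.u (v k) (i k)))
    rw [hfw, sum_dotProduct]
    refine Finset.sum_le_sum fun k _ => ?_
    rw [smul_dotProduct, smul_eq_mul]
    refine mul_le_mul_of_nonneg_left ?_ (hs k)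
    have h1 := D.cone (v k) (hv k) (i k) (toR w) (hP w hw)
    rw [dotProduct_sub] at h1 ⊢
    rw [dotProduct_sub]
    linarith
  have h1 := stp D x c hc hH f hf1 hf2 u hu (∑ k, max (t k) 0 • toR (D.u (v k) (i k)))
  have h2 : (∑ k, max (t k) 0 • toR (D.u (v k) (i k))) - toR u =
      ∑ k, max (-t k) 0 • toR (D.u (v k) (i k)) := by
    rw [h, ← Finset.sum_sub_distrib]
    refine Finset.sum_congr rfl fun k _ => ?_
    rw [← sub_smul]
    congr 1
    rcases le_total (t k) 0 with h3 | h3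
    · rw [max_eq_right h3, max_eq_left (by linarith)]
      ring
    · rw [max_eq_left h3, max_eq_right (by linarith)]
      ring
  rw [h2] at h1
  have h3 := hb (fun k => max (t k) 0) (fun k => le_max_right _ _)
  have h4 := hb (fun k => max (-t k) 0) (fun k => le_max_right _ _)
  have h5 : ∑ k, |t k| * (toR (D.u (v k) (i k)) ⬝ᵥ (c - toR (v k))) =
      (∑ k, max (t k) 0 * (toR (D.u (v k) (i k)) ⬝ᵥ (c - toR (v k)))) +
      ∑ k, max (-t k) 0 * (toR (D.u (v k) (i k)) ⬝ᵥ (c - toR (v k))) := by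
    rw [← Finset.sum_add_distrib]
    refine Finset.sum_congr rfl fun k _ => ?_
    rw [← add_mul]
    congr 1
    rcases le_total (t k) 0 with h3 | h3
    · rw [max_eq_right h3, max_eq_left (by linarith), abs_of_nonpos h3]
      ring
    · rw [max_eq_left h3, max_eq_right (by linarith), abs_of_nonneg h3]
      ring
  rw [h5]
  linarith

end H66OD

end S_S1
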