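import Pool.Agent.H66.OD.Defs
import Pool.Agent.H66.ODM.G1
import Pool.Agent.H66.ODM.G6
import Pool.Agent.H66.ODM.G7
import Pool.Agent.H66.ODM.G8

/-! Oda in dimension three, part G9: this file joins the modules M02 M1 M3 FIN to save build time. -/

section S_M02

/-!
# Row M02 (about 120 lines): decomposition of `x ∈ 2P` at height 0 or 2 over a facet

PROOF. Let `U = u v0 i0`, `y = x/2` (real), `s = U ⬝ (y - v0) ∈ {0,1}` (half of the height). `slc` (its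
hypothesis `hadj`: `2 (u w i ⬝ (y - w)) = u w i ⬝ (x - 2w) ≥ 0`) gives `y` in the hull of the points
`w + s e w i`. Let `X` be the finite set of integer points `z ∈ P` with `U ⬝ (z - v0) = s` (filter of the set `L`
of `flp`). The points `w + s e w i` are in `toR '' X`: for `s = 0` they are vertices `w`, `h(w) = 0`; for `s = 1`
`w + e w i ∈ P` (`mem`) and `U ⬝ (w + e w i - v0) = 0 + u w i ⬝ e w i = 1`. So `y ∈ conv (toR '' X)`. `hX`: an integer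
point of `conv X ⊆ P ∩ {h = s}` is in `X`. `hdim` with `k = 2`: `afi3` with `u = U ≠ 0` (`U ⬝ e v0 i0 = 1`),
`r = s + U ⬝ v0`. `bgt` with `k = 2`, `toR x = 2 • y`: `p ∈ X`, `toR x - toR p = (2-1) • y'`, `y' ∈ conv X ⊆ P`. So
`toR p ∈ P`, `toR (x - p) ∈ P`.
-/

open Matrix

namespace H66OD

theorem m02 {P : Set (Fin 3 → ℝ)} (D : SmoothData P) (x : Fin 3 → ℤ)
    (hx : ∀ v ∈ D.Vt, ∀ i, 0 ≤ D.u v i ⬝ᵥ (x - (2 : ℤ) • v)) (v0 : Fin 3 → ℤ) (hv0 : v0 ∈ D.Vt)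
    (i0 : Fin 3) (h : D.u v0 i0 ⬝ᵥ (x - (2 : ℤ) • v0) = 0 ∨ D.u v0 i0 ⬝ᵥ (x - (2 : ℤ) • v0) = 2) :
    ∃ p : Fin 3 → ℤ, toR p ∈ P ∧ toR (x - p) ∈ P := by
  classical
  obtain ⟨U, hU⟩ : ∃ U, U = D.u v0 i0 := ⟨_, rfl⟩
  obtain ⟨s0, hs0, hs01⟩ : ∃ s0 : ℤ, U ⬝ᵥ (x - (2 : ℤ) • v0) = 2 * s0 ∧ (s0 = 0 ∨ s0 = 1) := by
    rw [hU]
    rcases h with h | h
    · exact ⟨0, by rw [h]; rfl, Or.inl rfl⟩
    · exact ⟨1, by rw [h]; rfl, Or.inr rfl⟩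
  obtain ⟨y, hy⟩ : ∃ y : Fin 3 → ℝ, y = (1 / 2 : ℝ) • toR x := ⟨_, rfl⟩
  have hxy : toR x = (2 : ℝ) • y := by
    rw [hy, smul_smul]
    norm_num
  have hhalf : ∀ a w : Fin 3 → ℤ, toR a ⬝ᵥ (y - toR w) = ((a ⬝ᵥ (x - (2 : ℤ) • w) : ℤ) : ℝ) / 2 := by
    intro a w
    rw [← toR_dot, toR_sub, toR_zsmul, hxy, dotProduct_sub, dotProduct_sub, dotProduct_smul,
      dotProduct_smul, smul_eq_mul, smul_eq_mul]
    push_cast
    ring
  have hPc : Convex ℝ P := by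
    rw [D.hull]
    exact convex_convexHull ℝ _
  have hslc := slc D v0 hv0 i0 (s0 : ℝ) y (by
    rw [← hU, hhalf, hs0]
    push_cast
    ring) (by
    intro w hw _ i
    rw [hhalf]
    have h1 := hx w hw i
    have h2 : (0 : ℝ) ≤ ((D.u w i ⬝ᵥ (x - (2 : ℤ) • w) : ℤ) : ℝ) := by exact_mod_cast h1
    linarith)
  rw [← hU] at hslc
  obtain ⟨L, hL⟩ := flp D
  obtain ⟨X, hXdef⟩ : ∃ X : Finset (Fin 3 → ℤ), X = L.filter (fun z => U ⬝ᵥ (z - v0) = s0) :=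
    ⟨_, rfl⟩
  have hmemX : ∀ z, z ∈ X ↔ toR z ∈ P ∧ U ⬝ᵥ (z - v0) = s0 := by
    intro z
    rw [hXdef, Finset.mem_filter, hL]
  have hyX : y ∈ convexHull ℝ (toR '' (X : Set (Fin 3 → ℤ))) := by
    refine convexHull_mono ?_ hslc
    rintro z ⟨w, hw, i, hw0, hi, rfl⟩
    rcases hs01 with h0 | h0
    · refine ⟨w, (hmemX w).2 ⟨?_, by rw [hw0, h0]⟩, ?_⟩
      · rw [D.hull]
        exact subset_convexHull ℝ _ ⟨w, hw, rfl⟩
      · rw [h0, Int.cast_zero, zero_smul, add_zero]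
    · refine ⟨w + D.e w i, (hmemX _).2 ⟨D.mem w hw i, ?_⟩, ?_⟩
      · have e1 : w + D.e w i - v0 = (w - v0) + D.e w i := by abel
        rw [e1, dotProduct_add, hw0, zero_add, ← hi, D.dual w hw i i, if_pos rfl, h0]
      · rw [h0, Int.cast_one, one_smul, toR_add]
  have hsubP : convexHull ℝ (toR '' (X : Set (Fin 3 → ℤ))) ⊆ P := by
    refine convexHull_min ?_ hPc
    rintro _ ⟨z, hz, rfl⟩
    exact ((hmemX z).1 hz).1
  have hlin : ∀ w' : Fin 3 → ℤ, toR U ⬝ᵥ (toR w' - toR v0) = ((U ⬝ᵥ (w' - v0) : ℤ) : ℝ) := by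
    intro w'
    rw [← toR_sub, toR_dot]
  have hsubH : convexHull ℝ (toR '' (X : Set (Fin 3 → ℤ))) ⊆
      {q | toR U ⬝ᵥ (q - toR v0) = (s0 : ℝ)} := by
    refine convexHull_min ?_ ?_
    · rintro _ ⟨z, hz, rfl⟩
      show toR U ⬝ᵥ (toR z - toR v0) = (s0 : ℝ)
      rw [hlin, ((hmemX z).1 hz).2]
    · intro q hq q' hq' a b _ _ hab
      have hq : toR U ⬝ᵥ (q - toR v0) = (s0 : ℝ) := hq
      have hq' : toR U ⬝ᵥ (q' - toR v0) = (s0 : ℝ) := hq'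
      show toR U ⬝ᵥ (a • q + b • q' - toR v0) = (s0 : ℝ)
      have e1 : a • q + b • q' - toR v0 = a • (q - toR v0) + b • (q' - toR v0) := by
        have e2 : toR v0 = (a + b) • toR v0 := by rw [hab, one_smul]
        conv_lhs => rw [e2]
        module
      rw [e1, dotProduct_add, dotProduct_smul, dotProduct_smul, hq, hq', ← add_smul, hab, one_smul]
  have hUne : U ≠ 0 := by
    intro h0
    have h1 := D.dual v0 hv0 i0 i0
    rw [← hU, h0, zero_dotProduct, if_pos rfl] at h1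
    exact absurd h1 (by norm_num)
  obtain ⟨p, hp, y', hy', hpy⟩ := bgt X
    (fun z hz => (hmemX z).2 ⟨hsubP hz, by
      have h1 : toR U ⬝ᵥ (toR z - toR v0) = (s0 : ℝ) := hsubH hz
      rw [hlin] at h1
      exact_mod_cast h1⟩) 2 (by norm_num)
    (fun t ht hind => afi3 t U hUne (s0 + U ⬝ᵥ v0) (fun z hz => by
      have h1 := ((hmemX z).1 (ht hz)).2
      rw [dotProduct_sub] at h1
      omega) hind) x y hyX (by rw [hxy]; norm_num)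
  refine ⟨p, ((hmemX p).1 hp).1, ?_⟩
  rw [toR_sub, hpy]
  have h1 : (((2 : ℕ) : ℝ) - 1) • y' = y' := by
    norm_num
  rw [h1]
  exact hsubP hy'

end H66OD

end S_M02

section S_M1

/-!
# Row M1 (about 250 lines): decomposition of `x ∈ 2P` at height 1 over a facet

PROOF. Let `U = u v0 i0`, `h(z) = U ⬝ (z - v0)`, `i1, i2` the two indices `≠ i0`, `E1 = e v0 i1`, `E2 = e v0 i2`,
`E0 = e v0 i0`. For integers `X,Y` let `f(X,Y) = v0 + X E1 + Y E2` (`h = 0`) and `s(X,Y) = v0 + E0 + X E1 + Y E2`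
(`h = 1`). Every integer `z` with `h(z) = 0` is `f(X,Y)` with `X = u v0 i1 ⬝ (z - v0)`, `Y = u v0 i2 ⬝ (z - v0)`
(`span`); every integer `z` with `h(z) = 1` is `s(X,Y)`. `x = 2 v0 + E0 + x1 E1 + x2 E2` (as
`U ⬝ (x - 2 v0) = 1`), so `x - f(X,Y) = s(x1 - X, x2 - Y)`.
Index type `ι` = the (finite) subtype of pairs `(w,i)` with `w ∈ Vt`, `h(w) = 0`, `u w i ≠ U` (e.g.
`{l : D.Vt × Fin 3 // ...}`, `Fintype` classical). For `l = (w,i)`: `p l = u w i ⬝ E1`, `q l = u w i ⬝ E2`,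
`b l = u w i ⬝ (v0 - w)`, `b' l = u w i ⬝ (v0 + E0 - w)`, so that `p X + q Y + b = u w i ⬝ (f(X,Y) - w)` and
`p X + q Y + b' = u w i ⬝ (s(X,Y) - w)`.
Apply `t2`:
hF: `l = (w,i)`; `i_w` with `u w i_w = U` (`fv`), `i ≠ i_w`; `i'` the third index. The points `w` and `w + e w i'`
 are in `P`, with `h = 0` (`U ⬝ e w i' = 0`), `u w i ⬝ (· - w) = 0`, distinct (`u w i' ⬝ e w i' = 1`); points of `P`
 satisfy all inequalities (`cone`).
hS: `w + e w i_w ∈ P`, `h = 1`, `u w i ⬝ e w i_w = 0`.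
hne: `f(0,0) = v0`; hne': `s(0,0) = v0 + E0 ∈ P`.
hc: `p x1 + q x2 + b + b' = u w i ⬝ (x - 2w) ≥ 0`.
hsep: let `α,β,γ` be given. Put `Λ(z) = α (u v0 i1 ⬝ (z - v0)) + β (u v0 i2 ⬝ (z - v0)) + γ` (affine on `ℝ³`),
 `κ = α x1 + β x2 + 2γ`. By `slc` with `s = 1/2`, `y = x/2` (`h(x/2) = 1/2`), `x/2` is in the hull of the points
 `w + (1/2) e w i`, `h(w) = 0`, `u w i = U`. For such `(w,i)`: `w = f(X,Y)` satisfies the `F` inequalities so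
 `Λ(w) ≥ 1`; `w + e w i = s(X,Y)` satisfies the `S` inequalities, so `α (x1 - X) + β (x2 - Y) + γ ≤ 0`, i.e.
 `Λ(w + e w i) = α X + β Y + γ ≥ κ`. Hence `Λ(w + (1/2) e w i) ≥ (1 + κ)/2`, and so `Λ(x/2) ≥ (1+κ)/2`
 (half-space, `convexHull_min`). But `x/2 - v0 = (E0 + x1 E1 + x2 E2)/2`, `Λ(x/2) = (α x1 + β x2)/2 + γ = κ/2`.
 Contradiction.
Conclusion `(X,Y)`: `f(X,Y) ∈ P` by `slc` with `s = 0` (its hypothesis: for `w` with `h(w) = 0` and `i` with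
`u w i = U` the value is `h(f) - h(w) = 0 ≥ 0`, otherwise `(w,i) ∈ ι`), whose conclusion is a hull of vertices
`w + 0 • e ∈ P`; `s(x1-X,x2-Y) ∈ P` by `slc` with `s = 1` (points `w + e w i ∈ P`; value for `u w i = U` is `1`).
So `p = f(X,Y)`, `x - p = s(x1-X,x2-Y)`.
-/

open Matrix

namespace H66OD

theorem M1_idx (i0 : Fin 3) : ∃ i1 i2 : Fin 3, i0 ≠ i1 ∧ i0 ≠ i2 ∧ i1 ≠ i2 := by
  revert i0
  decide

theorem M1_third (i j : Fin 3) : ∃ k : Fin 3, k ≠ i ∧ k ≠ j := by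
  revert i j
  decide

theorem M1_sum3 {M : Type*} [AddCommMonoid M] {i0 i1 i2 : Fin 3} (h01 : i0 ≠ i1) (h02 : i0 ≠ i2)
    (h12 : i1 ≠ i2) (F : Fin 3 → M) : ∑ i, F i = F i0 + F i1 + F i2 := by
  have hu : (Finset.univ : Finset (Fin 3)) = {i0, i1, i2} := by
    revert i0 i1 i2
    decide
  rw [hu, Finset.sum_insert (by simp [h01, h02]), Finset.sum_insert (by simp [h12]),
    Finset.sum_singleton, add_assoc]

theorem M1_span {P : Set (Fin 3 → ℝ)} (D : SmoothData P) {v : Fin 3 → ℤ} (hv : v ∈ D.Vt)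
    (z : Fin 3 → ℤ) : z = ∑ i, (D.u v i ⬝ᵥ z) • D.e v i := by
  apply toR_injective
  rw [toR_sum]
  conv_lhs => rw [D.span v hv (toR z)]
  refine Finset.sum_congr rfl fun i _ => ?_
  rw [toR_zsmul, toR_dot]

theorem M1_cone {P : Set (Fin 3 → ℝ)} (D : SmoothData P) {w : Fin 3 → ℤ} (hw : w ∈ D.Vt)
    (i : Fin 3) {z : Fin 3 → ℤ} (hz : toR z ∈ P) : 0 ≤ D.u w i ⬝ᵥ (z - w) := by
  have h := D.cone w hw i (toR z) hz
  rw [← toR_sub, toR_dot] at h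
  exact_mod_cast h

theorem M1_mem {P : Set (Fin 3 → ℝ)} (D : SmoothData P) {w : Fin 3 → ℤ} (hw : w ∈ D.Vt) :
    toR w ∈ P := by
  rw [D.hull]
  exact subset_convexHull ℝ _ ⟨w, hw, rfl⟩

theorem M1_convex {P : Set (Fin 3 → ℝ)} (D : SmoothData P) : Convex ℝ P := by
  rw [D.hull]
  exact convex_convexHull ℝ _

theorem M1_lin (a E1 E2 c : Fin 3 → ℤ) (X Y : ℤ) :
    (a ⬝ᵥ E1) * X + (a ⬝ᵥ E2) * Y + a ⬝ᵥ c = a ⬝ᵥ (X • E1 + Y • E2 + c) := by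
  simp only [dotProduct, Fin.sum_univ_three, Pi.add_apply, Pi.smul_apply, smul_eq_mul]
  ring

theorem m1 {P : Set (Fin 3 → ℝ)} (D : SmoothData P) (x : Fin 3 → ℤ)
    (hx : ∀ v ∈ D.Vt, ∀ i, 0 ≤ D.u v i ⬝ᵥ (x - (2 : ℤ) • v)) (v0 : Fin 3 → ℤ) (hv0 : v0 ∈ D.Vt)
    (i0 : Fin 3) (h : D.u v0 i0 ⬝ᵥ (x - (2 : ℤ) • v0) = 1) :
    ∃ p : Fin 3 → ℤ, toR p ∈ P ∧ toR (x - p) ∈ P := by
  classical
  obtain ⟨i1, i2, h01, h02, h12⟩ := M1_idx i0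
  have hspan : ∀ z : Fin 3 → ℤ, z = (D.u v0 i0 ⬝ᵥ z) • D.e v0 i0 +
      (D.u v0 i1 ⬝ᵥ z) • D.e v0 i1 + (D.u v0 i2 ⬝ᵥ z) • D.e v0 i2 := by
    intro z
    have h1 := M1_span D hv0 z
    rwa [M1_sum3 h01 h02 h12] at h1
  have d00 : D.u v0 i0 ⬝ᵥ D.e v0 i0 = 1 := by rw [D.dual v0 hv0, if_pos rfl]
  have d01 : D.u v0 i0 ⬝ᵥ D.e v0 i1 = 0 := by rw [D.dual v0 hv0, if_neg h01]
  have d02 : D.u v0 i0 ⬝ᵥ D.e v0 i2 = 0 := by rw [D.dual v0 hv0, if_neg h02]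
  obtain ⟨U, hU⟩ : ∃ U, U = D.u v0 i0 := ⟨_, rfl⟩
  obtain ⟨U1, hU1⟩ : ∃ U1, U1 = D.u v0 i1 := ⟨_, rfl⟩
  obtain ⟨U2, hU2⟩ : ∃ U2, U2 = D.u v0 i2 := ⟨_, rfl⟩
  obtain ⟨E0, hE0⟩ : ∃ E0, E0 = D.e v0 i0 := ⟨_, rfl⟩
  obtain ⟨E1, hE1⟩ : ∃ E1, E1 = D.e v0 i1 := ⟨_, rfl⟩
  obtain ⟨E2, hE2⟩ : ∃ E2, E2 = D.e v0 i2 := ⟨_, rfl⟩
  rw [← hU, ← hE0] at d00
  rw [← hU, ← hE1] at d01
  rw [← hU, ← hE2] at d02
  rw [← hU] at h
  simp only [← hU, ← hU1, ← hU2, ← hE0, ← hE1, ← hE2] at hspan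
  obtain ⟨x1, hx1⟩ : ∃ x1, x1 = U1 ⬝ᵥ (x - (2 : ℤ) • v0) := ⟨_, rfl⟩
  obtain ⟨x2, hx2⟩ : ∃ x2, x2 = U2 ⬝ᵥ (x - (2 : ℤ) • v0) := ⟨_, rfl⟩
  have hxe : x - (2 : ℤ) • v0 = E0 + x1 • E1 + x2 • E2 := by
    have h1 := hspan (x - (2 : ℤ) • v0)
    rw [h, ← hx1, ← hx2, one_zsmul] at h1
    exact h1
  -- the parametrizations
  obtain ⟨f, hf⟩ : ∃ f : ℤ → ℤ → (Fin 3 → ℤ), ∀ X Y, f X Y = X • E1 + Y • E2 + v0 :=
    ⟨fun X Y => X • E1 + Y • E2 + v0, fun _ _ => rfl⟩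
  obtain ⟨s, hs⟩ : ∃ s : ℤ → ℤ → (Fin 3 → ℤ), ∀ X Y, s X Y = X • E1 + Y • E2 + (v0 + E0) :=
    ⟨fun X Y => X • E1 + Y • E2 + (v0 + E0), fun _ _ => rfl⟩
  have hrep0 : ∀ z : Fin 3 → ℤ, U ⬝ᵥ (z - v0) = 0 →
      z = f (U1 ⬝ᵥ (z - v0)) (U2 ⬝ᵥ (z - v0)) := by
    intro z hz
    have h1 := hspan (z - v0)
    rw [hz, zero_zsmul, zero_add] at h1
    rw [hf, ← h1, sub_add_cancel]
  have hrep1 : ∀ z : Fin 3 → ℤ, U ⬝ᵥ (z - v0) = 1 →
      z = s (U1 ⬝ᵥ (z - v0)) (U2 ⬝ᵥ (z - v0)) := by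
    intro z hz
    have h1 := hspan (z - v0)
    rw [hz, one_zsmul] at h1
    rw [hs]
    have h2 : z = (z - v0) + v0 := (sub_add_cancel z v0).symm
    rw [h2]
    nth_rewrite 1 [h1]
    rw [sub_add_cancel]
    abel
  have hUf : ∀ X Y, U ⬝ᵥ (f X Y - v0) = 0 := by
    intro X Y
    rw [hf, add_sub_cancel_right, dotProduct_add, dotProduct_smul, dotProduct_smul, d01, d02]
    simp
  have hUs : ∀ X Y, U ⬝ᵥ (s X Y - v0) = 1 := by
    intro X Y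
    have e1 : s X Y - v0 = X • E1 + Y • E2 + E0 := by rw [hs]; abel
    rw [e1, dotProduct_add, dotProduct_add, dotProduct_smul, dotProduct_smul, d01, d02, d00]
    simp
  have hxs : ∀ X Y, x - f X Y = s (x1 - X) (x2 - Y) := by
    intro X Y
    have h1 : x = E0 + x1 • E1 + x2 • E2 + (2 : ℤ) • v0 := by rw [← hxe, sub_add_cancel]
    rw [hf, hs, h1, sub_smul, sub_smul, two_zsmul]
    abel
  -- the index type
  let ι : Type := {l : D.Vt × Fin 3 // U ⬝ᵥ ((l.1 : Fin 3 → ℤ) - v0) = 0 ∧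
    D.u (l.1 : Fin 3 → ℤ) l.2 ≠ U}
  let a : ι → (Fin 3 → ℤ) := fun l => D.u (l.1.1 : Fin 3 → ℤ) l.1.2
  let W : ι → (Fin 3 → ℤ) := fun l => (l.1.1 : Fin 3 → ℤ)
  have hWm : ∀ l : ι, W l ∈ D.Vt := fun l => l.1.1.2
  have hgf : ∀ (l : ι) X Y, (a l ⬝ᵥ E1) * X + (a l ⬝ᵥ E2) * Y + a l ⬝ᵥ (v0 - W l) =
      a l ⬝ᵥ (f X Y - W l) := by
    intro l X Y
    rw [M1_lin, hf]
    congr 1
    abel
  have hgs : ∀ (l : ι) X Y, (a l ⬝ᵥ E1) * X + (a l ⬝ᵥ E2) * Y + a l ⬝ᵥ (v0 + E0 - W l) =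
      a l ⬝ᵥ (s X Y - W l) := by
    intro l X Y
    rw [M1_lin, hs]
    congr 1
    abel
  have hfP : ∀ X Y, toR (f X Y) ∈ P → ∀ m : ι,
      0 ≤ (a m ⬝ᵥ E1) * X + (a m ⬝ᵥ E2) * Y + a m ⬝ᵥ (v0 - W m) := by
    intro X Y hP m
    rw [hgf]
    exact M1_cone D (hWm m) _ hP
  have hsP : ∀ X Y, toR (s X Y) ∈ P → ∀ m : ι,
      0 ≤ (a m ⬝ᵥ E1) * X + (a m ⬝ᵥ E2) * Y + a m ⬝ᵥ (v0 + E0 - W m) := by
    intro X Y hP m
    rw [hgs]
    exact M1_cone D (hWm m) _ hP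
  -- values of `U` near a vertex of the facet
  have hUw : ∀ w : Fin 3 → ℤ, U ⬝ᵥ (w - v0) = 0 → ∀ e : Fin 3 → ℤ,
      U ⬝ᵥ (w + e - v0) = U ⬝ᵥ e := by
    intro w hw e
    have e1 : w + e - v0 = (w - v0) + e := by abel
    rw [e1, dotProduct_add, hw, zero_add]
  have hmain := t2 (ι := ι) (fun l => a l ⬝ᵥ E1) (fun l => a l ⬝ᵥ E2)
    (fun l => a l ⬝ᵥ (v0 - W l)) (fun l => a l ⬝ᵥ (v0 + E0 - W l)) x1 x2 ?_ ?_ ?_ ?_ ?_ ?_
  rotate_left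
  · -- hF
    intro l
    have hl0 : U ⬝ᵥ (W l - v0) = 0 := l.2.1
    have hlne : a l ≠ U := l.2.2
    obtain ⟨iw, hiw⟩ := fv D v0 hv0 i0 (W l) (hWm l) (by rw [← hU]; exact hl0)
    rw [← hU] at hiw
    have hne : l.1.2 ≠ iw := by
      intro he
      apply hlne
      show D.u (W l) l.1.2 = U
      rw [he, hiw]
    obtain ⟨i', hi1, hi2⟩ := M1_third l.1.2 iw
    have hz0 : U ⬝ᵥ (W l + D.e (W l) i' - v0) = 0 := by
      rw [hUw _ hl0, ← hiw, D.dual _ (hWm l), if_neg (Ne.symm hi2)]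
    have hr := hrep0 (W l) hl0
    have hr' := hrep0 _ hz0
    refine ⟨U1 ⬝ᵥ (W l - v0), U2 ⬝ᵥ (W l - v0), U1 ⬝ᵥ (W l + D.e (W l) i' - v0),
      U2 ⬝ᵥ (W l + D.e (W l) i' - v0), ?_, ?_, ?_, ?_, ?_⟩
    · rintro ⟨g1, g2⟩
      rw [g1, g2, ← hr'] at hr
      have h3 : D.e (W l) i' = 0 := by
        have h4 : W l + D.e (W l) i' = W l + 0 := by rw [add_zero]; exact hr.symm
        exact add_left_cancel h4
      have h5 := D.dual (W l) (hWm l) i' i'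
      rw [h3, if_pos rfl, dotProduct_zero] at h5
      exact absurd h5 (by norm_num)
    · rw [hgf, ← hr, sub_self, dotProduct_zero]
    · rw [hgf, ← hr', add_sub_cancel_left]
      show D.u (W l) l.1.2 ⬝ᵥ D.e (W l) i' = 0
      rw [D.dual _ (hWm l), if_neg (Ne.symm hi1)]
    · apply hfP
      rw [← hr]
      exact M1_mem D (hWm l)
    · apply hfP
      rw [← hr']
      exact D.mem _ (hWm l) _
  · -- hS
    intro l
    have hl0 : U ⬝ᵥ (W l - v0) = 0 := l.2.1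
    have hlne : a l ≠ U := l.2.2
    obtain ⟨iw, hiw⟩ := fv D v0 hv0 i0 (W l) (hWm l) (by rw [← hU]; exact hl0)
    rw [← hU] at hiw
    have hne : l.1.2 ≠ iw := by
      intro he
      apply hlne
      show D.u (W l) l.1.2 = U
      rw [he, hiw]
    have hz1 : U ⬝ᵥ (W l + D.e (W l) iw - v0) = 1 := by
      rw [hUw _ hl0, ← hiw, D.dual _ (hWm l), if_pos rfl]
    have hr := hrep1 _ hz1
    refine ⟨U1 ⬝ᵥ (W l + D.e (W l) iw - v0), U2 ⬝ᵥ (W l + D.e (W l) iw - v0), ?_, ?_⟩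
    · rw [hgs, ← hr, add_sub_cancel_left]
      show D.u (W l) l.1.2 ⬝ᵥ D.e (W l) iw = 0
      rw [D.dual _ (hWm l), if_neg hne]
    · apply hsP
      rw [← hr]
      exact D.mem _ (hWm l) _
  · -- hne
    refine ⟨0, 0, hfP 0 0 ?_⟩
    rw [hf]
    simp only [zero_smul, zero_add]
    exact M1_mem D hv0
  · -- hne'
    refine ⟨0, 0, hsP 0 0 ?_⟩
    rw [hs]
    simp only [zero_smul, zero_add]
    rw [hE0]
    exact D.mem _ hv0 _
  · -- hc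
    intro l
    show 0 ≤ (a l ⬝ᵥ E1) * x1 + (a l ⬝ᵥ E2) * x2 + a l ⬝ᵥ (v0 - W l) + a l ⬝ᵥ (v0 + E0 - W l)
    have h1 := hx (W l) (hWm l) l.1.2
    have h2 : (a l ⬝ᵥ E1) * x1 + (a l ⬝ᵥ E2) * x2 + a l ⬝ᵥ (v0 - W l) +
        a l ⬝ᵥ (v0 + E0 - W l) = a l ⬝ᵥ (x - (2 : ℤ) • W l) := by
      rw [M1_lin, ← dotProduct_add]
      congr 1
      have h3 : x = E0 + x1 • E1 + x2 • E2 + (2 : ℤ) • v0 := by rw [← hxe, sub_add_cancel]
      rw [h3, two_zsmul, two_zsmul]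
      abel
    rw [h2]
    exact h1
  · -- hsep
    intro α β γ hA hB
    obtain ⟨y, hy⟩ : ∃ y : Fin 3 → ℝ, y = (1 / 2 : ℝ) • toR x := ⟨_, rfl⟩
    have hyw : ∀ (c w : Fin 3 → ℤ), toR c ⬝ᵥ (y - toR w) =
        (1 / 2 : ℝ) * ((c ⬝ᵥ (x - (2 : ℤ) • w) : ℤ) : ℝ) := by
      intro c w
      rw [← toR_dot, toR_sub, toR_zsmul, hy, dotProduct_sub, dotProduct_sub, dotProduct_smul,
        dotProduct_smul, smul_eq_mul, smul_eq_mul]
      push_cast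
      ring
    have hmem := slc D v0 hv0 i0 (1 / 2) y (by rw [hyw, ← hU, h]; norm_num) (by
      intro w hw _ i
      rw [hyw]
      have h1 : (0 : ℝ) ≤ ((D.u w i ⬝ᵥ (x - (2 : ℤ) • w) : ℤ) : ℝ) := by
        exact_mod_cast hx w hw i
      positivity)
    rw [← hU] at hmem
    obtain ⟨g, hg⟩ : ∃ g : Fin 3 → ℝ, g = (α : ℝ) • toR U1 + (β : ℝ) • toR U2 := ⟨_, rfl⟩
    have hgz : ∀ z : Fin 3 → ℝ, g ⬝ᵥ z = α * (toR U1 ⬝ᵥ z) + β * (toR U2 ⬝ᵥ z) := by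
      intro z
      rw [hg, add_dotProduct, smul_dotProduct, smul_dotProduct, smul_eq_mul, smul_eq_mul]
    have hconv : Convex ℝ {z : Fin 3 → ℝ | (1 + (α * x1 + β * x2 + 2 * γ) : ℝ) / 2 - γ +
        g ⬝ᵥ toR v0 ≤ g ⬝ᵥ z} :=
      convex_halfSpace_ge ⟨dotProduct_add g, fun c z => dotProduct_smul c g z⟩ _
    have hsub : {z : Fin 3 → ℝ | ∃ w ∈ D.Vt, ∃ i, U ⬝ᵥ (w - v0) = 0 ∧
        D.u w i = U ∧ z = toR w + (1 / 2 : ℝ) • toR (D.e w i)} ⊆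
        {z : Fin 3 → ℝ | (1 + (α * x1 + β * x2 + 2 * γ) : ℝ) / 2 - γ +
          g ⬝ᵥ toR v0 ≤ g ⬝ᵥ z} := by
      rintro z ⟨w, hw, i, hw0, hwi, rfl⟩
      have hz1 : U ⬝ᵥ (w + D.e w i - v0) = 1 := by
        rw [hUw _ hw0, ← hwi, D.dual _ hw, if_pos rfl]
      have hr := hrep0 w hw0
      have hr' := hrep1 _ hz1
      have q1 := hA _ _ (hfP _ _ (by rw [← hr]; exact M1_mem D hw))
      have q2 := hB _ _ (hsP _ _ (by rw [← hr']; exact D.mem _ hw _))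
      have q1' : (1 : ℝ) ≤ α * ((U1 ⬝ᵥ (w - v0) : ℤ) : ℝ) + β * ((U2 ⬝ᵥ (w - v0) : ℤ) : ℝ) + γ := by
        exact_mod_cast q1
      have q2' : (α : ℝ) * (x1 - ((U1 ⬝ᵥ (w + D.e w i - v0) : ℤ) : ℝ)) +
          β * (x2 - ((U2 ⬝ᵥ (w + D.e w i - v0) : ℤ) : ℝ)) + γ ≤ 0 := by
        exact_mod_cast q2
      rw [← toR_dot, ← toR_dot, toR_sub, dotProduct_sub, dotProduct_sub] at q1'
      rw [← toR_dot, ← toR_dot, toR_sub, toR_add, dotProduct_sub, dotProduct_sub,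
        dotProduct_add, dotProduct_add] at q2'
      show (1 + (α * x1 + β * x2 + 2 * γ) : ℝ) / 2 - γ + g ⬝ᵥ toR v0 ≤
        g ⬝ᵥ (toR w + (1 / 2 : ℝ) • toR (D.e w i))
      rw [dotProduct_add, dotProduct_smul, smul_eq_mul, hgz, hgz, hgz]
      linarith
    have hfin : (1 + (α * x1 + β * x2 + 2 * γ) : ℝ) / 2 - γ + g ⬝ᵥ toR v0 ≤ g ⬝ᵥ y :=
      convexHull_min hsub hconv hmem
    have hy1 := hyw U1 v0
    have hy2 := hyw U2 v0
    rw [← hx1, dotProduct_sub] at hy1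
    rw [← hx2, dotProduct_sub] at hy2
    rw [hgz, hgz] at hfin
    have e1 : (α : ℝ) * (toR U1 ⬝ᵥ y) = α * (toR U1 ⬝ᵥ toR v0) + α * (1 / 2 * x1) := by
      rw [← mul_add]
      congr 1
      linarith
    have e2 : (β : ℝ) * (toR U2 ⬝ᵥ y) = β * (toR U2 ⬝ᵥ toR v0) + β * (1 / 2 * x2) := by
      rw [← mul_add]
      congr 1
      linarith
    rw [e1, e2] at hfin
    linarith
  · -- conclusion
    obtain ⟨X, Y, hX, hY⟩ := hmain
    have hsubw : ∀ (z w : Fin 3 → ℤ), U ⬝ᵥ (w - v0) = 0 → U ⬝ᵥ (z - w) = U ⬝ᵥ (z - v0) := by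
      intro z w hw
      have e1 : z - w = (z - v0) - (w - v0) := by abel
      rw [e1, dotProduct_sub, hw, sub_zero]
    refine ⟨f X Y, ?_, ?_⟩
    · have hmem := slc D v0 hv0 i0 0 (toR (f X Y)) (by
        rw [← toR_sub, toR_dot, ← hU, hUf]; simp) (by
        intro w hw hw0 i
        rw [← hU] at hw0
        rw [← toR_sub, toR_dot]
        by_cases hi : D.u w i = U
        · rw [hi, hsubw _ _ hw0, hUf]; simp
        · have h1 := hX ⟨(⟨w, hw⟩, i), hw0, hi⟩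
          rw [hgf] at h1
          exact_mod_cast h1)
      refine convexHull_min ?_ (M1_convex D) hmem
      rintro z ⟨w, hw, i, _, _, rfl⟩
      rw [zero_smul, add_zero]
      exact M1_mem D hw
    · rw [hxs]
      have hmem := slc D v0 hv0 i0 1 (toR (s (x1 - X) (x2 - Y))) (by
        rw [← toR_sub, toR_dot, ← hU, hUs]; simp) (by
        intro w hw hw0 i
        rw [← hU] at hw0
        rw [← toR_sub, toR_dot]
        by_cases hi : D.u w i = U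
        · rw [hi, hsubw _ _ hw0, hUs]; simp
        · have h1 := hY ⟨(⟨w, hw⟩, i), hw0, hi⟩
          rw [hgs] at h1
          exact_mod_cast h1)
      refine convexHull_min ?_ (M1_convex D) hmem
      rintro z ⟨w, hw, i, _, _, rfl⟩
      rw [one_smul, ← toR_add]
      exact D.mem w hw i

end H66OD

end S_M1

section S_M3

/-!
# Row M3 (about 200 lines): decomposition of `x ∈ 2P` when all facet heights are `≥ 3`

PROOF. Let `c = x/2`. If `x = 2 g'` is twice an integer vector: `p = g'`, `x - p = g'`, and `g' ∈ P` by `hrp`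
(`u v i ⬝ (g' - v) = (u v i ⬝ (x - 2v))/2 ≥ 0`). So assume `c` is not an integer vector. Suppose there is no `p`.
Index set `Φ = (Fin 3 → ℤ) × Fin 3`, `S = D.Vt ×ˢ Finset.univ`; for `φ = (v,i)` and an integer vector `z`
(standing for the point `c + z`) let `N φ z = |u v i ⬝ᵥ (x + 2 z)|` (integer, `= 2 |u v i ⬝ (c + z)|`), `h φ =
u v i ⬝ᵥ (x - 2 v) ≥ 3`, `T0 φ = h φ + 2`.
Covering: let `z` be an integer vector; `p = x + z = c + (c + z)`, `x - p = -z = c - (c + z)`. As `p` is not a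
solution, by `hrp` some `(v,i)` has `u v i ⬝ (p - v) < 0` or `u v i ⬝ (x - p - v) < 0`. `2 u⬝(p - v) =
u ⬝(x - 2v) + u ⬝ (x + 2z) = h + u ⬝ (x+2z)`, `2 u ⬝ (x - p - v) = h - u ⬝ (x + 2z)`. So `N φ z > h φ`; both have the
same parity (`h - u ⬝(x+2z) = -2 u ⬝ (v + z)`), so `N φ z ≥ h φ + 2 = T0 φ`.
`acl` (with `X = Fin 3 → ℤ`): `I ⊆ S` nonempty, `T ≥ T0`, points `ζ φ`. Let `n = I.card`, enumerate `I` by
`φ_k`, `k : Fin n` (`I.equivFin`). Define the configuration `C : Cfg n`: `c`, `g = x`, `a k = (2 / T φ_k) •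
toR (u φ_k)`, `w k = s_k (c + toR (ζ φ_k))` with the sign `s_k = ±1` such that `a k ⬝ w k = 1` (the value
`toR u ⬝ (c + ζ) = ± T/2`); for `s_k = -1`: `-(c + ζ) = c + (-x - ζ)` is of the form `c + integer`. `h2`:
`|a j ⬝ w i| = N φ_j (ζ φ_i)/T φ_j < 1`. `hcov`: `N φ z ≥ T φ` for some `φ ∈ I`. (`T φ ≥ 5 > 0`.)
`l3d n C`: `u ≠ 0`, `t` with `toR u = Σ t k • a k = Σ (2 t k/T φ_k) • toR (u φ_k)`, `Σ |t k| ≤ 3/2`. By `s1` (its
`hH`: `toR u ⬝ (c - v) = h φ/2 ≥ 3/2`): `3/2 ≤ Σ |2 t k / T_k| (h φ_k/2) = Σ |t k| (h φ_k / T_k)`, with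
`h φ_k / T_k ≤ h/(h+2) < 1`; as `u ≠ 0` some `t k ≠ 0`, so the right side is `< Σ |t k| ≤ 3/2`. Contradiction.
-/

open Matrix

namespace H66OD

theorem M3_val {x : Fin 3 → ℤ} {c : Fin 3 → ℝ} (hc : toR x = (2 : ℝ) • c) (u z : Fin 3 → ℤ) :
    toR u ⬝ᵥ (c + toR z) = ((u ⬝ᵥ (x + (2 : ℤ) • z) : ℤ) : ℝ) / 2 := by
  have h : c + toR z = (1 / 2 : ℝ) • toR (x + (2 : ℤ) • z) := by
    rw [toR_add, hc, toR_zsmul]
    push_cast
    module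
  rw [h, dotProduct_smul, toR_dot, smul_eq_mul]
  ring

theorem M3_abs {x : Fin 3 → ℤ} {c : Fin 3 → ℝ} (hc : toR x = (2 : ℝ) • c) (u z : Fin 3 → ℤ)
    {T : ℤ} (hT : 0 < T) :
    |((2 / (T : ℝ)) • toR u) ⬝ᵥ (c + toR z)| = ((|u ⬝ᵥ (x + (2 : ℤ) • z)| : ℤ) : ℝ) / T := by
  have hT' : (0 : ℝ) < T := by exact_mod_cast hT
  rw [smul_dotProduct, M3_val hc, smul_eq_mul, abs_mul, abs_div, abs_div, abs_of_pos hT',
    Int.cast_abs]
  norm_num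

theorem M3_short {n : ℕ} {x : Fin 3 → ℤ} {c : Fin 3 → ℝ} (hc : toR x = (2 : ℝ) • c)
    (hc' : ∀ z : Fin 3 → ℤ, toR z ≠ c) (U : Fin n → (Fin 3 → ℤ)) (T : Fin n → ℤ)
    (hT : ∀ k, 0 < T k) (ζ : Fin n → (Fin 3 → ℤ))
    (he : ∀ k, |U k ⬝ᵥ (x + (2 : ℤ) • ζ k)| = T k)
    (hl : ∀ i j, i ≠ j → |U j ⬝ᵥ (x + (2 : ℤ) • ζ i)| < T j)
    (hcov : ∀ z : Fin 3 → ℤ, ∃ k, T k ≤ |U k ⬝ᵥ (x + (2 : ℤ) • z)|) :
    Short n (fun k => (2 / (T k : ℝ)) • toR (U k)) := by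
  have hT' : ∀ k, (0 : ℝ) < T k := fun k => by exact_mod_cast hT k
  obtain ⟨s, hs⟩ : ∃ s : Fin n → ℝ, s = fun k =>
    if 0 ≤ U k ⬝ᵥ (x + (2 : ℤ) • ζ k) then 1 else -1 := ⟨_, rfl⟩
  have hs1 : ∀ k, |s k| = 1 := by
    intro k
    rw [hs]
    dsimp only
    split_ifs
    · exact abs_one
    · rw [abs_neg, abs_one]
  refine l3d n
    { c := c, g := x, hg := hc, hc := hc', a := fun k => (2 / (T k : ℝ)) • toR (U k)
      w := fun k => s k • (c + toR (ζ k)), hw := ?_, h1 := ?_, h2 := ?_, hcov := ?_ }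
  · intro k
    by_cases h : 0 ≤ U k ⬝ᵥ (x + (2 : ℤ) • ζ k)
    · refine ⟨ζ k, ?_⟩
      have : s k = 1 := by rw [hs]; exact if_pos h
      rw [this, one_smul]
    · refine ⟨-x - ζ k, ?_⟩
      have : s k = -1 := by rw [hs]; exact if_neg h
      rw [this, toR_sub, toR_neg, hc]
      module
  · intro k
    rw [dotProduct_smul, smul_dotProduct, M3_val hc, smul_eq_mul, smul_eq_mul]
    have h1 : s k * ((U k ⬝ᵥ (x + (2 : ℤ) • ζ k) : ℤ) : ℝ) = T k := by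
      rw [← he k, Int.cast_abs]
      by_cases h : 0 ≤ U k ⬝ᵥ (x + (2 : ℤ) • ζ k)
      · have h2 : s k = 1 := by rw [hs]; exact if_pos h
        rw [h2, one_mul, abs_of_nonneg (by exact_mod_cast h)]
      · have h2 : s k = -1 := by rw [hs]; exact if_neg h
        rw [h2, abs_of_neg (by exact_mod_cast (not_le.1 h))]
        ring
    have h3 := (hT' k).ne'
    calc s k * (2 / (T k : ℝ) * (((U k ⬝ᵥ (x + (2 : ℤ) • ζ k) : ℤ) : ℝ) / 2))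
        = (s k * ((U k ⬝ᵥ (x + (2 : ℤ) • ζ k) : ℤ) : ℝ)) / T k := by ring
      _ = 1 := by rw [h1, div_self h3]
  · intro i j hij
    rw [dotProduct_smul, smul_eq_mul, abs_mul, hs1, one_mul, M3_abs hc _ _ (hT j),
      div_lt_one (hT' j)]
    exact_mod_cast hl i j hij
  · intro z
    obtain ⟨k, hk⟩ := hcov z
    refine ⟨k, ?_⟩
    rw [M3_abs hc _ _ (hT k), one_le_div (hT' k)]
    exact_mod_cast hk

theorem M3_notMem {P : Set (Fin 3 → ℝ)} (D : SmoothData P) (p : Fin 3 → ℤ) (h : toR p ∉ P) :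
    ∃ v ∈ D.Vt, ∃ i, D.u v i ⬝ᵥ (p - v) < 0 := by
  by_contra hn
  push Not at hn
  apply h
  apply hrp D
  intro v hv i
  rw [← toR_sub, toR_dot]
  exact_mod_cast hn v hv i

theorem m3 {P : Set (Fin 3 → ℝ)} (D : SmoothData P) (x : Fin 3 → ℤ)
    (hx : ∀ v ∈ D.Vt, ∀ i, 3 ≤ D.u v i ⬝ᵥ (x - (2 : ℤ) • v)) :
    ∃ p : Fin 3 → ℤ, toR p ∈ P ∧ toR (x - p) ∈ P := by
  by_cases hx2 : ∃ g : Fin 3 → ℤ, x = (2 : ℤ) • g
  · obtain ⟨g, rfl⟩ := hx2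
    have hg : toR g ∈ P := by
      by_contra hn
      obtain ⟨v, hv, i, hi⟩ := M3_notMem D g hn
      have h := hx v hv i
      rw [← smul_sub, dotProduct_smul, smul_eq_mul] at h
      omega
    refine ⟨g, hg, ?_⟩
    have : (2 : ℤ) • g - g = g := by rw [two_smul]; abel
    rw [this]
    exact hg
  by_contra hno
  push Not at hno
  obtain ⟨c, hcd⟩ : ∃ c : Fin 3 → ℝ, c = (1 / 2 : ℝ) • toR x := ⟨_, rfl⟩
  have hc : toR x = (2 : ℝ) • c := by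
    rw [hcd, smul_smul]
    norm_num
  have hc' : ∀ z : Fin 3 → ℤ, toR z ≠ c := by
    intro z hz
    apply hx2
    refine ⟨z, toR_injective ?_⟩
    rw [toR_zsmul, hz, hc]
    norm_num
  -- covering
  have hcov : ∀ z : Fin 3 → ℤ, ∃ φ ∈ D.Vt ×ˢ (Finset.univ : Finset (Fin 3)),
      D.u φ.1 φ.2 ⬝ᵥ (x - (2 : ℤ) • φ.1) + 2 ≤ |D.u φ.1 φ.2 ⬝ᵥ (x + (2 : ℤ) • z)| := by
    intro z
    by_cases h1 : toR (x + z) ∈ P
    · obtain ⟨v, hv, i, hi⟩ := M3_notMem D _ (hno (x + z) h1)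
      refine ⟨(v, i), Finset.mem_product.2 ⟨hv, Finset.mem_univ _⟩, ?_⟩
      have e : x - (x + z) - v = -z - v := by abel
      rw [e, dotProduct_sub, dotProduct_neg] at hi
      show D.u v i ⬝ᵥ (x - (2 : ℤ) • v) + 2 ≤ |D.u v i ⬝ᵥ (x + (2 : ℤ) • z)|
      rw [dotProduct_sub, dotProduct_add, dotProduct_smul, dotProduct_smul, smul_eq_mul,
        smul_eq_mul]
      exact le_trans (by omega) (le_abs_self _)
    · obtain ⟨v, hv, i, hi⟩ := M3_notMem D _ h1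
      refine ⟨(v, i), Finset.mem_product.2 ⟨hv, Finset.mem_univ _⟩, ?_⟩
      rw [dotProduct_sub, dotProduct_add] at hi
      show D.u v i ⬝ᵥ (x - (2 : ℤ) • v) + 2 ≤ |D.u v i ⬝ᵥ (x + (2 : ℤ) • z)|
      rw [dotProduct_sub, dotProduct_add, dotProduct_smul, dotProduct_smul, smul_eq_mul,
        smul_eq_mul]
      exact le_trans (by omega) (neg_le_abs _)
  obtain ⟨I, T, ζ, hIS, hIne, hT0, hTe, hTl, hIcov⟩ :=
    acl (X := Fin 3 → ℤ) (D.Vt ×ˢ (Finset.univ : Finset (Fin 3)))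
      (fun φ z => |D.u φ.1 φ.2 ⬝ᵥ (x + (2 : ℤ) • z)|)
      (fun φ => D.u φ.1 φ.2 ⬝ᵥ (x - (2 : ℤ) • φ.1) + 2) hcov
  have hmem : ∀ φ ∈ I, φ.1 ∈ D.Vt := fun φ hφ => (Finset.mem_product.1 (hIS hφ)).1
  have hT5 : ∀ φ ∈ I, 5 ≤ T φ := by
    intro φ hφ
    have h1 := hT0 φ hφ
    have h2 := hx φ.1 (hmem φ hφ) φ.2
    omega
  obtain ⟨n, hn⟩ : ∃ n, n = I.card := ⟨_, rfl⟩
  have e : I ≃ Fin n := hn ▸ I.equivFin
  obtain ⟨φ, hφI, hφinj, hφsurj⟩ : ∃ φ : Fin n → (Fin 3 → ℤ) × Fin 3, (∀ k, φ k ∈ I) ∧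
      Function.Injective φ ∧ ∀ ψ ∈ I, ∃ k, φ k = ψ :=
    ⟨fun k => (e.symm k).1, fun k => (e.symm k).2,
      fun i j h => e.symm.injective (Subtype.ext h),
      fun ψ hψ => ⟨e ⟨ψ, hψ⟩, congrArg Subtype.val (e.symm_apply_apply ⟨ψ, hψ⟩)⟩⟩
  have hpos : ∀ k, 0 < T (φ k) := fun k => by
    have := hT5 _ (hφI k)
    omega
  obtain ⟨u, hu, t, hut, ht⟩ := M3_short hc hc' (fun k => D.u (φ k).1 (φ k).2)
    (fun k => T (φ k)) hpos (fun k => ζ (φ k)) (fun k => hTe _ (hφI k))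
    (fun i j hij => hTl _ (hφI i) _ (hφI j) fun h => hij (hφinj h.symm))
    (fun z => by
      obtain ⟨ψ, hψ, h⟩ := hIcov z
      obtain ⟨k, rfl⟩ := hφsurj ψ hψ
      exact ⟨k, h⟩)
  have hval : ∀ v i, toR (D.u v i) ⬝ᵥ (c - toR v) =
      ((D.u v i ⬝ᵥ (x - (2 : ℤ) • v) : ℤ) : ℝ) / 2 := by
    intro v i
    have h := M3_val hc (D.u v i) (-v)
    rw [toR_neg, ← sub_eq_add_neg] at h
    rw [h]
    have e : x + (2 : ℤ) • -v = x - (2 : ℤ) • v := by rw [smul_neg, sub_eq_add_neg]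
    rw [e]
  have hH : ∀ v ∈ D.Vt, ∀ i, 3 / 2 ≤ toR (D.u v i) ⬝ᵥ (c - toR v) := by
    intro v hv i
    rw [hval]
    have h1 : (3 : ℝ) ≤ ((D.u v i ⬝ᵥ (x - (2 : ℤ) • v) : ℤ) : ℝ) := by
      exact_mod_cast hx v hv i
    linarith
  have hs := s1 D x c hc hH n (fun k => (φ k).1) (fun k => hmem _ (hφI k)) (fun k => (φ k).2)
    (fun k => t k * (2 / (T (φ k) : ℝ))) u hu (by
      rw [hut]
      refine Finset.sum_congr rfl fun k _ => ?_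
      rw [smul_smul])
  have hfac : ∀ k, 0 < (T (φ k) : ℝ) ∧
      0 ≤ (2 / (T (φ k) : ℝ)) * (toR (D.u (φ k).1 (φ k).2) ⬝ᵥ (c - toR (φ k).1)) ∧
      (2 / (T (φ k) : ℝ)) * (toR (D.u (φ k).1 (φ k).2) ⬝ᵥ (c - toR (φ k).1)) < 1 := by
    intro k
    have h0 : (0 : ℝ) < T (φ k) := by exact_mod_cast hpos k
    have h1 : (3 : ℝ) ≤ ((D.u (φ k).1 (φ k).2 ⬝ᵥ (x - (2 : ℤ) • (φ k).1) : ℤ) : ℝ) := by
      exact_mod_cast hx _ (hmem _ (hφI k)) (φ k).2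
    have h2 : ((D.u (φ k).1 (φ k).2 ⬝ᵥ (x - (2 : ℤ) • (φ k).1) : ℤ) : ℝ) + 2 ≤ T (φ k) := by
      exact_mod_cast hT0 _ (hφI k)
    rw [hval]
    refine ⟨h0, by positivity, ?_⟩
    have e1 : (2 / (T (φ k) : ℝ)) *
        (((D.u (φ k).1 (φ k).2 ⬝ᵥ (x - (2 : ℤ) • (φ k).1) : ℤ) : ℝ) / 2) =
        ((D.u (φ k).1 (φ k).2 ⬝ᵥ (x - (2 : ℤ) • (φ k).1) : ℤ) : ℝ) / T (φ k) := by ring
    rw [e1, div_lt_one h0]
    linarith
  have hsum : ∑ k, |t k * (2 / (T (φ k) : ℝ))| *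
      (toR (D.u (φ k).1 (φ k).2) ⬝ᵥ (c - toR (φ k).1)) < ∑ k, |t k| := by
    apply Finset.sum_lt_sum
    · intro k _
      obtain ⟨h0, h1, h2⟩ := hfac k
      rw [abs_mul, abs_of_pos (div_pos two_pos h0), mul_assoc]
      exact mul_le_of_le_one_right (abs_nonneg _) h2.le
    · by_contra hall
      push Not at hall
      have ht0 : ∀ k, t k = 0 := by
        intro k
        by_contra hk
        have h3 := hall k (Finset.mem_univ k)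
        obtain ⟨h0, h1, h2⟩ := hfac k
        rw [abs_mul, abs_of_pos (div_pos two_pos h0), mul_assoc] at h3
        have h4 : 0 < |t k| := abs_pos.2 hk
        nlinarith
      apply hu
      apply toR_injective
      rw [hut, toR_zero]
      exact Finset.sum_eq_zero fun k _ => by rw [ht0 k, zero_smul]
  linarith

end H66OD

end S_M3

section S_FIN

/-!
# FIN: assembly (helper66)
-/

open Matrix

namespace H66OD

/-- `k = 2`. -/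
theorem fin2 {P : Set (Fin 3 → ℝ)} (D : SmoothData P) (x : Fin 3 → ℤ)
    (hx : ∀ v ∈ D.Vt, ∀ i, 0 ≤ D.u v i ⬝ᵥ (x - (2 : ℤ) • v)) :
    ∃ p : Fin 3 → ℤ, toR p ∈ P ∧ toR (x - p) ∈ P := by
  by_cases h3 : ∀ v ∈ D.Vt, ∀ i, 3 ≤ D.u v i ⬝ᵥ (x - (2 : ℤ) • v)
  · exact m3 D x h3
  · push Not at h3
    obtain ⟨v, hv, i, hi⟩ := h3
    have h0 := hx v hv i
    by_cases h1 : D.u v i ⬝ᵥ (x - (2 : ℤ) • v) = 1
    · exact m1 D x hx v hv i h1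
    · exact m02 D x hx v hv i (by omega)

theorem fin {P : Set (Fin 3 → ℝ)} (hP : IsSmooth P) : HasIDP P := by
  obtain ⟨D⟩ := edg3 P hP
  obtain ⟨L, hL⟩ := flp D
  have hconv : Convex ℝ P := by
    have := convex_convexHull ℝ (toR '' (D.Vt : Set (Fin 3 → ℤ)))
    rw [← D.hull] at this
    exact this
  have hVP : ∀ v ∈ D.Vt, toR v ∈ P := by
    intro v hv
    rw [D.hull]
    exact subset_convexHull ℝ _ ⟨v, hv, rfl⟩
  have hLP : convexHull ℝ (toR '' (L : Set (Fin 3 → ℤ))) = P := by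
    apply Set.Subset.antisymm
    · apply convexHull_min _ hconv
      rintro _ ⟨z, hz, rfl⟩
      exact (hL z).1 hz
    · conv_lhs => rw [D.hull]
      apply convexHull_mono
      apply Set.image_mono
      intro v hv
      exact (hL v).2 (hVP v hv)
  intro k hk
  induction k, hk using Nat.le_induction with
  | base =>
    rintro x ⟨y, hy, hxy⟩
    refine ⟨fun _ => x, fun _ => ?_, by simp⟩
    rw [hxy]
    simpa using hy
  | succ k hk ih =>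
    rintro x ⟨y, hy, hxy⟩
    rcases Nat.lt_or_ge k 2 with hk2 | hk2
    · obtain rfl : k = 1 := by omega
      have hx : ∀ v ∈ D.Vt, ∀ i, 0 ≤ D.u v i ⬝ᵥ (x - (2 : ℤ) • v) := by
        intro v hv i
        have h1 := D.cone v hv i y hy
        have h2 : toR (x - (2 : ℤ) • v) = (2 : ℝ) • (y - toR v) := by
          rw [toR_sub, toR_zsmul, hxy, smul_sub]
          norm_num
        have h3 : ((D.u v i ⬝ᵥ (x - (2 : ℤ) • v) : ℤ) : ℝ) =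
            2 * (toR (D.u v i) ⬝ᵥ (y - toR v)) := by
          rw [← toR_dot, h2, dotProduct_smul, smul_eq_mul]
        have h4 : (0 : ℝ) ≤ ((D.u v i ⬝ᵥ (x - (2 : ℤ) • v) : ℤ) : ℝ) := by
          rw [h3]
          positivity
        exact_mod_cast h4
      obtain ⟨p, hp, hxp⟩ := fin2 D x hx
      refine ⟨![p, x - p], ?_, ?_⟩
      · intro i
        fin_cases i
        · simpa using hp
        · simpa using hxp
      · simp [Fin.sum_univ_two]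
    · have hX : ∀ z : Fin 3 → ℤ, toR z ∈ convexHull ℝ (toR '' (L : Set (Fin 3 → ℤ))) → z ∈ L := by
        intro z hz
        rw [hLP] at hz
        exact (hL z).2 hz
      obtain ⟨p, hp, y', hy', hpy⟩ := bgt L hX (k + 1) (by omega)
        (fun t _ ht => (afi4 t ht).trans (by omega)) x y (by rw [hLP]; exact hy) hxy
      rw [hLP] at hy'
      have h1 : toR (x - p) = (k : ℝ) • y' := by
        rw [toR_sub, hpy]
        congr 1
        push_cast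
        ring
      obtain ⟨f, hf, hsum⟩ := ih (x - p) ⟨y', hy', h1⟩
      refine ⟨Fin.cons p f, ?_, ?_⟩
      · intro i
        refine Fin.cases ?_ ?_ i
        · simpa using (hL p).1 hp
        · intro j
          simpa using hf j
      · rw [Fin.sum_univ_succ]
        simp only [Fin.cons_zero, Fin.cons_succ]
        rw [← hsum]
        abel

end H66OD

end S_FIN
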